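import Mathlib
import Pool.Agent.Y109.PI.Ord
import Pool.Agent.Y109.PI.Fix

/-! Counting alternating matrices over a prime field with a degenerate translate. -/

set_option autoImplicit false
set_option linter.all false

open Matrix Polynomial

namespace Run7.h438.PC

open Pool.Agent.Helper929 Pool.Agent.Y109.PI

/-- the alternating matrix with a given first row and zeros elsewhere -/
def rowM {F : Type} [Ring F] {m : ℕ} (ρ : Fin m → F) : Matrix (Fin (m + 1)) (Fin (m + 1)) F :=
  Matrix.of (Fin.cons (α := fun _ => Fin (m + 1) → F) (Fin.cons (α := fun _ => F) 0 ρ)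
    fun i => Fin.cons (α := fun _ => F) (- ρ i) fun _ => 0)

theorem rowM_00 {F : Type} [Ring F] {m : ℕ} (ρ : Fin m → F) : rowM ρ 0 0 = 0 := rfl
theorem rowM_0s {F : Type} [Ring F] {m : ℕ} (ρ : Fin m → F) (j : Fin m) : rowM ρ 0 j.succ = ρ j := rfl
theorem rowM_s0 {F : Type} [Ring F] {m : ℕ} (ρ : Fin m → F) (i : Fin m) : rowM ρ i.succ 0 = - ρ i := rfl
theorem rowM_ss {F : Type} [Ring F] {m : ℕ} (ρ : Fin m → F) (i j : Fin m) : rowM ρ i.succ j.succ = 0 := rfl

theorem alt_rowM {F : Type} [Ring F] {m : ℕ} (ρ : Fin m → F) : Alt (rowM ρ) := by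
  constructor
  · intro u
    refine Fin.cases ?_ (fun i => ?_) u
    · exact rowM_00 ρ
    · exact rowM_ss ρ i i
  · intro u v
    refine Fin.cases ?_ (fun i => ?_) u
    · refine Fin.cases ?_ (fun j => ?_) v
      · rw [rowM_00, neg_zero]
      · rw [rowM_0s, rowM_s0, neg_neg]
    · refine Fin.cases ?_ (fun j => ?_) v
      · rw [rowM_0s, rowM_s0]
      · rw [rowM_ss, rowM_ss, neg_zero]

/-- the Pfaffian is linear in the first row -/
theorem pf_row {F : Type} [CommRing F] (n : ℕ) (b : Matrix (Fin (n + 2)) (Fin (n + 2)) F) (ρ : Fin (n + 1) → F) :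
    pf (n + 2) (b + rowM ρ) = ∑ j : Fin (n + 1), ((-1) ^ (j : ℕ) *
      pf n (b.submatrix (fun k => (j.succAbove k).succ) (fun k => (j.succAbove k).succ))) * (b 0 j.succ + ρ j) := by
  rw [pf]
  refine Finset.sum_congr rfl fun j _ => ?_
  have h1 : (b + rowM ρ).submatrix (fun k => (j.succAbove k).succ) (fun k => (j.succAbove k).succ) =
      b.submatrix (fun k => (j.succAbove k).succ) (fun k => (j.succAbove k).succ) := by
    ext u v
    rw [Matrix.submatrix_apply, Matrix.submatrix_apply, Matrix.add_apply, rowM_ss, add_zero]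
  rw [h1, Matrix.add_apply, rowM_0s]
  ring

variable {p : ℕ} [hp : Fact p.Prime]

open Classical in
/-- zeros of an affine functional -/
theorem card_lin (m : ℕ) (a t : Fin m → ZMod p) :
    p ^ m ≤ p * (Finset.univ.filter fun ρ : Fin m → ZMod p => ∑ j, a j * (t j + ρ j) = 0).card := by
  let φ : (Fin m → ZMod p) →+ ZMod p :=
    { toFun := fun ρ => ∑ j, a j * ρ j
      map_zero' := by simp
      map_add' := fun x y => by
        rw [← Finset.sum_add_distrib]
        exact Finset.sum_congr rfl fun j _ => by rw [Pi.add_apply, mul_add] }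
  have h1 : (Finset.univ.filter fun ρ : Fin m → ZMod p => ∑ j, a j * (t j + ρ j) = 0).card =
      (Finset.univ.filter fun ρ : Fin m → ZMod p => φ ρ = 0).card := by
    refine Finset.card_nbij' (fun ρ => t + ρ) (fun ρ => -t + ρ) ?_ ?_ ?_ ?_
    · intro ρ hρ
      simp only [Finset.coe_filter, Finset.mem_univ, true_and, Set.mem_setOf_eq] at hρ ⊢
      exact hρ
    · intro ρ hρ
      simp only [Finset.coe_filter, Finset.mem_univ, true_and, Set.mem_setOf_eq] at hρ ⊢
      have e1 : ∑ j, a j * (t j + (-t + ρ) j) = φ ρ := by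
        change _ = ∑ j, a j * ρ j
        refine Finset.sum_congr rfl fun j _ => ?_
        rw [Pi.add_apply, Pi.neg_apply]
        ring
      rw [e1]
      exact hρ
    · intro ρ _
      simp
    · intro ρ _
      simp
  rw [h1]
  have h2 : Fintype.card (Fin m → ZMod p) = p ^ m := by
    rw [Fintype.card_fun, ZMod.card, Fintype.card_fin]
  rw [← h2, ← Finset.card_univ, Finset.card_eq_sum_card_fiberwise (f := fun x => φ x) (t := Finset.univ)
    (fun _ _ => Finset.mem_coe.2 (Finset.mem_univ _))]
  have h3 : ∀ y ∈ (Finset.univ : Finset (ZMod p)), (Finset.univ.filter fun x => φ x = y).card ≤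
      (Finset.univ.filter fun ρ : Fin m → ZMod p => φ ρ = 0).card := by
    intro y _
    by_cases hy : y ∈ Set.range φ
    · exact (AddMonoidHom.card_fiber_eq_of_mem_range φ hy ⟨0, map_zero φ⟩).le
    · rw [Finset.filter_eq_empty_iff.2 (fun x _ hx => hy ⟨x, hx⟩), Finset.card_empty]
      exact Nat.zero_le _
  refine (Finset.sum_le_sum h3).trans ?_
  rw [Finset.sum_const, Finset.card_univ, ZMod.card, smul_eq_mul]

/-- the group of the alternating matrices -/
def AltS (p n : ℕ) [Fact p.Prime] : AddSubgroup (Matrix (Fin n) (Fin n) (ZMod p)) where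
  carrier := {b | Alt b}
  add_mem' := fun ha hb => Alt.add ha hb
  zero_mem' := ⟨fun _ => rfl, fun _ _ => by simp⟩
  neg_mem' := fun {a} ha => ⟨fun u => by rw [Matrix.neg_apply, ha.1, neg_zero], fun u v => by
    rw [Matrix.neg_apply, Matrix.neg_apply, ha.2 u v]⟩

noncomputable instance (n : ℕ) : Fintype (AltS p n) := Fintype.ofFinite _

open Classical in
/-- at least a `p`-th part of the alternating matrices is degenerate -/
theorem card_deg (k : ℕ) : Fintype.card (AltS p (2 * (k + 1))) ≤
    p * (Finset.univ.filter fun b : AltS p (2 * (k + 1)) => pf (2 * (k + 1)) (b : Matrix _ _ (ZMod p)) = 0).card := by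
  set D := (Finset.univ.filter fun b : AltS p (2 * (k + 1)) => pf (2 * (k + 1)) (b : Matrix _ _ (ZMod p)) = 0).card
    with hD
  let R : (Fin (2 * k + 1) → ZMod p) → AltS p (2 * (k + 1)) := fun ρ => ⟨rowM ρ, alt_rowM ρ⟩
  have h1 : ∀ b : AltS p (2 * (k + 1)), p ^ (2 * k + 1) ≤
      p * (Finset.univ.filter fun ρ : Fin (2 * k + 1) → ZMod p =>
        pf (2 * (k + 1)) ((b + R ρ : AltS p (2 * (k + 1))) : Matrix _ _ (ZMod p)) = 0).card := by
    intro b
    have h2 := card_lin (2 * k + 1) (fun j => (-1) ^ (j : ℕ) *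
      pf (2 * k) ((b : Matrix (Fin (2 * k + 2)) (Fin (2 * k + 2)) (ZMod p)).submatrix
        (fun k => (j.succAbove k).succ) (fun k => (j.succAbove k).succ)))
      (fun j => (b : Matrix (Fin (2 * k + 2)) (Fin (2 * k + 2)) (ZMod p)) 0 j.succ)
    refine h2.trans (le_of_eq ?_)
    congr 2
    refine Finset.filter_congr fun ρ _ => ?_
    rw [← pf_row]
    rfl
  have h3 : Fintype.card (AltS p (2 * (k + 1))) * p ^ (2 * k + 1) ≤ p * (p ^ (2 * k + 1) * D) := by
    calc Fintype.card (AltS p (2 * (k + 1))) * p ^ (2 * k + 1) = ∑ _b : AltS p (2 * (k + 1)), p ^ (2 * k + 1) := by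
          rw [Finset.sum_const, Finset.card_univ, smul_eq_mul]
      _ ≤ ∑ b : AltS p (2 * (k + 1)), p * (Finset.univ.filter fun ρ : Fin (2 * k + 1) → ZMod p =>
          pf (2 * (k + 1)) ((b + R ρ : AltS p (2 * (k + 1))) : Matrix _ _ (ZMod p)) = 0).card :=
        Finset.sum_le_sum fun b _ => h1 b
      _ = p * ∑ ρ : Fin (2 * k + 1) → ZMod p, (Finset.univ.filter fun b : AltS p (2 * (k + 1)) =>
          pf (2 * (k + 1)) ((b + R ρ : AltS p (2 * (k + 1))) : Matrix _ _ (ZMod p)) = 0).card := by
        rw [← Finset.mul_sum]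
        congr 1
        simp only [Finset.card_filter]
        exact Finset.sum_comm
      _ = p * ∑ _ρ : Fin (2 * k + 1) → ZMod p, D := by
        congr 1
        refine Finset.sum_congr rfl fun ρ _ => ?_
        rw [hD]
        refine Finset.card_nbij' (fun b => b + R ρ) (fun b => b - R ρ) ?_ ?_ ?_ ?_
        · intro b hb
          simp only [Finset.coe_filter, Finset.mem_univ, true_and, Set.mem_setOf_eq] at hb ⊢
          exact hb
        · intro b hb
          simp only [Finset.coe_filter, Finset.mem_univ, true_and, Set.mem_setOf_eq] at hb ⊢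
          rw [sub_add_cancel]
          exact hb
        · intro b _; exact add_sub_cancel_right _ _
        · intro b _; exact sub_add_cancel _ _
      _ = p * (p ^ (2 * k + 1) * D) := by
        rw [Finset.sum_const, Finset.card_univ, Fintype.card_fun, ZMod.card, Fintype.card_fin, smul_eq_mul]
  have hpos : 0 < p ^ (2 * k + 1) := pow_pos hp.out.pos _
  have h4 : p ^ (2 * k + 1) * Fintype.card (AltS p (2 * (k + 1))) ≤ p ^ (2 * k + 1) * (p * D) := by
    calc _ = Fintype.card (AltS p (2 * (k + 1))) * p ^ (2 * k + 1) := mul_comm _ _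
      _ ≤ _ := h3
      _ = _ := by ring
  exact Nat.le_of_mul_le_mul_left h4 hpos

open Classical in
/-- the number of degenerate members of a line -/
theorem card_line (g : ℕ) (b ω : Matrix (Fin (2 * g)) (Fin (2 * g)) (ZMod p)) (hω : pf (2 * g) ω ≠ 0) :
    (Finset.univ.filter fun c : ZMod p => pf (2 * g) (b + c • ω) = 0).card ≤ g := by
  obtain ⟨h1, h2⟩ := pf_pencil g b ω
  set P := pf (2 * g) (b.map C + (X : (ZMod p)[X]) • ω.map C) with hP
  have hP0 : P ≠ 0 := by
    intro h
    rw [h, coeff_zero] at h2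
    exact hω h2.symm
  have heval : ∀ c, P.eval c = pf (2 * g) (b + c • ω) := by
    intro c
    have h := pf_map (evalRingHom c) (2 * g) (b.map C + (X : (ZMod p)[X]) • ω.map C)
    rw [coe_evalRingHom] at h
    rw [hP, h]
    congr 1
    ext u v
    simp only [Matrix.map_apply, Matrix.add_apply, Matrix.smul_apply, smul_eq_mul, coe_evalRingHom, eval_add,
      eval_mul, eval_C, eval_X]
  have hsub : (Finset.univ.filter fun c : ZMod p => pf (2 * g) (b + c • ω) = 0) ⊆ P.roots.toFinset := by
    intro c hc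
    rw [Finset.mem_filter] at hc
    rw [Multiset.mem_toFinset, mem_roots hP0, IsRoot.def, heval]
    exact hc.2
  calc _ ≤ P.roots.toFinset.card := Finset.card_le_card hsub
    _ ≤ Multiset.card P.roots := Multiset.toFinset_card_le _
    _ ≤ P.natDegree := card_roots' P
    _ ≤ g := h1

open Classical in
/-- **At least a `g`-th part of the lines contains a degenerate matrix.** -/
theorem main_count (g : ℕ) (hg : 0 < g) (ω : AltS p (2 * g)) (hω : ω.1.det ≠ 0) :
    Fintype.card (AltS p (2 * g)) ≤ g * (Finset.univ.filter fun b : AltS p (2 * g) =>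
      ∃ c : ZMod p, (b.1 + c • ω.1).det = 0).card := by
  obtain ⟨k, rfl⟩ : ∃ k, g = k + 1 := ⟨g - 1, by omega⟩
  have hω' : pf (2 * (k + 1)) ω.1 ≠ 0 := fun h => hω ((det_zero_iff _ ω.2).2 h)
  let T : ZMod p → AltS p (2 * (k + 1)) := fun c => ⟨c • ω.1, Alt.smul ω.2 c⟩
  have h1 := card_deg (p := p) k
  set D := (Finset.univ.filter fun b : AltS p (2 * (k + 1)) => pf (2 * (k + 1)) b.1 = 0).card
    with hD
  calc Fintype.card (AltS p (2 * (k + 1))) ≤ p * D := h1
    _ = ∑ _c : ZMod p, D := by rw [Finset.sum_const, Finset.card_univ, ZMod.card, smul_eq_mul]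
    _ = ∑ c : ZMod p, (Finset.univ.filter fun b : AltS p (2 * (k + 1)) =>
        pf (2 * (k + 1)) ((b + T c : AltS p (2 * (k + 1))) : Matrix _ _ (ZMod p)) = 0).card := by
      refine Finset.sum_congr rfl fun c _ => ?_
      rw [hD]
      symm
      refine Finset.card_nbij' (fun b => b + T c) (fun b => b - T c) ?_ ?_ ?_ ?_
      · intro b hb
        simp only [Finset.coe_filter, Finset.mem_univ, true_and, Set.mem_setOf_eq] at hb ⊢
        exact hb
      · intro b hb
        simp only [Finset.coe_filter, Finset.mem_univ, true_and, Set.mem_setOf_eq] at hb ⊢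
        rw [sub_add_cancel]
        exact hb
      · intro b _; exact add_sub_cancel_right _ _
      · intro b _; exact sub_add_cancel _ _
    _ = ∑ b : AltS p (2 * (k + 1)), (Finset.univ.filter fun c : ZMod p =>
        pf (2 * (k + 1)) ((b + T c : AltS p (2 * (k + 1))) : Matrix _ _ (ZMod p)) = 0).card := by
      simp only [Finset.card_filter]
      exact Finset.sum_comm
    _ ≤ ∑ b : AltS p (2 * (k + 1)), if (∃ c : ZMod p, (b.1 + c • ω.1).det = 0) then (k + 1) else 0 := by
      refine Finset.sum_le_sum fun b _ => ?_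
      split_ifs with h
      · exact card_line (k + 1) b.1 ω.1 hω'
      · rw [Finset.filter_eq_empty_iff.2, Finset.card_empty]
        intro c _ hc
        apply h
        refine ⟨c, (det_zero_iff _ (b + T c).2).2 hc⟩
    _ = (k + 1) * (Finset.univ.filter fun b : AltS p (2 * (k + 1)) =>
      ∃ c : ZMod p, (b.1 + c • ω.1).det = 0).card := by
      rw [← Finset.sum_filter, Finset.sum_const, smul_eq_mul, mul_comm]

end Run7.h438.PC
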