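import Mathlib
import Pool.Agent.Run7.h438.PC1
import Pool.Agent.Y109.PI.Res

/-! Counting classes which are sums of `g - 1` symbols. -/

set_option autoImplicit false
set_option linter.all false

open scoped TensorProduct
open Matrix

namespace Run7.h438.PC

open Pool.Agent.Helper346.Bra Pool.Agent.Helper18.Br Pool.Agent.H552R3.SymBr Pool.Agent.H552R3.SymPred
  Pool.Agent.H552R3.Tsen Pool.Agent.Helper929 Pool.Agent.Y109.PI

universe u

section

variable {p : ℕ} [hp : Fact p.Prime] {n : ℕ}

/-- an integral lift of the exponents -/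
def lft (b : Matrix (Fin n) (Fin n) (ZMod p)) : Fin n → Fin n → ℤ := fun u v => if u < v then ((b u v).val : ℤ) else 0

theorem dif_lft (b : Matrix (Fin n) (Fin n) (ZMod p)) (hb : Alt b) (u v : Fin n) :
    ((dif (lft b) u v : ℤ) : ZMod p) = b u v := by
  haveI : NeZero p := ⟨hp.out.ne_zero⟩
  simp only [dif, lft, Matrix.of_apply]
  rcases lt_trichotomy u v with h | h | h
  · rw [if_pos h, if_neg h.not_gt, sub_zero, vcast]
  · subst h
    rw [if_neg (lt_irrefl _), sub_zero, Int.cast_zero, hb.1]
  · rw [if_neg h.not_gt, if_pos h, zero_sub, Int.cast_neg, vcast, hb.2 u v]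

end

open Classical in
/-- counting along a homomorphism -/
theorem count_hom {V B : Type*} [AddCommGroup V] [Fintype V] [CommGroup B] (Φ : Multiplicative V →* B) (S : Set B)
    (hS : S = Set.range Φ) (g : ℕ) (good : V → Prop) (prop : B → Prop)
    (hgood : Fintype.card V ≤ g * (Finset.univ.filter good).card)
    (h : ∀ b, good b → prop (Φ (Multiplicative.ofAdd b))) :
    S.Finite ∧ S.ncard ≤ g * {α | α ∈ S ∧ prop α}.ncard := by
  subst hS
  refine ⟨Set.finite_range Φ, ?_⟩
  set im : Finset B := Finset.univ.image (fun b : V => Φ (Multiplicative.ofAdd b)) with him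
  have h1 : Set.range Φ = (im : Set B) := by
    ext y
    rw [him, Finset.coe_image, Finset.coe_univ, Set.image_univ]
    rfl
  have h2 : {α | α ∈ Set.range Φ ∧ prop α} = ((im.filter prop : Finset B) : Set B) := by
    ext y
    rw [Finset.coe_filter, h1]
    rfl
  rw [h2, h1, Set.ncard_coe_finset, Set.ncard_coe_finset]
  set N := (Finset.univ.filter fun b : V => Φ (Multiplicative.ofAdd b) = 1).card with hN
  have hN0 : 0 < N := by
    rw [hN, Finset.card_pos]
    exact ⟨0, Finset.mem_filter.2 ⟨Finset.mem_univ _, by rw [ofAdd_zero, map_one]⟩⟩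
  have hfib : ∀ y ∈ im, (Finset.univ.filter fun b : V => Φ (Multiplicative.ofAdd b) = y).card = N := by
    intro y hy
    rw [him, Finset.mem_image] at hy
    obtain ⟨b, -, rfl⟩ := hy
    rw [hN]
    refine Finset.card_nbij' (fun x => x - b) (fun x => x + b) ?_ ?_ ?_ ?_
    · intro x hx
      simp only [Finset.coe_filter, Finset.mem_univ, true_and, Set.mem_setOf_eq] at hx ⊢
      rw [ofAdd_sub, map_div, hx, div_self']
    · intro x hx
      simp only [Finset.coe_filter, Finset.mem_univ, true_and, Set.mem_setOf_eq] at hx ⊢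
      rw [ofAdd_add, map_mul, hx, one_mul]
    · intro x _; exact sub_add_cancel _ _
    · intro x _; exact add_sub_cancel_right _ _
  have h3 : Fintype.card V = im.card * N := by
    rw [← Finset.card_univ, Finset.card_eq_sum_card_fiberwise (f := fun b : V => Φ (Multiplicative.ofAdd b)) (t := im)
      (fun b _ => Finset.mem_coe.2 (Finset.mem_image_of_mem _ (Finset.mem_univ _))), Finset.sum_congr rfl hfib,
      Finset.sum_const, smul_eq_mul]
  have h4 : (Finset.univ.filter good).card ≤ (im.filter prop).card * N := by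
    have h5 : (Finset.univ.filter good) ⊆ Finset.univ.filter fun b : V => prop (Φ (Multiplicative.ofAdd b)) := by
      intro b hb
      rw [Finset.mem_filter] at hb ⊢
      exact ⟨Finset.mem_univ _, h b hb.2⟩
    refine (Finset.card_le_card h5).trans (le_of_eq ?_)
    rw [Finset.card_eq_sum_card_fiberwise (f := fun b : V => Φ (Multiplicative.ofAdd b)) (t := im.filter prop)
      (fun b hb => by
        have hb' := (Finset.mem_filter.1 (Finset.mem_coe.1 hb)).2
        exact Finset.mem_coe.2 (Finset.mem_filter.2 ⟨Finset.mem_image_of_mem _ (Finset.mem_univ _), hb'⟩))]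
    have h6 : ∀ y ∈ im.filter prop, ((Finset.univ.filter fun b : V => prop (Φ (Multiplicative.ofAdd b))).filter
        fun b => Φ (Multiplicative.ofAdd b) = y).card = N := by
      intro y hy
      rw [Finset.mem_filter] at hy
      rw [← hfib y hy.1, Finset.filter_filter]
      congr 1
      refine Finset.filter_congr fun b _ => ?_
      constructor
      · rintro ⟨-, h⟩; exact h
      · intro h; exact ⟨by rw [h]; exact hy.2, h⟩
    rw [Finset.sum_congr rfl h6, Finset.sum_const, smul_eq_mul]
  have h7 : N * im.card ≤ N * (g * (im.filter prop).card) := by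
    calc N * im.card = Fintype.card V := by rw [h3, mul_comm]
      _ ≤ g * (Finset.univ.filter good).card := hgood
      _ ≤ g * ((im.filter prop).card * N) := Nat.mul_le_mul_left _ h4
      _ = _ := by ring
  exact Nat.le_of_mul_le_mul_left h7 hN0

/-- **At least a `g`-th part of the classes is a sum of `g - 1` symbols.** -/
theorem main {k K : Type u} [Field k] [IsAlgClosed k] [Field K] [Algebra k K] (p : ℕ) [hp : Fact p.Prime]
    (ζ : K) (hζ : IsPrimitiveRoot ζ p) (g : ℕ) (hg : 0 < g) (z : Fin (2 * g) → Kˣ)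
    (θ : Fin (2 * g) → Fin (2 * g) → BrauerGroup.{u, u} K) (hθ : ∀ u v, IsSym p ζ (z u) (z v) (θ u v))
    (w : Fin (2 * g) → Fin (2 * g) → ℤ)
    (hw : ¬ (p : ℤ) ∣ (Matrix.of fun u v => w u v - w v u : Matrix (Fin (2 * g)) (Fin (2 * g)) ℤ).det)
    (hrel0 : ∏ u, ∏ v, θ u v ^ w u v = 1)
    (G : Subgroup Kˣ) (hG : G = Subgroup.closure (Set.range (Units.map (algebraMap k K).toMonoidHom) ∪ Set.range z))
    (S : Set (BrauerGroup.{u, u} K))
    (hS : S = Subgroup.closure {γ | ∃ a ∈ G, ∃ b ∈ G, IsSym p ζ a b γ}) :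
    S.Finite ∧ S.ncard ≤ g * {α | α ∈ S ∧ ((∃ (s t : Fin (g - 1) → Kˣ) (σ : Fin (g - 1) → BrauerGroup.{u, u} K),
      (∀ i, IsSym p ζ (s i) (t i) (σ i)) ∧ α = ∏ i, σ i) ∧ IndDvd α (p ^ (g - 1)))}.ncard := by
  classical
  haveI : NeZero p := ⟨hp.out.ne_zero⟩
  have hn : 0 < p := hp.out.pos
  have hQ : Q (symHom hn hζ) z w = 1 := by
    rw [← hrel0, Q, Fintype.prod_prod_type]
    refine Finset.prod_congr rfl fun u _ => Finset.prod_congr rfl fun v _ => ?_
    rw [(isSym_iff hn hζ (z u) (z v) (θ u v)).1 (hθ u v), symHom_apply]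
  let H : Subgroup Kˣ := (Units.map (algebraMap k K).toMonoidHom).range
  have hneg : (-1 : Kˣ) ∈ H := by
    refine ⟨-1, ?_⟩
    ext
    simp
  have hconst : ∀ a ∈ H, ∀ b, symHom hn hζ a b = 1 := by
    rintro _ ⟨c, rfl⟩ b
    obtain ⟨d, hd⟩ := IsAlgClosed.exists_pow_nat_eq (c : k) hn
    have hd0 : d ≠ 0 := by
      rintro rfl
      rw [zero_pow hn.ne'] at hd
      exact c.ne_zero hd.symm
    have hc : c = (Units.mk0 d hd0) ^ p := by
      ext
      rw [Units.val_pow_eq_pow_val, Units.val_mk0, hd]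
    rw [hc, map_pow, map_pow, MonoidHom.pow_apply, symHom_apply, symCl_tors]
  have hVH : ∀ a ∈ H, ∀ b ∈ H, symHom hn hζ a b ∈ (⊥ : Subgroup (BrauerGroup.{u, u} K)) := fun a ha b _ => by
    rw [hconst a ha b]; exact Subgroup.one_mem _
  have hlow : low (symHom hn hζ) H ⊥ z ≤ (⊥ : Subgroup (BrauerGroup.{u, u} K)) := by
    refine sup_le le_rfl ?_
    rw [Subgroup.closure_le]
    rintro γ ⟨a, ha, u, rfl⟩
    rw [hconst a ha]
    exact Subgroup.one_mem _
  have hGH : G = H ⊔ Subgroup.closure (Set.range z) := by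
    rw [hG, Subgroup.closure_union]
    congr 1
    exact Subgroup.closure_eq H
  have hset : {γ | ∃ a ∈ G, ∃ b ∈ G, IsSym p ζ a b γ} = {γ | ∃ a ∈ H ⊔ Subgroup.closure (Set.range z),
      ∃ b ∈ H ⊔ Subgroup.closure (Set.range z), γ = symHom hn hζ a b} := by
    ext γ
    simp only [Set.mem_setOf_eq, isSym_iff hn hζ, hGH, symHom_apply]
  -- congruent exponents give the same class
  have hcongr : ∀ w w' : Fin (2 * g) → Fin (2 * g) → ℤ, (∀ u v, ((dif w u v : ℤ) : ZMod p) = (dif w' u v : ℤ)) →
      Q (symHom hn hζ) z w = Q (symHom hn hζ) z w' := by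
    intro w w' h
    have h1 := Q_congr (s := symHom hn hζ) (fun a b => symCl_anti hn hζ a b) p (fun a b => symCl_tors hn hζ a b) (-1)
      H hneg (fun a => symCl_diag hn hζ a) ⊥ z w w' (fun u v => by
        rw [← ZMod.intCast_zmod_eq_zero_iff_dvd, Int.cast_sub, sub_eq_zero]
        exact h u v)
    exact mul_inv_eq_one.1 (Subgroup.mem_bot.1 (hlow h1))
  let Φ : Multiplicative (AltS p (2 * g)) →* BrauerGroup.{u, u} K :=
    { toFun := fun b => Q (symHom hn hζ) z (lft (Multiplicative.toAdd b).1)
      map_one' := by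
        have e1 : lft ((Multiplicative.toAdd (1 : Multiplicative (AltS p (2 * g)))).1) = 0 := by
          funext u v
          change (if u < v then (((0 : ZMod p).val : ℕ) : ℤ) else 0) = 0
          rw [ZMod.val_zero]
          simp
        rw [e1, Q_zero]
      map_mul' := fun b b' => by
        rw [← Q_add]
        refine hcongr _ _ fun u v => ?_
        rw [dif_lft _ (Multiplicative.toAdd (b * b')).2]
        have e1 : dif (lft (Multiplicative.toAdd b).1 + lft (Multiplicative.toAdd b').1) u v =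
            dif (lft (Multiplicative.toAdd b).1) u v + dif (lft (Multiplicative.toAdd b').1) u v := by
          simp only [dif, Matrix.of_apply, Pi.add_apply]
          ring
        rw [e1, Int.cast_add, dif_lft _ (Multiplicative.toAdd b).2, dif_lft _ (Multiplicative.toAdd b').2]
        rfl }
  have hΦ : ∀ b : AltS p (2 * g), Φ (Multiplicative.ofAdd b) = Q (symHom hn hζ) z (lft b.1) := fun b => rfl
  -- the range
  have hrange : S = Set.range Φ := by
    rw [hS, hset]
    apply Set.Subset.antisymm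
    · intro α hα
      obtain ⟨w1, hw1⟩ := exists_Q (s := symHom hn hζ) (fun a b => symCl_anti hn hζ a b) H ⊥ hVH z α hα
      have h1 := mul_inv_eq_one.1 (Subgroup.mem_bot.1 (hlow hw1))
      refine ⟨Multiplicative.ofAdd ⟨red p (dif w1), (alt_dif w1).map' _⟩, ?_⟩
      rw [hΦ, h1]
      refine hcongr _ _ fun u v => ?_
      exact dif_lft (red p (dif w1)) ((alt_dif w1).map' _) u v
    · rintro _ ⟨b, rfl⟩
      change Q (symHom hn hζ) z (lft (Multiplicative.toAdd b).1) ∈ _
      rw [Q]
      refine Subgroup.prod_mem _ fun q _ => Subgroup.zpow_mem _ (Subgroup.subset_closure ?_) _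
      exact ⟨z q.1, Subgroup.mem_sup_right (Subgroup.subset_closure ⟨q.1, rfl⟩), z q.2,
        Subgroup.mem_sup_right (Subgroup.subset_closure ⟨q.2, rfl⟩), rfl⟩
  -- the polarisation
  let ω : AltS p (2 * g) := ⟨red p (dif w), (alt_dif w).map' _⟩
  have hω : ω.1.det ≠ 0 := by
    change (red p (dif w)).det ≠ 0
    rw [← red_det]
    exact fun h => hw ((ZMod.intCast_zmod_eq_zero_iff_dvd _ _).1 h)
  refine count_hom Φ S hrange g (fun b => ∃ c : ZMod p, (b.1 + c • ω.1).det = 0) _ ?_ ?_
  · convert main_count g hg ω hω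
  · rintro b ⟨c, hc⟩
    have hI : Fintype.card (Fin (2 * g)) = 2 * g := Fintype.card_fin _
    let c' : ℤ := c.val
    have hc' : (c' : ZMod p) = c := vcast c
    have hred : red p (dif (lft b.1 + c' • w)) = b.1 + c • ω.1 := by
      ext u v
      have e1 : dif (lft b.1 + c' • w) u v = dif (lft b.1) u v + c' * dif w u v := by
        simp only [dif, Matrix.of_apply, Pi.add_apply, Pi.smul_apply, smul_eq_mul]
        ring
      change ((dif (lft b.1 + c' • w) u v : ℤ) : ZMod p) = b.1 u v + c * ((dif w u v : ℤ) : ZMod p)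
      rw [e1, Int.cast_add, Int.cast_mul, dif_lft _ b.2, hc']
    obtain ⟨e, f, hef⟩ := sing_decomp g hg hI (red p (dif (lft b.1 + c' • w))) ((alt_dif _).map' _) (by
      rw [hred]; exact hc)
    have h1 := mod_low (s := symHom hn hζ) (fun a b => symCl_anti hn hζ a b) p
      (fun a b => symCl_tors hn hζ a b) (-1) H hneg (fun a => symCl_diag hn hζ a) ⊥ z (lft b.1 + c' • w) (g - 1)
      (fun i u => ((e i u).val : ℤ)) (fun i u => ((f i u).val : ℤ)) (by
        intro u v
        rw [← ZMod.intCast_zmod_eq_zero_iff_dvd, Int.cast_sub, sub_eq_zero]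
        have e2 : ((((lft b.1 + c' • w) u v - (lft b.1 + c' • w) v u : ℤ)) : ZMod p) =
            red p (dif (lft b.1 + c' • w)) u v := rfl
        rw [e2, hef, Matrix.sum_apply, Matrix.sum_apply, Int.cast_sum]
        refine Finset.sum_congr rfl fun i _ => ?_
        simp only [wdg, Matrix.of_apply, Int.cast_sub, Int.cast_mul, vcast])
    have h2 := mul_inv_eq_one.1 (Subgroup.mem_bot.1 (hlow h1))
    rw [Q_add, Q_smul, hQ, _root_.one_zpow, mul_one] at h2
    rw [hΦ]
    refine ⟨⟨_, _, fun i => symCl hn hζ _ _, fun i => (isSym_iff hn hζ _ _ _).2 rfl, h2⟩, ?_⟩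
    rw [h2]
    exact (hasRep_prod hn hζ (g - 1) _ _).indDvd

end Run7.h438.PC
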