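import Mathlib
import Pool.Agent.Run7.h438.PC1

/-! Counting alternating matrices over a prime field with two given kernel vectors. -/

set_option autoImplicit false
set_option linter.all false

open Matrix

namespace Run7.h438.PD

open Pool.Agent.Helper929 Pool.Agent.Y109.PI Run7.h438.PC

section gen

variable {F : Type} [CommRing F] {m : ℕ}

/-- the bordered matrix -/
def bord (ρ : Fin m → F) (b : Matrix (Fin m) (Fin m) F) : Matrix (Fin (m + 1)) (Fin (m + 1)) F :=
  Matrix.of (Fin.cons (α := fun _ => Fin (m + 1) → F) (Fin.cons (α := fun _ => F) 0 ρ)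
    fun i => Fin.cons (α := fun _ => F) (- ρ i) (b i))

theorem bord_00 (ρ : Fin m → F) (b : Matrix (Fin m) (Fin m) F) : bord ρ b 0 0 = 0 := rfl
theorem bord_0s (ρ : Fin m → F) (b : Matrix (Fin m) (Fin m) F) (j : Fin m) : bord ρ b 0 j.succ = ρ j := rfl
theorem bord_s0 (ρ : Fin m → F) (b : Matrix (Fin m) (Fin m) F) (i : Fin m) : bord ρ b i.succ 0 = - ρ i := rfl
theorem bord_ss (ρ : Fin m → F) (b : Matrix (Fin m) (Fin m) F) (i j : Fin m) : bord ρ b i.succ j.succ = b i j := rfl

theorem alt_bord (ρ : Fin m → F) (b : Matrix (Fin m) (Fin m) F) (hb : Alt b) : Alt (bord ρ b) := by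
  constructor
  · intro u
    refine Fin.cases ?_ (fun i => ?_) u
    · exact bord_00 ρ b
    · exact hb.1 i
  · intro u v
    refine Fin.cases ?_ (fun i => ?_) u
    · refine Fin.cases ?_ (fun j => ?_) v
      · rw [bord_00, neg_zero]
      · rw [bord_0s, bord_s0, neg_neg]
    · refine Fin.cases ?_ (fun j => ?_) v
      · rw [bord_0s, bord_s0]
      · rw [bord_ss, bord_ss, hb.2 i j]

/-- every alternating matrix is bordered -/
theorem bord_eta (b : Matrix (Fin (m + 1)) (Fin (m + 1)) F) (hb : Alt b) :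
    bord (fun j => b 0 j.succ) (b.submatrix Fin.succ Fin.succ) = b := by
  ext u v
  refine Fin.cases ?_ (fun i => ?_) u
  · refine Fin.cases ?_ (fun j => ?_) v
    · rw [bord_00, hb.1]
    · rw [bord_0s]
  · refine Fin.cases ?_ (fun j => ?_) v
    · rw [bord_s0, hb.2 i.succ 0]
    · rw [bord_ss, Matrix.submatrix_apply]

end gen

/-- alternating matrices are pairs of a row and an alternating matrix -/
def altEquiv (p m : ℕ) [Fact p.Prime] : AltS p (m + 1) ≃ (Fin m → ZMod p) × AltS p m where
  toFun b := (fun j => b.1 0 j.succ, ⟨b.1.submatrix Fin.succ Fin.succ, ⟨fun u => b.2.1 _, fun u v => b.2.2 _ _⟩⟩)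
  invFun q := ⟨bord q.1 q.2.1, alt_bord q.1 q.2.1 q.2.2⟩
  left_inv b := Subtype.ext (bord_eta b.1 b.2)
  right_inv q := rfl

theorem card_alt (p m : ℕ) [Fact p.Prime] : Fintype.card (AltS p (m + 1)) = p ^ m * Fintype.card (AltS p m) := by
  rw [Fintype.card_congr (altEquiv p m), Fintype.card_prod, Fintype.card_fun, ZMod.card, Fintype.card_fin]

variable {p : ℕ} [hp : Fact p.Prime] {m : ℕ}

open Classical in
/-- the kernel of a homomorphism is large -/
theorem card_ker {V W : Type*} [AddCommGroup V] [AddCommGroup W] [Fintype V] [Fintype W] (φ : V →+ W) :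
    Fintype.card V ≤ Fintype.card W * (Finset.univ.filter fun x => φ x = 0).card := by
  have h1 : (Finset.univ : Finset V).card = ∑ y : W, (Finset.univ.filter fun x => φ x = y).card :=
    Finset.card_eq_sum_card_fiberwise (f := fun x => φ x) (t := Finset.univ)
      (fun _ _ => Finset.mem_coe.2 (Finset.mem_univ _))
  have h3 : ∀ y ∈ (Finset.univ : Finset W), (Finset.univ.filter fun x => φ x = y).card ≤
      (Finset.univ.filter fun x => φ x = 0).card := by
    intro y _
    by_cases hy : y ∈ Set.range φ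
    · exact (AddMonoidHom.card_fiber_eq_of_mem_range φ hy ⟨0, map_zero φ⟩).le
    · rw [Finset.filter_eq_empty_iff.2 (fun x _ hx => hy ⟨x, hx⟩), Finset.card_empty]
      exact Nat.zero_le _
  rw [← Finset.card_univ, h1]
  refine (Finset.sum_le_sum h3).trans ?_
  rw [Finset.sum_const, Finset.card_univ, smul_eq_mul]

open Classical in
/-- solutions of one linear equation -/
theorem one_fun (a : Fin m → ZMod p) (ha : a ≠ 0) :
    p * (Finset.univ.filter fun ρ : Fin m → ZMod p => ∑ j, a j * ρ j = 0).card = p ^ m := by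
  obtain ⟨i, hi⟩ := Function.ne_iff.1 ha
  let φ : (Fin m → ZMod p) →+ ZMod p :=
    { toFun := fun ρ => ∑ j, a j * ρ j
      map_zero' := by simp
      map_add' := fun x y => by
        rw [← Finset.sum_add_distrib]
        exact Finset.sum_congr rfl fun j _ => by rw [Pi.add_apply, mul_add] }
  have hsur : ∀ y, y ∈ Set.range φ := by
    intro y
    refine ⟨Pi.single i ((a i)⁻¹ * y), ?_⟩
    change ∑ j, a j * _ = y
    rw [Finset.sum_eq_single i]
    · rw [Pi.single_eq_same, mul_inv_cancel_left₀ hi]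
    · intro j _ hj; rw [Pi.single_eq_of_ne hj, mul_zero]
    · intro h; exact absurd (Finset.mem_univ _) h
  have h2 : (Finset.univ : Finset (Fin m → ZMod p)).card = p ^ m := by
    rw [Finset.card_univ, Fintype.card_fun, ZMod.card, Fintype.card_fin]
  have h1 : (Finset.univ : Finset (Fin m → ZMod p)).card = ∑ y : ZMod p, (Finset.univ.filter fun x => φ x = y).card :=
    Finset.card_eq_sum_card_fiberwise (f := fun x => φ x) (t := Finset.univ)
      (fun _ _ => Finset.mem_coe.2 (Finset.mem_univ _))
  have h3 : ∀ y ∈ (Finset.univ : Finset (ZMod p)), (Finset.univ.filter fun x => φ x = y).card =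
      (Finset.univ.filter fun ρ : Fin m → ZMod p => ∑ j, a j * ρ j = 0).card := fun y _ =>
    AddMonoidHom.card_fiber_eq_of_mem_range φ (hsur y) (hsur 0)
  rw [← h2, h1, Finset.sum_congr rfl h3, Finset.sum_const, Finset.card_univ, ZMod.card, smul_eq_mul]

open Classical in
/-- a degenerate alternating matrix of even size has a kernel of dimension at least two -/
theorem ker_card (g : ℕ) (hg : 0 < g) (B : Matrix (Fin (2 * g)) (Fin (2 * g)) (ZMod p)) (hB : Alt B)
    (hdet : B.det = 0) : p ^ 2 ≤ (Finset.univ.filter fun v : Fin (2 * g) → ZMod p => B.mulVec v = 0).card := by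
  obtain ⟨e, f, hef⟩ := sing_decomp g hg (Fintype.card_fin _) B hB hdet
  let φ : (Fin (2 * g) → ZMod p) →+ (Fin (g - 1) → ZMod p × ZMod p) :=
    { toFun := fun v i => (e i ⬝ᵥ v, f i ⬝ᵥ v)
      map_zero' := by
        funext i
        rw [dotProduct_zero, dotProduct_zero]
        rfl
      map_add' := fun x y => by
        funext i
        rw [dotProduct_add, dotProduct_add]
        rfl }
  have h1 := card_ker φ
  rw [Fintype.card_fun, Fintype.card_fun, Fintype.card_prod, ZMod.card, Fintype.card_fin, Fintype.card_fin] at h1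
  have h2 : (Finset.univ.filter fun x => φ x = 0).card ≤
      (Finset.univ.filter fun v : Fin (2 * g) → ZMod p => B.mulVec v = 0).card := by
    refine Finset.card_le_card fun v hv => ?_
    rw [Finset.mem_filter] at hv ⊢
    refine ⟨Finset.mem_univ _, ?_⟩
    have h3 : ∀ i, e i ⬝ᵥ v = 0 ∧ f i ⬝ᵥ v = 0 := by
      intro i
      have h4 := congrFun hv.2 i
      exact Prod.mk.injEq _ _ _ _ ▸ h4
    rw [hef]
    funext u
    rw [Matrix.mulVec, Pi.zero_apply, dotProduct]
    simp only [Matrix.sum_apply, Finset.sum_mul]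
    rw [Finset.sum_comm]
    refine Finset.sum_eq_zero fun i _ => ?_
    have h5 : ∑ x, wdg (e i) (f i) u x * v x = e i u * (f i ⬝ᵥ v) - f i u * (e i ⬝ᵥ v) := by
      simp only [wdg, Matrix.of_apply, dotProduct, Finset.mul_sum]
      rw [← Finset.sum_sub_distrib]
      refine Finset.sum_congr rfl fun x _ => ?_
      ring
    rw [h5, (h3 i).1, (h3 i).2, mul_zero, mul_zero, sub_zero]
  have h7 : p ^ (2 * g) ≤ (p * p) ^ (g - 1) *
      (Finset.univ.filter fun v : Fin (2 * g) → ZMod p => B.mulVec v = 0).card := by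
    refine h1.trans (Nat.mul_le_mul_left _ ?_)
    convert h2
  have h6 : (p * p) ^ (g - 1) * p ^ 2 ≤ (p * p) ^ (g - 1) *
      (Finset.univ.filter fun v : Fin (2 * g) → ZMod p => B.mulVec v = 0).card := by
    calc (p * p) ^ (g - 1) * p ^ 2 = p ^ (2 * g) := by
          rw [← sq, ← pow_mul, ← pow_add]
          congr 1
          omega
      _ ≤ _ := h7
  exact Nat.le_of_mul_le_mul_left h6 (pow_pos (Nat.mul_pos hp.out.pos hp.out.pos) _)

/-- an alternating matrix with two independent kernel vectors is determined by a minor -/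
theorem alt_zero {n : ℕ} (d : Matrix (Fin (n + 2)) (Fin (n + 2)) (ZMod p)) (hd : Alt d) (v w : Fin (n + 2) → ZMod p)
    (hv : d.mulVec v = 0) (hw : d.mulVec w = 0) (i : Fin (n + 2)) (j : Fin (n + 1))
    (hij : v i * w (i.succAbove j) - v (i.succAbove j) * w i ≠ 0)
    (h0 : ∀ k l : Fin n, d (i.succAbove (j.succAbove k)) (i.succAbove (j.succAbove l)) = 0) : d = 0 := by
  have hne : i ≠ i.succAbove j := (Fin.succAbove_ne i j).symm
  have hother : ∀ r : Fin (n + 2), r ≠ i → r ≠ i.succAbove j → ∃ k : Fin n, i.succAbove (j.succAbove k) = r := by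
    intro r h1 h2
    obtain ⟨s, rfl⟩ := Fin.exists_succAbove_eq h1
    have h3 : s ≠ j := fun h => h2 (by rw [h])
    obtain ⟨k, rfl⟩ := Fin.exists_succAbove_eq h3
    exact ⟨k, rfl⟩
  have hrow : ∀ (x : Fin (n + 2) → ZMod p), d.mulVec x = 0 → ∀ r, r ≠ i → r ≠ i.succAbove j →
      d r i * x i + d r (i.succAbove j) * x (i.succAbove j) = 0 := by
    intro x hx r h1 h2
    obtain ⟨k, rfl⟩ := hother r h1 h2
    have h3 := congrFun hx (i.succAbove (j.succAbove k))
    rw [Matrix.mulVec, Pi.zero_apply, dotProduct, Fintype.sum_eq_add i (i.succAbove j) hne] at h3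
    · exact h3
    · rintro l ⟨hl1, hl2⟩
      obtain ⟨l', rfl⟩ := hother l hl1 hl2
      rw [h0, zero_mul]
  have hri : ∀ r, r ≠ i → r ≠ i.succAbove j → d r i = 0 := by
    intro r h1 h2
    have h3 := hrow v hv r h1 h2
    have h4 := hrow w hw r h1 h2
    have h5 : d r i * (v i * w (i.succAbove j) - v (i.succAbove j) * w i) = 0 := by
      linear_combination w (i.succAbove j) * h3 - v (i.succAbove j) * h4
    exact (mul_eq_zero.1 h5).resolve_right hij
  have hrj : ∀ r, r ≠ i → r ≠ i.succAbove j → d r (i.succAbove j) = 0 := by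
    intro r h1 h2
    have h3 := hrow v hv r h1 h2
    have h4 := hrow w hw r h1 h2
    have h5 : d r (i.succAbove j) * (v i * w (i.succAbove j) - v (i.succAbove j) * w i) = 0 := by
      linear_combination v i * h4 - w i * h3
    exact (mul_eq_zero.1 h5).resolve_right hij
  have hrow2 : ∀ (x : Fin (n + 2) → ZMod p), d.mulVec x = 0 → d i (i.succAbove j) * x (i.succAbove j) = 0 := by
    intro x hx
    have h3 := congrFun hx i
    rw [Matrix.mulVec, Pi.zero_apply, dotProduct, Fintype.sum_eq_single (i.succAbove j)] at h3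
    · exact h3
    · intro l hl
      by_cases hl1 : l = i
      · rw [hl1, hd.1, zero_mul]
      · rw [hd.2 i l, hri l hl1 hl, neg_zero, zero_mul]
  have hdij : d i (i.succAbove j) = 0 := by
    have h3 := hrow2 v hv
    have h4 := hrow2 w hw
    have h5 : d i (i.succAbove j) * (v i * w (i.succAbove j) - v (i.succAbove j) * w i) = 0 := by
      linear_combination v i * h4 - w i * h3
    exact (mul_eq_zero.1 h5).resolve_right hij
  ext r s
  rw [Matrix.zero_apply]
  by_cases h1 : r = i
  · subst h1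
    by_cases h2 : s = r
    · rw [h2, hd.1]
    · by_cases h3 : s = r.succAbove j
      · rw [h3, hdij]
      · rw [hd.2 r s, hri s h2 h3, neg_zero]
  · by_cases h2 : r = i.succAbove j
    · subst h2
      by_cases h3 : s = i
      · rw [h3, hd.2, hdij, neg_zero]
      · by_cases h4 : s = i.succAbove j
        · rw [h4, hd.1]
        · rw [hd.2, hrj s h3 h4, neg_zero]
    · by_cases h3 : s = i
      · rw [h3, hri r h1 h2]
      · by_cases h4 : s = i.succAbove j
        · rw [h4, hrj r h1 h2]
        · obtain ⟨k, rfl⟩ := hother r h1 h2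
          obtain ⟨l, rfl⟩ := hother s h3 h4
          exact h0 k l

open Classical in
/-- the number of alternating matrices with two given kernel vectors up to translation -/
theorem fib_two {n : ℕ} (v w x y : Fin (n + 2) → ZMod p) (i j : Fin (n + 2)) (hij : v i * w j - v j * w i ≠ 0) :
    (Finset.univ.filter fun b : AltS p (n + 2) => b.1.mulVec v = x ∧ b.1.mulVec w = y).card ≤
      Fintype.card (AltS p n) := by
  have hne : j ≠ i := by
    rintro rfl
    exact hij (by ring)
  obtain ⟨j', rfl⟩ := Fin.exists_succAbove_eq hne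
  rw [← Finset.card_univ]
  refine Finset.card_le_card_of_injOn (fun b => (⟨b.1.submatrix (fun k => i.succAbove (j'.succAbove k))
    (fun k => i.succAbove (j'.succAbove k)), ⟨fun u => b.2.1 _, fun u v => b.2.2 _ _⟩⟩ : AltS p n))
    (fun _ _ => Finset.mem_coe.2 (Finset.mem_univ _)) ?_
  intro b hb b' hb' hbb
  simp only [Finset.coe_filter, Finset.mem_univ, true_and, Set.mem_setOf_eq] at hb hb'
  have h1 := congrArg Subtype.val hbb
  have h2 : (b - b').1 = 0 := by
    refine alt_zero (b - b').1 (b - b').2 v w ?_ ?_ i j' hij ?_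
    · change (b.1 - b'.1).mulVec v = 0
      rw [Matrix.sub_mulVec, hb.1, hb'.1, sub_self]
    · change (b.1 - b'.1).mulVec w = 0
      rw [Matrix.sub_mulVec, hb.2, hb'.2, sub_self]
    · intro k l
      have h3 := congrFun (congrFun h1 k) l
      change b.1 _ _ - b'.1 _ _ = 0
      rw [sub_eq_zero]
      exact h3
  exact sub_eq_zero.1 (Subtype.ext h2)

/-- the form of an alternating matrix -/
theorem alt_dot {n : ℕ} (b : Matrix (Fin n) (Fin n) (ZMod p)) (hb : Alt b) (v w : Fin n → ZMod p) :
    v ⬝ᵥ b.mulVec w = - (w ⬝ᵥ b.mulVec v) := by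
  simp only [Matrix.mulVec, dotProduct, Finset.mul_sum]
  rw [Finset.sum_comm, ← Finset.sum_neg_distrib]
  refine Finset.sum_congr rfl fun x _ => ?_
  rw [← Finset.sum_neg_distrib]
  refine Finset.sum_congr rfl fun y _ => ?_
  rw [hb.2 y x]
  ring

/-- kernel vectors of different members of a pencil are orthogonal -/
theorem orth {n : ℕ} (b ω : Matrix (Fin n) (Fin n) (ZMod p)) (hb : Alt b) (hω : Alt ω) (c c' : ZMod p) (hc : c ≠ c')
    (v w : Fin n → ZMod p) (hv : (b + c • ω).mulVec v = 0) (hw : (b + c' • ω).mulVec w = 0) :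
    v ⬝ᵥ ω.mulVec w = 0 := by
  rw [Matrix.add_mulVec, Matrix.smul_mulVec] at hv hw
  have h1 : w ⬝ᵥ b.mulVec v + c * (w ⬝ᵥ ω.mulVec v) = 0 := by
    rw [← smul_eq_mul, ← dotProduct_smul, ← dotProduct_add, hv, dotProduct_zero]
  have h2 : v ⬝ᵥ b.mulVec w + c' * (v ⬝ᵥ ω.mulVec w) = 0 := by
    rw [← smul_eq_mul, ← dotProduct_smul, ← dotProduct_add, hw, dotProduct_zero]
  rw [alt_dot b hb, alt_dot ω hω w v] at h1
  have h3 : (c' - c) * (v ⬝ᵥ ω.mulVec w) = 0 := by
    linear_combination h1 + h2
  rcases mul_eq_zero.1 h3 with h | h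
  · exact absurd (sub_eq_zero.1 h).symm hc
  · exact h

/-- kernel vectors of different members of a pencil are independent -/
theorem indep {n : ℕ} (b ω : Matrix (Fin n) (Fin n) (ZMod p)) (hω : ω.det ≠ 0) (c c' : ZMod p)
    (hc : c ≠ c') (v w : Fin n → ZMod p) (hv0 : v ≠ 0) (hw0 : w ≠ 0) (hv : (b + c • ω).mulVec v = 0)
    (hw : (b + c' • ω).mulVec w = 0) : ∃ i j, v i * w j - v j * w i ≠ 0 := by
  by_contra hcon
  simp only [not_exists, not_not] at hcon
  obtain ⟨i, hi⟩ := Function.ne_iff.1 hv0
  -- `w` is a multiple of `v`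
  have h1 : w = (w i * (v i)⁻¹) • v := by
    funext j
    rw [Pi.smul_apply, smul_eq_mul]
    have h2 := hcon i j
    rw [Pi.zero_apply] at hi
    field_simp
    linear_combination h2
  have h3 : (b + c' • ω).mulVec v = 0 := by
    rw [h1, Matrix.mulVec_smul] at hw
    rcases smul_eq_zero.1 hw with h | h
    · exact absurd (by rw [h1, h, zero_smul]) hw0
    · exact h
  have h4 : (c - c') • ω.mulVec v = 0 := by
    rw [Matrix.add_mulVec, Matrix.smul_mulVec] at hv h3
    rw [sub_smul]
    have h5 : (b.mulVec v + c • ω.mulVec v) - (b.mulVec v + c' • ω.mulVec v) = 0 := by rw [hv, h3, sub_zero]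
    rw [add_sub_add_left_eq_sub] at h5
    exact h5
  rcases smul_eq_zero.1 h4 with h | h
  · exact hc (sub_eq_zero.1 h)
  · exact hω (Matrix.exists_mulVec_eq_zero_iff.1 ⟨v, hv0, h⟩)

end Run7.h438.PD
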