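import Mathlib
import Pool.Agent.Run7.h438.PD1

/-! At least half of the lines of alternating matrices contains a degenerate one. -/

set_option autoImplicit false
set_option linter.all false

open Matrix

namespace Run7.h438.PD

open Pool.Agent.Helper929 Pool.Agent.Y109.PI Run7.h438.PC

variable {p : ℕ} [hp : Fact p.Prime]

open Classical in
/-- the nonzero kernel vectors -/
theorem ker_nz (g : ℕ) (hg : 0 < g) (B : Matrix (Fin (2 * g)) (Fin (2 * g)) (ZMod p)) (hB : Alt B)
    (hdet : B.det = 0) :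
    p ^ 2 - 1 ≤ (Finset.univ.filter fun v : Fin (2 * g) → ZMod p => v ≠ 0 ∧ B.mulVec v = 0).card := by
  have h1 := ker_card g hg B hB hdet
  have h2 : (Finset.univ.filter fun v : Fin (2 * g) → ZMod p => v ≠ 0 ∧ B.mulVec v = 0) =
      (Finset.univ.filter fun v : Fin (2 * g) → ZMod p => B.mulVec v = 0).erase 0 := by
    ext v
    simp only [Finset.mem_filter, Finset.mem_univ, true_and, Finset.mem_erase]
  have h3 : (0 : Fin (2 * g) → ZMod p) ∈ Finset.univ.filter fun v : Fin (2 * g) → ZMod p => B.mulVec v = 0 :=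
    Finset.mem_filter.2 ⟨Finset.mem_univ _, Matrix.mulVec_zero _⟩
  rw [h2, Finset.card_erase_of_mem h3]
  exact Nat.sub_le_sub_right h1 1

open Classical in
/-- the number of matrices for which two given translates have given kernel vectors -/
theorem fib_pair {k : ℕ} (ω : AltS p (2 * (k + 1))) (hω : ω.1.det ≠ 0) (c c' : ZMod p) (hc : c ≠ c')
    (v w : Fin (2 * (k + 1)) → ZMod p) (hv : v ≠ 0) (hw : w ≠ 0) :
    (Finset.univ.filter fun b : AltS p (2 * (k + 1)) => (b.1 + c • ω.1).mulVec v = 0 ∧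
      (b.1 + c' • ω.1).mulVec w = 0).card ≤ if v ⬝ᵥ ω.1.mulVec w = 0 then Fintype.card (AltS p (2 * k)) else 0 := by
  rcases Finset.eq_empty_or_nonempty (Finset.univ.filter fun b : AltS p (2 * (k + 1)) =>
    (b.1 + c • ω.1).mulVec v = 0 ∧ (b.1 + c' • ω.1).mulVec w = 0) with h | ⟨b, hb⟩
  · rw [h, Finset.card_empty]
    exact Nat.zero_le _
  · rw [Finset.mem_filter] at hb
    obtain ⟨-, hb1, hb2⟩ := hb
    rw [if_pos (orth b.1 ω.1 b.2 ω.2 c c' hc v w hb1 hb2)]
    obtain ⟨i, j, hij⟩ := indep b.1 ω.1 hω c c' hc v w hv hw hb1 hb2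
    have h1 := fib_two (n := 2 * k) v w (-(c • ω.1.mulVec v)) (-(c' • ω.1.mulVec w)) i j hij
    refine le_trans (le_of_eq ?_) h1
    congr 1
    refine Finset.filter_congr fun b _ => ?_
    rw [Matrix.add_mulVec, Matrix.add_mulVec, Matrix.smul_mulVec, Matrix.smul_mulVec, add_eq_zero_iff_eq_neg,
      add_eq_zero_iff_eq_neg]

open Classical in
/-- the number of matrices for which two given translates are degenerate -/
theorem J_le (k : ℕ) (ω : AltS p (2 * (k + 1))) (hω : ω.1.det ≠ 0) (c c' : ZMod p) (hc : c ≠ c') :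
    (p ^ 2 - 1) * (p ^ 2 - 1) * (Finset.univ.filter fun b : AltS p (2 * (k + 1)) => (b.1 + c • ω.1).det = 0 ∧
      (b.1 + c' • ω.1).det = 0).card ≤ p ^ 2 * Fintype.card (AltS p (2 * (k + 1))) := by
  set X : Finset (Fin (2 * (k + 1)) → ZMod p) := Finset.univ.filter fun v => v ≠ 0 with hX
  have hT : ∀ (b : AltS p (2 * (k + 1))) (c : ZMod p), Alt (b.1 + c • ω.1) := fun b c =>
    Alt.add b.2 (Alt.smul ω.2 c)
  -- a lower bound by counting pairs of kernel vectors
  have h1 : (p ^ 2 - 1) * (p ^ 2 - 1) * (Finset.univ.filter fun b : AltS p (2 * (k + 1)) =>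
      (b.1 + c • ω.1).det = 0 ∧ (b.1 + c' • ω.1).det = 0).card ≤
      ∑ b : AltS p (2 * (k + 1)), ∑ v ∈ X, ∑ w ∈ X,
        if (b.1 + c • ω.1).mulVec v = 0 ∧ (b.1 + c' • ω.1).mulVec w = 0 then 1 else 0 := by
    rw [Finset.card_filter, Finset.mul_sum]
    refine Finset.sum_le_sum fun b _ => ?_
    split_ifs with h
    · rw [mul_one]
      have h2 := ker_nz (k + 1) (Nat.succ_pos _) _ (hT b c) h.1
      have h3 := ker_nz (k + 1) (Nat.succ_pos _) _ (hT b c') h.2
      refine (Nat.mul_le_mul h2 h3).trans (le_of_eq ?_)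
      rw [← Finset.filter_filter, ← Finset.filter_filter, Finset.card_filter, Finset.card_filter,
        Finset.sum_mul_sum]
      refine Finset.sum_congr rfl fun v _ => Finset.sum_congr rfl fun w _ => ?_
      by_cases hv : (b.1 + c • ω.1).mulVec v = 0
      · by_cases hw : (b.1 + c' • ω.1).mulVec w = 0
        · rw [if_pos hv, if_pos hw, if_pos ⟨hv, hw⟩, mul_one]
        · have hn : ¬ ((b.1 + c • ω.1).mulVec v = 0 ∧ (b.1 + c' • ω.1).mulVec w = 0) := fun h => hw h.2
          rw [if_neg hw, if_neg hn, mul_zero]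
      · have hn : ¬ ((b.1 + c • ω.1).mulVec v = 0 ∧ (b.1 + c' • ω.1).mulVec w = 0) := fun h => hv h.1
        rw [if_neg hv, if_neg hn, zero_mul]
    · rw [mul_zero]
      exact Nat.zero_le _
  have h2 : ∑ b : AltS p (2 * (k + 1)), ∑ v ∈ X, ∑ w ∈ X,
        (if (b.1 + c • ω.1).mulVec v = 0 ∧ (b.1 + c' • ω.1).mulVec w = 0 then 1 else 0) =
      ∑ v ∈ X, ∑ w ∈ X, (Finset.univ.filter fun b : AltS p (2 * (k + 1)) => (b.1 + c • ω.1).mulVec v = 0 ∧
      (b.1 + c' • ω.1).mulVec w = 0).card := by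
    rw [Finset.sum_comm]
    refine Finset.sum_congr rfl fun v _ => ?_
    rw [Finset.sum_comm]
    refine Finset.sum_congr rfl fun w _ => ?_
    rw [Finset.card_filter]
  have h3 : ∀ v ∈ X, ∑ w ∈ X, (Finset.univ.filter fun b : AltS p (2 * (k + 1)) => (b.1 + c • ω.1).mulVec v = 0 ∧
      (b.1 + c' • ω.1).mulVec w = 0).card ≤ p ^ (2 * k + 1) * Fintype.card (AltS p (2 * k)) := by
    intro v hv
    have hv0 : v ≠ 0 := (Finset.mem_filter.1 hv).2
    have h4 : ∀ w ∈ X, (Finset.univ.filter fun b : AltS p (2 * (k + 1)) => (b.1 + c • ω.1).mulVec v = 0 ∧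
        (b.1 + c' • ω.1).mulVec w = 0).card ≤
        if v ⬝ᵥ ω.1.mulVec w = 0 then Fintype.card (AltS p (2 * k)) else 0 := fun w hw =>
      fib_pair ω hω c c' hc v w hv0 (Finset.mem_filter.1 hw).2
    refine (Finset.sum_le_sum h4).trans ?_
    have h5 : (∑ w ∈ X, if v ⬝ᵥ ω.1.mulVec w = 0 then Fintype.card (AltS p (2 * k)) else 0) ≤
        ∑ w : Fin (2 * (k + 1)) → ZMod p, if v ⬝ᵥ ω.1.mulVec w = 0 then Fintype.card (AltS p (2 * k)) else 0 :=
      Finset.sum_le_sum_of_subset (Finset.subset_univ _)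
    refine h5.trans ?_
    rw [← Finset.sum_filter, Finset.sum_const, smul_eq_mul]
    refine Nat.mul_le_mul_right _ ?_
    have h6 : Matrix.vecMul v ω.1 ≠ 0 := by
      intro h
      exact hω (Matrix.exists_vecMul_eq_zero_iff.1 ⟨v, hv0, h⟩)
    have h7 := one_fun (Matrix.vecMul v ω.1) h6
    have h8 : (Finset.univ.filter fun w : Fin (2 * (k + 1)) → ZMod p => v ⬝ᵥ ω.1.mulVec w = 0) =
        Finset.univ.filter fun w : Fin (2 * (k + 1)) → ZMod p => ∑ j, Matrix.vecMul v ω.1 j * w j = 0 := by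
      refine Finset.filter_congr fun w _ => ?_
      rw [Matrix.dotProduct_mulVec]
      rfl
    rw [h8]
    have h9 : p * (Finset.univ.filter fun w : Fin (2 * (k + 1)) → ZMod p =>
        ∑ j, Matrix.vecMul v ω.1 j * w j = 0).card = p * p ^ (2 * k + 1) := by
      rw [h7]
      ring
    exact (Nat.eq_of_mul_eq_mul_left hp.out.pos h9).le
  have h4 : X.card ≤ p ^ (2 * (k + 1)) := by
    refine (Finset.card_le_univ X).trans (le_of_eq ?_)
    rw [Fintype.card_fun, ZMod.card, Fintype.card_fin]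
  have hV : Fintype.card (AltS p (2 * (k + 1))) = p ^ (2 * k + 1) * (p ^ (2 * k) * Fintype.card (AltS p (2 * k))) := by
    rw [← card_alt p (2 * k), ← card_alt p (2 * k + 1)]
    rfl
  calc _ ≤ _ := h1
    _ = _ := h2
    _ ≤ ∑ v ∈ X, p ^ (2 * k + 1) * Fintype.card (AltS p (2 * k)) := Finset.sum_le_sum h3
    _ = X.card * (p ^ (2 * k + 1) * Fintype.card (AltS p (2 * k))) := by rw [Finset.sum_const, smul_eq_mul]
    _ ≤ p ^ (2 * (k + 1)) * (p ^ (2 * k + 1) * Fintype.card (AltS p (2 * k))) := Nat.mul_le_mul_right _ h4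
    _ = p ^ 2 * Fintype.card (AltS p (2 * (k + 1))) := by
      rw [hV]
      ring

open Classical in
theorem J_le' (k : ℕ) (ω : AltS p (2 * (k + 1))) (hω : ω.1.det ≠ 0) (c c' : ZMod p) (hc : c ≠ c') :
    (p * (p - 1)) * (Finset.univ.filter fun b : AltS p (2 * (k + 1)) => (b.1 + c • ω.1).det = 0 ∧
      (b.1 + c' • ω.1).det = 0).card ≤ Fintype.card (AltS p (2 * (k + 1))) := by
  have h1 := J_le k ω hω c c' hc
  set J := (Finset.univ.filter fun b : AltS p (2 * (k + 1)) => (b.1 + c • ω.1).det = 0 ∧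
      (b.1 + c' • ω.1).det = 0).card
  set V := Fintype.card (AltS p (2 * (k + 1)))
  have hp2 := hp.out.two_le
  clear_value J V
  obtain ⟨q, hq⟩ : ∃ q, p = q + 2 := ⟨p - 2, by omega⟩
  have e1 : p ^ 2 - 1 = (q + 1) * (q + 3) := by
    rw [hq]
    have : (q + 2) ^ 2 = (q + 1) * (q + 3) + 1 := by ring
    rw [this, Nat.add_sub_cancel]
  have e2 : p - 1 = q + 1 := by omega
  rw [e1] at h1
  rw [e2]
  have h2 : p ^ 2 * (p * (q + 1) * J) ≤ p ^ 2 * V := by
    refine le_trans ?_ h1
    rw [← mul_assoc]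
    refine Nat.mul_le_mul_right _ ?_
    rw [hq]
    nlinarith [sq_nonneg q, Nat.zero_le q, Nat.zero_le (q ^ 3)]
  exact Nat.le_of_mul_le_mul_left h2 (pow_pos hp.out.pos 2)

open Classical in
/-- **At least half of the lines contains a degenerate matrix.** -/
theorem main_count (g : ℕ) (hg : 0 < g) (ω : AltS p (2 * g)) (hω : ω.1.det ≠ 0) :
    Fintype.card (AltS p (2 * g)) ≤ 2 * (Finset.univ.filter fun b : AltS p (2 * g) =>
      ∃ c : ZMod p, (b.1 + c • ω.1).det = 0).card := by
  obtain ⟨k, rfl⟩ : ∃ k, g = k + 1 := ⟨g - 1, by omega⟩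
  have hp2 := hp.out.two_le
  let T : ZMod p → AltS p (2 * (k + 1)) := fun c => ⟨c • ω.1, Alt.smul ω.2 c⟩
  set V := Fintype.card (AltS p (2 * (k + 1))) with hV
  set D := (Finset.univ.filter fun b : AltS p (2 * (k + 1)) => pf (2 * (k + 1)) b.1 = 0).card with hD
  have h1 : V ≤ p * D := card_deg (p := p) k
  let N : AltS p (2 * (k + 1)) → ℕ := fun b => (Finset.univ.filter fun c : ZMod p => (b.1 + c • ω.1).det = 0).card
  -- the first moment
  have h2 : p * D = ∑ b, N b := by
    calc p * D = ∑ _c : ZMod p, D := by rw [Finset.sum_const, Finset.card_univ, ZMod.card, smul_eq_mul]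
      _ = ∑ c : ZMod p, (Finset.univ.filter fun b : AltS p (2 * (k + 1)) => (b.1 + c • ω.1).det = 0).card := by
        refine Finset.sum_congr rfl fun c _ => ?_
        rw [hD]
        symm
        refine Finset.card_nbij' (fun b => b + T c) (fun b => b - T c) ?_ ?_ ?_ ?_
        · intro b hb
          simp only [Finset.coe_filter, Finset.mem_univ, true_and, Set.mem_setOf_eq] at hb ⊢
          exact (det_zero_iff _ (b + T c).2).1 hb
        · intro b hb
          simp only [Finset.coe_filter, Finset.mem_univ, true_and, Set.mem_setOf_eq] at hb ⊢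
          have h3 : (b - T c).1 + c • ω.1 = b.1 := sub_add_cancel _ _
          rw [h3]
          exact (det_zero_iff _ b.2).2 hb
        · intro b _; exact add_sub_cancel_right _ _
        · intro b _; exact sub_add_cancel _ _
      _ = ∑ b, N b := by
        simp only [N, Finset.card_filter]
        exact Finset.sum_comm
  -- the second moment
  have h3 : ∑ b : AltS p (2 * (k + 1)), ∑ c : ZMod p, ∑ c' ∈ Finset.univ.erase c,
      (if (b.1 + c • ω.1).det = 0 ∧ (b.1 + c' • ω.1).det = 0 then 1 else 0) ≤ V := by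
    have h4 : ∑ b : AltS p (2 * (k + 1)), ∑ c : ZMod p, ∑ c' ∈ Finset.univ.erase c,
        (if (b.1 + c • ω.1).det = 0 ∧ (b.1 + c' • ω.1).det = 0 then 1 else 0) =
        ∑ c : ZMod p, ∑ c' ∈ Finset.univ.erase c, (Finset.univ.filter fun b : AltS p (2 * (k + 1)) =>
          (b.1 + c • ω.1).det = 0 ∧ (b.1 + c' • ω.1).det = 0).card := by
      rw [Finset.sum_comm]
      refine Finset.sum_congr rfl fun c _ => ?_
      rw [Finset.sum_comm]
      refine Finset.sum_congr rfl fun c' _ => ?_
      rw [Finset.card_filter]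
    rw [h4]
    have h5 : (p * (p - 1)) * (∑ c : ZMod p, ∑ c' ∈ Finset.univ.erase c,
        (Finset.univ.filter fun b : AltS p (2 * (k + 1)) =>
          (b.1 + c • ω.1).det = 0 ∧ (b.1 + c' • ω.1).det = 0).card) ≤ (p * (p - 1)) * V := by
      rw [Finset.mul_sum]
      calc _ ≤ ∑ c : ZMod p, (p - 1) * V := by
            refine Finset.sum_le_sum fun c _ => ?_
            rw [Finset.mul_sum]
            calc _ ≤ ∑ c' ∈ (Finset.univ : Finset (ZMod p)).erase c, V :=
                  Finset.sum_le_sum fun c' hc' => J_le' k ω hω c c' (Finset.ne_of_mem_erase hc').symm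
              _ = (p - 1) * V := by
                rw [Finset.sum_const, Finset.card_erase_of_mem (Finset.mem_univ _), Finset.card_univ, ZMod.card,
                  smul_eq_mul]
        _ = p * (p - 1) * V := by
          rw [Finset.sum_const, Finset.card_univ, ZMod.card, smul_eq_mul, mul_assoc]
    exact Nat.le_of_mul_le_mul_left h5 (Nat.mul_pos hp.out.pos (by omega))
  have h6 : ∀ b : AltS p (2 * (k + 1)), 2 * N b ≤
      2 * (if (∃ c : ZMod p, (b.1 + c • ω.1).det = 0) then 1 else 0) + ∑ c : ZMod p, ∑ c' ∈ Finset.univ.erase c,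
      (if (b.1 + c • ω.1).det = 0 ∧ (b.1 + c' • ω.1).det = 0 then 1 else 0) := by
    intro b
    have h7 : ∑ c : ZMod p, ∑ c' ∈ Finset.univ.erase c,
        (if (b.1 + c • ω.1).det = 0 ∧ (b.1 + c' • ω.1).det = 0 then 1 else 0) = N b * (N b - 1) := by
      have h8 : ∀ c : ZMod p, ∑ c' ∈ Finset.univ.erase c,
          (if (b.1 + c • ω.1).det = 0 ∧ (b.1 + c' • ω.1).det = 0 then 1 else 0) =
          if (b.1 + c • ω.1).det = 0 then N b - 1 else 0 := by
        intro c
        split_ifs with h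
        · have h9 : N b = ∑ c' : ZMod p, if (b.1 + c' • ω.1).det = 0 then 1 else 0 := Finset.card_filter _ _
          rw [← Finset.add_sum_erase _ _ (Finset.mem_univ c), if_pos h] at h9
          rw [h9, Nat.add_sub_cancel_left]
          refine Finset.sum_congr rfl fun c' _ => ?_
          simp only [h, true_and]
        · refine Finset.sum_eq_zero fun c' _ => ?_
          rw [if_neg (fun h' => h h'.1)]
      rw [Finset.sum_congr rfl fun c _ => h8 c, ← Finset.sum_filter, Finset.sum_const, smul_eq_mul]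
    rw [h7]
    split_ifs with h
    · rcases Nat.lt_or_ge (N b) 2 with h9 | h9
      · have : 2 * N b ≤ 2 * 1 := by omega
        exact this.trans (Nat.le_add_right _ _)
      · obtain ⟨t, ht⟩ : ∃ t, N b = t + 2 := ⟨N b - 2, by omega⟩
        rw [ht]
        have e1 : t + 2 - 1 = t + 1 := by omega
        rw [e1]
        nlinarith [Nat.zero_le t, sq_nonneg t]
    · have h9 : N b = 0 := by
        change (Finset.univ.filter _).card = 0
        rw [Finset.card_eq_zero, Finset.filter_eq_empty_iff]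
        intro c _ hc
        exact h ⟨c, hc⟩
      rw [h9]
  have h10 : 2 * (p * D) ≤ 2 * (Finset.univ.filter fun b : AltS p (2 * (k + 1)) =>
      ∃ c : ZMod p, (b.1 + c • ω.1).det = 0).card + V := by
    rw [h2, Finset.mul_sum, Finset.card_filter, Finset.mul_sum]
    refine (Finset.sum_le_sum fun b _ => h6 b).trans ?_
    rw [Finset.sum_add_distrib]
    exact Nat.add_le_add_left h3 _
  omega

end Run7.h438.PD
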