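import Mathlib
import Pool.Agent.Run7.h438.PD2

/-! The second moment of the number of degenerate translates of an alternating matrix. -/

set_option autoImplicit false
set_option linter.all false

open Matrix

namespace Run7.h438.PE

open Pool.Agent.Helper929 Pool.Agent.Y109.PI Run7.h438.PC Run7.h438.PD

variable {p : ℕ} [hp : Fact p.Prime]

open Classical in
/-- the number of alternating matrices with a given value at a vector -/
theorem fib_one {n : ℕ} (v x : Fin (n + 1) → ZMod p) (hv : v ≠ 0) :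
    (Finset.univ.filter fun b : AltS p (n + 1) => b.1.mulVec v = x).card ≤ Fintype.card (AltS p n) := by
  obtain ⟨i, hi⟩ := Function.ne_iff.1 hv
  rw [Pi.zero_apply] at hi
  rw [← Finset.card_univ]
  refine Finset.card_le_card_of_injOn (fun b => (⟨b.1.submatrix i.succAbove i.succAbove,
    ⟨fun u => b.2.1 _, fun u v => b.2.2 _ _⟩⟩ : AltS p n)) (fun _ _ => Finset.mem_coe.2 (Finset.mem_univ _)) ?_
  intro b hb b' hb' hbb
  simp only [Finset.coe_filter, Finset.mem_univ, true_and, Set.mem_setOf_eq] at hb hb'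
  have h1 := congrArg Subtype.val hbb
  have h0 : ∀ k l : Fin n, (b - b').1 (i.succAbove k) (i.succAbove l) = 0 := by
    intro k l
    have h3 := congrFun (congrFun h1 k) l
    change b.1 _ _ - b'.1 _ _ = 0
    rw [sub_eq_zero]
    exact h3
  have hk : (b - b').1.mulVec v = 0 := by
    change (b.1 - b'.1).mulVec v = 0
    rw [Matrix.sub_mulVec, hb, hb', sub_self]
  have hd := (b - b').2
  have hci : ∀ r, r ≠ i → (b - b').1 r i = 0 := by
    intro r hr
    obtain ⟨k, rfl⟩ := Fin.exists_succAbove_eq hr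
    have h3 := congrFun hk (i.succAbove k)
    rw [Matrix.mulVec, Pi.zero_apply, dotProduct, Fintype.sum_eq_single i] at h3
    · exact (mul_eq_zero.1 h3).resolve_right hi
    · intro l hl
      obtain ⟨l', rfl⟩ := Fin.exists_succAbove_eq hl
      rw [h0, zero_mul]
  have h2 : (b - b').1 = 0 := by
    ext r s
    rw [Matrix.zero_apply]
    by_cases h4 : r = i
    · subst h4
      by_cases h5 : s = r
      · rw [h5, hd.1]
      · rw [hd.2 r s, hci s h5, neg_zero]
    · by_cases h5 : s = i
      · rw [h5, hci r h4]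
      · obtain ⟨k, rfl⟩ := Fin.exists_succAbove_eq h4
        obtain ⟨l, rfl⟩ := Fin.exists_succAbove_eq h5
        exact h0 k l
  exact sub_eq_zero.1 (Subtype.ext h2)

open Classical in
/-- the kernel of a nonzero alternating matrix has codimension at least two -/
theorem ker_eta {n : ℕ} (η : Matrix (Fin (n + 2)) (Fin (n + 2)) (ZMod p)) (hη : Alt η) (h0 : η ≠ 0) :
    (Finset.univ.filter fun v : Fin (n + 2) → ZMod p => η.mulVec v = 0).card ≤ p ^ n := by
  obtain ⟨i, j, hij⟩ : ∃ i j, η i j ≠ 0 := by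
    by_contra hcon
    simp only [not_exists, not_not] at hcon
    exact h0 (by ext i j; exact hcon i j)
  have hne : j ≠ i := by
    rintro rfl
    exact hij (hη.1 j)
  obtain ⟨j', rfl⟩ := Fin.exists_succAbove_eq hne
  have hp' : p ^ n = (Finset.univ : Finset (Fin n → ZMod p)).card := by
    rw [Finset.card_univ, Fintype.card_fun, ZMod.card, Fintype.card_fin]
  rw [hp']
  refine Finset.card_le_card_of_injOn (fun v k => v (i.succAbove (j'.succAbove k)))
    (fun _ _ => Finset.mem_coe.2 (Finset.mem_univ _)) ?_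
  intro v hv v' hv' hvv
  simp only [Finset.coe_filter, Finset.mem_univ, true_and, Set.mem_setOf_eq] at hv hv'
  have hk : η.mulVec (v - v') = 0 := by rw [Matrix.mulVec_sub, hv, hv', sub_self]
  have hother : ∀ r : Fin (n + 2), r ≠ i → r ≠ i.succAbove j' → (v - v') r = 0 := by
    intro r h1 h2
    obtain ⟨s, rfl⟩ := Fin.exists_succAbove_eq h1
    have h3 : s ≠ j' := fun h => h2 (by rw [h])
    obtain ⟨k, rfl⟩ := Fin.exists_succAbove_eq h3
    rw [Pi.sub_apply, sub_eq_zero]
    exact congrFun hvv k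
  have hj : (v - v') (i.succAbove j') = 0 := by
    have h3 := congrFun hk i
    rw [Matrix.mulVec, Pi.zero_apply, dotProduct, Fintype.sum_eq_single (i.succAbove j')] at h3
    · exact (mul_eq_zero.1 h3).resolve_left hij
    · intro l hl
      by_cases hl1 : l = i
      · rw [hl1, hη.1, zero_mul]
      · rw [hother l hl1 hl, mul_zero]
  have hi : (v - v') i = 0 := by
    have h3 := congrFun hk (i.succAbove j')
    rw [Matrix.mulVec, Pi.zero_apply, dotProduct, Fintype.sum_eq_single i] at h3
    · refine (mul_eq_zero.1 h3).resolve_left ?_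
      rw [hη.2]
      exact neg_ne_zero.2 hij
    · intro l hl
      by_cases hl1 : l = i.succAbove j'
      · rw [hl1, hη.1, zero_mul]
      · rw [hother l hl hl1, mul_zero]
  refine sub_eq_zero.1 ?_
  funext r
  rw [Pi.zero_apply]
  by_cases h1 : r = i
  · rw [h1, hi]
  · by_cases h2 : r = i.succAbove j'
    · rw [h2, hj]
    · exact hother r h1 h2

open Classical in
/-- the nonzero multiples of a vector -/
theorem par_card {n : ℕ} (v : Fin n → ZMod p) (hv : v ≠ 0) :
    (Finset.univ.filter fun w : Fin n → ZMod p => w ≠ 0 ∧ ∀ i j, v i * w j = v j * w i).card ≤ p - 1 := by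
  obtain ⟨i, hi⟩ := Function.ne_iff.1 hv
  rw [Pi.zero_apply] at hi
  have hc : p - 1 = ((Finset.univ : Finset (ZMod p)).erase 0).card := by
    rw [Finset.card_erase_of_mem (Finset.mem_univ _), Finset.card_univ, ZMod.card]
  rw [hc]
  refine Finset.card_le_card_of_injOn (fun w => w i) ?_ ?_
  · intro w hw
    simp only [Finset.coe_filter, Finset.mem_univ, true_and, Set.mem_setOf_eq] at hw
    refine Finset.mem_coe.2 (Finset.mem_erase.2 ⟨?_, Finset.mem_univ _⟩)
    intro h
    apply hw.1
    funext j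
    have h1 := hw.2 i j
    change w i = 0 at h
    rw [h, mul_zero] at h1
    exact (mul_eq_zero.1 h1).resolve_left hi
  · intro w hw w' hw' h
    simp only [Finset.coe_filter, Finset.mem_univ, true_and, Set.mem_setOf_eq] at hw hw'
    change w i = w' i at h
    funext j
    have h1 := hw.2 i j
    have h2 := hw'.2 i j
    rw [h, ← h2] at h1
    exact mul_left_cancel₀ hi h1

/-- kernel vectors of different translates are orthogonal -/
theorem orth' {n : ℕ} (b α β : Matrix (Fin n) (Fin n) (ZMod p)) (hb : Alt b) (hα : Alt α)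
    (v w : Fin n → ZMod p) (hv : (b + α).mulVec v = 0) (hw : (b + β).mulVec w = 0) :
    v ⬝ᵥ (β - α).mulVec w = 0 := by
  rw [Matrix.add_mulVec] at hv hw
  have h1 : w ⬝ᵥ b.mulVec v + w ⬝ᵥ α.mulVec v = 0 := by
    rw [← dotProduct_add, hv, dotProduct_zero]
  have h2 : v ⬝ᵥ b.mulVec w + v ⬝ᵥ β.mulVec w = 0 := by
    rw [← dotProduct_add, hw, dotProduct_zero]
  rw [alt_dot b hb, alt_dot α hα w v] at h1
  rw [Matrix.sub_mulVec, dotProduct_sub]
  linear_combination h1 + h2

/-- a common kernel vector of two translates is in the kernel of the difference -/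
theorem par' {n : ℕ} (b α β : Matrix (Fin n) (Fin n) (ZMod p))
    (v w : Fin n → ZMod p) (hv0 : v ≠ 0) (hw0 : w ≠ 0) (hv : (b + α).mulVec v = 0)
    (hw : (b + β).mulVec w = 0) (hcon : ∀ i j, v i * w j = v j * w i) : (β - α).mulVec v = 0 := by
  obtain ⟨i, hi⟩ := Function.ne_iff.1 hv0
  have h1 : w = (w i * (v i)⁻¹) • v := by
    funext j
    rw [Pi.smul_apply, smul_eq_mul]
    have h2 := hcon i j
    rw [Pi.zero_apply] at hi
    field_simp
    linear_combination h2
  have h3 : (b + β).mulVec v = 0 := by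
    rw [h1, Matrix.mulVec_smul] at hw
    rcases smul_eq_zero.1 hw with h | h
    · exact absurd (by rw [h1, h, zero_smul]) hw0
    · exact h
  have h4 : β - α = (b + β) - (b + α) := by abel
  rw [h4, Matrix.sub_mulVec, h3, hv, sub_zero]

open Classical in
/-- pairs of kernel vectors, the first one not in the kernel of the difference -/
theorem fib_a {k : ℕ} (α β : AltS p (2 * (k + 1))) (v w : Fin (2 * (k + 1)) → ZMod p)
    (hη : (β.1 - α.1).mulVec v ≠ 0) (hv : v ≠ 0) (hw : w ≠ 0) :
    (Finset.univ.filter fun b : AltS p (2 * (k + 1)) => (b.1 + α.1).mulVec v = 0 ∧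
      (b.1 + β.1).mulVec w = 0).card ≤ if v ⬝ᵥ (β.1 - α.1).mulVec w = 0 then Fintype.card (AltS p (2 * k)) else 0 := by
  rcases Finset.eq_empty_or_nonempty (Finset.univ.filter fun b : AltS p (2 * (k + 1)) =>
    (b.1 + α.1).mulVec v = 0 ∧ (b.1 + β.1).mulVec w = 0) with h | ⟨b, hb⟩
  · rw [h, Finset.card_empty]
    exact Nat.zero_le _
  · rw [Finset.mem_filter] at hb
    obtain ⟨-, hb1, hb2⟩ := hb
    rw [if_pos (orth' b.1 α.1 β.1 b.2 α.2 v w hb1 hb2)]
    obtain ⟨i, j, hij⟩ : ∃ i j, v i * w j - v j * w i ≠ 0 := by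
      by_contra hcon
      simp only [not_exists, not_not] at hcon
      exact hη (par' b.1 α.1 β.1 v w hv hw hb1 hb2 fun i j => sub_eq_zero.1 (hcon i j))
    have h1 := fib_two (n := 2 * k) v w (-(α.1.mulVec v)) (-(β.1.mulVec w)) i j hij
    refine le_trans (le_of_eq ?_) h1
    congr 1
    refine Finset.filter_congr fun b _ => ?_
    rw [Matrix.add_mulVec, Matrix.add_mulVec, add_eq_zero_iff_eq_neg, add_eq_zero_iff_eq_neg]

open Classical in
/-- pairs of kernel vectors in general -/
theorem fib_b {k : ℕ} (α β : AltS p (2 * (k + 1))) (v w : Fin (2 * (k + 1)) → ZMod p) (hv : v ≠ 0) (hw : w ≠ 0) :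
    (Finset.univ.filter fun b : AltS p (2 * (k + 1)) => (b.1 + α.1).mulVec v = 0 ∧
      (b.1 + β.1).mulVec w = 0).card ≤ Fintype.card (AltS p (2 * k)) +
        if (∀ i j, v i * w j = v j * w i) then Fintype.card (AltS p (2 * k + 1)) else 0 := by
  by_cases hpar : ∀ i j, v i * w j = v j * w i
  · rw [if_pos hpar]
    refine le_trans ?_ (Nat.le_add_left _ _)
    refine le_trans ?_ (fib_one (n := 2 * k + 1) v (-(α.1.mulVec v)) hv)
    refine Finset.card_le_card fun b hb => ?_
    rw [Finset.mem_filter] at hb ⊢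
    refine ⟨Finset.mem_univ _, ?_⟩
    have h1 := hb.2.1
    rw [Matrix.add_mulVec, add_eq_zero_iff_eq_neg] at h1
    exact h1
  · rw [if_neg hpar, add_zero]
    simp only [not_forall] at hpar
    obtain ⟨i, j, hij⟩ := hpar
    have h1 := fib_two (n := 2 * k) v w (-(α.1.mulVec v)) (-(β.1.mulVec w)) i j (sub_ne_zero.2 hij)
    refine le_trans (le_of_eq ?_) h1
    congr 1
    refine Finset.filter_congr fun b _ => ?_
    rw [Matrix.add_mulVec, Matrix.add_mulVec, add_eq_zero_iff_eq_neg, add_eq_zero_iff_eq_neg]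

open Classical in
/-- the number of matrices for which two given translates are degenerate -/
theorem J_gen (k : ℕ) (α β : AltS p (2 * (k + 1))) (hαβ : α ≠ β) :
    p * ((p ^ 2 - 1) * (p ^ 2 - 1) * (Finset.univ.filter fun b : AltS p (2 * (k + 1)) => (b.1 + α.1).det = 0 ∧
      (b.1 + β.1).det = 0).card) ≤ (p ^ 3 + p ^ 2 - 1) * Fintype.card (AltS p (2 * (k + 1))) := by
  set X : Finset (Fin (2 * (k + 1)) → ZMod p) := Finset.univ.filter fun v => v ≠ 0 with hX
  set A := Fintype.card (AltS p (2 * k)) with hA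
  have hA1 : Fintype.card (AltS p (2 * k + 1)) = p ^ (2 * k) * A := card_alt p (2 * k)
  have hV : Fintype.card (AltS p (2 * (k + 1))) = p ^ (2 * k + 1) * (p ^ (2 * k) * A) := by
    rw [hA, ← card_alt p (2 * k), ← card_alt p (2 * k + 1)]
    rfl
  have hp1 : 1 ≤ p := hp.out.one_lt.le
  have hη0 : β.1 - α.1 ≠ 0 := fun h => hαβ (Subtype.ext (sub_eq_zero.1 h).symm)
  have hηalt : Alt (β.1 - α.1) := (β - α).2
  -- a lower bound by counting pairs of kernel vectors
  have h1 : (p ^ 2 - 1) * (p ^ 2 - 1) * (Finset.univ.filter fun b : AltS p (2 * (k + 1)) =>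
      (b.1 + α.1).det = 0 ∧ (b.1 + β.1).det = 0).card ≤
      ∑ b : AltS p (2 * (k + 1)), ∑ v ∈ X, ∑ w ∈ X,
        if (b.1 + α.1).mulVec v = 0 ∧ (b.1 + β.1).mulVec w = 0 then 1 else 0 := by
    rw [Finset.card_filter, Finset.mul_sum]
    refine Finset.sum_le_sum fun b _ => ?_
    split_ifs with h
    · rw [mul_one]
      have h2 := ker_nz (k + 1) (Nat.succ_pos _) _ (b + α).2 h.1
      have h3 := ker_nz (k + 1) (Nat.succ_pos _) _ (b + β).2 h.2
      refine (Nat.mul_le_mul h2 h3).trans (le_of_eq ?_)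
      rw [← Finset.filter_filter, ← Finset.filter_filter, Finset.card_filter, Finset.card_filter,
        Finset.sum_mul_sum]
      refine Finset.sum_congr rfl fun v _ => Finset.sum_congr rfl fun w _ => ?_
      change (if (b.1 + α.1).mulVec v = 0 then 1 else 0) * (if (b.1 + β.1).mulVec w = 0 then 1 else 0) = _
      by_cases hv : (b.1 + α.1).mulVec v = 0
      · by_cases hw : (b.1 + β.1).mulVec w = 0
        · rw [if_pos hv, if_pos hw, if_pos ⟨hv, hw⟩, mul_one]
        · have hn : ¬ ((b.1 + α.1).mulVec v = 0 ∧ (b.1 + β.1).mulVec w = 0) := fun h => hw h.2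
          rw [if_neg hw, if_neg hn, mul_zero]
      · have hn : ¬ ((b.1 + α.1).mulVec v = 0 ∧ (b.1 + β.1).mulVec w = 0) := fun h => hv h.1
        rw [if_neg hv, if_neg hn, zero_mul]
    · rw [mul_zero]
      exact Nat.zero_le _
  have h2 : ∑ b : AltS p (2 * (k + 1)), ∑ v ∈ X, ∑ w ∈ X,
        (if (b.1 + α.1).mulVec v = 0 ∧ (b.1 + β.1).mulVec w = 0 then 1 else 0) =
      ∑ v ∈ X, ∑ w ∈ X, (Finset.univ.filter fun b : AltS p (2 * (k + 1)) => (b.1 + α.1).mulVec v = 0 ∧
      (b.1 + β.1).mulVec w = 0).card := by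
    rw [Finset.sum_comm]
    refine Finset.sum_congr rfl fun v _ => ?_
    rw [Finset.sum_comm]
    refine Finset.sum_congr rfl fun w _ => ?_
    rw [Finset.card_filter]
  have hXc : X.card ≤ p ^ (2 * (k + 1)) := by
    refine (Finset.card_le_univ X).trans (le_of_eq ?_)
    rw [Fintype.card_fun, ZMod.card, Fintype.card_fin]
  have h3 : ∀ v ∈ X, ∑ w ∈ X, (Finset.univ.filter fun b : AltS p (2 * (k + 1)) => (b.1 + α.1).mulVec v = 0 ∧
      (b.1 + β.1).mulVec w = 0).card ≤ p ^ (2 * k + 1) * A + if (β.1 - α.1).mulVec v = 0 then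
        p ^ (2 * k) * (p ^ 2 - 1) * A else 0 := by
    intro v hv
    have hv0 : v ≠ 0 := (Finset.mem_filter.1 hv).2
    by_cases hk : (β.1 - α.1).mulVec v = 0
    · rw [if_pos hk]
      have h4 : ∀ w ∈ X, (Finset.univ.filter fun b : AltS p (2 * (k + 1)) => (b.1 + α.1).mulVec v = 0 ∧
          (b.1 + β.1).mulVec w = 0).card ≤ A +
          if (∀ i j, v i * w j = v j * w i) then Fintype.card (AltS p (2 * k + 1)) else 0 := fun w hw =>
        fib_b α β v w hv0 (Finset.mem_filter.1 hw).2
      refine (Finset.sum_le_sum h4).trans ?_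
      rw [Finset.sum_add_distrib, Finset.sum_const, smul_eq_mul, ← Finset.sum_filter, Finset.sum_const, smul_eq_mul,
        hX, Finset.filter_filter, ← hX, hA1]
      have h5 := par_card v hv0
      calc X.card * A + _ * (p ^ (2 * k) * A) ≤ p ^ (2 * (k + 1)) * A + (p - 1) * (p ^ (2 * k) * A) :=
            Nat.add_le_add (Nat.mul_le_mul_right _ hXc) (Nat.mul_le_mul_right _ h5)
        _ = p ^ (2 * k + 1) * A + p ^ (2 * k) * (p ^ 2 - 1) * A := by
          obtain ⟨q, hq⟩ : ∃ q, p = q + 1 := ⟨p - 1, by omega⟩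
          have e1 : p ^ 2 - 1 = q * (q + 2) := by
            rw [hq]
            have : (q + 1) ^ 2 = q * (q + 2) + 1 := by ring
            rw [this, Nat.add_sub_cancel]
          have e2 : p - 1 = q := by omega
          have e3 : p ^ (2 * (k + 1)) = p ^ (2 * k) * (q + 1) ^ 2 := by rw [← hq]; ring
          have e4 : p ^ (2 * k + 1) = p ^ (2 * k) * (q + 1) := by rw [pow_succ, ← hq]
          rw [e1, e2, e3, e4]
          ring
    · rw [if_neg hk, add_zero]
      have h4 : ∀ w ∈ X, (Finset.univ.filter fun b : AltS p (2 * (k + 1)) => (b.1 + α.1).mulVec v = 0 ∧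
          (b.1 + β.1).mulVec w = 0).card ≤
          if v ⬝ᵥ (β.1 - α.1).mulVec w = 0 then A else 0 := fun w hw =>
        fib_a α β v w hk hv0 (Finset.mem_filter.1 hw).2
      refine (Finset.sum_le_sum h4).trans ?_
      have h5 : (∑ w ∈ X, if v ⬝ᵥ (β.1 - α.1).mulVec w = 0 then A else 0) ≤
          ∑ w : Fin (2 * (k + 1)) → ZMod p, if v ⬝ᵥ (β.1 - α.1).mulVec w = 0 then A else 0 :=
        Finset.sum_le_sum_of_subset (Finset.subset_univ _)
      refine h5.trans ?_
      rw [← Finset.sum_filter, Finset.sum_const, smul_eq_mul]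
      refine Nat.mul_le_mul_right _ ?_
      have h6 : Matrix.vecMul v (β.1 - α.1) ≠ 0 := by
        intro h
        apply hk
        have h7 : (β.1 - α.1)ᵀ = -(β.1 - α.1) := by
          ext r s
          rw [Matrix.transpose_apply, Matrix.neg_apply]
          exact hηalt.2 s r
        rw [← Matrix.mulVec_transpose, h7, Matrix.neg_mulVec, neg_eq_zero] at h
        exact h
      have h7 := one_fun (Matrix.vecMul v (β.1 - α.1)) h6
      have h8 : (Finset.univ.filter fun w : Fin (2 * (k + 1)) → ZMod p => v ⬝ᵥ (β.1 - α.1).mulVec w = 0) =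
          Finset.univ.filter fun w : Fin (2 * (k + 1)) → ZMod p => ∑ j, Matrix.vecMul v (β.1 - α.1) j * w j = 0 := by
        refine Finset.filter_congr fun w _ => ?_
        rw [Matrix.dotProduct_mulVec]
        rfl
      rw [h8]
      have h9 : p * (Finset.univ.filter fun w : Fin (2 * (k + 1)) → ZMod p =>
          ∑ j, Matrix.vecMul v (β.1 - α.1) j * w j = 0).card = p * p ^ (2 * k + 1) := by
        rw [h7]
        ring
      exact (Nat.eq_of_mul_eq_mul_left hp.out.pos h9).le
  have h5 : (p ^ 2 - 1) * (p ^ 2 - 1) * (Finset.univ.filter fun b : AltS p (2 * (k + 1)) =>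
      (b.1 + α.1).det = 0 ∧ (b.1 + β.1).det = 0).card ≤
      p ^ (2 * (k + 1)) * (p ^ (2 * k + 1) * A) + p ^ (2 * k) * (p ^ (2 * k) * (p ^ 2 - 1) * A) := by
    rw [h2] at h1
    refine h1.trans ((Finset.sum_le_sum h3).trans ?_)
    rw [Finset.sum_add_distrib, Finset.sum_const, smul_eq_mul, ← Finset.sum_filter, Finset.sum_const, smul_eq_mul]
    refine Nat.add_le_add (Nat.mul_le_mul_right _ hXc) (Nat.mul_le_mul_right _ ?_)
    refine le_trans (Finset.card_le_card ?_) (ker_eta (n := 2 * k) (β.1 - α.1) hηalt hη0)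
    intro v hv
    rw [Finset.mem_filter] at hv ⊢
    exact ⟨Finset.mem_univ _, hv.2⟩
  calc _ ≤ p * (p ^ (2 * (k + 1)) * (p ^ (2 * k + 1) * A) + p ^ (2 * k) * (p ^ (2 * k) * (p ^ 2 - 1) * A)) :=
        Nat.mul_le_mul_left _ h5
    _ = (p ^ 3 + p ^ 2 - 1) * Fintype.card (AltS p (2 * (k + 1))) := by
      rw [hV]
      obtain ⟨q, hq⟩ : ∃ q, p = q + 1 := ⟨p - 1, by omega⟩
      have e1 : p ^ 2 - 1 = q * (q + 2) := by
        rw [hq]
        have : (q + 1) ^ 2 = q * (q + 2) + 1 := by ring
        rw [this, Nat.add_sub_cancel]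
      have e5 : p ^ 3 + p ^ 2 - 1 = p ^ 3 + q * (q + 2) := by
        have : 1 ≤ p ^ 2 := Nat.one_le_pow _ _ hp.out.pos
        omega
      have e3 : p ^ (2 * (k + 1)) = p ^ (2 * k) * p ^ 2 := by ring
      have e4 : p ^ (2 * k + 1) = p ^ (2 * k) * p := pow_succ _ _
      rw [e5, e1, e3, e4]
      ring

open Classical in
/-- **The second moment.** For a set of `C` translates the number `G` of the matrices with a degenerate translate is
bounded below. -/
theorem moment {κ : Type} [Fintype κ] (k : ℕ) (T : κ → AltS p (2 * (k + 1))) (hT : Function.Injective T)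
    (J : ℕ) (hJ : ∀ c c', c ≠ c' → (Finset.univ.filter fun b : AltS p (2 * (k + 1)) => (b.1 + (T c).1).det = 0 ∧
      (b.1 + (T c').1).det = 0).card ≤ J) :
    (Fintype.card κ * Fintype.card (AltS p (2 * (k + 1)))) ^ 2 ≤
      (Finset.univ.filter fun b : AltS p (2 * (k + 1)) => ∃ c, (b.1 + (T c).1).det = 0).card *
        (p * (Fintype.card κ * Fintype.card (AltS p (2 * (k + 1)))) + p ^ 2 *
          (Fintype.card κ * ((Fintype.card κ - 1) * J))) := by
  set V := Fintype.card (AltS p (2 * (k + 1))) with hV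
  set D := (Finset.univ.filter fun b : AltS p (2 * (k + 1)) => pf (2 * (k + 1)) b.1 = 0).card with hD
  set q := Fintype.card κ with hq
  have h1 : V ≤ p * D := card_deg (p := p) k
  let N : AltS p (2 * (k + 1)) → ℕ := fun b => (Finset.univ.filter fun c : κ => (b.1 + (T c).1).det = 0).card
  set G := (Finset.univ.filter fun b : AltS p (2 * (k + 1)) => ∃ c, (b.1 + (T c).1).det = 0) with hG
  -- the first moment
  have h2 : q * D = ∑ b, N b := by
    calc q * D = ∑ _c : κ, D := by rw [Finset.sum_const, Finset.card_univ, smul_eq_mul]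
      _ = ∑ c : κ, (Finset.univ.filter fun b : AltS p (2 * (k + 1)) => (b.1 + (T c).1).det = 0).card := by
        refine Finset.sum_congr rfl fun c _ => ?_
        rw [hD]
        symm
        refine Finset.card_nbij' (fun b => b + T c) (fun b => b - T c) ?_ ?_ ?_ ?_
        · intro b hb
          simp only [Finset.coe_filter, Finset.mem_univ, true_and, Set.mem_setOf_eq] at hb ⊢
          exact (det_zero_iff _ (b + T c).2).1 hb
        · intro b hb
          simp only [Finset.coe_filter, Finset.mem_univ, true_and, Set.mem_setOf_eq] at hb ⊢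
          have h3 : (b - T c).1 + (T c).1 = b.1 := sub_add_cancel _ _
          rw [h3]
          exact (det_zero_iff _ b.2).2 hb
        · intro b _; exact add_sub_cancel_right _ _
        · intro b _; exact sub_add_cancel _ _
      _ = ∑ b, N b := by
        simp only [N, Finset.card_filter]
        exact Finset.sum_comm
  -- the second moment
  have h3 : ∑ b, N b ^ 2 ≤ q * D + q * ((q - 1) * J) := by
    have h4 : ∑ b, N b ^ 2 = ∑ c : κ, ∑ c' : κ, (Finset.univ.filter fun b : AltS p (2 * (k + 1)) =>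
          (b.1 + (T c).1).det = 0 ∧ (b.1 + (T c').1).det = 0).card := by
      have h5 : ∀ b, N b ^ 2 = ∑ c : κ, ∑ c' : κ, if (b.1 + (T c).1).det = 0 ∧ (b.1 + (T c').1).det = 0 then 1 else 0 := by
        intro b
        have h6 : N b = ∑ c : κ, if (b.1 + (T c).1).det = 0 then 1 else 0 := Finset.card_filter _ _
        rw [sq, h6, Finset.sum_mul_sum]
        refine Finset.sum_congr rfl fun c _ => Finset.sum_congr rfl fun c' _ => ?_
        by_cases hv : (b.1 + (T c).1).det = 0
        · by_cases hw : (b.1 + (T c').1).det = 0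
          · rw [if_pos hv, if_pos hw, if_pos ⟨hv, hw⟩, mul_one]
          · have hn : ¬ ((b.1 + (T c).1).det = 0 ∧ (b.1 + (T c').1).det = 0) := fun h => hw h.2
            rw [if_neg hw, if_neg hn, mul_zero]
        · have hn : ¬ ((b.1 + (T c).1).det = 0 ∧ (b.1 + (T c').1).det = 0) := fun h => hv h.1
          rw [if_neg hv, if_neg hn, zero_mul]
      rw [Finset.sum_congr rfl fun b _ => h5 b, Finset.sum_comm]
      refine Finset.sum_congr rfl fun c _ => ?_
      rw [Finset.sum_comm]
      refine Finset.sum_congr rfl fun c' _ => ?_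
      rw [Finset.card_filter]
    rw [h4]
    have h7 : ∀ c : κ, ∑ c' : κ, (Finset.univ.filter fun b : AltS p (2 * (k + 1)) =>
          (b.1 + (T c).1).det = 0 ∧ (b.1 + (T c').1).det = 0).card ≤
        (Finset.univ.filter fun b : AltS p (2 * (k + 1)) => (b.1 + (T c).1).det = 0).card + (q - 1) * J := by
      intro c
      rw [← Finset.add_sum_erase _ _ (Finset.mem_univ c)]
      refine Nat.add_le_add ?_ ?_
      · refine Finset.card_le_card fun b hb => ?_
        rw [Finset.mem_filter] at hb ⊢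
        exact ⟨Finset.mem_univ _, hb.2.1⟩
      · refine (Finset.sum_le_sum fun c' hc' => hJ c c' (Finset.ne_of_mem_erase hc').symm).trans ?_
        rw [Finset.sum_const, Finset.card_erase_of_mem (Finset.mem_univ _), Finset.card_univ, smul_eq_mul]
    refine (Finset.sum_le_sum fun c _ => h7 c).trans ?_
    rw [Finset.sum_add_distrib, Finset.sum_const (_ * J), Finset.card_univ, smul_eq_mul]
    refine Nat.add_le_add_right (le_of_eq ?_) _
    rw [h2]
    simp only [N, Finset.card_filter]
    exact Finset.sum_comm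
  -- Cauchy-Schwarz
  have h5 : (q * D) ^ 2 ≤ G.card * ∑ b, N b ^ 2 := by
    have h6 : q * D = ∑ b ∈ G, N b := by
      rw [h2]
      symm
      refine Finset.sum_subset (Finset.subset_univ _) fun b _ hb => ?_
      change (Finset.univ.filter _).card = 0
      rw [Finset.card_eq_zero, Finset.filter_eq_empty_iff]
      intro c _ hc
      exact hb (Finset.mem_filter.2 ⟨Finset.mem_univ _, c, hc⟩)
    rw [h6]
    refine (sq_sum_le_card_mul_sum_sq (s := G) (f := N)).trans ?_
    exact Nat.mul_le_mul_left _ (Finset.sum_le_sum_of_subset (Finset.subset_univ _))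
  have h6 : (q * D) ^ 2 ≤ G.card * (q * D + q * ((q - 1) * J)) := h5.trans (Nat.mul_le_mul_left _ h3)
  -- monotonicity
  set M := q * ((q - 1) * J) with hM
  rcases Nat.eq_zero_or_pos q with hq0 | hq0
  · rw [hq0, zero_mul, sq, zero_mul]
    exact Nat.zero_le _
  have hVpos : 0 < V := Fintype.card_pos
  have hs0 : 0 < q * V := Nat.mul_pos hq0 hVpos
  set s := p * (q * D) with hs
  have h7 : q * V ≤ s := by
    rw [hs]
    calc q * V ≤ q * (p * D) := Nat.mul_le_mul_left _ h1
      _ = _ := by ring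
  have h8 : s ^ 2 ≤ G.card * (p * s + p ^ 2 * M) := by
    rw [hs]
    calc (p * (q * D)) ^ 2 = p ^ 2 * (q * D) ^ 2 := by ring
      _ ≤ p ^ 2 * (G.card * (q * D + M)) := Nat.mul_le_mul_left _ h6
      _ = _ := by ring
  have hppos : 0 < p := hp.out.pos
  clear_value s M
  have h9 : s ^ 2 * (q * V) ^ 2 ≤ s ^ 2 * (G.card * (p * (q * V) + p ^ 2 * M)) := by
    have h10 : (q * V) ^ 2 * (p * s + p ^ 2 * M) ≤ s ^ 2 * (p * (q * V) + p ^ 2 * M) := by
      have e1 : (q * V) ^ 2 ≤ s ^ 2 := Nat.pow_le_pow_left h7 2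
      have e2 : (q * V) ^ 2 * (p * s) ≤ s ^ 2 * (p * (q * V)) := by
        calc (q * V) ^ 2 * (p * s) = (q * V) * (p * (q * V) * s) := by ring
          _ ≤ s * (p * (q * V) * s) := Nat.mul_le_mul_right _ h7
          _ = _ := by ring
      calc _ = (q * V) ^ 2 * (p * s) + (q * V) ^ 2 * (p ^ 2 * M) := by ring
        _ ≤ s ^ 2 * (p * (q * V)) + s ^ 2 * (p ^ 2 * M) := Nat.add_le_add e2 (Nat.mul_le_mul_right _ e1)
        _ = _ := by ring
    have h11 : s ^ 2 * ((q * V) ^ 2) ≤ G.card * (s ^ 2 * (p * (q * V) + p ^ 2 * M)) := by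
      calc s ^ 2 * ((q * V) ^ 2) ≤ (G.card * (p * s + p ^ 2 * M)) * (q * V) ^ 2 := Nat.mul_le_mul_right _ h8
        _ = G.card * ((q * V) ^ 2 * (p * s + p ^ 2 * M)) := by ring
        _ ≤ _ := Nat.mul_le_mul_left _ h10
    calc _ ≤ _ := h11
      _ = _ := by ring
  exact Nat.le_of_mul_le_mul_left h9 (pow_pos (lt_of_lt_of_le hs0 h7) 2)

end Run7.h438.PE
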