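import Mathlib
import Pool.Agent.Run7.h438.PE1
import Pool.Agent.Run7.h438.PC2

/-! Counting classes which are sums of `g - 1` symbols by the second moment. -/

set_option autoImplicit false
set_option linter.all false

open scoped TensorProduct
open Matrix

namespace Run7.h438.PE

open Pool.Agent.Helper346.Bra Pool.Agent.Helper18.Br Pool.Agent.H552R3.SymBr Pool.Agent.H552R3.SymPred
  Pool.Agent.H552R3.Tsen Pool.Agent.Helper929 Pool.Agent.Y109.PI Run7.h438.PC

universe u

theorem arith (p q V G J E F q' : ℕ) (hq : 0 < q) (hV : 0 < V)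
    (h1 : (q * V) ^ 2 ≤ G * (p * (q * V) + p ^ 2 * (q * (q' * J))))
    (h2 : p * (E * J) ≤ F * V) : q * E * V ≤ G * (p * (E + q' * F)) := by
  have h3 : (q * V) * (q * E * V) ≤ (q * V) * (G * (p * (E + q' * F))) := by
    calc (q * V) * (q * E * V) = E * (q * V) ^ 2 := by ring
      _ ≤ E * (G * (p * (q * V) + p ^ 2 * (q * (q' * J)))) := Nat.mul_le_mul_left _ h1
      _ = G * (p * (q * V) * E) + G * (p * q * q') * (p * (E * J)) := by ring
      _ ≤ G * (p * (q * V) * E) + G * (p * q * q') * (F * V) := Nat.add_le_add_left (Nat.mul_le_mul_left _ h2) _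
      _ = (q * V) * (G * (p * (E + q' * F))) := by ring
  exact Nat.le_of_mul_le_mul_left h3 (Nat.mul_pos hq hV)

theorem arith1 (p V G : ℕ) (hp : 2 ≤ p)
    (h : p * ((p ^ 2 - 1) * (p ^ 2 - 1)) * V ≤ G * (p * ((p ^ 2 - 1) * (p ^ 2 - 1) + (p - 1) * (p ^ 3 + p ^ 2 - 1)))) :
    9 * V ≤ 20 * G := by
  obtain ⟨t, rfl⟩ : ∃ t, p = t + 2 := ⟨p - 2, by omega⟩
  have e1 : (t + 2) ^ 2 - 1 = (t + 1) * (t + 3) := by
    have : (t + 2) ^ 2 = (t + 1) * (t + 3) + 1 := by ring
    rw [this, Nat.add_sub_cancel]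
  have e2 : (t + 2) ^ 3 + (t + 2) ^ 2 - 1 = t ^ 3 + 7 * t ^ 2 + 16 * t + 11 := by
    have : (t + 2) ^ 3 + (t + 2) ^ 2 = t ^ 3 + 7 * t ^ 2 + 16 * t + 11 + 1 := by ring
    rw [this, Nat.add_sub_cancel]
  have e3 : t + 2 - 1 = t + 1 := by omega
  rw [e1, e2, e3] at h
  have h1 : (t + 2) * (t + 1) * ((t ^ 3 + 7 * t ^ 2 + 15 * t + 9) * V) ≤
      (t + 2) * (t + 1) * ((2 * t ^ 3 + 14 * t ^ 2 + 31 * t + 20) * G) := by
    calc _ = (t + 2) * ((t + 1) * (t + 3) * ((t + 1) * (t + 3))) * V := by ring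
      _ ≤ _ := h
      _ = _ := by ring
  have h2 := Nat.le_of_mul_le_mul_left h1 (Nat.mul_pos (Nat.succ_pos _) (Nat.succ_pos _))
  have h3 : (2 * t ^ 3 + 14 * t ^ 2 + 31 * t + 20) * (9 * V) ≤ (2 * t ^ 3 + 14 * t ^ 2 + 31 * t + 20) * (20 * G) := by
    calc _ = (9 * (2 * t ^ 3 + 14 * t ^ 2 + 31 * t + 20)) * V := by ring
      _ ≤ (20 * (t ^ 3 + 7 * t ^ 2 + 15 * t + 9)) * V := by
        refine Nat.mul_le_mul_right _ ?_
        nlinarith [Nat.zero_le t, Nat.zero_le (t ^ 2), Nat.zero_le (t ^ 3)]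
      _ = 20 * ((t ^ 3 + 7 * t ^ 2 + 15 * t + 9) * V) := by ring
      _ ≤ 20 * ((2 * t ^ 3 + 14 * t ^ 2 + 31 * t + 20) * G) := Nat.mul_le_mul_left _ h2
      _ = _ := by ring
  exact Nat.le_of_mul_le_mul_left h3 (Nat.succ_pos _)

theorem arith2 (p V G : ℕ) (hp : 2 ≤ p)
    (h : p ^ 2 * ((p ^ 2 - 1) * (p ^ 2 - 1)) * V ≤
      G * (p * ((p ^ 2 - 1) * (p ^ 2 - 1) + (p ^ 2 - 1) * (p ^ 3 + p ^ 2 - 1)))) :
    (p - 2) * V ≤ p * G := by
  obtain ⟨t, rfl⟩ : ∃ t, p = t + 2 := ⟨p - 2, by omega⟩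
  have e1 : (t + 2) ^ 2 - 1 = (t + 1) * (t + 3) := by
    have : (t + 2) ^ 2 = (t + 1) * (t + 3) + 1 := by ring
    rw [this, Nat.add_sub_cancel]
  have e2 : (t + 2) ^ 3 + (t + 2) ^ 2 - 1 = t ^ 3 + 7 * t ^ 2 + 16 * t + 11 := by
    have : (t + 2) ^ 3 + (t + 2) ^ 2 = t ^ 3 + 7 * t ^ 2 + 16 * t + 11 + 1 := by ring
    rw [this, Nat.add_sub_cancel]
  have e3 : t + 2 - 2 = t := by omega
  rw [e1, e2] at h
  rw [e3]
  have h1 : (t + 2) * ((t + 1) * (t + 3)) * ((t ^ 3 + 6 * t ^ 2 + 11 * t + 6) * V) ≤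
      (t + 2) * ((t + 1) * (t + 3)) * ((t ^ 3 + 8 * t ^ 2 + 20 * t + 14) * G) := by
    calc _ = (t + 2) ^ 2 * ((t + 1) * (t + 3) * ((t + 1) * (t + 3))) * V := by ring
      _ ≤ _ := h
      _ = _ := by ring
  have h2 := Nat.le_of_mul_le_mul_left h1 (Nat.mul_pos (Nat.succ_pos _) (Nat.mul_pos (Nat.succ_pos _) (Nat.succ_pos _)))
  have h3 : (t ^ 3 + 8 * t ^ 2 + 20 * t + 14) * (t * V) ≤ (t ^ 3 + 8 * t ^ 2 + 20 * t + 14) * ((t + 2) * G) := by
    calc _ = (t * (t ^ 3 + 8 * t ^ 2 + 20 * t + 14)) * V := by ring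
      _ ≤ ((t + 2) * (t ^ 3 + 6 * t ^ 2 + 11 * t + 6)) * V := by
        refine Nat.mul_le_mul_right _ ?_
        nlinarith [Nat.zero_le t, Nat.zero_le (t ^ 2), Nat.zero_le (t ^ 3), Nat.zero_le (t ^ 4)]
      _ = (t + 2) * ((t ^ 3 + 6 * t ^ 2 + 11 * t + 6) * V) := by ring
      _ ≤ (t + 2) * ((t ^ 3 + 8 * t ^ 2 + 20 * t + 14) * G) := Nat.mul_le_mul_left _ h2
      _ = _ := by ring
  exact Nat.le_of_mul_le_mul_left h3 (Nat.succ_pos _)

section

variable {p : ℕ} [hp : Fact p.Prime]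

open Classical in
theorem count_gen {κ : Type} [Fintype κ] (k : ℕ) (T : κ → AltS p (2 * (k + 1))) (hT : Function.Injective T)
    (hκ : 0 < Fintype.card κ) :
    Fintype.card κ * ((p ^ 2 - 1) * (p ^ 2 - 1)) * Fintype.card (AltS p (2 * (k + 1))) ≤
      (Finset.univ.filter fun b : AltS p (2 * (k + 1)) => ∃ c, (b.1 + (T c).1).det = 0).card *
        (p * ((p ^ 2 - 1) * (p ^ 2 - 1) + (Fintype.card κ - 1) * (p ^ 3 + p ^ 2 - 1))) := by
  set V := Fintype.card (AltS p (2 * (k + 1))) with hV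
  have hVpos : 0 < V := Fintype.card_pos
  have hpos : 0 < p * ((p ^ 2 - 1) * (p ^ 2 - 1)) := by
    have h1 : 1 < p ^ 2 := Nat.one_lt_pow two_ne_zero hp.out.one_lt
    exact Nat.mul_pos hp.out.pos (Nat.mul_pos (by omega) (by omega))
  -- the maximum of the numbers
  let J : ℕ := (p ^ 3 + p ^ 2 - 1) * V / (p * ((p ^ 2 - 1) * (p ^ 2 - 1)))
  have hJ2 : p * ((p ^ 2 - 1) * (p ^ 2 - 1) * J) ≤ (p ^ 3 + p ^ 2 - 1) * V := by
    rw [← mul_assoc]
    exact Nat.mul_div_le _ _
  refine arith p (Fintype.card κ) V _ J _ _ _ hκ hVpos (moment k T hT J ?_) hJ2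
  intro c c' hc
  rw [Nat.le_div_iff_mul_le hpos]
  calc _ = p * ((p ^ 2 - 1) * (p ^ 2 - 1) * (Finset.univ.filter fun b : AltS p (2 * (k + 1)) =>
        (b.1 + (T c).1).det = 0 ∧ (b.1 + (T c').1).det = 0).card) := by ring
    _ ≤ _ := J_gen k (T c) (T c') (fun h => hc (hT h))

open Classical in
/-- **One nonzero direction.** -/
theorem count_one (g : ℕ) (hg : 0 < g) (ω : AltS p (2 * g)) (hω : ω.1 ≠ 0) :
    9 * Fintype.card (AltS p (2 * g)) ≤ 20 * (Finset.univ.filter fun b : AltS p (2 * g) =>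
      ∃ c : ZMod p, (b.1 + c • ω.1).det = 0).card := by
  obtain ⟨k, rfl⟩ : ∃ k, g = k + 1 := ⟨g - 1, by omega⟩
  let T : ZMod p → AltS p (2 * (k + 1)) := fun c => ⟨c • ω.1, Alt.smul ω.2 c⟩
  have hT : Function.Injective T := by
    intro c c' h
    have h1 : c • ω.1 = c' • ω.1 := congrArg Subtype.val h
    have h2 : (c - c') • ω.1 = 0 := by rw [sub_smul, h1, sub_self]
    rcases smul_eq_zero.1 h2 with h3 | h3
    · exact sub_eq_zero.1 h3
    · exact absurd h3 hω
  have h1 := count_gen k T hT (by rw [ZMod.card]; exact hp.out.pos)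
  rw [ZMod.card] at h1
  exact arith1 p _ _ hp.out.two_le h1

open Classical in
/-- **Independent directions.** -/
theorem count_r (g r : ℕ) (hg : 0 < g) (ω : Fin r → AltS p (2 * g))
    (hω : ∀ c : Fin r → ZMod p, ∑ i, c i • (ω i).1 = 0 → c = 0) :
    p ^ r * ((p ^ 2 - 1) * (p ^ 2 - 1)) * Fintype.card (AltS p (2 * g)) ≤
      (Finset.univ.filter fun b : AltS p (2 * g) => ∃ c : Fin r → ZMod p, (b.1 + ∑ i, c i • (ω i).1).det = 0).card *
        (p * ((p ^ 2 - 1) * (p ^ 2 - 1) + (p ^ r - 1) * (p ^ 3 + p ^ 2 - 1))) := by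
  obtain ⟨k, rfl⟩ : ∃ k, g = k + 1 := ⟨g - 1, by omega⟩
  have halt : ∀ c : Fin r → ZMod p, Alt (∑ i, c i • (ω i).1) := by
    intro c
    have h1 : (∑ i, c i • (ω i).1) ∈ AltS p (2 * (k + 1)) :=
      AddSubgroup.sum_mem _ fun i _ => (Alt.smul (ω i).2 (c i) : Alt (c i • (ω i).1))
    exact h1
  let T : (Fin r → ZMod p) → AltS p (2 * (k + 1)) := fun c => ⟨∑ i, c i • (ω i).1, halt c⟩
  have hT : Function.Injective T := by
    intro c c' h
    have h1 : ∑ i, c i • (ω i).1 = ∑ i, c' i • (ω i).1 := congrArg Subtype.val h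
    have h2 := hω (c - c') (by
      simp only [Pi.sub_apply, sub_smul, Finset.sum_sub_distrib]
      rw [h1, sub_self])
    exact sub_eq_zero.1 h2
  have hcard : Fintype.card (Fin r → ZMod p) = p ^ r := by rw [Fintype.card_fun, ZMod.card, Fintype.card_fin]
  have h1 := count_gen k T hT (by rw [hcard]; exact pow_pos hp.out.pos r)
  rw [hcard] at h1
  exact h1

end

open Classical in
/-- counting along a homomorphism -/
theorem count_hom' {V B : Type*} [AddCommGroup V] [Fintype V] [CommGroup B] (Φ : Multiplicative V →* B) (S : Set B)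
    (hS : S = Set.range Φ) (x y : ℕ) (good : V → Prop) (prop : B → Prop)
    (hgood : x * Fintype.card V ≤ y * (Finset.univ.filter good).card)
    (h : ∀ b, good b → prop (Φ (Multiplicative.ofAdd b))) :
    x * S.ncard ≤ y * {α | α ∈ S ∧ prop α}.ncard := by
  subst hS
  set im : Finset B := Finset.univ.image (fun b : V => Φ (Multiplicative.ofAdd b)) with him
  have h1 : Set.range Φ = (im : Set B) := by
    ext y
    rw [him, Finset.coe_image, Finset.coe_univ, Set.image_univ]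
    rfl
  have h2 : {α | α ∈ Set.range Φ ∧ prop α} = ((im.filter prop : Finset B) : Set B) := by
    ext y
    rw [Finset.coe_filter, h1]
    rfl
  rw [h2, h1, Set.ncard_coe_finset, Set.ncard_coe_finset]
  set N := (Finset.univ.filter fun b : V => Φ (Multiplicative.ofAdd b) = 1).card with hN
  have hN0 : 0 < N := by
    rw [hN, Finset.card_pos]
    exact ⟨0, Finset.mem_filter.2 ⟨Finset.mem_univ _, by rw [ofAdd_zero, map_one]⟩⟩
  have hfib : ∀ y ∈ im, (Finset.univ.filter fun b : V => Φ (Multiplicative.ofAdd b) = y).card = N := by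
    intro y hy
    rw [him, Finset.mem_image] at hy
    obtain ⟨b, -, rfl⟩ := hy
    rw [hN]
    refine Finset.card_nbij' (fun x => x - b) (fun x => x + b) ?_ ?_ ?_ ?_
    · intro x hx
      simp only [Finset.coe_filter, Finset.mem_univ, true_and, Set.mem_setOf_eq] at hx ⊢
      rw [ofAdd_sub, map_div, hx, div_self']
    · intro x hx
      simp only [Finset.coe_filter, Finset.mem_univ, true_and, Set.mem_setOf_eq] at hx ⊢
      rw [ofAdd_add, map_mul, hx, one_mul]
    · intro x _; exact sub_add_cancel _ _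
    · intro x _; exact add_sub_cancel_right _ _
  have h3 : Fintype.card V = im.card * N := by
    rw [← Finset.card_univ, Finset.card_eq_sum_card_fiberwise (f := fun b : V => Φ (Multiplicative.ofAdd b)) (t := im)
      (fun b _ => Finset.mem_coe.2 (Finset.mem_image_of_mem _ (Finset.mem_univ _))), Finset.sum_congr rfl hfib,
      Finset.sum_const, smul_eq_mul]
  have h4 : (Finset.univ.filter good).card ≤ (im.filter prop).card * N := by
    have h5 : (Finset.univ.filter good) ⊆ Finset.univ.filter fun b : V => prop (Φ (Multiplicative.ofAdd b)) := by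
      intro b hb
      rw [Finset.mem_filter] at hb ⊢
      exact ⟨Finset.mem_univ _, h b hb.2⟩
    refine (Finset.card_le_card h5).trans (le_of_eq ?_)
    rw [Finset.card_eq_sum_card_fiberwise (f := fun b : V => Φ (Multiplicative.ofAdd b)) (t := im.filter prop)
      (fun b hb => by
        have hb' := (Finset.mem_filter.1 (Finset.mem_coe.1 hb)).2
        exact Finset.mem_coe.2 (Finset.mem_filter.2 ⟨Finset.mem_image_of_mem _ (Finset.mem_univ _), hb'⟩))]
    have h6 : ∀ y ∈ im.filter prop, ((Finset.univ.filter fun b : V => prop (Φ (Multiplicative.ofAdd b))).filter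
        fun b => Φ (Multiplicative.ofAdd b) = y).card = N := by
      intro y hy
      rw [Finset.mem_filter] at hy
      rw [← hfib y hy.1, Finset.filter_filter]
      congr 1
      refine Finset.filter_congr fun b _ => ?_
      constructor
      · rintro ⟨-, h⟩; exact h
      · intro h; exact ⟨by rw [h]; exact hy.2, h⟩
    rw [Finset.sum_congr rfl h6, Finset.sum_const, smul_eq_mul]
  have h7 : N * (x * im.card) ≤ N * (y * (im.filter prop).card) := by
    calc N * (x * im.card) = x * Fintype.card V := by rw [h3]; ring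
      _ ≤ y * (Finset.univ.filter good).card := hgood
      _ ≤ y * ((im.filter prop).card * N) := Nat.mul_le_mul_left _ h4
      _ = _ := by ring
  exact Nat.le_of_mul_le_mul_left h7 hN0

open Classical in
/-- **The classes with a degenerate translate are sums of `g - 1` symbols.** -/
theorem core {k K : Type u} [Field k] [IsAlgClosed k] [Field K] [Algebra k K] (p : ℕ) [hp : Fact p.Prime]
    (ζ : K) (hζ : IsPrimitiveRoot ζ p) (g : ℕ) (hg : 0 < g) (z : Fin (2 * g) → Kˣ)
    (θ : Fin (2 * g) → Fin (2 * g) → BrauerGroup.{u, u} K) (hθ : ∀ u v, IsSym p ζ (z u) (z v) (θ u v))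
    (r : ℕ) (w : Fin r → Fin (2 * g) → Fin (2 * g) → ℤ) (hrel0 : ∀ i, ∏ u, ∏ v, θ u v ^ w i u v = 1)
    (G : Subgroup Kˣ) (hG : G = Subgroup.closure (Set.range (Units.map (algebraMap k K).toMonoidHom) ∪ Set.range z))
    (S : Set (BrauerGroup.{u, u} K))
    (hS : S = Subgroup.closure {γ | ∃ a ∈ G, ∃ b ∈ G, IsSym p ζ a b γ}) (x y : ℕ)
    (hxy : x * Fintype.card (AltS p (2 * g)) ≤ y * (Finset.univ.filter fun b : AltS p (2 * g) =>
      ∃ c : Fin r → ZMod p, (b.1 + ∑ i, c i • red p (dif (w i))).det = 0).card) :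
    S.Finite ∧ x * S.ncard ≤ y * {α | α ∈ S ∧ ((∃ (s t : Fin (g - 1) → Kˣ) (σ : Fin (g - 1) → BrauerGroup.{u, u} K),
      (∀ i, IsSym p ζ (s i) (t i) (σ i)) ∧ α = ∏ i, σ i) ∧ IndDvd α (p ^ (g - 1)))}.ncard := by
  haveI : NeZero p := ⟨hp.out.ne_zero⟩
  have hn : 0 < p := hp.out.pos
  have hQ : ∀ i, Q (symHom hn hζ) z (w i) = 1 := by
    intro i
    rw [← hrel0 i, Q, Fintype.prod_prod_type]
    refine Finset.prod_congr rfl fun u _ => Finset.prod_congr rfl fun v _ => ?_
    rw [(isSym_iff hn hζ (z u) (z v) (θ u v)).1 (hθ u v), symHom_apply]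
  let H : Subgroup Kˣ := (Units.map (algebraMap k K).toMonoidHom).range
  have hneg : (-1 : Kˣ) ∈ H := by
    refine ⟨-1, ?_⟩
    ext
    simp
  have hconst : ∀ a ∈ H, ∀ b, symHom hn hζ a b = 1 := by
    rintro _ ⟨c, rfl⟩ b
    obtain ⟨d, hd⟩ := IsAlgClosed.exists_pow_nat_eq (c : k) hn
    have hd0 : d ≠ 0 := by
      rintro rfl
      rw [zero_pow hn.ne'] at hd
      exact c.ne_zero hd.symm
    have hc : c = (Units.mk0 d hd0) ^ p := by
      ext
      rw [Units.val_pow_eq_pow_val, Units.val_mk0, hd]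
    rw [hc, map_pow, map_pow, MonoidHom.pow_apply, symHom_apply, symCl_tors]
  have hVH : ∀ a ∈ H, ∀ b ∈ H, symHom hn hζ a b ∈ (⊥ : Subgroup (BrauerGroup.{u, u} K)) := fun a ha b _ => by
    rw [hconst a ha b]; exact Subgroup.one_mem _
  have hlow : low (symHom hn hζ) H ⊥ z ≤ (⊥ : Subgroup (BrauerGroup.{u, u} K)) := by
    refine sup_le le_rfl ?_
    rw [Subgroup.closure_le]
    rintro γ ⟨a, ha, u, rfl⟩
    rw [hconst a ha]
    exact Subgroup.one_mem _
  have hGH : G = H ⊔ Subgroup.closure (Set.range z) := by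
    rw [hG, Subgroup.closure_union]
    congr 1
    exact Subgroup.closure_eq H
  have hset : {γ | ∃ a ∈ G, ∃ b ∈ G, IsSym p ζ a b γ} = {γ | ∃ a ∈ H ⊔ Subgroup.closure (Set.range z),
      ∃ b ∈ H ⊔ Subgroup.closure (Set.range z), γ = symHom hn hζ a b} := by
    ext γ
    simp only [Set.mem_setOf_eq, isSym_iff hn hζ, hGH, symHom_apply]
  -- congruent exponents give the same class
  have hcongr : ∀ w w' : Fin (2 * g) → Fin (2 * g) → ℤ, (∀ u v, ((dif w u v : ℤ) : ZMod p) = (dif w' u v : ℤ)) →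
      Q (symHom hn hζ) z w = Q (symHom hn hζ) z w' := by
    intro w w' h
    have h1 := Q_congr (s := symHom hn hζ) (fun a b => symCl_anti hn hζ a b) p (fun a b => symCl_tors hn hζ a b) (-1)
      H hneg (fun a => symCl_diag hn hζ a) ⊥ z w w' (fun u v => by
        rw [← ZMod.intCast_zmod_eq_zero_iff_dvd, Int.cast_sub, sub_eq_zero]
        exact h u v)
    exact mul_inv_eq_one.1 (Subgroup.mem_bot.1 (hlow h1))
  let Φ : Multiplicative (AltS p (2 * g)) →* BrauerGroup.{u, u} K :=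
    { toFun := fun b => Q (symHom hn hζ) z (lft (Multiplicative.toAdd b).1)
      map_one' := by
        have e1 : lft ((Multiplicative.toAdd (1 : Multiplicative (AltS p (2 * g)))).1) = 0 := by
          funext u v
          change (if u < v then (((0 : ZMod p).val : ℕ) : ℤ) else 0) = 0
          rw [ZMod.val_zero]
          simp
        rw [e1, Q_zero]
      map_mul' := fun b b' => by
        rw [← Q_add]
        refine hcongr _ _ fun u v => ?_
        rw [dif_lft _ (Multiplicative.toAdd (b * b')).2]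
        have e1 : dif (lft (Multiplicative.toAdd b).1 + lft (Multiplicative.toAdd b').1) u v =
            dif (lft (Multiplicative.toAdd b).1) u v + dif (lft (Multiplicative.toAdd b').1) u v := by
          simp only [dif, Matrix.of_apply, Pi.add_apply]
          ring
        rw [e1, Int.cast_add, dif_lft _ (Multiplicative.toAdd b).2, dif_lft _ (Multiplicative.toAdd b').2]
        rfl }
  have hΦ : ∀ b : AltS p (2 * g), Φ (Multiplicative.ofAdd b) = Q (symHom hn hζ) z (lft b.1) := fun b => rfl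
  -- the range
  have hrange : S = Set.range Φ := by
    rw [hS, hset]
    apply Set.Subset.antisymm
    · intro α hα
      obtain ⟨w1, hw1⟩ := exists_Q (s := symHom hn hζ) (fun a b => symCl_anti hn hζ a b) H ⊥ hVH z α hα
      have h1 := mul_inv_eq_one.1 (Subgroup.mem_bot.1 (hlow hw1))
      refine ⟨Multiplicative.ofAdd ⟨red p (dif w1), (alt_dif w1).map' _⟩, ?_⟩
      rw [hΦ, h1]
      refine hcongr _ _ fun u v => ?_
      exact dif_lft (red p (dif w1)) ((alt_dif w1).map' _) u v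
    · rintro _ ⟨b, rfl⟩
      change Q (symHom hn hζ) z (lft (Multiplicative.toAdd b).1) ∈ _
      rw [Q]
      refine Subgroup.prod_mem _ fun q _ => Subgroup.zpow_mem _ (Subgroup.subset_closure ?_) _
      exact ⟨z q.1, Subgroup.mem_sup_right (Subgroup.subset_closure ⟨q.1, rfl⟩), z q.2,
        Subgroup.mem_sup_right (Subgroup.subset_closure ⟨q.2, rfl⟩), rfl⟩
  refine ⟨by rw [hrange]; exact Set.finite_range Φ, ?_⟩
  refine count_hom' Φ S hrange x y (fun b => ∃ c : Fin r → ZMod p,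
    (b.1 + ∑ i, c i • red p (dif (w i))).det = 0) _ ?_ ?_
  · convert hxy
  · rintro b ⟨c, hc⟩
    have hI : Fintype.card (Fin (2 * g)) = 2 * g := Fintype.card_fin _
    let c' : Fin r → ℤ := fun i => (c i).val
    have hc' : ∀ i, (c' i : ZMod p) = c i := fun i => vcast (c i)
    have hred : red p (dif (lft b.1 + ∑ i, c' i • w i)) = b.1 + ∑ i, c i • red p (dif (w i)) := by
      ext u v
      have e1 : dif (lft b.1 + ∑ i, c' i • w i) u v = dif (lft b.1) u v + ∑ i, c' i * dif (w i) u v := by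
        simp only [dif, Matrix.of_apply, Pi.add_apply, Finset.sum_apply, Pi.smul_apply, smul_eq_mul]
        rw [add_sub_add_comm, ← Finset.sum_sub_distrib]
        congr 1
        refine Finset.sum_congr rfl fun i _ => ?_
        ring
      rw [Matrix.add_apply, Matrix.sum_apply]
      change ((dif (lft b.1 + ∑ i, c' i • w i) u v : ℤ) : ZMod p) =
        b.1 u v + ∑ i, (c i * ((dif (w i) u v : ℤ) : ZMod p))
      rw [e1, Int.cast_add, Int.cast_sum, dif_lft _ b.2]
      congr 1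
      refine Finset.sum_congr rfl fun i _ => ?_
      rw [Int.cast_mul, hc']
    obtain ⟨e, f, hef⟩ := sing_decomp g hg hI (red p (dif (lft b.1 + ∑ i, c' i • w i))) ((alt_dif _).map' _) (by
      rw [hred]; exact hc)
    have h1 := mod_low (s := symHom hn hζ) (fun a b => symCl_anti hn hζ a b) p
      (fun a b => symCl_tors hn hζ a b) (-1) H hneg (fun a => symCl_diag hn hζ a) ⊥ z
      (lft b.1 + ∑ i, c' i • w i) (g - 1)
      (fun i u => ((e i u).val : ℤ)) (fun i u => ((f i u).val : ℤ)) (by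
        intro u v
        rw [← ZMod.intCast_zmod_eq_zero_iff_dvd, Int.cast_sub, sub_eq_zero]
        have e2 : ((((lft b.1 + ∑ i, c' i • w i) u v - (lft b.1 + ∑ i, c' i • w i) v u : ℤ)) : ZMod p) =
            red p (dif (lft b.1 + ∑ i, c' i • w i)) u v := rfl
        rw [e2, hef, Matrix.sum_apply, Matrix.sum_apply, Int.cast_sum]
        refine Finset.sum_congr rfl fun i _ => ?_
        simp only [wdg, Matrix.of_apply, Int.cast_sub, Int.cast_mul, vcast])
    have h2 := mul_inv_eq_one.1 (Subgroup.mem_bot.1 (hlow h1))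
    have h3 : Q (symHom hn hζ) z (∑ i, c' i • w i) = 1 := by
      rw [Q_comb]
      exact Finset.prod_eq_one fun i _ => by rw [hQ, _root_.one_zpow]
    rw [Q_add, h3, mul_one] at h2
    rw [hΦ]
    refine ⟨⟨_, _, fun i => symCl hn hζ _ _, fun i => (isSym_iff hn hζ _ _ _).2 rfl, h2⟩, ?_⟩
    rw [h2]
    exact (hasRep_prod hn hζ (g - 1) _ _).indDvd

/-- **The bounds.** -/
theorem main {k K : Type u} [Field k] [IsAlgClosed k] [Field K] [Algebra k K] (p : ℕ) [hp : Fact p.Prime]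
    (ζ : K) (hζ : IsPrimitiveRoot ζ p) (g : ℕ) (hg : 0 < g) (z : Fin (2 * g) → Kˣ)
    (θ : Fin (2 * g) → Fin (2 * g) → BrauerGroup.{u, u} K) (hθ : ∀ u v, IsSym p ζ (z u) (z v) (θ u v))
    (r : ℕ) (w : Fin r → Fin (2 * g) → Fin (2 * g) → ℤ) (hrel0 : ∀ i, ∏ u, ∏ v, θ u v ^ w i u v = 1)
    (hind : ∀ c : Fin r → ℤ, (∀ u v, (p : ℤ) ∣ ∑ i, c i * (w i u v - w i v u)) → ∀ i, (p : ℤ) ∣ c i)
    (G : Subgroup Kˣ) (hG : G = Subgroup.closure (Set.range (Units.map (algebraMap k K).toMonoidHom) ∪ Set.range z))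
    (S : Set (BrauerGroup.{u, u} K))
    (hS : S = Subgroup.closure {γ | ∃ a ∈ G, ∃ b ∈ G, IsSym p ζ a b γ}) (P : Set (BrauerGroup.{u, u} K))
    (hP : P = {α | α ∈ S ∧ ((∃ (s t : Fin (g - 1) → Kˣ) (σ : Fin (g - 1) → BrauerGroup.{u, u} K),
      (∀ i, IsSym p ζ (s i) (t i) (σ i)) ∧ α = ∏ i, σ i) ∧ IndDvd α (p ^ (g - 1)))}) :
    S.Finite ∧
    p ^ r * (p ^ 2 - 1) ^ 2 * S.ncard ≤ p * ((p ^ 2 - 1) ^ 2 + (p ^ r - 1) * (p ^ 3 + p ^ 2 - 1)) * P.ncard ∧
    (r = 1 → 9 * S.ncard ≤ 20 * P.ncard) ∧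
    (r = 2 → (p - 2) * S.ncard ≤ p * P.ncard) ∧
    (∀ i, ¬ (p : ℤ) ∣ (Matrix.of fun u v => w i u v - w i v u : Matrix (Fin (2 * g)) (Fin (2 * g)) ℤ).det →
      S.ncard ≤ 2 * P.ncard) := by
  classical
  haveI : NeZero p := ⟨hp.out.ne_zero⟩
  subst hP
  let ω : Fin r → AltS p (2 * g) := fun i => ⟨red p (dif (w i)), (alt_dif (w i)).map' _⟩
  have hω : ∀ c : Fin r → ZMod p, ∑ i, c i • (ω i).1 = 0 → c = 0 := by
    intro c hc
    funext i
    have h1 := hind (fun i => ((c i).val : ℤ)) (by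
      intro u v
      have h3 := congrFun (congrFun hc u) v
      rw [Matrix.sum_apply] at h3
      rw [← ZMod.intCast_zmod_eq_zero_iff_dvd, Int.cast_sum]
      refine Eq.trans (Finset.sum_congr rfl fun j _ => ?_) h3
      rw [Int.cast_mul, vcast]
      rfl) i
    rw [Pi.zero_apply, ← vcast (c i)]
    exact (ZMod.intCast_zmod_eq_zero_iff_dvd _ _).2 h1
  have hcount := count_r g r hg ω hω
  have hall := core p ζ hζ g hg z θ hθ r w hrel0 G hG S hS
  have hgen : p ^ r * (p ^ 2 - 1) ^ 2 * Fintype.card (AltS p (2 * g)) ≤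
      p * ((p ^ 2 - 1) ^ 2 + (p ^ r - 1) * (p ^ 3 + p ^ 2 - 1)) * (Finset.univ.filter fun b : AltS p (2 * g) =>
      ∃ c : Fin r → ZMod p, (b.1 + ∑ i, c i • red p (dif (w i))).det = 0).card := by
    rw [sq (p ^ 2 - 1), mul_comm (p * _)]
    exact hcount
  refine ⟨(hall 0 0 (by rw [zero_mul]; exact Nat.zero_le _)).1, ?_, fun hr => ?_, fun hr => ?_, fun i hw => ?_⟩
  · refine (hall _ _ ?_).2
    convert hgen
  · subst hr
    rw [pow_one] at hcount
    have h1 := arith1 p _ _ hp.out.two_le hcount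
    refine (hall _ _ ?_).2
    convert h1
  · subst hr
    have h1 := arith2 p _ _ hp.out.two_le hcount
    refine (hall _ _ ?_).2
    convert h1
  · have hdet : (ω i).1.det ≠ 0 := by
      change (red p (dif (w i))).det ≠ 0
      rw [← red_det]
      exact fun h => hw ((ZMod.intCast_zmod_eq_zero_iff_dvd _ _).1 h)
    have hsub : (Finset.univ.filter fun b : AltS p (2 * g) => ∃ c : ZMod p, (b.1 + c • (ω i).1).det = 0).card ≤
        (Finset.univ.filter fun b : AltS p (2 * g) => ∃ c : Fin r → ZMod p,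
          (b.1 + ∑ i, c i • red p (dif (w i))).det = 0).card := by
      refine Finset.card_le_card fun b hb => ?_
      rw [Finset.mem_filter] at hb ⊢
      obtain ⟨-, c, hc⟩ := hb
      refine ⟨Finset.mem_univ _, Pi.single i c, ?_⟩
      rw [Finset.sum_eq_single i]
      · rw [Pi.single_eq_same]
        exact hc
      · intro j _ hj
        rw [Pi.single_eq_of_ne hj, zero_smul]
      · intro h
        exact absurd (Finset.mem_univ _) h
    have h1 := (PD.main_count g hg (ω i) hdet).trans (Nat.mul_le_mul_left _ hsub)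
    have h2 := (hall 1 2 (by
      rw [one_mul]
      convert h1)).2
    rwa [one_mul] at h2

end Run7.h438.PE
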