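import Mathlib
import Pool.Agent.Y109.PI.RM

/-! Orders with a prime of degree one: the trace forms contain a form of rank two modulo all powers of `p`. -/

set_option autoImplicit false
set_option linter.all false

open Matrix

namespace Run7.h438.PB

open Pool.Agent.Y109.PI

universe v

variable {O : Type v} [CommRing O] {g : ℕ} (ε : Module.Basis (Fin g) ℤ O) (p : ℕ) [hp : Fact p.Prime]

theorem dvd_of_cd {r : O} (h : cd ε p r = 0) : (p : O) ∣ r := by
  have h1 : ∀ i, (p : ℤ) ∣ ε.repr r i := fun i => (ZMod.intCast_zmod_eq_zero_iff_dvd _ _).1 (congrFun h i)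
  rw [← ε.sum_repr r]
  refine Finset.dvd_sum fun i _ => ?_
  obtain ⟨c, hc⟩ := h1 i
  rw [hc, mul_smul, zsmul_eq_mul]
  exact ⟨c • ε i, by push_cast; rfl⟩

theorem cd_of_dvd {r : O} (h : (p : O) ∣ r) : cd ε p r = 0 := by
  obtain ⟨c, rfl⟩ := h
  funext i
  have h1 : (p : O) * c = (p : ℤ) • c := by rw [zsmul_eq_mul]; push_cast; rfl
  rw [cd_apply, h1, map_smul, Finsupp.smul_apply, smul_eq_mul, Int.cast_mul]
  simp

/-- the coordinates against the trace form -/
theorem cd_vecMul (r : O) (l : Fin g) : (cd ε p r ᵥ* Dp ε p) l = ((Algebra.trace ℤ O (r * ε l) : ℤ) : ZMod p) := by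
  rw [vecMul, dotProduct]
  have h4 : r * ε l = ∑ k, ε.repr r k • (ε k * ε l) := by
    conv_lhs => rw [← ε.sum_repr r]
    rw [Finset.sum_mul]
    exact Finset.sum_congr rfl fun m _ => by rw [smul_mul_assoc]
  rw [h4, map_sum, Int.cast_sum]
  refine Finset.sum_congr rfl fun k _ => ?_
  rw [Dp, Matrix.of_apply, map_zsmul, smul_eq_mul, Int.cast_mul]
  rfl

/-- the element dual to a homomorphism to the prime field -/
theorem exists_dual (hd : ¬ (p : ℤ) ∣ Algebra.discr ℤ ε) (φ : O →+* ZMod p) :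
    ∃ e : O, φ e = 1 ∧ ∀ (r : O) (s : ℤ), φ r = s → (p : O) ∣ e * r - (s : O) * e := by
  haveI : NeZero p := ⟨hp.out.ne_zero⟩
  have hdet : (Dp ε p).det ≠ 0 := by
    rw [det_Dp]
    exact fun h => hd ((ZMod.intCast_zmod_eq_zero_iff_dvd _ _).1 h)
  have hu : IsUnit (Dp ε p).det := isUnit_iff_ne_zero.2 hdet
  let c : Fin g → ZMod p := (fun l => φ (ε l)) ᵥ* (Dp ε p)⁻¹
  let e0 : O := ∑ k, ((c k).val : ℤ) • ε k
  have hcd : cd ε p e0 = c := by
    funext i
    rw [cd_apply, map_sum, Finsupp.finsetSum_apply, Finset.sum_eq_single i]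
    · rw [map_zsmul, Finsupp.smul_apply, Module.Basis.repr_self, Finsupp.single_eq_same, smul_eq_mul, mul_one, vcast]
    · intro k _ hk
      rw [map_zsmul, Finsupp.smul_apply, Module.Basis.repr_self, Finsupp.single_eq_of_ne (Ne.symm hk), smul_zero]
    · intro h; exact absurd (Finset.mem_univ _) h
  have htr0 : ∀ l, ((Algebra.trace ℤ O (e0 * ε l) : ℤ) : ZMod p) = φ (ε l) := by
    intro l
    rw [← cd_vecMul, hcd]
    have h1 : c ᵥ* Dp ε p = fun l => φ (ε l) := by
      rw [Matrix.vecMul_vecMul, Matrix.nonsing_inv_mul _ hu, Matrix.vecMul_one]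
    rw [h1]
  have htr : ∀ r : O, ((Algebra.trace ℤ O (e0 * r) : ℤ) : ZMod p) = φ r := by
    intro r
    conv_rhs => rw [← ε.sum_repr r]
    conv_lhs => rw [← ε.sum_repr r]
    rw [Finset.mul_sum, map_sum, Int.cast_sum, map_sum]
    refine Finset.sum_congr rfl fun l _ => ?_
    rw [mul_smul_comm, map_zsmul, map_zsmul, smul_eq_mul, Int.cast_mul, htr0, zsmul_eq_mul]
  have hmul : ∀ (r : O) (s : ℤ), φ r = s → (p : O) ∣ e0 * r - (s : O) * e0 := by
    intro r s hrs
    apply dvd_of_cd ε p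
    refine Matrix.eq_zero_of_vecMul_eq_zero hdet ?_
    funext l
    rw [cd_vecMul, sub_mul, map_sub, Int.cast_sub, Pi.zero_apply, sub_eq_zero]
    have e1 : e0 * r * ε l = e0 * (r * ε l) := by ring
    have e2 : (s : O) * e0 * ε l = s • (e0 * ε l) := by rw [zsmul_eq_mul]; ring
    rw [e1, e2, htr, map_zsmul, smul_eq_mul, Int.cast_mul, htr, map_mul, hrs]
  have hφ : φ e0 ≠ 0 := by
    intro h0
    have h1 := hmul e0 0 (by rw [h0, Int.cast_zero])
    rw [Int.cast_zero, zero_mul, sub_zero] at h1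
    have h2 : Mp ε p (e0 * e0) = 0 := by
      rw [Mp_eq_sum, cd_of_dvd ε p h1]
      simp
    have h3 := red_Mp ε p hd e0 ⟨2, by rw [sq, ← map_mul, h2]⟩
    have h4 : cd ε p e0 = 0 := cd_eq_zero_of_Mp ε p h3
    have h5 := htr 1
    rw [mul_one, map_one, trace_mod ε p, h3] at h5
    simp at h5
  refine ⟨((φ e0)⁻¹.val : O) * e0, ?_, ?_⟩
  · rw [map_mul, map_natCast, ZMod.natCast_val, ZMod.cast_id', id, inv_mul_cancel₀ hφ]
  · intro r s hrs
    have e1 : ((φ e0)⁻¹.val : O) * e0 * r - (s : O) * (((φ e0)⁻¹.val : O) * e0) =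
        ((φ e0)⁻¹.val : O) * (e0 * r - (s : O) * e0) := by ring
    rw [e1]
    exact (hmul r s hrs).mul_left _

/-- lifting idempotents -/
theorem exists_idem (e1 : O) (h1 : (p : O) ∣ e1 * e1 - e1) : ∀ a : ℕ, 0 < a →
    ∃ e : O, (p : O) ^ a ∣ e * e - e ∧ (p : O) ∣ e - e1 := by
  intro a ha
  induction a with
  | zero => omega
  | succ a ih =>
    rcases Nat.eq_zero_or_pos a with h0 | h0
    · subst h0
      exact ⟨e1, by simpa using h1, by simp⟩
    · obtain ⟨e, he1, he2⟩ := ih h0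
      refine ⟨3 * e ^ 2 - 2 * e ^ 3, ?_, ?_⟩
      · have e3 : (3 * e ^ 2 - 2 * e ^ 3) * (3 * e ^ 2 - 2 * e ^ 3) - (3 * e ^ 2 - 2 * e ^ 3) =
            ((e * e - e) * (e * e - e)) * (4 * (e * e - e) - 3) := by ring
        rw [e3]
        refine Dvd.dvd.mul_right ?_ _
        have h2 : (p : O) ^ (a + 1) ∣ (p : O) ^ a * (p : O) ^ a := by
          rw [← pow_add]
          exact pow_dvd_pow _ (by omega)
        exact h2.trans (mul_dvd_mul he1 he1)
      · have e3 : (3 * e ^ 2 - 2 * e ^ 3) - e1 = -(2 * e - 1) * (e * e - e) + (e - e1) := by ring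
        rw [e3]
        exact dvd_add (Dvd.dvd.mul_left ((dvd_pow_self _ h0.ne').trans he1) _) he2

/-- multiplication by the idempotent is scalar -/
theorem scal (φ : O →+* ZMod p) (e1 : O) (hmul : ∀ (r : O) (s : ℤ), φ r = s → (p : O) ∣ e1 * r - (s : O) * e1)
    (a : ℕ) (e : O) (he : (p : O) ^ a ∣ e * e - e) (hee : (p : O) ∣ e - e1) :
    ∀ j : ℕ, j ≤ a → ∀ r : O, ∃ s : ℤ, (p : O) ^ j ∣ e * r - (s : O) * e := by
  haveI : NeZero p := ⟨hp.out.ne_zero⟩
  intro j
  induction j with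
  | zero => intro _ r; exact ⟨0, by simp⟩
  | succ j ih =>
    intro hj r
    obtain ⟨s, y, hy⟩ := ih (by omega) r
    have h1 : (p : O) ∣ e * y - (((φ y).val : ℤ) : O) * e := by
      have h2 := hmul y ((φ y).val : ℤ) (by rw [vcast])
      obtain ⟨c, hc⟩ := hee
      obtain ⟨d, hd⟩ := h2
      refine ⟨c * y - (((φ y).val : ℤ) : O) * c + d, ?_⟩
      have e4 : e = e1 + p * c := by rw [← hc]; ring
      rw [e4]
      linear_combination hd
    obtain ⟨w, hw⟩ := h1
    obtain ⟨v, hv⟩ := he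
    have h5 : (p : O) ^ (j + 1) ∣ (p : O) ^ a := pow_dvd_pow _ hj
    obtain ⟨q, hq⟩ := h5
    refine ⟨s + (p : ℤ) ^ j * ((φ y).val : ℤ), w - q * v * (r - (s : O)), ?_⟩
    -- `e r - s e = p ^ j e y - (e² - e) (r - s)`
    have h6 : e * r - (s : O) * e = (p : O) ^ j * (e * y) - (e * e - e) * (r - (s : O)) := by
      linear_combination e * hy
    push_cast at hw ⊢
    rw [hv, hq] at h6
    linear_combination h6 + (p : O) ^ j * hw

/-- **A form of rank two modulo `p ^ a`.** -/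
theorem rm_rank_two (hd : ¬ (p : ℤ) ∣ Algebra.discr ℤ ε) (φ : O →+* ZMod p) (a : ℕ) (ha : 0 < a) :
    ∃ c0 : Fin g → ℤ, (∃ i, ¬ (p : ℤ) ∣ c0 i) ∧ ∃ x y : Fin g ⊕ Fin g → ℤ, ∀ u v,
      (p : ℤ) ^ a ∣ (∑ i, c0 i • dif (rmw ε i)) u v - wdg x y u v := by
  obtain ⟨e1, he1, hmul⟩ := exists_dual ε p hd φ
  have hid := hmul e1 1 (by rw [he1, Int.cast_one])
  rw [Int.cast_one, one_mul] at hid
  obtain ⟨e, hea, hee⟩ := exists_idem p e1 hid a ha
  have hs := scal p φ e1 hmul a e hea hee a le_rfl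
  choose s hs using fun k => hs (ε k)
  have htrdvd : ∀ z : O, (p : O) ^ a ∣ z → (p : ℤ) ^ a ∣ Algebra.trace ℤ O z := by
    rintro _ ⟨z, rfl⟩
    have e1 : (p : O) ^ a * z = ((p : ℤ) ^ a) • z := by rw [zsmul_eq_mul]; push_cast; rfl
    rw [e1, map_zsmul, smul_eq_mul]
    exact Dvd.intro _ rfl
  have hkl : ∀ k l, (p : ℤ) ^ a ∣ Algebra.trace ℤ O (e * ε k * ε l) - s k * (Algebra.trace ℤ O e * s l) := by
    intro k l
    have h1 : (p : O) ^ a ∣ e * ε k * ε l - (s k * s l) • e := by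
      have e2 : e * ε k * ε l - (s k * s l) • e = (e * ε k - (s k : O) * e) * ε l +
          (s k : O) * (e * ε l - (s l : O) * e) := by
        rw [zsmul_eq_mul]
        push_cast
        ring
      rw [e2]
      exact dvd_add ((hs k).mul_right _) ((hs l).mul_left _)
    have h2 := htrdvd _ h1
    rw [map_sub, map_zsmul, smul_eq_mul] at h2
    have e3 : s k * (Algebra.trace ℤ O e * s l) = s k * s l * Algebra.trace ℤ O e := by ring
    rw [e3]
    exact h2
  have hsum : ∀ k l, ∑ i, ε.repr e i * Algebra.trace ℤ O (ε i * ε k * ε l) = Algebra.trace ℤ O (e * ε k * ε l) := by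
    intro k l
    conv_rhs => rw [← ε.sum_repr e]
    rw [Finset.sum_mul, Finset.sum_mul, map_sum]
    refine Finset.sum_congr rfl fun i _ => ?_
    rw [smul_mul_assoc, smul_mul_assoc, map_zsmul, smul_eq_mul]
  refine ⟨fun i => ε.repr e i, ?_, Sum.elim s 0, Sum.elim 0 (fun l => Algebra.trace ℤ O e * s l), ?_⟩
  · by_contra hcon
    push Not at hcon
    have h1 : (p : O) ∣ e := dvd_of_cd ε p (by
      funext i
      exact (ZMod.intCast_zmod_eq_zero_iff_dvd _ _).2 (hcon i))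
    have h2 : (p : O) ∣ e1 := by
      have := dvd_sub h1 hee
      rwa [sub_sub_cancel] at this
    obtain ⟨z, hz⟩ := h2
    rw [hz, map_mul, map_natCast, CharP.cast_eq_zero, zero_mul] at he1
    exact zero_ne_one he1
  · rintro (k | k) (l | l)
    · simp [dif, rmw, Matrix.sum_apply, wdg]
    · have h1 : (∑ i, ε.repr e i • dif (rmw ε i)) (Sum.inl k) (Sum.inr l) = Algebra.trace ℤ O (e * ε k * ε l) := by
        rw [← hsum]
        simp [dif, rmw, Matrix.sum_apply]
      rw [h1]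
      simp only [wdg, Matrix.of_apply, Sum.elim_inl, Sum.elim_inr, Pi.zero_apply, zero_mul, mul_zero, sub_zero]
      exact hkl k l
    · have h1 : (∑ i, ε.repr e i • dif (rmw ε i)) (Sum.inr k) (Sum.inl l) = - Algebra.trace ℤ O (e * ε l * ε k) := by
        rw [← hsum]
        simp [dif, rmw, Matrix.sum_apply]
      rw [h1]
      simp only [wdg, Matrix.of_apply, Sum.elim_inl, Sum.elim_inr, Pi.zero_apply, zero_mul, mul_zero, zero_sub]
      have h2 := hkl l k
      have e3 : -Algebra.trace ℤ O (e * ε l * ε k) - -(Algebra.trace ℤ O e * s k * s l) =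
          -(Algebra.trace ℤ O (e * ε l * ε k) - s l * (Algebra.trace ℤ O e * s k)) := by ring
      rw [e3]
      exact (dvd_neg).2 h2
    · simp [dif, rmw, Matrix.sum_apply, wdg]

end Run7.h438.PB
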