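import Mathlib
import Pool.Agent.Y109.PI.Ord
import Pool.Agent.Y109.PI.Frob

/-! Rank two updates of alternating matrices modulo prime powers. -/

set_option autoImplicit false
set_option linter.all false

open Matrix

namespace Run7.h438.PB

open Pool.Agent.Y109.PI

section

variable {I : Type} [Fintype I] [DecidableEq I]

/-- rank two update over a field -/
theorem upd_field {F : Type} [Field F] (B : Matrix I I F) (hB : Alt B) (x y : I → F) (hd : B.det ≠ 0) (t : F) :
    (B + t • wdg x y).det = B.det * (1 + t * (y ⬝ᵥ (B⁻¹ *ᵥ x))) ^ 2 := by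
  have hu : IsUnit B.det := isUnit_iff_ne_zero.2 hd
  set wx := B⁻¹ *ᵥ x with hwx
  set wy := B⁻¹ *ᵥ y with hwy
  have hBx : B *ᵥ wx = x := by rw [hwx, Matrix.mulVec_mulVec, Matrix.mul_nonsing_inv B hu, Matrix.one_mulVec]
  have hBy : B *ᵥ wy = y := by rw [hwy, Matrix.mulVec_mulVec, Matrix.mul_nonsing_inv B hu, Matrix.one_mulVec]
  have h00 : x ⬝ᵥ wx = 0 := by
    have := alt_dot_self hB wx
    rw [hBx, dotProduct_comm] at this
    exact this
  have h11 : y ⬝ᵥ wy = 0 := by
    have := alt_dot_self hB wy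
    rw [hBy, dotProduct_comm] at this
    exact this
  have h01 : x ⬝ᵥ wy = - (y ⬝ᵥ wx) := by
    have := alt_dot hB wx wy
    rw [hBx, hBy, dotProduct_comm wx y, dotProduct_comm wy x] at this
    rw [this, neg_neg]
  let U : Matrix I (Fin 2) F := Matrix.of fun u k => ![x u, y u] k
  let V : Matrix (Fin 2) I F := Matrix.of fun k v => ![y v, - x v] k
  have hUV : wdg x y = U * V := by
    ext u v
    rw [Matrix.mul_apply, Fin.sum_univ_two]
    simp only [wdg, U, V, Matrix.of_apply, Matrix.cons_val_zero, Matrix.cons_val_one]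
    ring
  have h1 : B + t • wdg x y = B * (1 + (B⁻¹ * (t • U)) * V) := by
    rw [Matrix.mul_add, Matrix.mul_one, ← Matrix.mul_assoc, ← Matrix.mul_assoc, Matrix.mul_nonsing_inv B hu,
      Matrix.one_mul, hUV, Matrix.smul_mul]
  rw [h1, Matrix.det_mul, Matrix.det_one_add_mul_comm]
  congr 1
  have hX : ∀ k, (B⁻¹ * U) k 0 = wx k := by
    intro k
    rw [Matrix.mul_apply, hwx]
    rfl
  have hY : ∀ k, (B⁻¹ * U) k 1 = wy k := by
    intro k
    rw [Matrix.mul_apply, hwy]
    rfl
  have e00 : (V * (B⁻¹ * (t • U))) 0 0 = t * (y ⬝ᵥ wx) := by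
    rw [Matrix.mul_smul, Matrix.mul_smul, Matrix.smul_apply, smul_eq_mul, Matrix.mul_apply]
    simp only [hX]
    rfl
  have e01 : (V * (B⁻¹ * (t • U))) 0 1 = 0 := by
    rw [Matrix.mul_smul, Matrix.mul_smul, Matrix.smul_apply, smul_eq_mul, Matrix.mul_apply]
    simp only [hY]
    have : ∑ j, V 0 j * wy j = y ⬝ᵥ wy := rfl
    rw [this, h11, mul_zero]
  have e10 : (V * (B⁻¹ * (t • U))) 1 0 = 0 := by
    rw [Matrix.mul_smul, Matrix.mul_smul, Matrix.smul_apply, smul_eq_mul, Matrix.mul_apply]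
    simp only [hX]
    have : ∑ j, V 1 j * wx j = (-x) ⬝ᵥ wx := rfl
    rw [this, neg_dotProduct, h00, neg_zero, mul_zero]
  have e11 : (V * (B⁻¹ * (t • U))) 1 1 = t * (y ⬝ᵥ wx) := by
    rw [Matrix.mul_smul, Matrix.mul_smul, Matrix.smul_apply, smul_eq_mul, Matrix.mul_apply]
    simp only [hY]
    have : ∑ j, V 1 j * wy j = (-x) ⬝ᵥ wy := rfl
    rw [this, neg_dotProduct, h01, neg_neg]
  rw [Matrix.det_fin_two, Matrix.add_apply, Matrix.add_apply, Matrix.add_apply, Matrix.add_apply, e00, e01, e10, e11,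
    Matrix.one_apply_eq, Matrix.one_apply_eq, Matrix.one_apply_ne (by decide : (0 : Fin 2) ≠ 1),
    Matrix.one_apply_ne (by decide : (1 : Fin 2) ≠ 0)]
  ring

/-- rank two update over the integers -/
theorem upd (B : Matrix I I ℤ) (hB : Alt B) (x y : I → ℤ) (hd : B.det ≠ 0) (t : ℤ) :
    B.det * (B + t • wdg x y).det = (B.det + t * (y ⬝ᵥ (B.adjugate *ᵥ x))) ^ 2 := by
  let φ : ℤ →+* ℚ := Int.castRingHom ℚ
  have hφ : Function.Injective φ := Int.cast_injective
  have hB' : Alt (B.map φ) := hB.map' φ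
  have hdet : (B.map φ).det = φ B.det := (RingHom.map_det φ B).symm
  have hd' : (B.map φ).det ≠ 0 := by
    rw [hdet]
    exact fun h => hd (hφ (by rw [h, map_zero]))
  have h1 := upd_field (B.map φ) hB' (fun u => φ (x u)) (fun u => φ (y u)) hd' (φ t)
  have e1 : (B + t • wdg x y).map φ = B.map φ + φ t • wdg (fun u => φ (x u)) (fun u => φ (y u)) := by
    ext u v
    simp only [Matrix.map_apply, Matrix.add_apply, Matrix.smul_apply, wdg, Matrix.of_apply, smul_eq_mul, map_add,
      map_mul, map_sub]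
  have e2 : (fun u => φ (y u)) ⬝ᵥ ((B.map φ)⁻¹ *ᵥ fun u => φ (x u)) =
      (φ B.det)⁻¹ * φ (y ⬝ᵥ (B.adjugate *ᵥ x)) := by
    rw [Matrix.inv_def, Ring.inverse_eq_inv', hdet, Matrix.smul_mulVec, dotProduct_smul, smul_eq_mul]
    congr 1
    have h3 : (B.map φ).adjugate = B.adjugate.map φ := (RingHom.map_adjugate φ B).symm
    rw [h3]
    simp only [dotProduct, mulVec, map_sum, map_mul, Matrix.map_apply]
  have e3 : ((B + t • wdg x y).map φ).det = φ (B + t • wdg x y).det := (RingHom.map_det φ _).symm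
  rw [e2, ← e1, e3, hdet] at h1
  apply hφ
  rw [map_mul, h1, map_pow, map_add, map_mul]
  have hd2 : φ B.det ≠ 0 := fun h => hd (hφ (by rw [h, map_zero]))
  field_simp

/-- sums of few decomposable matrices are degenerate -/
theorem det_wedges {F : Type} [Field F] (r : ℕ) (hr : 2 * r < Fintype.card I) (e f : Fin r → I → F) :
    (∑ i, wdg (e i) (f i)).det = 0 := by
  let U : Matrix I (Fin r ⊕ Fin r) F := Matrix.of fun u k => Sum.elim (fun i => e i u) (fun i => f i u) k
  let V : Matrix (Fin r ⊕ Fin r) I F := Matrix.of fun k v => Sum.elim (fun i => f i v) (fun i => - e i v) k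
  have hUV : (∑ i, wdg (e i) (f i)) = U * V := by
    ext u v
    rw [Matrix.mul_apply, Fintype.sum_sum_type, Matrix.sum_apply, ← Finset.sum_add_distrib]
    refine Finset.sum_congr rfl fun i _ => ?_
    simp only [wdg, U, V, Matrix.of_apply, Sum.elim_inl, Sum.elim_inr]
    ring
  by_contra hne
  have h1 : (∑ i, wdg (e i) (f i)).rank = Fintype.card I :=
    Matrix.rank_of_isUnit _ ((Matrix.isUnit_iff_isUnit_det _).2 (isUnit_iff_ne_zero.2 hne))
  have h2 : (U * V).rank ≤ Fintype.card (Fin r ⊕ Fin r) := (Matrix.rank_mul_le_left U V).trans (Matrix.rank_le_card_width U)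
  rw [← hUV, h1, Fintype.card_sum, Fintype.card_fin] at h2
  omega

/-- the determinant divides the square of the product of the elementary divisors -/
theorem frob_det (g : ℕ) (hI : Fintype.card I = 2 * g) (b : Matrix I I ℤ) (d : Fin g → ℤ)
    (e f A B : Fin g → I → ℤ) (hmat : b = ∑ i, d i • wdg (e i) (f i))
    (hAB : ∀ u v : I, (∑ i, A i u * e i v) + (∑ i, B i u * f i v) = if u = v then 1 else 0) :
    b.det ∣ (∏ i, d i) ^ 2 := by
  obtain ⟨σ⟩ : Nonempty (I ≃ Fin g ⊕ Fin g) := by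
    refine Fintype.card_eq.1 ?_
    rw [hI, Fintype.card_sum, Fintype.card_fin]; ring
  let M : Matrix I I ℤ := Matrix.of fun k v => Sum.elim e f (σ k) v
  let N : Matrix I I ℤ := Matrix.of fun k v => Sum.elim f (-e) (σ k) v
  let D : Matrix I I ℤ := Matrix.diagonal fun k => Sum.elim d d (σ k)
  let L : Matrix I I ℤ := Matrix.of fun u k => Sum.elim (fun i => A i u) (fun i => B i u) (σ k)
  let L' : Matrix I I ℤ := Matrix.of fun u k => Sum.elim (fun i => B i u) (fun i => - A i u) (σ k)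
  have hM : b = M.transpose * (D * N) := by
    rw [hmat]
    ext u v
    rw [Matrix.mul_apply, Matrix.sum_apply, ← Equiv.sum_comp σ.symm, Fintype.sum_sum_type,
      ← Finset.sum_add_distrib]
    refine Finset.sum_congr rfl fun i _ => ?_
    simp only [M, N, D, wdg, Matrix.transpose_apply, Matrix.of_apply, Equiv.apply_symm_apply, Sum.elim_inl,
      Sum.elim_inr, Pi.neg_apply, Matrix.smul_apply, Matrix.diagonal_mul, smul_eq_mul]
    ring
  have hD : D.det = (∏ i, d i) ^ 2 := by
    rw [Matrix.det_diagonal, ← Equiv.prod_comp σ.symm, Fintype.prod_sum_type]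
    simp only [Equiv.apply_symm_apply, Sum.elim_inl, Sum.elim_inr]
    rw [sq]
  have hLM : L * M = 1 := by
    ext u v
    rw [Matrix.mul_apply, ← Equiv.sum_comp σ.symm, Fintype.sum_sum_type, Matrix.one_apply, ← hAB u v]
    simp only [L, M, Matrix.of_apply, Equiv.apply_symm_apply, Sum.elim_inl, Sum.elim_inr]
  have hLN : L' * N = 1 := by
    ext u v
    rw [Matrix.mul_apply, ← Equiv.sum_comp σ.symm, Fintype.sum_sum_type, Matrix.one_apply, ← hAB u v, add_comm]
    simp only [L', N, Matrix.of_apply, Equiv.apply_symm_apply, Sum.elim_inl, Sum.elim_inr, Pi.neg_apply, neg_mul_neg]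
  have hMu : IsUnit M.det := IsUnit.of_mul_eq_one L.det (by
    rw [mul_comm, ← Matrix.det_mul, hLM, Matrix.det_one])
  have hNu : IsUnit N.det := IsUnit.of_mul_eq_one L'.det (by
    rw [mul_comm, ← Matrix.det_mul, hLN, Matrix.det_one])
  rw [hM, Matrix.det_mul, Matrix.det_mul, Matrix.det_transpose, hD]
  have h1 : M.det * ((∏ i, d i) ^ 2 * N.det) = (∏ i, d i) ^ 2 * (M.det * N.det) := by ring
  rw [h1]
  exact (IsUnit.mul_right_dvd (hMu.mul hNu)).2 dvd_rfl

/-- **Local decomposition.** A degenerate alternating matrix modulo `p` which becomes nondegenerate when a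
decomposable matrix is added can be moved by a multiple of the latter to a sum of `g - 1` decomposable ones modulo
any power of `p`. -/
theorem local_dec (p a g : ℕ) (hp : p.Prime) (ha : 0 < a) (hg : 0 < g) (hI : Fintype.card I = 2 * g)
    (B : Matrix I I ℤ) (hB : Alt B) (x y : I → ℤ) (h0 : (p : ℤ) ∣ B.det) (h1 : ¬ (p : ℤ) ∣ (B + wdg x y).det) :
    ∃ (t : ℤ) (e f : Fin (g - 1) → I → ℤ), ∀ u v,
      (p : ℤ) ^ a ∣ (B + t • wdg x y) u v - (∑ i, wdg (e i) (f i)) u v := by
  obtain ⟨r, rfl⟩ : ∃ r, g = r + 1 := ⟨g - 1, by omega⟩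
  have hpp : Prime (p : ℤ) := Nat.prime_iff_prime_int.1 hp
  set B1 := B + wdg x y with hB1
  have hB1alt : Alt B1 := hB.add (alt_wdg x y)
  have hd : B1.det ≠ 0 := fun h => h1 (by rw [h]; exact dvd_zero _)
  set d := B1.det with hd'
  set m := y ⬝ᵥ (B1.adjugate *ᵥ x) with hm
  have hB0 : B = B1 + (-1 : ℤ) • wdg x y := by rw [hB1, neg_smul, one_smul]; abel
  have h2 := upd B1 hB1alt x y hd (-1)
  rw [← hB0, ← hd', ← hm] at h2
  have h3 : (p : ℤ) ∣ d + -1 * m := hpp.dvd_of_dvd_pow (by rw [← h2]; exact h0.mul_left _)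
  have hpm : ¬ (p : ℤ) ∣ m := by
    intro h
    apply h1
    have : d = (d + -1 * m) + m := by ring
    rw [this]
    exact dvd_add h3 h
  have hm0 : m ≠ 0 := fun h => hpm (by rw [h]; exact dvd_zero _)
  -- the parameter
  obtain ⟨s, hs, hs0⟩ : ∃ s : ℤ, (p : ℤ) ^ a ∣ d + s * m ∧ d + s * m ≠ 0 := by
    have hc : IsCoprime ((p : ℤ) ^ a) m := IsCoprime.pow_left (hpp.coprime_iff_not_dvd.2 hpm)
    obtain ⟨α, β, hαβ⟩ := hc
    have hpa : ((p : ℤ) ^ a) ≠ 0 := pow_ne_zero _ (by exact_mod_cast hp.ne_zero)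
    have h4 : (p : ℤ) ^ a ∣ d + (-d * β) * m := by
      refine ⟨d * α, ?_⟩
      linear_combination (-d) * hαβ
    by_cases h5 : d + (-d * β) * m = 0
    · refine ⟨-d * β + (p : ℤ) ^ a, ?_, ?_⟩
      · have : d + (-d * β + (p : ℤ) ^ a) * m = (d + (-d * β) * m) + (p : ℤ) ^ a * m := by ring
        rw [this]
        exact dvd_add h4 (Dvd.intro _ rfl)
      · have : d + (-d * β + (p : ℤ) ^ a) * m = (d + (-d * β) * m) + (p : ℤ) ^ a * m := by ring
        rw [this, h5, zero_add]
        exact mul_ne_zero hpa hm0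
    · exact ⟨-d * β, h4, h5⟩
  set B2 := B1 + s • wdg x y with hB2
  have hB2alt : Alt B2 := hB1alt.add ((alt_wdg x y).smul s)
  have h6 := upd B1 hB1alt x y hd s
  rw [← hB2, ← hd', ← hm] at h6
  have hB2d : B2.det ≠ 0 := by
    intro h
    rw [h, mul_zero] at h6
    exact hs0 (pow_eq_zero_iff two_ne_zero |>.1 h6.symm)
  obtain ⟨dd, e, f, A, C, hmat, hAC, -⟩ := frob_matrix (r + 1) hI B2 hB2alt hB2d
  have h7 := frob_det (r + 1) hI B2 dd e f A C hmat hAC
  -- the product of the elementary divisors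
  have h8 : (p : ℤ) ^ a ∣ ∏ i, dd i := by
    have h9 : ((p : ℤ) ^ a) ^ 2 ∣ d * B2.det := by rw [h6]; exact pow_dvd_pow_of_dvd hs 2
    have h10 : IsCoprime (((p : ℤ) ^ a) ^ 2) d :=
      IsCoprime.pow_left (IsCoprime.pow_left (hpp.coprime_iff_not_dvd.2 h1))
    have h11 := (h10.dvd_of_dvd_mul_left h9).trans h7
    exact (Int.pow_dvd_pow_iff two_ne_zero).1 h11
  have h12 : (p : ℤ) ∣ ∏ i, dd i := (dvd_pow_self _ ha.ne').trans h8
  obtain ⟨i0, -, hi0⟩ := (hpp.dvd_finsetProd_iff _).1 h12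
  -- at most one is divisible by p
  have huniq : ∀ i, i ≠ i0 → ¬ (p : ℤ) ∣ dd i := by
    intro i hi hpi
    apply h1
    haveI : Fact p.Prime := ⟨hp⟩
    rw [← ZMod.intCast_zmod_eq_zero_iff_dvd, red_det]
    let c : Fin (r + 1) → ZMod p := fun k => (dd k : ZMod p)
    have hc0 : c i0 = 0 := (ZMod.intCast_zmod_eq_zero_iff_dvd _ _).2 hi0
    have hci : c i = 0 := (ZMod.intCast_zmod_eq_zero_iff_dvd _ _).2 hpi
    -- as a sum over all indices, with the index `i0` used for the update
    let e' : Fin (r + 1) → I → ZMod p := fun k u => if k = i0 then (-(s : ZMod p)) * (x u : ZMod p) else c k * (e k u : ZMod p)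
    let f' : Fin (r + 1) → I → ZMod p := fun k u => if k = i0 then (y u : ZMod p) else (f k u : ZMod p)
    have hsum : red p B1 = ∑ k, wdg (e' k) (f' k) := by
      have hB1' : B1 = B2 - s • wdg x y := by rw [hB2]; abel
      ext u v
      have hL : red p B1 u v = (∑ k, (dd k : ZMod p) * ((e k u : ZMod p) * (f k v : ZMod p) -
          (f k u : ZMod p) * (e k v : ZMod p))) - (s : ZMod p) * ((x u : ZMod p) * (y v : ZMod p) -
          (y u : ZMod p) * (x v : ZMod p)) := by
        rw [hB1', hmat]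
        simp only [red, Matrix.map_apply, Matrix.sub_apply, Matrix.sum_apply, Matrix.smul_apply, wdg,
          Matrix.of_apply, smul_eq_mul, map_sub, map_sum, map_mul, eq_intCast]
      have hR : (∑ k, wdg (e' k) (f' k)) u v = ∑ k, wdg (e' k) (f' k) u v := Matrix.sum_apply _ _ _ _
      have hL2 : (∑ k, (dd k : ZMod p) * ((e k u : ZMod p) * (f k v : ZMod p) -
          (f k u : ZMod p) * (e k v : ZMod p))) = ∑ k ∈ Finset.univ.erase i0, wdg (e' k) (f' k) u v := by
        rw [← Finset.add_sum_erase _ _ (Finset.mem_univ i0)]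
        have h14 : (dd i0 : ZMod p) = 0 := hc0
        rw [h14, zero_mul, zero_add]
        refine Finset.sum_congr rfl fun k hk => ?_
        have hk' := Finset.ne_of_mem_erase hk
        simp only [wdg, Matrix.of_apply, e', f', if_neg hk', c]
        ring
      have hR2 : ∑ k, wdg (e' k) (f' k) u v = wdg (e' i0) (f' i0) u v +
          ∑ k ∈ Finset.univ.erase i0, wdg (e' k) (f' k) u v :=
        (Finset.add_sum_erase _ _ (Finset.mem_univ i0)).symm
      have hx : wdg (e' i0) (f' i0) u v = -((s : ZMod p) * ((x u : ZMod p) * (y v : ZMod p) -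
          (y u : ZMod p) * (x v : ZMod p))) := by
        simp only [wdg, Matrix.of_apply, e', f', if_true]
        ring
      rw [hL, hR, hL2, hR2, hx]
      ring
    have hzero : wdg (e' i) (f' i) = 0 := by
      ext u v
      simp only [wdg, Matrix.of_apply, e', f', if_neg hi, hci, Matrix.zero_apply]
      ring
    rw [hsum, Fin.sum_univ_succAbove _ i, hzero, zero_add]
    exact det_wedges r (by rw [hI]; omega) _ _
  have hbig : (p : ℤ) ^ a ∣ dd i0 := by
    rw [Fin.prod_univ_succAbove _ i0] at h8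
    have hc : IsCoprime ((p : ℤ) ^ a) (∏ i : Fin r, dd (i0.succAbove i)) := by
      apply IsCoprime.pow_left
      rw [hpp.coprime_iff_not_dvd]
      intro h
      obtain ⟨j, -, hj⟩ := (hpp.dvd_finsetProd_iff _).1 h
      exact huniq _ (Fin.succAbove_ne i0 j) hj
    exact hc.dvd_of_dvd_mul_right h8
  refine ⟨1 + s, fun i u => dd (i0.succAbove i) * e (i0.succAbove i) u, fun i => f (i0.succAbove i), fun u v => ?_⟩
  have hB3 : B + (1 + s) • wdg x y = B2 := by
    rw [hB2, hB1, add_smul, one_smul]; abel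
  rw [hB3, hmat, Fin.sum_univ_succAbove _ i0, Matrix.add_apply, Matrix.smul_apply, smul_eq_mul]
  have h15 : (∑ i : Fin r, dd (i0.succAbove i) • wdg (e (i0.succAbove i)) (f (i0.succAbove i))) u v =
      (∑ i : Fin r, wdg (fun u => dd (i0.succAbove i) * e (i0.succAbove i) u) (f (i0.succAbove i))) u v := by
    rw [Matrix.sum_apply, Matrix.sum_apply]
    refine Finset.sum_congr rfl fun i _ => ?_
    simp only [Matrix.smul_apply, wdg, Matrix.of_apply, smul_eq_mul]
    ring
  change (p : ℤ) ^ a ∣ dd i0 * wdg (e i0) (f i0) u v + _ -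
    (∑ i : Fin r, wdg (fun u => dd (i0.succAbove i) * e (i0.succAbove i) u) (f (i0.succAbove i))) u v
  rw [h15, add_sub_cancel_right]
  exact hbig.mul_right _

end

end Run7.h438.PB
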