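import Mathlib
import Pool.Agent.Run7.h438.PB1
import Pool.Agent.N394.PX.Idx

/-! Moving degenerate translates; prime powers; the Chinese remainder theorem. -/

set_option autoImplicit false
set_option linter.all false

open Matrix MvPolynomial

namespace Run7.h438.PB

open Pool.Agent.Helper929 Pool.Agent.Y109.PI Pool.Agent.N394.PX

section count

variable {p : ℕ} [hpf : Fact p.Prime]

/-- if the number of degenerate translates is divisible by `p`, then so is the number of degenerate members -/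
theorem cw_count (g : ℕ) (hg : 0 < g) (b : Matrix (Fin (2 * g)) (Fin (2 * g)) (ZMod p)) (hb : Alt b)
    (j : Fin g → Matrix (Fin (2 * g)) (Fin (2 * g)) (ZMod p)) (hj : ∀ i, Alt (j i))
    (h : p ∣ (Finset.univ.filter fun c : Fin g → ZMod p => (b + ∑ i, c i • j i).det = 0).card) :
    p ∣ (Finset.univ.filter fun c : Fin g → ZMod p => (∑ i, c i • j i).det = 0).card := by
  classical
  let f : MvPolynomial (Option (Fin g)) (ZMod p) :=
    pf (2 * g) (Matrix.of fun u v => C (b u v) * X none + ∑ i, C (j i u v) * X (some i))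
  have hf : f.IsHomogeneous g := by
    refine hom_pf g _ fun u v => ?_
    simp only [Matrix.of_apply]
    refine IsHomogeneous.add ?_ (IsHomogeneous.sum _ _ _ fun i _ => ?_)
    · have := (isHomogeneous_C (Option (Fin g)) (b u v)).mul (isHomogeneous_X (ZMod p) (none : Option (Fin g)))
      rwa [zero_add] at this
    · have := (isHomogeneous_C (Option (Fin g)) (j i u v)).mul (isHomogeneous_X (ZMod p) (some i))
      rwa [zero_add] at this
  have heval : ∀ x : Option (Fin g) → ZMod p, eval x f = pf (2 * g) (x none • b + ∑ i, x (some i) • j i) := by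
    intro x
    simp only [f]
    rw [pf_map (eval x)]
    congr 1
    ext u v
    simp only [Matrix.map_apply, Matrix.of_apply, map_add, map_mul, eval_C, eval_X, map_sum, Matrix.add_apply,
      Matrix.smul_apply, Matrix.sum_apply, smul_eq_mul]
    rw [mul_comm]
    congr 1
    exact Finset.sum_congr rfl fun i _ => mul_comm _ _
  have hcw : p ∣ (Finset.univ.filter fun x : Option (Fin g) → ZMod p => eval x f = 0).card := by
    have h1 : f.totalDegree < Fintype.card (Option (Fin g)) := by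
      rw [Fintype.card_option, Fintype.card_fin]
      exact Nat.lt_succ_of_le hf.totalDegree_le
    have h2 := char_dvd_card_solutions p h1
    rwa [Fintype.card_subtype] at h2
  rw [card_fiber, Finset.sum_eq_add_sum_sdiff_singleton_of_mem (Finset.mem_univ (0 : ZMod p))] at hcw
  have halt : ∀ (w : ZMod p) (c : Fin g → ZMod p), Alt (w • b + ∑ i, c i • j i) := fun w c =>
    (hb.smul w).add (Alt.sum _ _ fun i => (hj i).smul _)
  have hfib : ∀ (w : ZMod p) (c : Fin g → ZMod p), (eval (fun o : Option (Fin g) => Option.elim o w c) f = 0) ↔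
      (w • b + ∑ i, c i • j i).det = 0 := by
    intro w c
    rw [heval, det_zero_iff _ (halt w c)]
    rfl
  simp only [hfib] at hcw
  have h0 : (Finset.univ.filter fun c : Fin g → ZMod p => ((0 : ZMod p) • b + ∑ i, c i • j i).det = 0) =
      Finset.univ.filter fun c : Fin g → ZMod p => (∑ i, c i • j i).det = 0 := by
    refine Finset.filter_congr fun c _ => ?_
    rw [zero_smul, zero_add]
  rw [h0] at hcw
  have h1 : ∀ w ∈ Finset.univ \ {(0 : ZMod p)}, (Finset.univ.filter fun c : Fin g → ZMod p =>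
      (w • b + ∑ i, c i • j i).det = 0).card =
      (Finset.univ.filter fun c : Fin g → ZMod p => (b + ∑ i, c i • j i).det = 0).card := by
    intro w hw
    rw [Finset.mem_sdiff, Finset.mem_singleton] at hw
    have hw0 : w ≠ 0 := hw.2
    refine Finset.card_nbij' (fun c => fun i => w⁻¹ * c i) (fun c => fun i => w * c i) ?_ ?_ ?_ ?_
    · intro c hc
      simp only [Finset.coe_filter, Finset.mem_univ, true_and, Set.mem_setOf_eq] at hc ⊢
      have e1 : b + ∑ i, (w⁻¹ * c i) • j i = w⁻¹ • (w • b + ∑ i, c i • j i) := by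
        rw [smul_add, smul_smul, inv_mul_cancel₀ hw0, one_smul, Finset.smul_sum]
        simp only [smul_smul]
      rw [e1, Matrix.det_smul, hc, mul_zero]
    · intro c hc
      simp only [Finset.coe_filter, Finset.mem_univ, true_and, Set.mem_setOf_eq] at hc ⊢
      have e1 : w • b + ∑ i, (w * c i) • j i = w • (b + ∑ i, c i • j i) := by
        rw [smul_add, Finset.smul_sum]
        simp only [smul_smul]
      rw [e1, Matrix.det_smul, hc, mul_zero]
    · intro c _
      funext i
      exact mul_inv_cancel_left₀ hw0 _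
    · intro c _
      funext i
      exact inv_mul_cancel_left₀ hw0 _
  rw [Finset.sum_congr rfl h1, Finset.sum_const, smul_eq_mul] at hcw
  exact (Nat.dvd_add_left (Dvd.dvd.mul_left h _)).1 hcw

/-- the same for an arbitrary index type -/
theorem cw_countI {I : Type} [Fintype I] [DecidableEq I] (g : ℕ) (hg : 0 < g) (hI : Fintype.card I = 2 * g)
    (b : Matrix I I (ZMod p)) (hb : Alt b) (j : Fin g → Matrix I I (ZMod p)) (hj : ∀ i, Alt (j i))
    (h : p ∣ (Finset.univ.filter fun c : Fin g → ZMod p => (b + ∑ i, c i • j i).det = 0).card) :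
    p ∣ (Finset.univ.filter fun c : Fin g → ZMod p => (∑ i, c i • j i).det = 0).card := by
  let e : Fin (2 * g) ≃ I := (finCongr hI.symm).trans (Fintype.equivFin I).symm
  have h1 : ∀ c : Fin g → ZMod p, (∑ i, c i • (j i).submatrix e e) = (∑ i, c i • j i).submatrix e e := by
    intro c
    ext u v
    simp only [Matrix.sum_apply, Matrix.smul_apply, Matrix.submatrix_apply]
  have h2 : ∀ c : Fin g → ZMod p, (b.submatrix e e + ∑ i, c i • (j i).submatrix e e) =
      (b + ∑ i, c i • j i).submatrix e e := by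
    intro c
    rw [h1]
    rfl
  have halt : ∀ a : Matrix I I (ZMod p), Alt a → Alt (a.submatrix e e) := fun a ha =>
    ⟨fun u => ha.1 _, fun u v => ha.2 _ _⟩
  have h3 := cw_count g hg (b.submatrix e e) (halt b hb) (fun i => (j i).submatrix e e) (fun i => halt _ (hj i)) (by
    simp only [h2, Matrix.det_submatrix_equiv_self]
    exact h)
  simp only [h1, Matrix.det_submatrix_equiv_self] at h3
  exact h3

/-- **A degenerate translate which becomes nondegenerate in a given direction.** -/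
theorem exists_move {I : Type} [Fintype I] [DecidableEq I] (g : ℕ) (hg : 0 < g) (hI : Fintype.card I = 2 * g)
    (b : Matrix I I (ZMod p)) (hb : Alt b) (j : Fin g → Matrix I I (ZMod p)) (hj : ∀ i, Alt (j i))
    (hcount : ¬ p ∣ (Finset.univ.filter fun c : Fin g → ZMod p => (∑ i, c i • j i).det = 0).card)
    (c0 : Fin g → ZMod p) (hc0 : c0 ≠ 0) :
    ∃ c : Fin g → ZMod p, (b + ∑ i, c i • j i).det = 0 ∧ (b + ∑ i, (c + c0) i • j i).det ≠ 0 := by
  classical
  by_contra hcon
  push Not at hcon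
  apply hcount
  apply cw_countI g hg hI b hb j hj
  let Z : Type := {c : Fin g → ZMod p // (b + ∑ i, c i • j i).det = 0}
  let f : Function.End Z := fun c => ⟨c.1 + c0, hcon c.1 c.2⟩
  have hf : ∀ (k : ℕ) (c : Z), ((f ^ k) c).1 = c.1 + k • c0 := by
    intro k
    induction k with
    | zero => intro c; rw [pow_zero, zero_nsmul, add_zero]; rfl
    | succ k ih =>
      intro c
      rw [pow_succ']
      change (f ((f ^ k) c)).1 = _
      have h1 : (f ((f ^ k) c)).1 = ((f ^ k) c).1 + c0 := rfl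
      rw [h1, ih, succ_nsmul, add_assoc]
  have hfp : f ^ p ^ 1 = 1 := by
    funext c
    apply Subtype.ext
    rw [hf, pow_one]
    have h2 : p • c0 = 0 := by
      funext i
      simp
    rw [h2, add_zero]
    rfl
  haveI : IsEmpty f.fixedPoints := ⟨fun ⟨c, hc⟩ => by
    have h3 : (f c).1 = c.1 := congrArg Subtype.val hc
    have h4 : c.1 + c0 = c.1 := h3
    exact hc0 (by simpa using h4)⟩
  have h5 := Equiv.Perm.card_fixedPoints_modEq hfp
  rw [Fintype.card_eq_zero (α := f.fixedPoints)] at h5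
  have h6 : p ∣ Fintype.card Z := (Nat.modEq_zero_iff_dvd).1 h5
  have h7 : Fintype.card Z = (Finset.univ.filter fun c : Fin g → ZMod p => (b + ∑ i, c i • j i).det = 0).card :=
    Fintype.card_subtype _
  rwa [h7] at h6

end count

section

variable {I : Type} [Fintype I] [DecidableEq I]

/-- congruent matrices have congruent determinants -/
theorem det_dvd (q : ℤ) (A B : Matrix I I ℤ) (h : ∀ u v, q ∣ A u v - B u v) : q ∣ A.det - B.det := by
  rw [← Ideal.mem_span_singleton, ← Ideal.Quotient.eq]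
  have h1 := RingHom.map_det (Ideal.Quotient.mk (Ideal.span {q})) A
  have h2 := RingHom.map_det (Ideal.Quotient.mk (Ideal.span {q})) B
  rw [h1, h2]
  congr 1
  ext u v
  rw [RingHom.mapMatrix_apply, RingHom.mapMatrix_apply, Matrix.map_apply, Matrix.map_apply, Ideal.Quotient.eq,
    Ideal.mem_span_singleton]
  exact h u v

/-- the integral version -/
theorem int_move (p g : ℕ) (hp : p.Prime) (hg : 0 < g) (hI : Fintype.card I = 2 * g) (w : Fin g → I → I → ℤ)
    (h : OrdAt p g w) (c0 : Fin g → ℤ) (hc0 : ∃ i, ¬ (p : ℤ) ∣ c0 i) (b : Matrix I I ℤ) (hb : Alt b) :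
    ∃ c : Fin g → ℤ, (p : ℤ) ∣ (b + ∑ i, c i • dif (w i)).det ∧
      ¬ (p : ℤ) ∣ (b + ∑ i, c i • dif (w i) + ∑ i, c0 i • dif (w i)).det := by
  classical
  haveI : Fact p.Prime := ⟨hp⟩
  haveI : NeZero p := ⟨hp.ne_zero⟩
  obtain ⟨c, hc1, hc2⟩ := exists_move g hg hI (red p b) (hb.map' _) (fun i => red p (dif (w i)))
    (fun i => (alt_dif (w i)).map' _) (by
      rw [OrdAt, Nat.card_eq_fintype_card, Fintype.card_subtype] at h
      exact h) (fun i => (c0 i : ZMod p)) (by
      obtain ⟨i, hi⟩ := hc0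
      intro h0
      exact hi ((ZMod.intCast_zmod_eq_zero_iff_dvd _ _).1 (congrFun h0 i)))
  refine ⟨fun i => (c i).val, ?_, ?_⟩
  · rw [← ZMod.intCast_zmod_eq_zero_iff_dvd, red_det, red_add_sum]
    simp only [vcast]
    exact hc1
  · rw [← ZMod.intCast_zmod_eq_zero_iff_dvd, red_det]
    have e1 : b + ∑ i, (((c i).val : ℕ) : ℤ) • dif (w i) + ∑ i, c0 i • dif (w i) =
        b + ∑ i, ((((c i).val : ℕ) : ℤ) + c0 i) • dif (w i) := by
      simp only [add_smul, Finset.sum_add_distrib, add_assoc]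
    rw [e1, red_add_sum]
    simp only [Int.cast_add, vcast]
    exact hc2

/-- the decomposition modulo a prime power, rank two case -/
theorem pp_dec (p a g : ℕ) (hp : p.Prime) (ha : 0 < a) (hg : 0 < g) (hI : Fintype.card I = 2 * g)
    (b : Matrix I I ℤ) (hb : Alt b) (E : Matrix I I ℤ) (x y : I → ℤ)
    (hE : ∀ u v, (p : ℤ) ^ a ∣ E u v - wdg x y u v) (h0 : (p : ℤ) ∣ b.det) (h1 : ¬ (p : ℤ) ∣ (b + E).det) :
    ∃ (t : ℤ) (e f : Fin (g - 1) → I → ℤ), ∀ u v,
      (p : ℤ) ^ a ∣ (b + t • E) u v - (∑ i, wdg (e i) (f i)) u v := by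
  have hpa : (p : ℤ) ∣ (p : ℤ) ^ a := dvd_pow_self _ ha.ne'
  have h2 : ¬ (p : ℤ) ∣ (b + wdg x y).det := by
    intro h
    apply h1
    have h3 := det_dvd (p : ℤ) (b + E) (b + wdg x y) (fun u v => by
      rw [Matrix.add_apply, Matrix.add_apply, add_sub_add_left_eq_sub]
      exact hpa.trans (hE u v))
    have := dvd_add h3 h
    rwa [sub_add_cancel] at this
  obtain ⟨t, e, f, h4⟩ := local_dec p a g hp ha hg hI b hb x y h0 h2
  refine ⟨t, e, f, fun u v => ?_⟩
  have h5 : (b + t • E) u v - (∑ i, wdg (e i) (f i)) u v =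
      ((b + t • wdg x y) u v - (∑ i, wdg (e i) (f i)) u v) + t * (E u v - wdg x y u v) := by
    simp only [Matrix.add_apply, Matrix.smul_apply, smul_eq_mul]
    ring
  rw [h5]
  exact dvd_add (h4 u v) ((hE u v).mul_left _)

/-- simultaneous congruences modulo prime powers -/
theorem crt_pp {ι : Type} (n : ℕ) (hn : 0 < n) (a : ℕ → ι → ℤ) :
    ∃ x : ι → ℤ, ∀ p : ℕ, p.Prime → p ∣ n → ∀ i, (p : ℤ) ^ n.factorization p ∣ x i - a p i := by
  let s : ℕ → ℕ := fun p => p ^ n.factorization p
  have hs0 : ∀ p ∈ n.primeFactors, s p ≠ 0 := fun p hp => pow_ne_zero _ (Nat.prime_of_mem_primeFactors hp).ne_zero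
  have hk : ∀ i : ι, ∃ k : ℕ, ∀ p ∈ n.primeFactors, (s p : ℤ) ∣ (k : ℤ) - a p i := by
    intro i
    obtain ⟨k, hk⟩ := Nat.chineseRemainderOfFinset (fun p => (a p i % (s p : ℤ)).toNat) s n.primeFactors hs0
      (fun p hp q hq hpq => Nat.Coprime.pow _ _ ((Nat.coprime_primes (Nat.prime_of_mem_primeFactors hp)
        (Nat.prime_of_mem_primeFactors hq)).2 hpq))
    refine ⟨k, fun p hmem => ?_⟩
    have h3 := hk p hmem
    have hs : (s p : ℤ) ≠ 0 := by exact_mod_cast hs0 p hmem
    have h5 : ((k : ℕ) : ℤ) ≡ ((a p i % (s p : ℤ)).toNat : ℤ) [ZMOD (s p : ℤ)] := by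
      exact_mod_cast (Int.natCast_modEq_iff.2 h3)
    rw [Int.toNat_of_nonneg (Int.emod_nonneg _ hs)] at h5
    have h6 : (k : ℤ) ≡ a p i [ZMOD (s p : ℤ)] := h5.trans (Int.mod_modEq _ _)
    exact (Int.modEq_iff_dvd.1 h6.symm)
  choose k hk using hk
  refine ⟨fun i => (k i : ℤ), fun p hp hpn i => ?_⟩
  have h := hk i p (Nat.mem_primeFactors.2 ⟨hp, hpn, hn.ne'⟩)
  have h8 : (s p : ℤ) = (p : ℤ) ^ n.factorization p := by simp [s]
  rwa [h8] at h

theorem dvd_of_pp (n : ℕ) (hn : 0 < n) (x : ℤ)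
    (h : ∀ p : ℕ, p.Prime → p ∣ n → (p : ℤ) ^ n.factorization p ∣ x) : (n : ℤ) ∣ x := by
  rw [Int.natCast_dvd, Nat.dvd_iff_prime_pow_dvd_dvd]
  intro p k hp hk
  rcases Nat.eq_zero_or_pos k with h0 | h0
  · rw [h0, pow_zero]; exact one_dvd _
  · have hpn : p ∣ n := (dvd_pow_self p h0.ne').trans hk
    have h1 : k ≤ n.factorization p := (hp.pow_dvd_iff_le_factorization hn.ne').1 hk
    have h2 := (pow_dvd_pow (p : ℤ) h1).trans (h p hp hpn)
    rw [← Int.natCast_dvd]
    exact_mod_cast h2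

/-- **Decomposition modulo `n`** -/
theorem glue {κ : Type} [Fintype κ] (n g : ℕ) (hn : 0 < n) (D : κ → Matrix I I ℤ) (b : Matrix I I ℤ)
    (h : ∀ p : ℕ, p.Prime → p ∣ n → ∃ (c : κ → ℤ) (e f : Fin (g - 1) → I → ℤ), ∀ u v,
      (p : ℤ) ^ n.factorization p ∣ (b + ∑ i, c i • D i) u v - (∑ i, wdg (e i) (f i)) u v) :
    ∃ (c : κ → ℤ) (e f : Fin (g - 1) → I → ℤ), ∀ u v,
      (n : ℤ) ∣ (b + ∑ i, c i • D i) u v - (∑ i, wdg (e i) (f i)) u v := by
  have h1 : ∀ p : ℕ, ∃ (c : κ → ℤ) (e f : Fin (g - 1) × I → ℤ), p.Prime → p ∣ n → ∀ u v,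
      (p : ℤ) ^ n.factorization p ∣ (b + ∑ i, c i • D i) u v -
        ∑ i, (e (i, u) * f (i, v) - f (i, u) * e (i, v)) := by
    intro p
    by_cases hp : p.Prime ∧ p ∣ n
    · obtain ⟨c, e, f, hc⟩ := h p hp.1 hp.2
      refine ⟨c, fun q => e q.1 q.2, fun q => f q.1 q.2, fun _ _ u v => ?_⟩
      have := hc u v
      rw [Matrix.sum_apply] at this
      exact this
    · exact ⟨0, 0, 0, fun a b => absurd ⟨a, b⟩ hp⟩
  choose a e f haef using h1
  obtain ⟨x, hx⟩ := crt_pp n hn a
  obtain ⟨y, hy⟩ := crt_pp n hn e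
  obtain ⟨y', hy'⟩ := crt_pp n hn f
  refine ⟨x, fun i u => y (i, u), fun i u => y' (i, u), fun u v => ?_⟩
  refine dvd_of_pp n hn _ fun p hp hpn => ?_
  have h2 := haef p hp hpn u v
  have h3 : (b + ∑ i, x i • D i) u v - (∑ i, wdg (fun u => y (i, u)) (fun u => y' (i, u))) u v =
      ((b + ∑ i, a p i • D i) u v - ∑ i, (e p (i, u) * f p (i, v) - f p (i, u) * e p (i, v))) +
      (∑ i, (x i - a p i) * D i u v) -
      ∑ i, ((y (i, u) - e p (i, u)) * y' (i, v) + e p (i, u) * (y' (i, v) - f p (i, v)) -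
        (y' (i, u) - f p (i, u)) * y (i, v) - f p (i, u) * (y (i, v) - e p (i, v))) := by
    have hl : ∀ c : κ → ℤ, (b + ∑ i, c i • D i) u v = b u v + ∑ i, c i * D i u v := by
      intro c
      simp only [Matrix.add_apply, Matrix.sum_apply, Matrix.smul_apply, smul_eq_mul]
    have hw : (∑ i, wdg (fun u => y (i, u)) (fun u => y' (i, u))) u v =
        ∑ i, (y (i, u) * y' (i, v) - y' (i, u) * y (i, v)) := by
      rw [Matrix.sum_apply]
      rfl
    have e0 : ∑ i, x i * D i u v = ∑ i, a p i * D i u v + ∑ i, (x i - a p i) * D i u v := by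
      rw [← Finset.sum_add_distrib]
      exact Finset.sum_congr rfl fun i _ => by ring
    have e1 : ∑ i, (y (i, u) * y' (i, v) - y' (i, u) * y (i, v)) =
        ∑ i, (e p (i, u) * f p (i, v) - f p (i, u) * e p (i, v)) +
        ∑ i, ((y (i, u) - e p (i, u)) * y' (i, v) + e p (i, u) * (y' (i, v) - f p (i, v)) -
        (y' (i, u) - f p (i, u)) * y (i, v) - f p (i, u) * (y (i, v) - e p (i, v))) := by
      rw [← Finset.sum_add_distrib]
      exact Finset.sum_congr rfl fun i _ => by ring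
    rw [hl, hl, hw, e0, e1]
    ring
  rw [h3]
  refine dvd_sub (dvd_add h2 (Finset.dvd_sum fun i _ => (hx p hp hpn i).mul_right _)) ?_
  refine Finset.dvd_sum fun i _ => ?_
  exact dvd_sub (dvd_sub (dvd_add ((hy p hp hpn _).mul_right _) ((hy' p hp hpn _).mul_left _))
    ((hy' p hp hpn _).mul_right _)) ((hy p hp hpn _).mul_left _)

end

end Run7.h438.PB
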