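import Mathlib
import Pool.Agent.Run7.h438.PB2

/-! Rank two classes and intersection numbers prime to `p`. -/

set_option autoImplicit false
set_option linter.all false

open Matrix MvPolynomial

namespace Run7.h438.PB

open Pool.Agent.Helper929 Pool.Agent.Y109.PI Pool.Agent.N394.PX

/-- the coefficients of a polynomial with one variable set to zero -/
theorem coeff_kill {σ : Type} [DecidableEq σ] (i0 : σ) (G : MvPolynomial σ ℤ) (m : σ →₀ ℕ) (hm : m i0 ≠ 0) :
    coeff m (aeval (fun i => if i = i0 then (0 : MvPolynomial σ ℤ) else X i) G) = 0 := by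
  induction G using MvPolynomial.induction_on' with
  | monomial u a =>
    rw [aeval_monomial]
    by_cases hu : u i0 = 0
    · have h1 : (u.prod fun i k => (if i = i0 then (0 : MvPolynomial σ ℤ) else X i) ^ k) =
          u.prod fun i k => (X i : MvPolynomial σ ℤ) ^ k := by
        refine Finset.prod_congr rfl fun i hi => ?_
        have : i ≠ i0 := by
          rintro rfl
          exact (Finsupp.mem_support_iff.1 hi) hu
        simp only [if_neg this]
      have h2 : (algebraMap ℤ (MvPolynomial σ ℤ)) a * (u.prod fun i k => (X i : MvPolynomial σ ℤ) ^ k) =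
          monomial u a := by
        rw [monomial_eq]
        rfl
      rw [h1, h2, coeff_monomial, if_neg]
      rintro rfl
      exact hm hu
    · have h1 : (u.prod fun i k => (if i = i0 then (0 : MvPolynomial σ ℤ) else X i) ^ k) = 0 := by
        refine Finset.prod_eq_zero (Finsupp.mem_support_iff.2 hu) ?_
        simp only [if_true]
        exact zero_pow hu
      rw [h1, mul_zero, coeff_zero]
  | add p q hp hq => rw [map_add, coeff_add, hp, hq, add_zero]

/-- the intersection number with the zero class vanishes -/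
theorem inter_zero (g : ℕ) (A : Fin g → Matrix (Fin (2 * g)) (Fin (2 * g)) ℤ) (i0 : Fin g) (h0 : A i0 = 0) :
    inter g A = 0 := by
  have h1 : pf (2 * g) (Matrix.of fun u v => ∑ i, C (A i u v) * X i :
      Matrix (Fin (2 * g)) (Fin (2 * g)) (MvPolynomial (Fin g) ℤ)) =
      (aeval (fun i => if i = i0 then (0 : MvPolynomial (Fin g) ℤ) else X i)).toRingHom
        (pf (2 * g) (Matrix.of fun u v => ∑ i, C (A i u v) * X i :
        Matrix (Fin (2 * g)) (Fin (2 * g)) (MvPolynomial (Fin g) ℤ))) := by
    rw [pf_map]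
    congr 1
    ext1 u v
    simp only [Matrix.map_apply, Matrix.of_apply, map_sum, map_mul]
    refine Finset.sum_congr rfl fun i _ => ?_
    by_cases hi : i = i0
    · subst hi
      rw [h0]
      simp
    · simp [hi]
  rw [inter, h1]
  refine coeff_kill i0 _ _ ?_
  rw [Finsupp.finsetSum_apply, Finset.sum_eq_single i0]
  · simp
  · intro i _ hi
    exact Finsupp.single_eq_of_ne (Ne.symm hi)
  · intro h; exact absurd (Finset.mem_univ _) h

/-- the form of the pencil -/
noncomputable def form (g : ℕ) (b : Matrix (Fin (2 * g)) (Fin (2 * g)) ℤ)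
    (A : Fin g → Matrix (Fin (2 * g)) (Fin (2 * g)) ℤ) : MvPolynomial (Option (Fin g)) ℤ :=
  pf (2 * g) (Matrix.of fun u v => C (b u v) * X none + ∑ i, C (A i u v) * X (some i))

theorem form_hom (g : ℕ) (b : Matrix (Fin (2 * g)) (Fin (2 * g)) ℤ)
    (A : Fin g → Matrix (Fin (2 * g)) (Fin (2 * g)) ℤ) : (form g b A).IsHomogeneous g := by
  refine hom_pf g _ fun u v => ?_
  simp only [Matrix.of_apply]
  refine IsHomogeneous.add ?_ (IsHomogeneous.sum _ _ _ fun i _ => ?_)
  · have := (isHomogeneous_C (Option (Fin g)) (b u v)).mul (isHomogeneous_X ℤ (none : Option (Fin g)))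
    rwa [zero_add] at this
  · have := (isHomogeneous_C (Option (Fin g)) (A i u v)).mul (isHomogeneous_X ℤ (some i))
    rwa [zero_add] at this

theorem form_eval (g : ℕ) (b : Matrix (Fin (2 * g)) (Fin (2 * g)) ℤ)
    (A : Fin g → Matrix (Fin (2 * g)) (Fin (2 * g)) ℤ) (c : Fin g → ℤ) :
    eval (fun o => Option.elim o 1 c) (form g b A) = pf (2 * g) (b + ∑ i, c i • A i) := by
  rw [form, pf_map (eval (fun o => Option.elim o 1 c))]
  congr 1
  ext u v
  simp only [Matrix.map_apply, Matrix.of_apply, map_add, map_mul, eval_C, eval_X, map_sum, Matrix.add_apply,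
    Matrix.smul_apply, Matrix.sum_apply, smul_eq_mul, Option.elim_none, Option.elim_some, mul_one]
  congr 1
  exact Finset.sum_congr rfl fun i _ => mul_comm _ _

theorem form_top (g : ℕ) (b : Matrix (Fin (2 * g)) (Fin (2 * g)) ℤ)
    (A : Fin g → Matrix (Fin (2 * g)) (Fin (2 * g)) ℤ) :
    coeff (∑ i : Fin g, Finsupp.single i 1)
      ((eval₂Hom (C : ℤ →+* MvPolynomial (Fin g) ℤ) (fun o => Option.elim o 0 X)) (form g b A)) = inter g A := by
  have h2 : (eval₂Hom (C : ℤ →+* MvPolynomial (Fin g) ℤ) (fun o => Option.elim o 0 X)) (form g b A) =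
      pf (2 * g) (Matrix.of fun u v => ∑ i, C (A i u v) * X i) := by
    rw [form, pf_map]
    congr 1
    ext1 u v
    simp only [Matrix.map_apply, Matrix.of_apply, map_add, map_mul, coe_eval₂Hom, eval₂_C, eval₂_X, map_sum,
      Option.elim_none, Option.elim_some, mul_zero, zero_add, eval₂_sum, eval₂_mul, eval₂_add]
  rw [h2]
  rfl

/-- if the Pfaffians do not depend on one coordinate modulo `q`, then `q` divides the intersection number -/
theorem dvd_inter' (g : ℕ) (b : Matrix (Fin (2 * g)) (Fin (2 * g)) ℤ)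
    (A : Fin g → Matrix (Fin (2 * g)) (Fin (2 * g)) ℤ) (i0 : Fin g) (q : ℤ)
    (hq : ∀ c : Fin g → ℤ, q ∣ pf (2 * g) (b + ∑ i, c i • A i) -
      pf (2 * g) (b + ∑ i, (Function.update c i0 0) i • A i)) : q ∣ inter g A := by
  classical
  have h := KL g (form g b A - form g b (Function.update A i0 0)) ((form_hom g b A).sub (form_hom g b _)) q (by
    intro c
    rw [map_sub, form_eval, form_eval]
    have h1 : ∑ i, (Function.update c i0 0) i • A i = ∑ i, c i • (Function.update A i0 0) i := by
      refine Finset.sum_congr rfl fun i _ => ?_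
      by_cases hi : i = i0
      · subst hi
        rw [Function.update_self, Function.update_self, zero_smul, smul_zero]
      · rw [Function.update_of_ne hi, Function.update_of_ne hi]
    rw [← h1]
    exact hq c)
  rw [map_sub, coeff_sub, form_top, form_top, inter_zero g (Function.update A i0 0) i0 (Function.update_self _ _ _),
    sub_zero] at h
  exact h

/-- rank two update of the Pfaffian -/
theorem upd_pf (g : ℕ) (B : Matrix (Fin (2 * g)) (Fin (2 * g)) ℤ) (hB : Alt B) (x y : Fin (2 * g) → ℤ)
    (hd : B.det ≠ 0) (t : ℤ) :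
    pf (2 * g) B * pf (2 * g) (B + t • wdg x y) = B.det + t * (y ⬝ᵥ (B.adjugate *ᵥ x)) := by
  set m := y ⬝ᵥ (B.adjugate *ᵥ x) with hm
  have hsq : ∀ M : Matrix (Fin (2 * g)) (Fin (2 * g)) ℤ, Alt M → pf (2 * g) M ^ 2 = M.det := fun M hM =>
    (pf_sq_int _ fun u v => hM.2 u v)
  let P1 : Polynomial ℤ := pf (2 * g) (B.map Polynomial.C + (Polynomial.X : Polynomial ℤ) • (wdg x y).map Polynomial.C)
  have hP1 : ∀ c, P1.eval c = pf (2 * g) (B + c • wdg x y) := pf_pencil_eval g B (wdg x y)
  let F : Polynomial ℤ := Polynomial.C (pf (2 * g) B) * P1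
  let G : Polynomial ℤ := Polynomial.C B.det + Polynomial.X * Polynomial.C m
  have hF : ∀ c, F.eval c = pf (2 * g) B * pf (2 * g) (B + c • wdg x y) := by
    intro c
    simp only [F, Polynomial.eval_mul, Polynomial.eval_C, hP1]
  have hG : ∀ c, G.eval c = B.det + c * m := by
    intro c
    simp only [G, Polynomial.eval_mul, Polynomial.eval_C, Polynomial.eval_add, Polynomial.eval_X]
  have hFG : F * F = G * G := by
    apply Polynomial.funext
    intro c
    have e1 : (F * F).eval c = F.eval c * F.eval c := Polynomial.eval_mul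
    have e2 : (G * G).eval c = G.eval c * G.eval c := Polynomial.eval_mul
    rw [e1, e2, hF, hG]
    have h1 := upd B hB x y hd c
    rw [← hsq _ (hB.add ((alt_wdg x y).smul c))] at h1
    have h2 := hsq B hB
    linear_combination h1 + (pf (2 * g) (B + c • wdg x y)) ^ 2 * h2
  rcases mul_self_eq_mul_self_iff.1 hFG with h | h
  · rw [← hF, h, hG]
  · exfalso
    have h1 := congrArg (Polynomial.eval 0) h
    rw [Polynomial.eval_neg, hF, hG, zero_smul, add_zero, zero_mul, add_zero, ← sq, hsq B hB] at h1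
    apply hd
    linarith

/-- **A degenerate translate which becomes nondegenerate in the direction of a class of rank two**, if some
intersection number with this class is prime to `p`. -/
theorem inter_move (p g : ℕ) (hp : p.Prime) (b : Matrix (Fin (2 * g)) (Fin (2 * g)) ℤ) (hb : Alt b)
    (A : Fin g → Matrix (Fin (2 * g)) (Fin (2 * g)) ℤ) (hA : ∀ i, Alt (A i)) (i0 : Fin g)
    (x y : Fin (2 * g) → ℤ) (hxy : ∀ u v, (p : ℤ) ∣ A i0 u v - wdg x y u v) (hint : ¬ (p : ℤ) ∣ inter g A) :
    ∃ c : Fin g → ℤ, (p : ℤ) ∣ (b + ∑ i, c i • A i).det ∧ ¬ (p : ℤ) ∣ (b + ∑ i, c i • A i + A i0).det := by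
  classical
  have hpp : Prime (p : ℤ) := Nat.prime_iff_prime_int.1 hp
  by_contra hcon
  push Not at hcon
  have hsq : ∀ M : Matrix (Fin (2 * g)) (Fin (2 * g)) ℤ, Alt M → pf (2 * g) M ^ 2 = M.det := fun M hM =>
    (pf_sq_int _ fun u v => hM.2 u v)
  -- the family
  let T : (Fin g → ℤ) → Matrix (Fin (2 * g)) (Fin (2 * g)) ℤ := fun c => b + ∑ i, c i • A i
  have hT : ∀ c, Alt (T c) := fun c => hb.add (Alt.sum _ _ fun i => (hA i).smul _)
  have hTe : ∀ (c : Fin g → ℤ) (k : ℤ), T (c + k • (Pi.single i0 1 : Fin g → ℤ)) = T c + k • A i0 := by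
    intro c k
    simp only [T]
    have h1 : ∀ i, (c + k • (Pi.single i0 1 : Fin g → ℤ)) i • A i = c i • A i + (if i = i0 then k • A i0 else 0) := by
      intro i
      by_cases hi : i = i0
      · subst hi
        rw [if_pos rfl, Pi.add_apply, Pi.smul_apply, Pi.single_eq_same, smul_eq_mul, mul_one, add_smul]
      · rw [if_neg hi, Pi.add_apply, Pi.smul_apply, Pi.single_eq_of_ne hi, smul_zero, add_zero, add_zero]
    rw [Finset.sum_congr rfl fun i _ => h1 i, Finset.sum_add_distrib, Finset.sum_ite_eq' Finset.univ i0,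
      if_pos (Finset.mem_univ _), add_assoc]
  have hdvd : ∀ M : Matrix (Fin (2 * g)) (Fin (2 * g)) ℤ, Alt M → ((p : ℤ) ∣ M.det ↔ (p : ℤ) ∣ pf (2 * g) M) := by
    intro M hM
    rw [← hsq M hM]
    exact ⟨fun h => hpp.dvd_of_dvd_pow h, fun h => dvd_pow h two_ne_zero⟩
  have hstep : ∀ c, (p : ℤ) ∣ pf (2 * g) (T c) → (p : ℤ) ∣ pf (2 * g) (T (c + (1 : ℤ) • (Pi.single i0 1 : Fin g → ℤ))) := by
    intro c hc
    rw [← hdvd _ (hT _), hTe, one_smul]
    exact hcon c ((hdvd _ (hT c)).2 hc)
  have hiter : ∀ (k : ℕ) (c : Fin g → ℤ), (p : ℤ) ∣ pf (2 * g) (T c) →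
      (p : ℤ) ∣ pf (2 * g) (T (c + (k : ℤ) • (Pi.single i0 1 : Fin g → ℤ))) := by
    intro k
    induction k with
    | zero => intro c hc; simpa using hc
    | succ k ih =>
      intro c hc
      have := hstep _ (ih c hc)
      rw [add_assoc, ← add_smul] at this
      exact_mod_cast this
  -- independence of the coordinate
  have key : ∀ c, (p : ℤ) ∣ pf (2 * g) (T (c + (1 : ℤ) • (Pi.single i0 1 : Fin g → ℤ))) - pf (2 * g) (T c) := by
    intro c
    by_cases hc : (p : ℤ) ∣ pf (2 * g) (T c)
    · exact dvd_sub (hstep c hc) hc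
    · have hd1 : ¬ (p : ℤ) ∣ (T c).det := fun h => hc ((hdvd _ (hT c)).1 h)
      have hd0 : (T c).det ≠ 0 := fun h => hd1 (by rw [h]; exact dvd_zero _)
      set m := y ⬝ᵥ ((T c).adjugate *ᵥ x) with hm
      have hup : ∀ t : ℤ, pf (2 * g) (T c) * pf (2 * g) (T c + t • wdg x y) = (T c).det + t * m :=
        fun t => upd_pf g (T c) (hT c) x y hd0 t
      have hcg : ∀ t : ℤ, (p : ℤ) ∣ pf (2 * g) (T c + t • A i0) - pf (2 * g) (T c + t • wdg x y) := by
        intro t
        refine pf_congr (2 * g) p _ _ fun u v => ?_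
        rw [Matrix.add_apply, Matrix.add_apply, add_sub_add_left_eq_sub, Matrix.smul_apply, Matrix.smul_apply,
          smul_eq_mul, smul_eq_mul, ← mul_sub]
        exact (hxy u v).mul_left _
      by_cases hpm : (p : ℤ) ∣ m
      · have h1 := hup 1
        rw [one_smul, one_mul, ← hsq (T c) (hT c)] at h1
        have h2 : (p : ℤ) ∣ pf (2 * g) (T c) * (pf (2 * g) (T c + wdg x y) - pf (2 * g) (T c)) := by
          have e1 : pf (2 * g) (T c) * (pf (2 * g) (T c + wdg x y) - pf (2 * g) (T c)) = m := by
            rw [mul_sub, h1]; ring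
          rw [e1]; exact hpm
        have h3 := (hpp.dvd_or_dvd h2).resolve_left hc
        have h4 := hcg 1
        rw [one_smul, one_smul] at h4
        rw [hTe, one_smul]
        have := dvd_add h4 h3
        rwa [sub_add_sub_cancel] at this
      · exfalso
        -- a natural number `t` with `p ∣ det + t m`
        obtain ⟨t, ht⟩ : ∃ t : ℕ, (p : ℤ) ∣ (T c).det + t * m := by
          haveI : Fact p.Prime := ⟨hp⟩
          haveI : NeZero p := ⟨hp.ne_zero⟩
          have hm0 : (m : ZMod p) ≠ 0 := fun h => hpm ((ZMod.intCast_zmod_eq_zero_iff_dvd _ _).1 h)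
          refine ⟨(-((T c).det : ZMod p) * (m : ZMod p)⁻¹).val, ?_⟩
          rw [← ZMod.intCast_zmod_eq_zero_iff_dvd]
          push_cast
          rw [ZMod.natCast_val, ZMod.cast_id', id, mul_assoc, inv_mul_cancel₀ hm0, mul_one]
          ring
        rw [← hup t] at ht
        have h1 : (p : ℤ) ∣ pf (2 * g) (T c + (t : ℤ) • wdg x y) := (hpp.dvd_or_dvd ht).resolve_left hc
        have h2 : (p : ℤ) ∣ pf (2 * g) (T (c + (t : ℤ) • (Pi.single i0 1 : Fin g → ℤ))) := by
          rw [hTe]
          have := dvd_add (hcg t) h1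
          rwa [sub_add_cancel] at this
        obtain ⟨r, hr⟩ : ∃ r, p = r + 1 := ⟨p - 1, by have := hp.pos; omega⟩
        have h3 := hiter (r * t) _ h2
        rw [add_assoc, ← add_smul] at h3
        have e1 : ((t : ℤ) + ((r * t : ℕ) : ℤ)) = p * t := by
          rw [hr]; push_cast; ring
        rw [e1, hTe] at h3
        have h4 : (p : ℤ) ∣ pf (2 * g) (T c + ((p : ℤ) * t) • A i0) - pf (2 * g) (T c) := by
          refine pf_congr (2 * g) p _ _ fun u v => ?_
          rw [Matrix.add_apply, add_sub_cancel_left, Matrix.smul_apply, smul_eq_mul, mul_assoc]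
          exact Dvd.intro _ rfl
        apply hc
        have := dvd_sub h3 h4
        rwa [sub_sub_cancel] at this
  have keyn : ∀ (k : ℕ) (c : Fin g → ℤ), (p : ℤ) ∣ pf (2 * g) (T (c + (k : ℤ) • (Pi.single i0 1 : Fin g → ℤ))) - pf (2 * g) (T c) := by
    intro k
    induction k with
    | zero => intro c; simp
    | succ k ih =>
      intro c
      have h1 := key (c + (k : ℤ) • (Pi.single i0 1 : Fin g → ℤ))
      rw [add_assoc, ← add_smul] at h1
      have h2 := dvd_add h1 (ih c)
      rw [sub_add_sub_cancel] at h2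
      exact_mod_cast h2
  apply hint
  refine dvd_inter' g b A i0 p fun c => ?_
  change (p : ℤ) ∣ pf (2 * g) (T c) - pf (2 * g) (T (Function.update c i0 0))
  have e0 : c = Function.update c i0 0 + (c i0) • (Pi.single i0 1 : Fin g → ℤ) := by
    funext i
    by_cases hi : i = i0
    · subst hi
      simp
    · simp [Function.update_of_ne hi, Pi.single_eq_of_ne hi]
  rcases le_total 0 (c i0) with h | h
  · obtain ⟨k, hk⟩ := Int.eq_ofNat_of_zero_le h
    have := keyn k (Function.update c i0 0)
    rw [← hk, ← e0] at this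
    exact this
  · obtain ⟨k, hk⟩ := Int.eq_ofNat_of_zero_le (neg_nonneg.2 h)
    have h1 := keyn k c
    have e1 : c + (k : ℤ) • (Pi.single i0 1 : Fin g → ℤ) = Function.update c i0 0 := by
      funext i
      by_cases hi : i = i0
      · subst hi
        rw [Pi.add_apply, Pi.smul_apply, Pi.single_eq_same, smul_eq_mul, mul_one, ← hk, Function.update_self]
        ring
      · simp [Function.update_of_ne hi, Pi.single_eq_of_ne hi]
    rw [e1] at h1
    have := dvd_neg.2 h1
    rwa [neg_sub] at this

end Run7.h438.PB
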