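import Mathlib
import Pool.Agent.Run7.h438.PB3
import Pool.Agent.Y109.PI.Res

/-! Assembly: sums of `g - 1` symbols. -/

set_option autoImplicit false
set_option linter.all false

open scoped TensorProduct
open Matrix

namespace Run7.h438.PB

open Pool.Agent.Helper346.Bra Pool.Agent.Helper18.Br Pool.Agent.H552R3.SymBr Pool.Agent.H552R3.SymPred
  Pool.Agent.H552R3.Tsen Pool.Agent.Helper929 Pool.Agent.Y109.PI Pool.Agent.N394.PX

universe u

section

variable {I : Type} [Fintype I] [DecidableEq I] {κ : Type} [Fintype κ]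

/-- selected relations -/
theorem push [DecidableEq κ] {g : ℕ} (e : Fin g → κ) (c : Fin g → ℤ) (A : κ → Matrix I I ℤ) :
    ∑ k, (∑ i, if e i = k then c i else 0) • A k = ∑ i, c i • A (e i) := by
  simp only [Finset.sum_smul]
  rw [Finset.sum_comm]
  refine Finset.sum_congr rfl fun i _ => ?_
  rw [Finset.sum_eq_single (e i)]
  · rw [if_pos rfl]
  · intro k _ hk
    rw [if_neg (Ne.symm hk), zero_smul]
  · intro h; exact absurd (Finset.mem_univ _) h

/-- the first criterion: an ordinary family and a member of rank two -/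
theorem dec_ord (p a g : ℕ) (hp : p.Prime) (ha : 0 < a) (hg : 0 < g) (hI : Fintype.card I = 2 * g)
    (w : κ → I → I → ℤ) (e : Fin g → κ) (hord : OrdAt p g (fun i => w (e i)))
    (h2 : a = 1 ∨ ∃ c0 : Fin g → ℤ, (∃ i, ¬ (p : ℤ) ∣ c0 i) ∧ ∃ x y : I → ℤ, ∀ u v,
      (p : ℤ) ^ a ∣ (∑ i, c0 i • dif (w (e i))) u v - wdg x y u v)
    (b : Matrix I I ℤ) (hb : Alt b) :
    ∃ (c : κ → ℤ) (x y : Fin (g - 1) → I → ℤ), ∀ u v,
      (p : ℤ) ^ a ∣ (b + ∑ i, c i • dif (w i)) u v - (∑ i, wdg (x i) (y i)) u v := by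
  classical
  suffices h : ∃ (c : Fin g → ℤ) (x y : Fin (g - 1) → I → ℤ), ∀ u v,
      (p : ℤ) ^ a ∣ (b + ∑ i, c i • dif (w (e i))) u v - (∑ i, wdg (x i) (y i)) u v by
    obtain ⟨c, x, y, h⟩ := h
    refine ⟨fun k => ∑ i, if e i = k then c i else 0, x, y, ?_⟩
    rw [push e c (fun k => dif (w k))]
    exact h
  rcases h2 with rfl | ⟨c0, hc0, x, y, hxy⟩
  · obtain ⟨c, x, y, h⟩ := ord_deg p g hp.squarefree hg hI (fun i => w (e i)) (fun q hq hqp => by
      rw [(Nat.prime_dvd_prime_iff_eq hq hp).1 hqp]; exact hord) b hb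
    exact ⟨c, x, y, fun u v => by rw [pow_one]; exact h u v⟩
  · obtain ⟨c, hc1, hc2⟩ := int_move p g hp hg hI (fun i => w (e i)) hord c0 hc0 b hb
    obtain ⟨t, x', y', h⟩ := pp_dec p a g hp ha hg hI (b + ∑ i, c i • dif (w (e i)))
      (hb.add (Alt.sum _ _ fun i => (alt_dif _).smul _)) (∑ i, c0 i • dif (w (e i))) x y hxy hc1 hc2
    refine ⟨fun i => c i + t * c0 i, x', y', ?_⟩
    have e1 : b + ∑ i, (c i + t * c0 i) • dif (w (e i)) =
        b + ∑ i, c i • dif (w (e i)) + t • ∑ i, c0 i • dif (w (e i)) := by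
      simp only [add_smul, Finset.sum_add_distrib, mul_smul, Finset.smul_sum, add_assoc]
    rw [e1]
    exact h

/-- the second criterion: a class of rank two and an intersection number prime to `p` -/
theorem dec_inter (p a g : ℕ) (hp : p.Prime) (ha : 0 < a) (hg : 0 < g) (hI : Fintype.card I = 2 * g)
    (w : κ → I → I → ℤ) (τ : Fin (2 * g) ≃ I) (e : Fin g → κ)
    (hint : ¬ (p : ℤ) ∣ inter g (fun i => Matrix.of fun u v => w (e i) (τ u) (τ v) - w (e i) (τ v) (τ u)))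
    (i0 : Fin g) (x y : I → ℤ) (hxy : ∀ u v, (p : ℤ) ^ a ∣ dif (w (e i0)) u v - wdg x y u v)
    (b : Matrix I I ℤ) (hb : Alt b) :
    ∃ (c : κ → ℤ) (x y : Fin (g - 1) → I → ℤ), ∀ u v,
      (p : ℤ) ^ a ∣ (b + ∑ i, c i • dif (w i)) u v - (∑ i, wdg (x i) (y i)) u v := by
  classical
  have hpa : (p : ℤ) ∣ (p : ℤ) ^ a := dvd_pow_self _ ha.ne'
  have halt : ∀ M : Matrix I I ℤ, Alt M → Alt (M.submatrix τ τ) := fun M hM => ⟨fun u => hM.1 _, fun u v => hM.2 _ _⟩
  obtain ⟨c, hc1, hc2⟩ := inter_move p g hp (b.submatrix τ τ) (halt b hb)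
    (fun i => (dif (w (e i))).submatrix τ τ) (fun i => halt _ (alt_dif _)) i0 (fun u => x (τ u)) (fun u => y (τ u))
    (fun u v => hpa.trans (hxy (τ u) (τ v))) hint
  have e1 : b.submatrix τ τ + ∑ i, c i • (dif (w (e i))).submatrix τ τ =
      (b + ∑ i, c i • dif (w (e i))).submatrix τ τ := by
    ext u v
    simp only [Matrix.add_apply, Matrix.sum_apply, Matrix.smul_apply, Matrix.submatrix_apply]
  have e2 : (b + ∑ i, c i • dif (w (e i))).submatrix τ τ + (dif (w (e i0))).submatrix τ τ =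
      (b + ∑ i, c i • dif (w (e i)) + dif (w (e i0))).submatrix τ τ := by
    ext u v
    simp only [Matrix.add_apply, Matrix.submatrix_apply]
  rw [e1, Matrix.det_submatrix_equiv_self] at hc1
  rw [e1, e2, Matrix.det_submatrix_equiv_self] at hc2
  obtain ⟨t, x', y', h⟩ := pp_dec p a g hp ha hg hI (b + ∑ i, c i • dif (w (e i)))
    (hb.add (Alt.sum _ _ fun i => (alt_dif _).smul _)) (dif (w (e i0))) x y hxy hc1 hc2
  refine ⟨fun k => ∑ i, if e i = k then c i + (if i = i0 then t else 0) else 0, x', y', ?_⟩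
  rw [push e (fun i => c i + (if i = i0 then t else 0)) (fun k => dif (w k))]
  have e3 : b + ∑ i, (c i + (if i = i0 then t else 0)) • dif (w (e i)) =
      b + ∑ i, c i • dif (w (e i)) + t • dif (w (e i0)) := by
    simp only [add_smul, Finset.sum_add_distrib, ite_smul, zero_smul, Finset.sum_ite_eq', Finset.mem_univ, if_true,
      add_assoc]
  rw [e3]
  exact h

end

section

variable {G B : Type*} [CommGroup G] [CommGroup B] {s : G →* G →* B}

/-- product of `g - 1` symbols modulo lower terms -/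
theorem abs_dec (hanti : ∀ a b, s a b = (s b a)⁻¹) (n : ℕ) (htors : ∀ a b, s a b ^ n = 1) (ε : G)
    (H : Subgroup G) (hε : ε ∈ H) (hdiag : ∀ a, s a a = 1 ∨ s a a = s a ε) (V : Subgroup B)
    (hV : ∀ a ∈ H, ∀ b ∈ H, s a b ∈ V) {I κ : Type} [Fintype I] [DecidableEq I] [Fintype κ] (g : ℕ)
    (z : I → G) (w : κ → I → I → ℤ) (hw : ∀ i, Q s z (w i) ∈ low s H V z)
    (hdec : ∀ b : Matrix I I ℤ, Alt b → ∃ (c : κ → ℤ) (e f : Fin (g - 1) → I → ℤ), ∀ u v,
      (n : ℤ) ∣ (b + ∑ i, c i • dif (w i)) u v - (∑ i, wdg (e i) (f i)) u v)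
    (α : B) (hα : α ∈ Subgroup.closure {γ | ∃ a ∈ H ⊔ Subgroup.closure (Set.range z),
      ∃ b ∈ H ⊔ Subgroup.closure (Set.range z), γ = s a b}) :
    ∃ x y : Fin (g - 1) → G, α * (∏ i, s (x i) (y i))⁻¹ ∈ low s H V z := by
  obtain ⟨w1, hw1⟩ := exists_Q hanti H V hV z α hα
  obtain ⟨c, e, f, h⟩ := hdec (dif w1) (alt_dif w1)
  refine ⟨fun i => mon z (e i), fun i => mon z (f i), ?_⟩
  have h1 := mod_low hanti n htors ε H hε hdiag V z (w1 + ∑ i, c i • w i) (g - 1) e f (by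
    intro u v
    have e1 : (w1 + ∑ i, c i • w i) u v - (w1 + ∑ i, c i • w i) v u = (dif w1 + ∑ i, c i • dif (w i)) u v := by
      rw [← dif_comb']
      simp only [Pi.add_apply, Matrix.add_apply, Matrix.of_apply, dif]
      ring
    rw [e1]
    exact h u v)
  rw [Q_add, Q_comb'] at h1
  have hw0 : ∏ i, Q s z (w i) ^ c i ∈ low s H V z :=
    Subgroup.prod_mem _ fun i _ => Subgroup.zpow_mem _ (hw i) _
  have h3 := Subgroup.mul_mem _ (Subgroup.mul_mem _ hw1 h1) (Subgroup.inv_mem _ hw0)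
  have e1 : ∀ p q r : B, α * p⁻¹ * (p * q * r) * q⁻¹ = α * r := by
    intro p q r
    calc α * p⁻¹ * (p * q * r) * q⁻¹ = α * r * (p * p⁻¹) * (q * q⁻¹) := by
          simp only [mul_assoc, mul_comm, mul_left_comm]
      _ = α * r := by rw [mul_inv_cancel, mul_inv_cancel, mul_one, mul_one]
  rw [e1] at h3
  exact h3

end

/-- classes on the variety itself -/
theorem main {k K : Type u} [Field k] [IsAlgClosed k] [Field K] [Algebra k K] (n : ℕ) (hn : 0 < n)
    (ζ : K) (hζ : IsPrimitiveRoot ζ n) (g : ℕ) {I κ : Type} [Fintype I] [DecidableEq I] [Fintype κ]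
    (z : I → Kˣ) (θ : I → I → BrauerGroup.{u, u} K) (hθ : ∀ u v, IsSym n ζ (z u) (z v) (θ u v))
    (w : κ → I → I → ℤ) (hrel0 : ∀ i, ∏ u, ∏ v, θ u v ^ w i u v = 1)
    (hdec : ∀ p : ℕ, p.Prime → p ∣ n → ∀ b : Matrix I I ℤ, Alt b →
      ∃ (c : κ → ℤ) (e f : Fin (g - 1) → I → ℤ), ∀ u v,
      (p : ℤ) ^ n.factorization p ∣ (b + ∑ i, c i • dif (w i)) u v - (∑ i, wdg (e i) (f i)) u v)
    (G : Subgroup Kˣ) (hG : G = Subgroup.closure (Set.range (Units.map (algebraMap k K).toMonoidHom) ∪ Set.range z))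
    (α : BrauerGroup.{u, u} K) (hα : α ∈ Subgroup.closure {γ | ∃ a ∈ G, ∃ b ∈ G, IsSym n ζ a b γ}) :
    (∃ (s t : Fin (g - 1) → Kˣ) (σ : Fin (g - 1) → BrauerGroup.{u, u} K),
      (∀ i, IsSym n ζ (s i) (t i) (σ i)) ∧ α = ∏ i, σ i) ∧ IndDvd α (n ^ (g - 1)) := by
  have hQ : ∀ i, Q (symHom hn hζ) z (w i) = ∏ u, ∏ v, θ u v ^ w i u v := by
    intro i
    rw [Q, Fintype.prod_prod_type]
    refine Finset.prod_congr rfl fun u _ => Finset.prod_congr rfl fun v _ => ?_
    rw [(isSym_iff hn hζ (z u) (z v) (θ u v)).1 (hθ u v), symHom_apply]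
  let H : Subgroup Kˣ := (Units.map (algebraMap k K).toMonoidHom).range
  have hneg : (-1 : Kˣ) ∈ H := by
    refine ⟨-1, ?_⟩
    ext
    simp
  have hconst : ∀ a ∈ H, ∀ b, symHom hn hζ a b = 1 := by
    rintro _ ⟨c, rfl⟩ b
    obtain ⟨d, hd⟩ := IsAlgClosed.exists_pow_nat_eq (c : k) hn
    have hd0 : d ≠ 0 := by
      rintro rfl
      rw [zero_pow hn.ne'] at hd
      exact c.ne_zero hd.symm
    have hc : c = (Units.mk0 d hd0) ^ n := by
      ext
      rw [Units.val_pow_eq_pow_val, Units.val_mk0, hd]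
    rw [hc, map_pow, map_pow, MonoidHom.pow_apply, symHom_apply, symCl_tors]
  have hVH : ∀ a ∈ H, ∀ b ∈ H, symHom hn hζ a b ∈ (⊥ : Subgroup (BrauerGroup.{u, u} K)) := fun a ha b _ => by
    rw [hconst a ha b]; exact Subgroup.one_mem _
  have hlow : low (symHom hn hζ) H ⊥ z ≤ (⊥ : Subgroup (BrauerGroup.{u, u} K)) := by
    refine sup_le le_rfl ?_
    rw [Subgroup.closure_le]
    rintro γ ⟨a, ha, u, rfl⟩
    rw [hconst a ha]
    exact Subgroup.one_mem _
  have hGH : G = H ⊔ Subgroup.closure (Set.range z) := by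
    rw [hG, Subgroup.closure_union]
    congr 1
    exact Subgroup.closure_eq H
  have hα' : α ∈ Subgroup.closure {γ | ∃ a ∈ H ⊔ Subgroup.closure (Set.range z),
      ∃ b ∈ H ⊔ Subgroup.closure (Set.range z), γ = symHom hn hζ a b} := by
    have : {γ | ∃ a ∈ G, ∃ b ∈ G, IsSym n ζ a b γ} = {γ | ∃ a ∈ H ⊔ Subgroup.closure (Set.range z),
      ∃ b ∈ H ⊔ Subgroup.closure (Set.range z), γ = symHom hn hζ a b} := by
      ext γ
      simp only [Set.mem_setOf_eq, isSym_iff hn hζ, hGH, symHom_apply]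
    rw [← this]; exact hα
  obtain ⟨s, t, hst⟩ := abs_dec (s := symHom hn hζ) (fun a b => symCl_anti hn hζ a b) n
    (fun a b => symCl_tors hn hζ a b) (-1) H hneg (fun a => symCl_diag hn hζ a) ⊥ hVH g z w
    (fun i => by rw [hQ i, hrel0 i]; exact Subgroup.one_mem _)
    (fun b hb => glue n g hn (fun i => dif (w i)) b fun p hp hpn => hdec p hp hpn b hb) α hα'
  have h1 := hlow hst
  rw [Subgroup.mem_bot, mul_inv_eq_one] at h1
  refine ⟨⟨s, t, fun i => symCl hn hζ (s i) (t i), fun i => (isSym_iff hn hζ _ _ _).2 rfl, h1⟩, ?_⟩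
  rw [h1]
  exact (hasRep_prod hn hζ (g - 1) s t).indDvd

/-- a class generated by symbols of degree `n` is a product of such symbols -/
theorem gen_prod {K : Type u} [Field K] {n : ℕ} {ζ : K} (hn : 0 < n) (hζ : IsPrimitiveRoot ζ n)
    (α : BrauerGroup.{u, u} K) (hα : α ∈ Subgroup.closure {γ | ∃ a b : Kˣ, IsSym n ζ a b γ}) :
    ∃ (r : ℕ) (x y : Fin r → Kˣ), α = ∏ i, symCl hn hζ (x i) (y i) := by
  induction hα using Subgroup.closure_induction with
  | mem γ h =>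
    obtain ⟨a, b, hab⟩ := h
    rw [isSym_iff hn hζ] at hab
    exact ⟨1, fun _ => a, fun _ => b, by rw [hab, Fin.prod_univ_one]⟩
  | one => exact ⟨0, Fin.elim0, Fin.elim0, by rw [Finset.univ_eq_empty, Finset.prod_empty]⟩
  | mul x y _ _ hx hy =>
    obtain ⟨r, a, b, rfl⟩ := hx
    obtain ⟨r', a', b', rfl⟩ := hy
    refine ⟨r + r', Fin.append a a', Fin.append b b', ?_⟩
    rw [Fin.prod_univ_add]
    simp only [Fin.append_left, Fin.append_right]
  | inv x _ hx =>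
    obtain ⟨r, a, b, rfl⟩ := hx
    refine ⟨r, b, a, ?_⟩
    rw [← Finset.prod_inv_distrib]
    exact Finset.prod_congr rfl fun i _ => (symCl_anti hn hζ _ _).symm

/-- **Transfer.** -/
theorem transfer {F K : Type u} [Field F] [Field K] [Algebra F K] [FiniteDimensional F K] (n : ℕ) (hn : 0 < n)
    (hc : (Module.finrank F K).Coprime n) (ζ : F) (hζ : IsPrimitiveRoot ζ n) (β : BrauerGroup.{u, u} F)
    (hβ : β ∈ Subgroup.closure {γ | ∃ a b : Fˣ, IsSym n ζ a b γ}) (e : ℕ) (h : IndDvd (res K β) (n ^ e)) :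
    IndDvd β (n ^ e) := by
  obtain ⟨r, x, y, hxy⟩ := gen_prod hn hζ β hβ
  have h1 := (hasRep_prod hn hζ r x y).indDvd
  rw [← hxy] at h1
  have h2 := IndDvd.of_res K h
  intro D _ _ _ _ hD
  have h3 := h1 D hD
  have h4 := h2 D hD
  have h5 : (Nat.sqrt (Module.finrank F D)).Coprime (Module.finrank F K) :=
    Nat.Coprime.coprime_dvd_left h3 (Nat.Coprime.pow_left r hc.symm)
  exact h5.dvd_of_dvd_mul_left h4

end Run7.h438.PB
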