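import Mathlib
import Pool.Agent.Run7.h438.PE1

/-! Counting the degenerate members of a line of alternating matrices which are simple. -/

set_option autoImplicit false
set_option linter.all false

open Matrix

namespace Run7.h438.PF

open Pool.Agent.Helper929 Pool.Agent.Y109.PI Run7.h438.PC Run7.h438.PD Run7.h438.PE

variable {p : ℕ} [hp : Fact p.Prime]

/-- two independent kernel vectors which are orthogonal for `ω` -/
def Iso {m : ℕ} (ω b : Matrix (Fin m) (Fin m) (ZMod p)) : Prop :=
  ∃ v w : Fin m → ZMod p, (∃ i j, v i * w j - v j * w i ≠ 0) ∧ b.mulVec v = 0 ∧ b.mulVec w = 0 ∧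
    v ⬝ᵥ ω.mulVec w = 0

theorem dot_self {m : ℕ} (b : Matrix (Fin m) (Fin m) (ZMod p)) (hb : Alt b) (v : Fin m → ZMod p) :
    v ⬝ᵥ b.mulVec v = 0 := by
  simp only [Matrix.mulVec, dotProduct, Finset.mul_sum]
  rw [← Fintype.sum_prod_type' (f := fun i j => v i * (b i j * v j))]
  refine Finset.sum_involution (fun q _ => (q.2, q.1)) ?_ ?_ ?_ ?_
  · rintro ⟨i, j⟩ _
    change v i * (b i j * v j) + v j * (b j i * v i) = 0
    rw [hb.2 j i]
    ring
  · rintro ⟨i, j⟩ _ h heq
    have h1 : j = i := congrArg Prod.fst heq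
    apply h
    change v i * (b i j * v j) = 0
    rw [h1, hb.1, zero_mul, mul_zero]
  · rintro ⟨i, j⟩ _
    exact Finset.mem_univ _
  · rintro ⟨i, j⟩ _
    rfl

open Classical in
/-- the number of the invertible two by two matrices -/
theorem gl_two : (p ^ 2 - 1) * (p ^ 2 - p) ≤ (Finset.univ.filter fun q : (Fin 2 → ZMod p) × (Fin 2 → ZMod p) =>
    q.1 0 * q.2 1 - q.1 1 * q.2 0 ≠ 0).card := by
  have hF : (Finset.univ : Finset (Fin 2 → ZMod p)).card = p ^ 2 := by
    rw [Finset.card_univ, Fintype.card_fun, ZMod.card, Fintype.card_fin]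
  have h1 : ∀ u : Fin 2 → ZMod p, u ≠ 0 → p ^ 2 - p = (Finset.univ.filter fun y : Fin 2 → ZMod p =>
      u 0 * y 1 - u 1 * y 0 ≠ 0).card := by
    intro u hu
    have h2 := one_fun (m := 2) (![- u 1, u 0]) (by
      intro h
      apply hu
      funext i
      fin_cases i
      · have := congrFun h 1
        simpa using this
      · have := congrFun h 0
        simpa using this)
    have h3 : (Finset.univ.filter fun ρ : Fin 2 → ZMod p => ∑ j, (![- u 1, u 0] : Fin 2 → ZMod p) j * ρ j = 0) =
        Finset.univ.filter fun y : Fin 2 → ZMod p => u 0 * y 1 - u 1 * y 0 = 0 := by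
      refine Finset.filter_congr fun y _ => ?_
      rw [Fin.sum_univ_two]
      simp only [Matrix.cons_val_zero, Matrix.cons_val_one]
      constructor
      · intro h; linear_combination h
      · intro h; linear_combination h
    rw [h3, sq] at h2
    have h4 := Nat.eq_of_mul_eq_mul_left hp.out.pos h2
    have h5 := Finset.card_filter_add_card_filter_not (s := (Finset.univ : Finset (Fin 2 → ZMod p)))
      (fun y => u 0 * y 1 - u 1 * y 0 = 0)
    rw [hF, h4] at h5
    change _ = (Finset.univ.filter fun y : Fin 2 → ZMod p => ¬ (u 0 * y 1 - u 1 * y 0 = 0)).card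
    omega
  rw [Finset.card_filter, Fintype.sum_prod_type]
  have h6 : ((Finset.univ : Finset (Fin 2 → ZMod p)).erase 0).card = p ^ 2 - 1 := by
    rw [Finset.card_erase_of_mem (Finset.mem_univ _), hF]
  calc (p ^ 2 - 1) * (p ^ 2 - p) = ∑ u ∈ (Finset.univ : Finset (Fin 2 → ZMod p)).erase 0, (p ^ 2 - p) := by
        rw [Finset.sum_const, h6, smul_eq_mul]
    _ = ∑ u ∈ (Finset.univ : Finset (Fin 2 → ZMod p)).erase 0, ∑ y : Fin 2 → ZMod p,
        if u 0 * y 1 - u 1 * y 0 ≠ 0 then 1 else 0 := by
      refine Finset.sum_congr rfl fun u hu => ?_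
      rw [h1 u (Finset.ne_of_mem_erase hu), Finset.card_filter]
    _ ≤ _ := Finset.sum_le_sum_of_subset (Finset.subset_univ _)

open Classical in
/-- **The number of the matrices with an isotropic pair of kernel vectors.** -/
theorem iso_count (k : ℕ) (ω : AltS p (2 * (k + 1))) (hω : ω.1.det ≠ 0) :
    (p ^ 2 - 1) * (p ^ 2 - p) * (Finset.univ.filter fun b : AltS p (2 * (k + 1)) => Iso ω.1 b.1).card ≤
      p ^ 2 * Fintype.card (AltS p (2 * (k + 1))) := by
  let Vec := Fin (2 * (k + 1)) → ZMod p
  let R : AltS p (2 * (k + 1)) → Vec × Vec → Prop := fun b q =>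
    (∃ i j, q.1 i * q.2 j - q.1 j * q.2 i ≠ 0) ∧ b.1.mulVec q.1 = 0 ∧ b.1.mulVec q.2 = 0 ∧ q.1 ⬝ᵥ ω.1.mulVec q.2 = 0
  set A := Fintype.card (AltS p (2 * k)) with hA
  have hV : Fintype.card (AltS p (2 * (k + 1))) = p ^ (2 * k + 1) * (p ^ (2 * k) * A) := by
    rw [hA, ← card_alt p (2 * k), ← card_alt p (2 * k + 1)]
    rfl
  have h1 : (p ^ 2 - 1) * (p ^ 2 - p) * (Finset.univ.filter fun b : AltS p (2 * (k + 1)) => Iso ω.1 b.1).card ≤
      ∑ b : AltS p (2 * (k + 1)), ∑ q : Vec × Vec, if R b q then 1 else 0 := by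
    rw [Finset.card_filter, Finset.mul_sum]
    refine Finset.sum_le_sum fun b _ => ?_
    split_ifs with h
    · rw [mul_one]
      obtain ⟨v, w, ⟨i, j, hij⟩, hv, hw, hvw⟩ := h
      refine gl_two.trans ?_
      rw [← Finset.card_filter]
      refine Finset.card_le_card_of_injOn (fun q => (q.1 0 • v + q.1 1 • w, q.2 0 • v + q.2 1 • w)) ?_ ?_
      · intro q hq
        simp only [Finset.coe_filter, Finset.mem_univ, true_and, Set.mem_setOf_eq] at hq
        refine Finset.mem_coe.2 (Finset.mem_filter.2 ⟨Finset.mem_univ _, ⟨i, j, ?_⟩, ?_, ?_, ?_⟩)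
        · have h2 : (q.1 0 • v + q.1 1 • w) i * (q.2 0 • v + q.2 1 • w) j -
              (q.1 0 • v + q.1 1 • w) j * (q.2 0 • v + q.2 1 • w) i =
              (q.1 0 * q.2 1 - q.1 1 * q.2 0) * (v i * w j - v j * w i) := by
            simp only [Pi.add_apply, Pi.smul_apply, smul_eq_mul]
            ring
          change (q.1 0 • v + q.1 1 • w) i * (q.2 0 • v + q.2 1 • w) j -
              (q.1 0 • v + q.1 1 • w) j * (q.2 0 • v + q.2 1 • w) i ≠ 0
          rw [h2]
          exact mul_ne_zero hq hij
        · change b.1.mulVec (q.1 0 • v + q.1 1 • w) = 0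
          rw [Matrix.mulVec_add, Matrix.mulVec_smul, Matrix.mulVec_smul, hv, hw, smul_zero, smul_zero, add_zero]
        · change b.1.mulVec (q.2 0 • v + q.2 1 • w) = 0
          rw [Matrix.mulVec_add, Matrix.mulVec_smul, Matrix.mulVec_smul, hv, hw, smul_zero, smul_zero, add_zero]
        · change (q.1 0 • v + q.1 1 • w) ⬝ᵥ ω.1.mulVec (q.2 0 • v + q.2 1 • w) = 0
          have h3 : w ⬝ᵥ ω.1.mulVec v = 0 := by rw [alt_dot ω.1 ω.2, hvw, neg_zero]
          rw [Matrix.mulVec_add, Matrix.mulVec_smul, Matrix.mulVec_smul]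
          simp only [dotProduct_add, add_dotProduct, dotProduct_smul, smul_dotProduct]
          rw [dot_self ω.1 ω.2, dot_self ω.1 ω.2, hvw, h3]
          simp
      · intro q hq q' hq' h
        have hA1 := congrArg Prod.fst h
        have hA2 := congrArg Prod.snd h
        have key : ∀ x y x' y' : ZMod p, x • v + y • w = x' • v + y' • w → x = x' ∧ y = y' := by
          intro x y x' y' h4
          have e1 := congrFun h4 i
          have e2 := congrFun h4 j
          simp only [Pi.add_apply, Pi.smul_apply, smul_eq_mul] at e1 e2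
          constructor
          · have h5 : (x - x') * (v i * w j - v j * w i) = 0 := by linear_combination w j * e1 - w i * e2
            exact sub_eq_zero.1 ((mul_eq_zero.1 h5).resolve_right hij)
          · have h5 : (y - y') * (v i * w j - v j * w i) = 0 := by linear_combination v i * e2 - v j * e1
            exact sub_eq_zero.1 ((mul_eq_zero.1 h5).resolve_right hij)
        obtain ⟨e1, e2⟩ := key _ _ _ _ hA1
        obtain ⟨e3, e4⟩ := key _ _ _ _ hA2
        refine Prod.ext ?_ ?_
        · funext l
          fin_cases l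
          · exact e1
          · exact e2
        · funext l
          fin_cases l
          · exact e3
          · exact e4
    · rw [mul_zero]
      exact Nat.zero_le _
  have h2 : ∑ b : AltS p (2 * (k + 1)), ∑ q : Vec × Vec, (if R b q then 1 else 0) =
      ∑ v : Vec, ∑ w : Vec, (Finset.univ.filter fun b : AltS p (2 * (k + 1)) => R b (v, w)).card := by
    rw [Finset.sum_comm, Fintype.sum_prod_type]
    refine Finset.sum_congr rfl fun v _ => Finset.sum_congr rfl fun w _ => ?_
    rw [Finset.card_filter]
  have h3 : ∀ v : Vec, ∑ w : Vec, (Finset.univ.filter fun b : AltS p (2 * (k + 1)) => R b (v, w)).card ≤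
      p ^ (2 * k + 1) * A := by
    intro v
    by_cases hv0 : v = 0
    · refine le_trans (le_of_eq ?_) (Nat.zero_le _)
      refine Finset.sum_eq_zero fun w _ => ?_
      rw [Finset.card_eq_zero, Finset.filter_eq_empty_iff]
      rintro b _ ⟨⟨i, j, hij⟩, -⟩
      apply hij
      have h0 : ∀ l, v l = 0 := fun l => congrFun hv0 l
      change v i * w j - v j * w i = 0
      rw [h0, h0, zero_mul, zero_mul, sub_zero]
    · have h4 : ∀ w : Vec, (Finset.univ.filter fun b : AltS p (2 * (k + 1)) => R b (v, w)).card ≤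
          if v ⬝ᵥ ω.1.mulVec w = 0 then A else 0 := by
        intro w
        rcases Finset.eq_empty_or_nonempty (Finset.univ.filter fun b : AltS p (2 * (k + 1)) => R b (v, w)) with h | ⟨b, hb⟩
        · rw [h, Finset.card_empty]
          exact Nat.zero_le _
        · rw [Finset.mem_filter] at hb
          obtain ⟨-, ⟨i, j, hij⟩, hb1, hb2, hb3⟩ := hb
          rw [if_pos hb3]
          refine le_trans (Finset.card_le_card ?_) (fib_two (n := 2 * k) v w 0 0 i j hij)
          intro b' hb'
          rw [Finset.mem_filter] at hb' ⊢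
          exact ⟨Finset.mem_univ _, hb'.2.2.1, hb'.2.2.2.1⟩
      refine (Finset.sum_le_sum fun w _ => h4 w).trans ?_
      rw [← Finset.sum_filter, Finset.sum_const, smul_eq_mul]
      refine Nat.mul_le_mul_right _ ?_
      have h6 : Matrix.vecMul v ω.1 ≠ 0 := by
        intro h
        exact hω (Matrix.exists_vecMul_eq_zero_iff.1 ⟨v, hv0, h⟩)
      have h7 := one_fun (Matrix.vecMul v ω.1) h6
      have h8 : (Finset.univ.filter fun w : Fin (2 * (k + 1)) → ZMod p => v ⬝ᵥ ω.1.mulVec w = 0) =
          Finset.univ.filter fun w : Fin (2 * (k + 1)) → ZMod p => ∑ j, Matrix.vecMul v ω.1 j * w j = 0 := by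
        refine Finset.filter_congr fun w _ => ?_
        rw [Matrix.dotProduct_mulVec]
        rfl
      rw [h8]
      have h9 : p * (Finset.univ.filter fun w : Fin (2 * (k + 1)) → ZMod p =>
          ∑ j, Matrix.vecMul v ω.1 j * w j = 0).card = p * p ^ (2 * k + 1) := by
        rw [h7]
        ring
      exact (Nat.eq_of_mul_eq_mul_left hp.out.pos h9).le
  calc _ ≤ _ := h1
    _ = _ := h2
    _ ≤ ∑ v : Vec, p ^ (2 * k + 1) * A := Finset.sum_le_sum fun v _ => h3 v
    _ = p ^ (2 * (k + 1)) * (p ^ (2 * k + 1) * A) := by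
      rw [Finset.sum_const, smul_eq_mul, Finset.card_univ, Fintype.card_fun, ZMod.card, Fintype.card_fin]
    _ = p ^ 2 * Fintype.card (AltS p (2 * (k + 1))) := by
      rw [hV]
      ring

open Classical in
/-- **The second moment** for a set of degenerate matrices. -/
theorem moment {κ : Type} [Fintype κ] (k : ℕ) (T : κ → AltS p (2 * (k + 1)))
    (Q : AltS p (2 * (k + 1)) → Prop) (hQ : ∀ b, Q b → b.1.det = 0)
    (J : ℕ) (hJ : ∀ c c', c ≠ c' → (Finset.univ.filter fun b : AltS p (2 * (k + 1)) => (b.1 + (T c).1).det = 0 ∧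
      (b.1 + (T c').1).det = 0).card ≤ J) :
    (Fintype.card κ * (Finset.univ.filter Q).card) ^ 2 ≤
      (Finset.univ.filter fun b : AltS p (2 * (k + 1)) => ∃ c, Q (b + T c)).card *
        (Fintype.card κ * (Finset.univ.filter Q).card + Fintype.card κ * ((Fintype.card κ - 1) * J)) := by
  set D := (Finset.univ.filter Q).card with hD
  set q := Fintype.card κ with hq
  let N : AltS p (2 * (k + 1)) → ℕ := fun b => (Finset.univ.filter fun c : κ => Q (b + T c)).card
  set G := (Finset.univ.filter fun b : AltS p (2 * (k + 1)) => ∃ c, Q (b + T c)) with hG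
  have h2 : q * D = ∑ b, N b := by
    calc q * D = ∑ _c : κ, D := by rw [Finset.sum_const, Finset.card_univ, smul_eq_mul]
      _ = ∑ c : κ, (Finset.univ.filter fun b : AltS p (2 * (k + 1)) => Q (b + T c)).card := by
        refine Finset.sum_congr rfl fun c _ => ?_
        rw [hD]
        symm
        refine Finset.card_nbij' (fun b => b + T c) (fun b => b - T c) ?_ ?_ ?_ ?_
        · intro b hb
          simp only [Finset.coe_filter, Finset.mem_univ, true_and, Set.mem_setOf_eq] at hb ⊢
          exact hb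
        · intro b hb
          simp only [Finset.coe_filter, Finset.mem_univ, true_and, Set.mem_setOf_eq] at hb ⊢
          rw [sub_add_cancel]
          exact hb
        · intro b _; exact add_sub_cancel_right _ _
        · intro b _; exact sub_add_cancel _ _
      _ = ∑ b, N b := by
        simp only [N, Finset.card_filter]
        exact Finset.sum_comm
  have h3 : ∑ b, N b ^ 2 ≤ q * D + q * ((q - 1) * J) := by
    have h4 : ∑ b, N b ^ 2 = ∑ c : κ, ∑ c' : κ, (Finset.univ.filter fun b : AltS p (2 * (k + 1)) =>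
          Q (b + T c) ∧ Q (b + T c')).card := by
      have h5 : ∀ b, N b ^ 2 = ∑ c : κ, ∑ c' : κ, if Q (b + T c) ∧ Q (b + T c') then 1 else 0 := by
        intro b
        have h6 : N b = ∑ c : κ, if Q (b + T c) then 1 else 0 := Finset.card_filter _ _
        rw [sq, h6, Finset.sum_mul_sum]
        refine Finset.sum_congr rfl fun c _ => Finset.sum_congr rfl fun c' _ => ?_
        by_cases hv : Q (b + T c)
        · by_cases hw : Q (b + T c')
          · rw [if_pos hv, if_pos hw, if_pos ⟨hv, hw⟩, mul_one]
          · have hn : ¬ (Q (b + T c) ∧ Q (b + T c')) := fun h => hw h.2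
            rw [if_neg hw, if_neg hn, mul_zero]
        · have hn : ¬ (Q (b + T c) ∧ Q (b + T c')) := fun h => hv h.1
          rw [if_neg hv, if_neg hn, zero_mul]
      rw [Finset.sum_congr rfl fun b _ => h5 b, Finset.sum_comm]
      refine Finset.sum_congr rfl fun c _ => ?_
      rw [Finset.sum_comm]
      refine Finset.sum_congr rfl fun c' _ => ?_
      rw [Finset.card_filter]
    rw [h4]
    have h7 : ∀ c : κ, ∑ c' : κ, (Finset.univ.filter fun b : AltS p (2 * (k + 1)) =>
          Q (b + T c) ∧ Q (b + T c')).card ≤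
        (Finset.univ.filter fun b : AltS p (2 * (k + 1)) => Q (b + T c)).card + (q - 1) * J := by
      intro c
      rw [← Finset.add_sum_erase _ _ (Finset.mem_univ c)]
      refine Nat.add_le_add ?_ ?_
      · refine Finset.card_le_card fun b hb => ?_
        rw [Finset.mem_filter] at hb ⊢
        exact ⟨Finset.mem_univ _, hb.2.1⟩
      · refine (Finset.sum_le_sum fun c' hc' => le_trans (Finset.card_le_card ?_)
          (hJ c c' (Finset.ne_of_mem_erase hc').symm)).trans ?_
        · intro b hb
          rw [Finset.mem_filter] at hb ⊢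
          exact ⟨Finset.mem_univ _, hQ _ hb.2.1, hQ _ hb.2.2⟩
        rw [Finset.sum_const, Finset.card_erase_of_mem (Finset.mem_univ _), Finset.card_univ, smul_eq_mul]
    refine (Finset.sum_le_sum fun c _ => h7 c).trans ?_
    rw [Finset.sum_add_distrib, Finset.sum_const (_ * J), Finset.card_univ, smul_eq_mul]
    refine Nat.add_le_add_right (le_of_eq ?_) _
    rw [h2]
    simp only [N, Finset.card_filter]
    exact Finset.sum_comm
  have h6 : q * D = ∑ b ∈ G, N b := by
    rw [h2]
    symm
    refine Finset.sum_subset (Finset.subset_univ _) fun b _ hb => ?_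
    change (Finset.univ.filter _).card = 0
    rw [Finset.card_eq_zero, Finset.filter_eq_empty_iff]
    intro c _ hc
    exact hb (Finset.mem_filter.2 ⟨Finset.mem_univ _, c, hc⟩)
  have h5 : (q * D) ^ 2 ≤ G.card * ∑ b, N b ^ 2 := by
    rw [h6]
    refine (sq_sum_le_card_mul_sum_sq (s := G) (f := N)).trans ?_
    exact Nat.mul_le_mul_left _ (Finset.sum_le_sum_of_subset (Finset.subset_univ _))
  exact h5.trans (Nat.mul_le_mul_left _ h3)

end Run7.h438.PF
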