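import Mathlib
import Pool.Agent.Run7.h438.PF1
import Pool.Agent.Run7.h438.PB1
import Pool.Agent.Y109.PI.Fix
import Pool.Agent.Y109.PI.Frob

/-! Lifting of simple degenerate members to prime powers. -/

set_option autoImplicit false
set_option linter.all false

open Matrix

namespace Run7.h438.PF

open Pool.Agent.Helper929 Pool.Agent.Y109.PI Run7.h438.PC Run7.h438.PD Run7.h438.PE

section field

variable {p : ℕ} [hp : Fact p.Prime]

open Classical in
/-- without isotropic pairs the kernel is small -/
theorem ker_small {m : ℕ} (ω b : Matrix (Fin m) (Fin m) (ZMod p)) (h : ¬ Iso ω b) :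
    (Finset.univ.filter fun v : Fin m → ZMod p => b.mulVec v = 0).card ≤ p ^ 2 := by
  by_contra hcon
  rw [not_le] at hcon
  let K : AddSubgroup (Fin m → ZMod p) := (b.mulVecLin.ker).toAddSubgroup
  haveI : Fintype K := Fintype.ofFinite _
  have hK : Fintype.card K = (Finset.univ.filter fun v : Fin m → ZMod p => b.mulVec v = 0).card := by
    rw [← Fintype.card_subtype]
    exact Fintype.card_congr (Equiv.refl _)
  -- a nonzero vector
  obtain ⟨v, hv, hv0⟩ : ∃ v : Fin m → ZMod p, b.mulVec v = 0 ∧ v ≠ 0 := by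
    by_contra hno
    have h1 : (Finset.univ.filter fun v : Fin m → ZMod p => b.mulVec v = 0) ⊆ {0} := by
      intro v hv
      rw [Finset.mem_filter] at hv
      rw [Finset.mem_singleton]
      by_contra h2
      exact hno ⟨v, hv.2, h2⟩
    have h2 := Finset.card_le_card h1
    rw [Finset.card_singleton] at h2
    have h3 : 1 ≤ p ^ 2 := Nat.one_le_pow _ _ hp.out.pos
    omega
  let φ : K →+ ZMod p :=
    { toFun := fun w => v ⬝ᵥ ω.mulVec w.1
      map_zero' := by
        change v ⬝ᵥ ω.mulVec (0 : Fin m → ZMod p) = 0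
        rw [Matrix.mulVec_zero, dotProduct_zero]
      map_add' := fun x y => by
        change v ⬝ᵥ ω.mulVec (x.1 + y.1) = _
        rw [Matrix.mulVec_add, dotProduct_add] }
  have h1 : (Finset.univ.filter fun v : Fin m → ZMod p => b.mulVec v = 0).card ≤
      p * (Finset.univ.filter fun x => φ x = 0).card := by
    have h := card_ker φ
    rw [ZMod.card, hK] at h
    convert h
  have h2 : p < (Finset.univ.filter fun x => φ x = 0).card := by
    by_contra h3
    rw [not_lt] at h3
    have h4 : p * (Finset.univ.filter fun x => φ x = 0).card ≤ p ^ 2 := by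
      rw [sq]
      exact Nat.mul_le_mul_left _ h3
    omega
  -- a vector which is not a multiple
  have h3 : ∃ w ∈ (Finset.univ.filter fun x => φ x = 0), ∃ i j, v i * w.1 j - v j * w.1 i ≠ 0 := by
    by_contra hno
    have h4 : (Finset.univ.filter fun x : K => φ x = 0).card ≤ (Finset.univ : Finset (ZMod p)).card := by
      obtain ⟨i, hi⟩ := Function.ne_iff.1 hv0
      rw [Pi.zero_apply] at hi
      refine Finset.card_le_card_of_injOn (fun w => w.1 i) (fun _ _ => Finset.mem_coe.2 (Finset.mem_univ _)) ?_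
      intro w hw w' hw' hww
      have e : ∀ (w : K), w ∈ (Finset.univ.filter fun x : K => φ x = 0) → ∀ j, v i * w.1 j - v j * w.1 i = 0 := by
        intro w hw j
        by_contra h5
        exact hno ⟨w, hw, i, j, h5⟩
      have e1 := e w (Finset.mem_coe.1 hw)
      have e2 := e w' (Finset.mem_coe.1 hw')
      change w.1 i = w'.1 i at hww
      apply Subtype.ext
      funext j
      have e3 : v i * (w.1 j - w'.1 j) = 0 := by
        linear_combination e1 j - e2 j + v j * hww
      exact sub_eq_zero.1 ((mul_eq_zero.1 e3).resolve_left hi)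
    rw [Finset.card_univ, ZMod.card] at h4
    omega
  obtain ⟨w, hw, i, j, hij⟩ := h3
  rw [Finset.mem_filter] at hw
  exact h ⟨v, w.1, ⟨i, j, hij⟩, hv, w.2, hw.2⟩

open Classical in
/-- a simple degenerate matrix has kernel vectors with nonzero value of the form, and the image is the orthogonal
complement of the kernel -/
theorem simple_data (g : ℕ) (hg : 0 < g) (ω b : Matrix (Fin (2 * g)) (Fin (2 * g)) (ZMod p)) (hb : Alt b)
    (hω : Alt ω) (hdet : b.det = 0) (h : ¬ Iso ω b) :
    ∃ v w : Fin (2 * g) → ZMod p, v ≠ 0 ∧ b.mulVec v = 0 ∧ b.mulVec w = 0 ∧ w ⬝ᵥ ω.mulVec v ≠ 0 ∧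
      ∀ x : Fin (2 * g) → ZMod p, v ⬝ᵥ x = 0 → w ⬝ᵥ x = 0 → ∃ y, b.mulVec y = x := by
  have h1 := ker_card g hg b hb hdet
  have h2 := ker_small ω b h
  obtain ⟨v, hv0, hv⟩ := Matrix.exists_mulVec_eq_zero_iff.2 hdet
  -- a second kernel vector
  obtain ⟨w, hw, i, j, hij⟩ : ∃ w : Fin (2 * g) → ZMod p, b.mulVec w = 0 ∧ ∃ i j, v i * w j - v j * w i ≠ 0 := by
    by_contra hno
    have h4 : (Finset.univ.filter fun v : Fin (2 * g) → ZMod p => b.mulVec v = 0).card ≤
        (Finset.univ : Finset (ZMod p)).card := by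
      obtain ⟨i, hi⟩ := Function.ne_iff.1 hv0
      rw [Pi.zero_apply] at hi
      refine Finset.card_le_card_of_injOn (fun w => w i) (fun _ _ => Finset.mem_coe.2 (Finset.mem_univ _)) ?_
      intro w hw w' hw' hww
      have e : ∀ w : Fin (2 * g) → ZMod p, b.mulVec w = 0 → ∀ j, v i * w j - v j * w i = 0 := by
        intro w hw j
        by_contra h5
        exact hno ⟨w, hw, i, j, h5⟩
      simp only [Finset.coe_filter, Finset.mem_univ, true_and, Set.mem_setOf_eq] at hw hw'
      have e1 := e w hw
      have e2 := e w' hw'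
      change w i = w' i at hww
      funext j
      have e3 : v i * (w j - w' j) = 0 := by
        linear_combination e1 j - e2 j + v j * hww
      exact sub_eq_zero.1 ((mul_eq_zero.1 e3).resolve_left hi)
    rw [Finset.card_univ, ZMod.card] at h4
    have h5 : p < p ^ 2 := by
      rw [sq]
      exact lt_mul_of_one_lt_right hp.out.pos hp.out.one_lt
    omega
  have hvw : w ⬝ᵥ ω.mulVec v ≠ 0 := by
    intro h5
    apply h
    refine ⟨v, w, ⟨i, j, hij⟩, hv, hw, ?_⟩
    rw [PD.alt_dot ω hω, h5, neg_zero]
  refine ⟨v, w, hv0, hv, hw, hvw, ?_⟩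
  -- the image
  set O := Finset.univ.filter fun x : Fin (2 * g) → ZMod p => v ⬝ᵥ x = 0 ∧ w ⬝ᵥ x = 0 with hO
  set Im := (Finset.univ : Finset (Fin (2 * g) → ZMod p)).image (fun y => b.mulVec y) with hIm
  have hsub : Im ⊆ O := by
    intro x hx
    rw [hIm, Finset.mem_image] at hx
    obtain ⟨y, -, rfl⟩ := hx
    rw [hO, Finset.mem_filter]
    refine ⟨Finset.mem_univ _, ?_, ?_⟩
    · rw [PD.alt_dot b hb, hv, dotProduct_zero, neg_zero]
    · rw [PD.alt_dot b hb, hw, dotProduct_zero, neg_zero]
  have hO2 : p ^ 2 * O.card ≤ p ^ (2 * g) := by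
    have hne : j ≠ i := by
      rintro rfl
      exact hij (by ring)
    -- translates by vectors supported at the two indices
    have h5 : (Finset.univ ×ˢ O : Finset ((ZMod p × ZMod p) × (Fin (2 * g) → ZMod p))).card ≤
        (Finset.univ : Finset (Fin (2 * g) → ZMod p)).card := by
      refine Finset.card_le_card_of_injOn (fun q => q.2 + (Pi.single i q.1.1 + Pi.single j q.1.2))
        (fun _ _ => Finset.mem_coe.2 (Finset.mem_univ _)) ?_
      rintro ⟨⟨s, t⟩, x⟩ hx ⟨⟨s', t'⟩, x'⟩ hx' hxx
      have hx1 := (Finset.mem_filter.1 (Finset.mem_product.1 (Finset.mem_coe.1 hx)).2).2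
      have hx1' := (Finset.mem_filter.1 (Finset.mem_product.1 (Finset.mem_coe.1 hx')).2).2
      change x + (Pi.single i s + Pi.single j t) = x' + (Pi.single i s' + Pi.single j t') at hxx
      change v ⬝ᵥ x = 0 ∧ w ⬝ᵥ x = 0 at hx1
      change v ⬝ᵥ x' = 0 ∧ w ⬝ᵥ x' = 0 at hx1'
      have e1 : v i * s + v j * t = v i * s' + v j * t' := by
        have := congrArg (fun y => v ⬝ᵥ y) hxx
        simp only [dotProduct_add, dotProduct_single, hx1.1, hx1'.1, zero_add] at this
        exact this
      have e2 : w i * s + w j * t = w i * s' + w j * t' := by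
        have := congrArg (fun y => w ⬝ᵥ y) hxx
        simp only [dotProduct_add, dotProduct_single, hx1.2, hx1'.2, zero_add] at this
        exact this
      have e3 : (s - s') * (v i * w j - v j * w i) = 0 := by linear_combination w j * e1 - v j * e2
      have e4 : (t - t') * (v i * w j - v j * w i) = 0 := by linear_combination v i * e2 - w i * e1
      have e5 := sub_eq_zero.1 ((mul_eq_zero.1 e3).resolve_right hij)
      have e6 := sub_eq_zero.1 ((mul_eq_zero.1 e4).resolve_right hij)
      rw [e5, e6] at hxx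
      rw [e5, e6, add_right_cancel hxx]
    rw [Finset.card_product, Finset.card_univ, Fintype.card_prod, ZMod.card, Finset.card_univ, Fintype.card_fun,
      ZMod.card, Fintype.card_fin, ← sq] at h5
    exact h5
  have hIm2 : p ^ (2 * g) ≤ p ^ 2 * Im.card := by
    have h5 : (Finset.univ : Finset (Fin (2 * g) → ZMod p)).card =
        ∑ x ∈ Im, (Finset.univ.filter fun y : Fin (2 * g) → ZMod p => b.mulVec y = x).card :=
      Finset.card_eq_sum_card_fiberwise (f := fun y => b.mulVec y) (t := Im)
        (fun y _ => Finset.mem_coe.2 (Finset.mem_image_of_mem _ (Finset.mem_univ _)))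
    have h6 : ∀ x ∈ Im, (Finset.univ.filter fun y : Fin (2 * g) → ZMod p => b.mulVec y = x).card ≤ p ^ 2 := by
      intro x hx
      rw [hIm, Finset.mem_image] at hx
      obtain ⟨y0, -, rfl⟩ := hx
      refine le_trans (Finset.card_le_card_of_injOn (fun y => y - y0) ?_ ?_) h2
      · intro y hy
        simp only [Finset.coe_filter, Finset.mem_univ, true_and, Set.mem_setOf_eq] at hy
        refine Finset.mem_coe.2 (Finset.mem_filter.2 ⟨Finset.mem_univ _, ?_⟩)
        rw [Matrix.mulVec_sub, hy, sub_self]
      · intro y _ y' _ hyy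
        exact sub_left_injective hyy
    rw [Finset.card_univ, Fintype.card_fun, ZMod.card, Fintype.card_fin] at h5
    rw [h5]
    refine (Finset.sum_le_sum h6).trans (le_of_eq ?_)
    rw [Finset.sum_const, smul_eq_mul, mul_comm]
  have hle : O.card ≤ Im.card := by
    have h5 := hO2.trans hIm2
    exact Nat.le_of_mul_le_mul_left h5 (pow_pos hp.out.pos 2)
  have heq : Im = O := Finset.eq_of_subset_of_card_le hsub hle
  intro x hx1 hx2
  have hx : x ∈ Im := by
    rw [heq, hO, Finset.mem_filter]
    exact ⟨Finset.mem_univ _, hx1, hx2⟩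
  rw [hIm, Finset.mem_image] at hx
  obtain ⟨y, -, hy⟩ := hx
  exact ⟨y, hy⟩

end field

end Run7.h438.PF
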