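import Mathlib
import Pool.Agent.Run7.h438.PF3

/-! Lifting of simple degenerate members to prime powers, continued. -/

set_option autoImplicit false
set_option linter.all false

open Matrix

namespace Run7.h438.PF

open Pool.Agent.Helper929 Pool.Agent.Y109.PI Run7.h438.PC Run7.h438.PD Run7.h438.PE

theorem red_mulVec {m : ℕ} (p : ℕ) (M : Matrix (Fin m) (Fin m) ℤ) (v : Fin m → ℤ) (i : Fin m) :
    (((M.mulVec v) i : ℤ) : ZMod p) = (red p M).mulVec (fun j => (v j : ZMod p)) i := by
  have h := RingHom.map_mulVec (Int.castRingHom (ZMod p)) M v i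
  exact h

/-- **Newton's method.** -/
theorem newton (p : ℕ) [hp : Fact p.Prime] (g : ℕ) (hg : 0 < g) (b ω : Matrix (Fin (2 * g)) (Fin (2 * g)) ℤ)
    (hb : Alt b) (hω : Alt ω) (c0 : ZMod p) (hdet : (red p b + c0 • red p ω).det = 0)
    (hns : ¬ Iso (red p ω) (red p b + c0 • red p ω)) (a : ℕ) (ha : 0 < a) :
    ∃ (c : ℤ) (v : Fin (2 * g) → ℤ), (∃ i, ¬ (p : ℤ) ∣ v i) ∧ ∀ i, (p : ℤ) ^ a ∣ ((b + c • ω).mulVec v) i := by
  classical
  haveI : NeZero p := ⟨hp.out.ne_zero⟩
  set B0 := red p b + c0 • red p ω with hB0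
  have hB0alt : Alt B0 := Alt.add (hb.map' _) (Alt.smul (hω.map' _) c0)
  have hω0alt : Alt (red p ω) := hω.map' _
  obtain ⟨v0, w0, hv0, hBv, hBw, hwv, him⟩ := simple_data g hg (red p ω) B0 hB0alt hω0alt hdet hns
  have hred : ∀ c : ℤ, (c : ZMod p) = c0 → red p (b + c • ω) = B0 := by
    intro c hc
    ext i j
    rw [hB0, ← hc]
    change (((b + c • ω) i j : ℤ) : ZMod p) = ((b i j : ℤ) : ZMod p) + (c : ZMod p) * ((ω i j : ℤ) : ZMod p)
    rw [Matrix.add_apply, Matrix.smul_apply, smul_eq_mul, Int.cast_add, Int.cast_mul]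
  have hmain : ∀ a : ℕ, 0 < a → ∃ (c : ℤ) (v : Fin (2 * g) → ℤ), (c : ZMod p) = c0 ∧ (fun i => (v i : ZMod p)) = v0 ∧
      ∀ i, (p : ℤ) ^ a ∣ ((b + c • ω).mulVec v) i := by
    intro a ha
    induction a with
    | zero => omega
    | succ a ih =>
      rcases Nat.eq_zero_or_pos a with h0 | h0
      · subst h0
        refine ⟨c0.val, fun i => (v0 i).val, vcast c0, funext fun i => vcast (v0 i), fun i => ?_⟩
        rw [zero_add, pow_one, ← ZMod.intCast_zmod_eq_zero_iff_dvd, red_mulVec, hred _ (vcast c0)]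
        have e1 : (fun j => (((v0 j).val : ℤ) : ZMod p)) = v0 := funext fun i => vcast (v0 i)
        rw [e1, hBv]
        rfl
      · obtain ⟨c, v, hc, hv, hdvd⟩ := ih h0
        set B := b + c • ω with hB
        have hBalt : Alt B := Alt.add hb (Alt.smul hω c)
        choose r hr using hdvd
        have hpa : ((p : ℤ) ^ a) ≠ 0 := pow_ne_zero _ (by exact_mod_cast hp.out.ne_zero)
        -- v is orthogonal to r
        have hvr : v ⬝ᵥ r = 0 := by
          have e1 := alt_dot_self hBalt v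
          have e2 : B *ᵥ v = (p : ℤ) ^ a • r := by
            funext i
            rw [hr i, Pi.smul_apply, smul_eq_mul]
          rw [e2, dotProduct_smul, smul_eq_mul] at e1
          exact (mul_eq_zero.1 e1).resolve_left hpa
        let rb : Fin (2 * g) → ZMod p := fun i => (r i : ZMod p)
        have hvr' : v0 ⬝ᵥ rb = 0 := by
          rw [← hv]
          have e1 := congrArg (fun x : ℤ => (x : ZMod p)) hvr
          simp only [dotProduct, Int.cast_sum, Int.cast_mul, Int.cast_zero] at e1 ⊢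
          exact e1
        set s := w0 ⬝ᵥ (red p ω).mulVec v0 with hs
        set τ : ZMod p := -(w0 ⬝ᵥ rb) * s⁻¹ with hτ
        obtain ⟨y, hy⟩ := him (-(rb + τ • (red p ω).mulVec v0)) (by
          rw [dotProduct_neg, dotProduct_add, hvr', dotProduct_smul, PF.dot_self (red p ω) hω0alt, smul_zero, add_zero,
            neg_zero]) (by
          rw [dotProduct_neg, dotProduct_add, dotProduct_smul, ← hs, smul_eq_mul, hτ, mul_assoc,
            inv_mul_cancel₀ hwv, mul_one, add_neg_cancel, neg_zero])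
        let τ' : ℤ := τ.val
        let y' : Fin (2 * g) → ℤ := fun i => (y i).val
        have hτ' : (τ' : ZMod p) = τ := vcast τ
        have hy' : (fun i => (y' i : ZMod p)) = y := funext fun i => vcast (y i)
        have hpz : ((p : ℤ) : ZMod p) = 0 := by
          rw [Int.cast_natCast, ZMod.natCast_self]
        refine ⟨c + (p : ℤ) ^ a * τ', fun i => v i + (p : ℤ) ^ a * y' i, ?_, ?_, fun i => ?_⟩
        · rw [Int.cast_add, Int.cast_mul, Int.cast_pow, hpz, zero_pow h0.ne', zero_mul, add_zero, hc]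
        · funext i
          rw [Int.cast_add, Int.cast_mul, Int.cast_pow, hpz, zero_pow h0.ne', zero_mul, add_zero]
          exact congrFun hv i
        · have e1 : (fun i => v i + (p : ℤ) ^ a * y' i) = v + (p : ℤ) ^ a • y' := by
            funext i
            rw [Pi.add_apply, Pi.smul_apply, smul_eq_mul]
          have e2 : b + (c + (p : ℤ) ^ a * τ') • ω = B + (p : ℤ) ^ a • (τ' • ω) := by
            rw [hB, add_smul, mul_smul, add_assoc]
          have e3 : ((b + (c + (p : ℤ) ^ a * τ') • ω).mulVec (fun i => v i + (p : ℤ) ^ a * y' i)) i =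
              (p : ℤ) ^ a * (r i + τ' * (ω.mulVec v) i + (B.mulVec y') i) +
                (p : ℤ) ^ a * (p : ℤ) ^ a * (τ' * (ω.mulVec y') i) := by
            rw [e1, e2]
            simp only [Matrix.add_mulVec, Matrix.mulVec_add, Matrix.smul_mulVec, Matrix.mulVec_smul, Pi.add_apply,
              Pi.smul_apply, smul_eq_mul]
            rw [hr i]
            ring
          rw [e3, pow_succ]
          refine dvd_add (mul_dvd_mul_left _ ?_) ?_
          · rw [← ZMod.intCast_zmod_eq_zero_iff_dvd, Int.cast_add, Int.cast_add, Int.cast_mul, red_mulVec, red_mulVec,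
              hred c hc, hy', hy, hv, hτ']
            rw [Pi.neg_apply, Pi.add_apply, Pi.smul_apply, smul_eq_mul]
            change rb i + _ + -(rb i + _) = 0
            ring
          · rw [mul_assoc]
            refine mul_dvd_mul_left _ ?_
            exact (dvd_pow_self _ h0.ne').mul_right _
  obtain ⟨c, v, -, hv, hdvd⟩ := hmain a ha
  refine ⟨c, v, ?_, hdvd⟩
  obtain ⟨i, hi⟩ := Function.ne_iff.1 hv0
  refine ⟨i, fun h => hi ?_⟩
  rw [← hv]
  exact (ZMod.intCast_zmod_eq_zero_iff_dvd _ _).2 h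

/-- **The decomposition.** -/
theorem lift_dec (p : ℕ) [hp : Fact p.Prime] (g : ℕ) (hg : 0 < g) (b ω : Matrix (Fin (2 * g)) (Fin (2 * g)) ℤ)
    (hb : Alt b) (hω : Alt ω) (hωd : ω.det ≠ 0) (c0 : ZMod p) (hdet : (red p b + c0 • red p ω).det = 0)
    (hns : ¬ Iso (red p ω) (red p b + c0 • red p ω)) (a : ℕ) (ha : 0 < a) :
    ∃ (c : ℤ) (e f : Fin (g - 1) → Fin (2 * g) → ℤ), ∀ u v,
      (p : ℤ) ^ a ∣ (b + c • ω) u v - (∑ i, wdg (e i) (f i)) u v := by
  obtain ⟨c1, v, ⟨u0, hu0⟩, hdvd⟩ := newton p g hg b ω hb hω c0 hdet hns a ha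
  have hpp : Prime (p : ℤ) := Nat.prime_iff_prime_int.1 hp.out
  have hpa : ((p : ℤ) ^ a) ≠ 0 := pow_ne_zero _ (by exact_mod_cast hp.out.ne_zero)
  -- a nondegenerate member
  obtain ⟨t, ht⟩ : ∃ t : ℤ, ((b + c1 • ω) + t • ((p : ℤ) ^ a • ω)).det ≠ 0 := by
    by_contra hcon
    simp only [not_exists, not_not] at hcon
    obtain ⟨-, h2⟩ := pf_pencil g (b + c1 • ω) ((p : ℤ) ^ a • ω)
    have hev : ∀ t : ℤ, (pf (2 * g) ((b + c1 • ω).map Polynomial.C + (Polynomial.X : Polynomial ℤ) •
        ((p : ℤ) ^ a • ω).map Polynomial.C)).eval t = 0 := by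
      intro t
      rw [pf_pencil_eval]
      have halt : Alt ((b + c1 • ω) + t • ((p : ℤ) ^ a • ω)) :=
        Alt.add (Alt.add hb (Alt.smul hω c1)) (Alt.smul (Alt.smul hω _) t)
      have h3 := pf_sq_int _ (fun i j => halt.2 i j)
      rw [hcon t] at h3
      exact pow_eq_zero_iff two_ne_zero |>.1 h3
    have hP : pf (2 * g) ((b + c1 • ω).map Polynomial.C + (Polynomial.X : Polynomial ℤ) •
        ((p : ℤ) ^ a • ω).map Polynomial.C) = 0 := Polynomial.funext fun t => by rw [hev t, Polynomial.eval_zero]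
    rw [hP, Polynomial.coeff_zero] at h2
    have halt : Alt ((p : ℤ) ^ a • ω) := Alt.smul hω _
    have h3 := pf_sq_int _ (fun i j => halt.2 i j)
    rw [← h2, Matrix.det_smul] at h3
    have h4 : ((p : ℤ) ^ a) ^ (Fintype.card (Fin (2 * g))) * ω.det ≠ 0 := mul_ne_zero (pow_ne_zero _ hpa) hωd
    apply h4
    rw [← h3]
    ring
  set B := (b + c1 • ω) + t • ((p : ℤ) ^ a • ω) with hB
  have hBalt : Alt B := Alt.add (Alt.add hb (Alt.smul hω c1)) (Alt.smul (Alt.smul hω _) t)
  have hBv : ∀ i, (p : ℤ) ^ a ∣ (B.mulVec v) i := by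
    intro i
    have e1 : (B.mulVec v) i = ((b + c1 • ω).mulVec v) i + (p : ℤ) ^ a * (t * (ω.mulVec v) i) := by
      rw [hB, Matrix.add_mulVec, Matrix.smul_mulVec, Matrix.smul_mulVec, Pi.add_apply, Pi.smul_apply, Pi.smul_apply,
        smul_eq_mul, smul_eq_mul]
      ring
    rw [e1]
    exact dvd_add (hdvd i) (Dvd.intro _ rfl)
  obtain ⟨d, e, f, A, C, hmat, hAC, -⟩ := frob_matrix g (Fintype.card_fin _) B hBalt ht
  -- the dual relations
  let L : Matrix (Fin (2 * g)) (Fin g ⊕ Fin g) ℤ := Matrix.of fun u k => Sum.elim (fun i => A i u) (fun i => C i u) k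
  let M : Matrix (Fin g ⊕ Fin g) (Fin (2 * g)) ℤ := Matrix.of fun k u => Sum.elim (fun i => e i u) (fun i => f i u) k
  have hLM : L * M = 1 := by
    ext u w
    rw [Matrix.mul_apply, Fintype.sum_sum_type, Matrix.one_apply, ← hAC u w]
    rfl
  obtain ⟨σ⟩ : Nonempty (Fin (2 * g) ≃ Fin g ⊕ Fin g) := by
    refine Fintype.card_eq.1 ?_
    rw [Fintype.card_sum, Fintype.card_fin, Fintype.card_fin]; ring
  have hML : M * L = 1 := (Matrix.mul_eq_one_comm_of_equiv σ).1 hLM
  -- the value of the form at v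
  have hform : ∀ x : Fin (2 * g) → ℤ, (p : ℤ) ^ a ∣ ∑ i, d i * ((e i ⬝ᵥ x) * (f i ⬝ᵥ v) - (f i ⬝ᵥ x) * (e i ⬝ᵥ v)) := by
    intro x
    have e1 : x ⬝ᵥ B.mulVec v = ∑ i, d i * ((e i ⬝ᵥ x) * (f i ⬝ᵥ v) - (f i ⬝ᵥ x) * (e i ⬝ᵥ v)) := by
      have e2 : B.mulVec v = ∑ i, d i • ((f i ⬝ᵥ v) • e i - (e i ⬝ᵥ v) • f i) := by
        funext u
        rw [hmat, Matrix.mulVec, dotProduct, Finset.sum_apply]
        simp only [Matrix.sum_apply, Finset.sum_mul]
        rw [Finset.sum_comm]
        refine Finset.sum_congr rfl fun i _ => ?_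
        simp only [Matrix.smul_apply, wdg, Matrix.of_apply, smul_eq_mul, Pi.smul_apply, Pi.sub_apply, dotProduct,
          Finset.sum_mul, ← Finset.sum_sub_distrib, Finset.mul_sum]
        refine Finset.sum_congr rfl fun w _ => ?_
        ring
      rw [e2, dotProduct_sum]
      refine Finset.sum_congr rfl fun i _ => ?_
      rw [dotProduct_smul, dotProduct_sub, dotProduct_smul, dotProduct_smul, smul_eq_mul, smul_eq_mul, smul_eq_mul,
        dotProduct_comm x (e i), dotProduct_comm x (f i)]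
      ring
    rw [← e1, dotProduct]
    exact Finset.dvd_sum fun i _ => (hBv i).mul_left _
  have hML' : ∀ k l, ∑ u, M k u * L u l = if k = l then 1 else 0 := by
    intro k l
    have := congrFun (congrFun hML k) l
    rw [Matrix.mul_apply, Matrix.one_apply] at this
    exact this
  have heA : ∀ i j, e i ⬝ᵥ A j = if i = j then 1 else 0 := by
    intro i j
    have := hML' (Sum.inl i) (Sum.inl j)
    simp only [Sum.inl.injEq] at this
    exact this
  have hfA : ∀ i j, f i ⬝ᵥ A j = 0 := by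
    intro i j
    have := hML' (Sum.inr i) (Sum.inl j)
    rw [if_neg (by simp)] at this
    exact this
  have heC : ∀ i j, e i ⬝ᵥ C j = 0 := by
    intro i j
    have := hML' (Sum.inl i) (Sum.inr j)
    rw [if_neg (by simp)] at this
    exact this
  have hfC : ∀ i j, f i ⬝ᵥ C j = if i = j then 1 else 0 := by
    intro i j
    have := hML' (Sum.inr i) (Sum.inr j)
    simp only [Sum.inr.injEq] at this
    exact this
  have hdf : ∀ j, (p : ℤ) ^ a ∣ d j * (f j ⬝ᵥ v) := by
    intro j
    have h := hform (A j)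
    rw [Finset.sum_eq_single j] at h
    · rw [heA, if_pos rfl, hfA, one_mul, zero_mul, sub_zero] at h
      exact h
    · intro i _ hij
      rw [heA, if_neg hij, hfA, zero_mul, zero_mul, sub_zero, mul_zero]
    · intro h; exact absurd (Finset.mem_univ _) h
  have hde : ∀ j, (p : ℤ) ^ a ∣ d j * (e j ⬝ᵥ v) := by
    intro j
    have h := hform (C j)
    rw [Finset.sum_eq_single j] at h
    · rw [heC, hfC, if_pos rfl, one_mul, zero_mul, zero_sub, mul_neg, dvd_neg] at h
      exact h
    · intro i _ hij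
      rw [heC, hfC, if_neg hij, zero_mul, zero_mul, sub_zero, mul_zero]
    · intro h; exact absurd (Finset.mem_univ _) h
  -- one of the coordinates of v is prime to p
  obtain ⟨i0, hi0⟩ : ∃ i0, (p : ℤ) ^ a ∣ d i0 := by
    by_contra hcon
    simp only [not_exists] at hcon
    have key : ∀ (x y : ℤ), ¬ (p : ℤ) ^ a ∣ x → (p : ℤ) ^ a ∣ x * y → (p : ℤ) ∣ y := by
      intro x y hx hxy
      by_contra hy
      exact hx ((IsCoprime.pow_left (hpp.coprime_iff_not_dvd.2 hy)).dvd_of_dvd_mul_right hxy)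
    apply hu0
    have e1 : v u0 = (∑ i, A i u0 * (e i ⬝ᵥ v)) + ∑ i, C i u0 * (f i ⬝ᵥ v) := by
      have e2 : v u0 = ∑ w, (if u0 = w then 1 else 0) * v w := by simp
      rw [e2]
      simp only [dotProduct, Finset.mul_sum]
      rw [Finset.sum_comm, Finset.sum_comm (f := fun i w => C i u0 * (f i w * v w)), ← Finset.sum_add_distrib]
      refine Finset.sum_congr rfl fun w _ => ?_
      rw [← hAC u0 w, add_mul, Finset.sum_mul, Finset.sum_mul]
      congr 1
      · exact Finset.sum_congr rfl fun i _ => by ring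
      · exact Finset.sum_congr rfl fun i _ => by ring
    rw [e1]
    exact dvd_add (Finset.dvd_sum fun i _ => (key _ _ (hcon i) (hde i)).mul_left _)
      (Finset.dvd_sum fun i _ => (key _ _ (hcon i) (hdf i)).mul_left _)
  obtain ⟨r, rfl⟩ : ∃ r, g = r + 1 := ⟨g - 1, by omega⟩
  refine ⟨c1 + t * (p : ℤ) ^ a, fun i u => d (i0.succAbove i) * e (i0.succAbove i) u, fun i => f (i0.succAbove i),
    fun u w => ?_⟩
  have hB3 : b + (c1 + t * (p : ℤ) ^ a) • ω = B := by
    rw [hB, add_smul, mul_smul, add_assoc]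
  rw [hB3, hmat, Fin.sum_univ_succAbove _ i0, Matrix.add_apply, Matrix.smul_apply, smul_eq_mul]
  have h15 : (∑ i : Fin r, d (i0.succAbove i) • wdg (e (i0.succAbove i)) (f (i0.succAbove i))) u w =
      (∑ i : Fin r, wdg (fun u => d (i0.succAbove i) * e (i0.succAbove i) u) (f (i0.succAbove i))) u w := by
    rw [Matrix.sum_apply, Matrix.sum_apply]
    refine Finset.sum_congr rfl fun i _ => ?_
    simp only [Matrix.smul_apply, wdg, Matrix.of_apply, smul_eq_mul]
    ring
  change (p : ℤ) ^ a ∣ d i0 * wdg (e i0) (f i0) u w + _ -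
    (∑ i : Fin r, wdg (fun u => d (i0.succAbove i) * e (i0.succAbove i) u) (f (i0.succAbove i))) u w
  rw [h15, add_sub_cancel_right]
  exact hi0.mul_right _

end Run7.h438.PF
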