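import Mathlib
import Pool.Agent.Run7.h438.PF1

/-! The number of lines of alternating matrices with a simple degenerate member. -/

set_option autoImplicit false
set_option linter.all false

open Matrix

namespace Run7.h438.PF

open Pool.Agent.Helper929 Pool.Agent.Y109.PI Run7.h438.PC Run7.h438.PD Run7.h438.PE

theorem cs (E G X Y V s N : ℤ) (hE : 0 < E) (hG : 0 ≤ G) (hX : 0 < X) (hY : 0 ≤ Y) (hV : 0 < V) (hN : 0 ≤ N)
    (h1 : X * V ≤ E * s) (h2 : E * N ≤ Y * V) (h3 : s ^ 2 ≤ G * (s + N)) : X ^ 2 * V ≤ E * G * (X + Y) := by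
  have hXV : 0 < X * V := mul_pos hX hV
  set s' := E * s with hs'
  set N' := E * N with hN'
  have hN0 : 0 ≤ N' := mul_nonneg hE.le hN
  have h4 : s' ^ 2 ≤ E * G * (s' + N') := by
    calc s' ^ 2 = E ^ 2 * s ^ 2 := by rw [hs']; ring
      _ ≤ E ^ 2 * (G * (s + N)) := mul_le_mul_of_nonneg_left h3 (sq_nonneg E)
      _ = E * G * (s' + N') := by rw [hs', hN']; ring
  have hspos : 0 < s' := lt_of_lt_of_le hXV h1
  have h5 : (X * V) ^ 2 * (s' + N') ≤ s' ^ 2 * (X * V + N') := by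
    have e1 : (X * V) ^ 2 * s' ≤ s' ^ 2 * (X * V) := by
      calc (X * V) ^ 2 * s' = (X * V * s') * (X * V) := by ring
        _ ≤ (X * V * s') * s' := mul_le_mul_of_nonneg_left h1 (mul_pos hXV hspos).le
        _ = _ := by ring
    have e2 : (X * V) ^ 2 * N' ≤ s' ^ 2 * N' := by
      refine mul_le_mul_of_nonneg_right ?_ hN0
      exact pow_le_pow_left₀ hXV.le h1 2
    linarith [e1, e2]
  have h6 : (X * V) ^ 2 * (s' + N') ≤ (E * G * (X * V + N')) * (s' + N') := by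
    calc _ ≤ s' ^ 2 * (X * V + N') := h5
      _ ≤ (E * G * (s' + N')) * (X * V + N') := mul_le_mul_of_nonneg_right h4 (by linarith)
      _ = _ := by ring
  have h7 : (X * V) ^ 2 ≤ E * G * (X * V + N') := le_of_mul_le_mul_right h6 (by linarith)
  have hEG : 0 ≤ E * G := mul_nonneg hE.le hG
  have h8 : V * (X ^ 2 * V) ≤ V * (E * G * (X + Y)) := by
    calc V * (X ^ 2 * V) = (X * V) ^ 2 := by ring
      _ ≤ E * G * (X * V + N') := h7
      _ ≤ E * G * (X * V + Y * V) := mul_le_mul_of_nonneg_left (by linarith) hEG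
      _ = _ := by ring
  exact le_of_mul_le_mul_left h8 hV

theorem final_five (p G V s N : ℤ) (hp : 5 ≤ p) (hG : 0 ≤ G) (hV : 0 < V) (hN : 0 ≤ N)
    (h1 : ((p - 1) ^ 2 * (p + 1) - p ^ 2) * V ≤ (p - 1) ^ 2 * (p + 1) * s)
    (h2 : (p - 1) ^ 2 * (p + 1) ^ 2 * N ≤ p ^ 3 * (p - 1) * V) (h3 : s ^ 2 ≤ G * (s + N)) :
    (p - 2) * V ≤ 2 * p * G := by
  obtain ⟨t, rfl⟩ : ∃ t, p = t + 5 := ⟨p - 5, by ring⟩
  have ht : 0 ≤ t := by linarith
  have h1' : (t ^ 4 + 19 * t ^ 3 + 132 * t ^ 2 + 395 * t + 426) * V ≤ ((t + 4) ^ 2 * (t + 6) ^ 2) * s := by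
    have e1 := mul_le_mul_of_nonneg_left h1 (by linarith : (0 : ℤ) ≤ t + 6)
    calc _ = (t + 6) * (((t + 5 - 1) ^ 2 * (t + 5 + 1) - (t + 5) ^ 2) * V) := by ring
      _ ≤ _ := e1
      _ = _ := by ring
  have h2' : ((t + 4) ^ 2 * (t + 6) ^ 2) * N ≤ ((t + 5) ^ 3 * (t + 4)) * V := by
    calc _ = (t + 5 - 1) ^ 2 * (t + 5 + 1) ^ 2 * N := by ring
      _ ≤ _ := h2
      _ = _ := by ring
  have h4 := cs ((t + 4) ^ 2 * (t + 6) ^ 2) G (t ^ 4 + 19 * t ^ 3 + 132 * t ^ 2 + 395 * t + 426)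
    ((t + 5) ^ 3 * (t + 4)) V s N (by positivity) hG (by positivity) (by positivity) hV hN h1' h2' h3
  have hEpos : 0 < ((t + 4) ^ 2 * (t + 6) ^ 2) * (2 * t ^ 4 + 38 * t ^ 3 + 267 * t ^ 2 + 820 * t + 926) := by positivity
  have h5 : ((t + 4) ^ 2 * (t + 6) ^ 2) * (2 * t ^ 4 + 38 * t ^ 3 + 267 * t ^ 2 + 820 * t + 926) * ((t + 5 - 2) * V) ≤
      ((t + 4) ^ 2 * (t + 6) ^ 2) * (2 * t ^ 4 + 38 * t ^ 3 + 267 * t ^ 2 + 820 * t + 926) * (2 * (t + 5) * G) := by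
    have e2 : ((t + 4) ^ 2 * (t + 6) ^ 2) * (2 * t ^ 4 + 38 * t ^ 3 + 267 * t ^ 2 + 820 * t + 926) * (t + 5 - 2) ≤
        2 * (t + 5) * (t ^ 4 + 19 * t ^ 3 + 132 * t ^ 2 + 395 * t + 426) ^ 2 := by
      have e3 : 2 * (t + 5) * (t ^ 4 + 19 * t ^ 3 + 132 * t ^ 2 + 395 * t + 426) ^ 2 =
          ((t + 4) ^ 2 * (t + 6) ^ 2) * (2 * t ^ 4 + 38 * t ^ 3 + 267 * t ^ 2 + 820 * t + 926) * (t + 5 - 2) +
          (2 * t ^ 8 + 73 * t ^ 7 + 1149 * t ^ 6 + 10166 * t ^ 5 + 55166 * t ^ 4 + 187434 * t ^ 3 + 387850 * t ^ 2 +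
            444576 * t + 214632) := by ring
      rw [e3]
      have : 0 ≤ 2 * t ^ 8 + 73 * t ^ 7 + 1149 * t ^ 6 + 10166 * t ^ 5 + 55166 * t ^ 4 + 187434 * t ^ 3 +
          387850 * t ^ 2 + 444576 * t + 214632 := by positivity
      linarith
    calc _ = (((t + 4) ^ 2 * (t + 6) ^ 2) * (2 * t ^ 4 + 38 * t ^ 3 + 267 * t ^ 2 + 820 * t + 926) * (t + 5 - 2)) * V := by
          ring
      _ ≤ (2 * (t + 5) * (t ^ 4 + 19 * t ^ 3 + 132 * t ^ 2 + 395 * t + 426) ^ 2) * V :=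
        mul_le_mul_of_nonneg_right e2 hV.le
      _ = 2 * (t + 5) * ((t ^ 4 + 19 * t ^ 3 + 132 * t ^ 2 + 395 * t + 426) ^ 2 * V) := by ring
      _ ≤ 2 * (t + 5) * (((t + 4) ^ 2 * (t + 6) ^ 2) * G * ((t ^ 4 + 19 * t ^ 3 + 132 * t ^ 2 + 395 * t + 426) +
          ((t + 5) ^ 3 * (t + 4)))) := mul_le_mul_of_nonneg_left h4 (by linarith)
      _ = _ := by ring
  exact le_of_mul_le_mul_left h5 hEpos

theorem final_three (G V s N : ℤ) (hG : 0 ≤ G) (hV : 0 < V) (hN : 0 ≤ N)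
    (h1 : 7 * V ≤ 16 * s) (h2 : 64 * N ≤ 54 * V) (h3 : s ^ 2 ≤ G * (s + N)) : V ≤ 7 * G := by
  have h4 := cs 64 G 28 54 V s N (by norm_num) hG (by norm_num) (by norm_num) hV hN (by linarith) h2 h3
  linarith

variable {p : ℕ} [hp : Fact p.Prime]

open Classical in
/-- **The number of the lines with a simple degenerate member.** -/
theorem count_simple (g : ℕ) (hg : 0 < g) (ω : AltS p (2 * g)) (hω : ω.1.det ≠ 0) :
    (5 ≤ p → (p - 2) * Fintype.card (AltS p (2 * g)) ≤ 2 * p * (Finset.univ.filter fun b : AltS p (2 * g) =>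
      ∃ c : ZMod p, (b.1 + c • ω.1).det = 0 ∧ ¬ Iso ω.1 (b.1 + c • ω.1)).card) ∧
    (p = 3 → Fintype.card (AltS p (2 * g)) ≤ 7 * (Finset.univ.filter fun b : AltS p (2 * g) =>
      ∃ c : ZMod p, (b.1 + c • ω.1).det = 0 ∧ ¬ Iso ω.1 (b.1 + c • ω.1)).card) := by
  obtain ⟨k, rfl⟩ : ∃ k, g = k + 1 := ⟨g - 1, by omega⟩
  let T : ZMod p → AltS p (2 * (k + 1)) := fun c => ⟨c • ω.1, Alt.smul ω.2 c⟩
  let Q : AltS p (2 * (k + 1)) → Prop := fun b => b.1.det = 0 ∧ ¬ Iso ω.1 b.1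
  set V := Fintype.card (AltS p (2 * (k + 1))) with hV
  have hVpos : 0 < V := Fintype.card_pos
  set I := (Finset.univ.filter fun b : AltS p (2 * (k + 1)) => Iso ω.1 b.1).card with hI
  set D0 := (Finset.univ.filter fun b : AltS p (2 * (k + 1)) => pf (2 * (k + 1)) b.1 = 0).card with hD0
  set D := (Finset.univ.filter Q).card with hD
  have a1 : V ≤ p * D0 := card_deg (p := p) k
  have a2 : (p ^ 2 - 1) * (p ^ 2 - p) * I ≤ p ^ 2 * V := iso_count k ω hω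
  have a3 : D0 ≤ D + I := by
    rw [hD0, hD, hI]
    refine le_trans (Finset.card_le_card ?_) (Finset.card_union_le _ _)
    intro b hb
    rw [Finset.mem_filter] at hb
    rw [Finset.mem_union, Finset.mem_filter, Finset.mem_filter]
    by_cases h : Iso ω.1 b.1
    · exact Or.inr ⟨Finset.mem_univ _, h⟩
    · exact Or.inl ⟨Finset.mem_univ _, (det_zero_iff _ b.2).2 hb.2, h⟩
  -- the largest number of pairs
  let J : ℕ := p ^ 2 * V / ((p ^ 2 - 1) * (p ^ 2 - 1))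
  have hpos2 : 0 < (p ^ 2 - 1) * (p ^ 2 - 1) := by
    have h1 : 1 < p ^ 2 := Nat.one_lt_pow two_ne_zero hp.out.one_lt
    exact Nat.mul_pos (by omega) (by omega)
  have a4 : (p ^ 2 - 1) * (p ^ 2 - 1) * J ≤ p ^ 2 * V := Nat.mul_div_le _ _
  have a5 : (p * D) ^ 2 ≤ (Finset.univ.filter fun b : AltS p (2 * (k + 1)) =>
      ∃ c : ZMod p, (b.1 + c • ω.1).det = 0 ∧ ¬ Iso ω.1 (b.1 + c • ω.1)).card *
        (p * D + p * ((p - 1) * J)) := by
    have h := moment (κ := ZMod p) k T Q (fun b hb => hb.1) J (by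
      intro c c' hc
      rw [Nat.le_div_iff_mul_le hpos2, mul_comm]
      exact J_le k ω hω c c' hc)
    rw [ZMod.card] at h
    convert h <;> rfl
  set G := (Finset.univ.filter fun b : AltS p (2 * (k + 1)) =>
      ∃ c : ZMod p, (b.1 + c • ω.1).det = 0 ∧ ¬ Iso ω.1 (b.1 + c • ω.1)).card with hG
  clear_value V I D0 D J G
  have hp2 := hp.out.two_le
  -- integers
  have hpZ : (2 : ℤ) ≤ (p : ℤ) := by exact_mod_cast hp2
  have c1 : ((p ^ 2 - 1 : ℕ) : ℤ) = (p : ℤ) ^ 2 - 1 := by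
    rw [Nat.cast_sub (Nat.one_le_pow _ _ hp.out.pos)]
    push_cast
    ring
  have c2 : ((p ^ 2 - p : ℕ) : ℤ) = (p : ℤ) ^ 2 - p := by
    rw [Nat.cast_sub (by nlinarith)]
    push_cast
    ring
  have c3 : ((p - 1 : ℕ) : ℤ) = (p : ℤ) - 1 := by
    rw [Nat.cast_sub (by omega)]
    push_cast
    ring
  have b1 : (V : ℤ) ≤ p * D0 := by exact_mod_cast a1
  have b2 : ((p : ℤ) ^ 2 - 1) * ((p : ℤ) ^ 2 - p) * I ≤ (p : ℤ) ^ 2 * V := by
    rw [← c1, ← c2]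
    exact_mod_cast a2
  have b3 : (D0 : ℤ) ≤ D + I := by exact_mod_cast a3
  have b4 : ((p : ℤ) ^ 2 - 1) * ((p : ℤ) ^ 2 - 1) * J ≤ (p : ℤ) ^ 2 * V := by
    rw [← c1]
    exact_mod_cast a4
  have b5 : ((p : ℤ) * D) ^ 2 ≤ G * ((p : ℤ) * D + (p : ℤ) * (((p : ℤ) - 1) * J)) := by
    rw [← c3]
    exact_mod_cast a5
  have hVZ : (0 : ℤ) < V := by exact_mod_cast hVpos
  have hN : (0 : ℤ) ≤ (p : ℤ) * (((p : ℤ) - 1) * J) :=
    mul_nonneg (by linarith) (mul_nonneg (by linarith) (Int.natCast_nonneg _))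
  have b6 : (((p : ℤ) - 1) ^ 2 * (p + 1) - (p : ℤ) ^ 2) * V ≤ ((p : ℤ) - 1) ^ 2 * (p + 1) * (p * D) := by
    have e1 : ((p : ℤ) - 1) ^ 2 * (p + 1) * V ≤ ((p : ℤ) - 1) ^ 2 * (p + 1) * (p * (D + I)) := by
      refine mul_le_mul_of_nonneg_left (b1.trans (mul_le_mul_of_nonneg_left b3 (by linarith))) (by positivity)
    have e2 : ((p : ℤ) - 1) ^ 2 * (p + 1) * (p * I) = ((p : ℤ) ^ 2 - 1) * ((p : ℤ) ^ 2 - p) * I := by ring
    have e3 : ((p : ℤ) - 1) ^ 2 * (p + 1) * (p * (D + I)) = ((p : ℤ) - 1) ^ 2 * (p + 1) * (p * D) +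
      ((p : ℤ) - 1) ^ 2 * (p + 1) * (p * I) := by ring
    rw [e3, e2] at e1
    linarith
  have b7 : ((p : ℤ) - 1) ^ 2 * (p + 1) ^ 2 * ((p : ℤ) * (((p : ℤ) - 1) * J)) ≤ (p : ℤ) ^ 3 * (p - 1) * V := by
    calc _ = ((p : ℤ) * (p - 1)) * (((p : ℤ) ^ 2 - 1) * ((p : ℤ) ^ 2 - 1) * J) := by ring
      _ ≤ ((p : ℤ) * (p - 1)) * ((p : ℤ) ^ 2 * V) :=
        mul_le_mul_of_nonneg_left b4 (mul_nonneg (by linarith) (by linarith))
      _ = _ := by ring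
  constructor
  · intro h5
    have h5Z : (5 : ℤ) ≤ p := by exact_mod_cast h5
    have h6 := final_five p G V (p * D) _ h5Z (Int.natCast_nonneg _) hVZ hN b6 b7 b5
    have c4 : ((p - 2 : ℕ) : ℤ) = (p : ℤ) - 2 := by
      rw [Nat.cast_sub (by omega)]
      push_cast
      ring
    have h7 : (((p - 2) * V : ℕ) : ℤ) ≤ ((2 * p * G : ℕ) : ℤ) := by
      rw [Nat.cast_mul, c4]
      push_cast
      exact h6
    exact_mod_cast h7
  · intro h3
    have h3Z : (p : ℤ) = 3 := by exact_mod_cast h3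
    rw [h3Z] at b5 b6 b7 hN
    have h6 := final_three G V (3 * D) _ (Int.natCast_nonneg _) hVZ hN (by linarith) (by linarith) b5
    exact_mod_cast h6

end Run7.h438.PF
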