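import Mathlib
import Pool.Agent.Run7.h438.PF3

/-! A lower bound for the number of the simple degenerate alternating matrices: counting lemmas. -/

set_option autoImplicit false
set_option linter.all false

open Matrix

namespace Run7.h438.PG

open Pool.Agent.Helper929 Pool.Agent.Y109.PI Run7.h438.PC Run7.h438.PD Run7.h438.PE Run7.h438.PF

variable {p : ℕ} [hp : Fact p.Prime]

open Classical in
/-- the kernel of a sum of `r` decomposable matrices -/
theorem ker_wedges {m : ℕ} (r : ℕ) (B : Matrix (Fin m) (Fin m) (ZMod p)) (e f : Fin r → Fin m → ZMod p)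
    (hef : B = ∑ i, wdg (e i) (f i)) :
    p ^ m ≤ p ^ (2 * r) * (Finset.univ.filter fun v : Fin m → ZMod p => B.mulVec v = 0).card := by
  let φ : (Fin m → ZMod p) →+ (Fin r → ZMod p × ZMod p) :=
    { toFun := fun v i => (e i ⬝ᵥ v, f i ⬝ᵥ v)
      map_zero' := by
        funext i
        rw [dotProduct_zero, dotProduct_zero]
        rfl
      map_add' := fun x y => by
        funext i
        rw [dotProduct_add, dotProduct_add]
        rfl }
  have h1 := card_ker φ
  rw [Fintype.card_fun, Fintype.card_fun, Fintype.card_prod, ZMod.card, Fintype.card_fin, Fintype.card_fin] at h1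
  have h2 : (Finset.univ.filter fun x => φ x = 0).card ≤
      (Finset.univ.filter fun v : Fin m → ZMod p => B.mulVec v = 0).card := by
    refine Finset.card_le_card fun v hv => ?_
    rw [Finset.mem_filter] at hv ⊢
    refine ⟨Finset.mem_univ _, ?_⟩
    have h3 : ∀ i, e i ⬝ᵥ v = 0 ∧ f i ⬝ᵥ v = 0 := by
      intro i
      have h4 := congrFun hv.2 i
      exact Prod.mk.injEq _ _ _ _ ▸ h4
    rw [hef]
    funext u
    rw [Matrix.mulVec, Pi.zero_apply, dotProduct]
    simp only [Matrix.sum_apply, Finset.sum_mul]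
    rw [Finset.sum_comm]
    refine Finset.sum_eq_zero fun i _ => ?_
    have h5 : ∑ x, wdg (e i) (f i) u x * v x = e i u * (f i ⬝ᵥ v) - f i u * (e i ⬝ᵥ v) := by
      simp only [wdg, Matrix.of_apply, dotProduct, Finset.mul_sum]
      rw [← Finset.sum_sub_distrib]
      refine Finset.sum_congr rfl fun x _ => ?_
      ring
    rw [h5, (h3 i).1, (h3 i).2, mul_zero, mul_zero, sub_zero]
  have h7 : p ^ m ≤ (p * p) ^ r * (Finset.univ.filter fun v : Fin m → ZMod p => B.mulVec v = 0).card := by
    refine h1.trans (Nat.mul_le_mul_left _ ?_)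
    convert h2
  have h8 : (p * p) ^ r = p ^ (2 * r) := by rw [← sq, ← pow_mul]
  rwa [h8] at h7

open Classical in
/-- a kernel with more than `p ^ 2` elements has at least `p ^ 4` elements -/
theorem ker_four (k : ℕ) (B : Matrix (Fin (2 * k + 4)) (Fin (2 * k + 4)) (ZMod p)) (hB : Alt B)
    (h : p ^ 2 < (Finset.univ.filter fun v : Fin (2 * k + 4) → ZMod p => B.mulVec v = 0).card) :
    p ^ 4 ≤ (Finset.univ.filter fun v : Fin (2 * k + 4) → ZMod p => B.mulVec v = 0).card := by
  have h1 : (Finset.univ.filter fun v : Fin (2 * k + 4) → ZMod p => B.mulVec v = 0).card =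
      p ^ Module.finrank (ZMod p) (LinearMap.ker B.mulVecLin) := by
    haveI : Fintype (LinearMap.ker B.mulVecLin) := Fintype.ofFinite _
    have h2 := Module.card_eq_pow_finrank (K := ZMod p) (V := LinearMap.ker B.mulVecLin)
    rw [ZMod.card] at h2
    rw [← h2, ← Fintype.card_subtype]
    exact Fintype.card_congr (Equiv.refl _)
  have h3 : 3 ≤ Module.finrank (ZMod p) (LinearMap.ker B.mulVecLin) := by
    rw [h1] at h
    by_contra h4
    have h5 : Module.finrank (ZMod p) (LinearMap.ker B.mulVecLin) ≤ 2 := by omega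
    exact absurd (Nat.pow_le_pow_right hp.out.pos h5) (not_le.2 h)
  have h4 := LinearMap.finrank_range_add_finrank_ker B.mulVecLin
  rw [Module.finrank_fintype_fun_eq_card, Fintype.card_fin] at h4
  obtain ⟨e, f, hef⟩ := decomp (R := ZMod p) (K := ZMod p) (fun a b h => h) k B hB (by
    have h0 : B.map (algebraMap (ZMod p) (ZMod p)) = B := by
      ext u v; rfl
    rw [h0, Matrix.rank]
    omega)
  have h5 := ker_wedges k B e f hef
  have h6 : p ^ (2 * k) * p ^ 4 ≤ p ^ (2 * k) *
      (Finset.univ.filter fun v : Fin (2 * k + 4) → ZMod p => B.mulVec v = 0).card := by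
    rw [← pow_add]
    exact h5
  exact Nat.le_of_mul_le_mul_left h6 (pow_pos hp.out.pos _)

open Classical in
/-- a lower bound for the number of the matrices with two given kernel vectors -/
theorem ker_two {n : ℕ} (v w : Fin (n + 2) → ZMod p) (i j : Fin (n + 2)) (hij : v i * w j - v j * w i ≠ 0) :
    Fintype.card (AltS p n) ≤
      (Finset.univ.filter fun b : AltS p (n + 2) => b.1.mulVec v = 0 ∧ b.1.mulVec w = 0).card := by
  let Vec := Fin (n + 2) → ZMod p
  set Z := (Finset.univ.filter fun b : AltS p (n + 2) => b.1.mulVec v = 0 ∧ b.1.mulVec w = 0).card with hZ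
  set Wd : Finset ((Fin (n + 2) → ZMod p) × (Fin (n + 2) → ZMod p)) := Finset.univ.filter fun q =>
    v ⬝ᵥ q.1 = 0 ∧ w ⬝ᵥ q.2 = 0 ∧ w ⬝ᵥ q.1 + v ⬝ᵥ q.2 = 0 with hWd
  have hne : j ≠ i := by
    rintro rfl
    exact hij (by ring)
  obtain ⟨q0, hq0⟩ : ∃ q, w q ≠ 0 := by
    by_contra h
    simp only [not_exists, not_not] at h
    exact hij (by rw [h i, h j]; ring)
  -- the size of the target
  have h1 : p ^ 3 * Wd.card ≤ p ^ (2 * n + 4) := by
    have h5 : (Finset.univ ×ˢ Wd : Finset ((ZMod p × ZMod p × ZMod p) ×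
        ((Fin (n + 2) → ZMod p) × (Fin (n + 2) → ZMod p)))).card ≤
        (Finset.univ : Finset ((Fin (n + 2) → ZMod p) × (Fin (n + 2) → ZMod p))).card := by
      refine Finset.card_le_card_of_injOn (fun z => (z.2.1 + (Pi.single i z.1.1 + Pi.single j z.1.2.1),
        z.2.2 + Pi.single q0 z.1.2.2)) (fun _ _ => Finset.mem_coe.2 (Finset.mem_univ _)) ?_
      rintro ⟨⟨s, t, r⟩, x, y⟩ hx ⟨⟨s', t', r'⟩, x', y'⟩ hx' hxx
      obtain ⟨a1, a2, a3⟩ := (Finset.mem_filter.1 (Finset.mem_product.1 (Finset.mem_coe.1 hx)).2).2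
      obtain ⟨b1, b2, b3⟩ := (Finset.mem_filter.1 (Finset.mem_product.1 (Finset.mem_coe.1 hx')).2).2
      change v ⬝ᵥ x = 0 at a1
      change w ⬝ᵥ y = 0 at a2
      change w ⬝ᵥ x + v ⬝ᵥ y = 0 at a3
      change v ⬝ᵥ x' = 0 at b1
      change w ⬝ᵥ y' = 0 at b2
      change w ⬝ᵥ x' + v ⬝ᵥ y' = 0 at b3
      have c1 : x + (Pi.single i s + Pi.single j t) = x' + (Pi.single i s' + Pi.single j t') := congrArg Prod.fst hxx
      have c2 : y + Pi.single q0 r = y' + Pi.single q0 r' := congrArg Prod.snd hxx
      have d2 : w q0 * r = w q0 * r' := by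
        have := congrArg (fun y => w ⬝ᵥ y) c2
        simp only [dotProduct_add, dotProduct_single, a2, b2, zero_add] at this
        exact this
      have d3 : r = r' := mul_left_cancel₀ hq0 d2
      have d1 : v i * s + v j * t = v i * s' + v j * t' := by
        have := congrArg (fun y => v ⬝ᵥ y) c1
        simp only [dotProduct_add, dotProduct_single, a1, b1, zero_add] at this
        exact this
      rw [d3] at c2
      have d4 : y = y' := add_right_cancel c2
      rw [d4] at a3
      have d5 : w ⬝ᵥ x = w ⬝ᵥ x' := by linear_combination a3 - b3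
      have d6 : w i * s + w j * t = w i * s' + w j * t' := by
        have := congrArg (fun y => w ⬝ᵥ y) c1
        simp only [dotProduct_add, dotProduct_single] at this
        rw [d5] at this
        exact add_left_cancel this
      have e3 : (s - s') * (v i * w j - v j * w i) = 0 := by linear_combination w j * d1 - v j * d6
      have e4 : (t - t') * (v i * w j - v j * w i) = 0 := by linear_combination v i * d6 - w i * d1
      have e5 := sub_eq_zero.1 ((mul_eq_zero.1 e3).resolve_right hij)
      have e6 := sub_eq_zero.1 ((mul_eq_zero.1 e4).resolve_right hij)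
      rw [e5, e6] at c1
      rw [e5, e6, d3, d4, add_right_cancel c1]
    rw [Finset.card_product, Finset.card_univ, Fintype.card_prod, Fintype.card_prod, ZMod.card, Finset.card_univ,
      Fintype.card_prod, Fintype.card_fun, ZMod.card, Fintype.card_fin] at h5
    calc p ^ 3 * Wd.card = p * (p * p) * Wd.card := by ring
      _ ≤ _ := h5
      _ = _ := by ring
  -- the fibres
  have h2 : Fintype.card (AltS p (n + 2)) ≤ Wd.card * Z := by
    have h5 : (Finset.univ : Finset (AltS p (n + 2))).card =
        ∑ q ∈ Wd, (Finset.univ.filter fun b : AltS p (n + 2) => (b.1.mulVec v, b.1.mulVec w) = q).card :=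
      Finset.card_eq_sum_card_fiberwise (f := fun b : AltS p (n + 2) => (b.1.mulVec v, b.1.mulVec w)) (t := Wd)
        (fun b _ => by
          refine Finset.mem_coe.2 (Finset.mem_filter.2 ⟨Finset.mem_univ _, PF.dot_self b.1 b.2 v,
            PF.dot_self b.1 b.2 w, ?_⟩)
          change w ⬝ᵥ b.1.mulVec v + v ⬝ᵥ b.1.mulVec w = 0
          rw [PD.alt_dot b.1 b.2 v w, add_neg_cancel])
    have h6 : ∀ q ∈ Wd, (Finset.univ.filter fun b : AltS p (n + 2) => (b.1.mulVec v, b.1.mulVec w) = q).card ≤ Z := by
      intro q _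
      rcases Finset.eq_empty_or_nonempty (Finset.univ.filter fun b : AltS p (n + 2) =>
        (b.1.mulVec v, b.1.mulVec w) = q) with h | ⟨b0, hb0⟩
      · rw [h, Finset.card_empty]
        exact Nat.zero_le _
      · rw [Finset.mem_filter] at hb0
        refine Finset.card_le_card_of_injOn (fun b => b - b0) ?_ ?_
        · intro b hb
          simp only [Finset.coe_filter, Finset.mem_univ, true_and, Set.mem_setOf_eq] at hb
          have h7 := hb.trans hb0.2.symm
          refine Finset.mem_coe.2 (Finset.mem_filter.2 ⟨Finset.mem_univ _, ?_, ?_⟩)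
          · change (b.1 - b0.1).mulVec v = 0
            rw [Matrix.sub_mulVec, (Prod.mk.inj h7).1, sub_self]
          · change (b.1 - b0.1).mulVec w = 0
            rw [Matrix.sub_mulVec, (Prod.mk.inj h7).2, sub_self]
        · intro b _ b' _ hbb
          exact sub_left_injective hbb
    rw [← Finset.card_univ, h5]
    refine (Finset.sum_le_sum h6).trans (le_of_eq ?_)
    rw [Finset.sum_const, smul_eq_mul]
  have hV : Fintype.card (AltS p (n + 2)) = p ^ (n + 1) * (p ^ n * Fintype.card (AltS p n)) := by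
    rw [← card_alt p n, ← card_alt p (n + 1)]
  have h3 : p ^ (2 * n + 4) * Fintype.card (AltS p n) ≤ p ^ (2 * n + 4) * Z := by
    calc p ^ (2 * n + 4) * Fintype.card (AltS p n) = p ^ 3 * Fintype.card (AltS p (n + 2)) := by rw [hV]; ring
      _ ≤ p ^ 3 * (Wd.card * Z) := Nat.mul_le_mul_left _ h2
      _ = (p ^ 3 * Wd.card) * Z := by ring
      _ ≤ _ := Nat.mul_le_mul_right _ h1
  exact Nat.le_of_mul_le_mul_left h3 (pow_pos hp.out.pos _)

open Classical in
/-- the number of the matrices with three given kernel vectors -/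
theorem fib_three {n : ℕ} (v w u : Fin (n + 3) → ZMod p) (i j : Fin (n + 3)) (hij : v i * w j - v j * w i ≠ 0)
    (hu : ∀ α β : ZMod p, u ≠ α • v + β • w) :
    (Finset.univ.filter fun b : AltS p (n + 3) => b.1.mulVec v = 0 ∧ b.1.mulVec w = 0 ∧ b.1.mulVec u = 0).card ≤
      Fintype.card (AltS p n) := by
  have hne : j ≠ i := by
    rintro rfl
    exact hij (by ring)
  obtain ⟨j', rfl⟩ := Fin.exists_succAbove_eq hne
  set Δ := v i * w (i.succAbove j') - v (i.succAbove j') * w i with hΔ
  -- the combination vanishing at the two indices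
  set α := (u i * w (i.succAbove j') - u (i.succAbove j') * w i) * Δ⁻¹ with hα
  set β := (v i * u (i.succAbove j') - v (i.succAbove j') * u i) * Δ⁻¹ with hβ
  set x : Fin (n + 3) → ZMod p := u - (α • v + β • w) with hx
  have hx0 : x ≠ 0 := fun h => hu α β (sub_eq_zero.1 h)
  have hxi : x i = 0 := by
    have e1 : x i = u i - (u i) * (Δ * Δ⁻¹) := by
      simp only [hx, Pi.sub_apply, Pi.add_apply, Pi.smul_apply, smul_eq_mul, hα, hβ, hΔ]
      ring
    rw [e1, mul_inv_cancel₀ hij, mul_one, sub_self]
  have hxj : x (i.succAbove j') = 0 := by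
    have e1 : x (i.succAbove j') = u (i.succAbove j') - (u (i.succAbove j')) * (Δ * Δ⁻¹) := by
      simp only [hx, Pi.sub_apply, Pi.add_apply, Pi.smul_apply, smul_eq_mul, hα, hβ, hΔ]
      ring
    rw [e1, mul_inv_cancel₀ hij, mul_one, sub_self]
  have hother : ∀ r : Fin (n + 3), r ≠ i → r ≠ i.succAbove j' → ∃ k : Fin (n + 1), i.succAbove (j'.succAbove k) = r := by
    intro r h1 h2
    obtain ⟨s, rfl⟩ := Fin.exists_succAbove_eq h1
    have h3 : s ≠ j' := fun h => h2 (by rw [h])
    obtain ⟨k, rfl⟩ := Fin.exists_succAbove_eq h3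
    exact ⟨k, rfl⟩
  let x' : Fin (n + 1) → ZMod p := fun k => x (i.succAbove (j'.succAbove k))
  have hx'0 : x' ≠ 0 := by
    intro h
    apply hx0
    funext r
    by_cases h1 : r = i
    · rw [h1, hxi]; rfl
    · by_cases h2 : r = i.succAbove j'
      · rw [h2, hxj]; rfl
      · obtain ⟨k, rfl⟩ := hother r h1 h2
        exact congrFun h k
  refine le_trans (Finset.card_le_card_of_injOn (t := Finset.univ.filter fun b : AltS p (n + 1) => b.1.mulVec x' = 0)
    (fun b => (⟨b.1.submatrix (fun k => i.succAbove (j'.succAbove k))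
    (fun k => i.succAbove (j'.succAbove k)), ⟨fun u => b.2.1 _, fun u v => b.2.2 _ _⟩⟩ : AltS p (n + 1))) ?_ ?_)
    (fib_one (n := n) x' 0 hx'0)
  · intro b hb
    simp only [Finset.coe_filter, Finset.mem_univ, true_and, Set.mem_setOf_eq] at hb
    refine Finset.mem_coe.2 (Finset.mem_filter.2 ⟨Finset.mem_univ _, ?_⟩)
    funext k
    have e1 : b.1.mulVec x = 0 := by
      rw [hx, Matrix.mulVec_sub, Matrix.mulVec_add, Matrix.mulVec_smul, Matrix.mulVec_smul, hb.1, hb.2.1, hb.2.2,
        smul_zero, smul_zero, add_zero, sub_zero]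
    have e2 := congrFun e1 (i.succAbove (j'.succAbove k))
    rw [Matrix.mulVec, Pi.zero_apply, dotProduct, Fin.sum_univ_succAbove _ i, Fin.sum_univ_succAbove _ j', hxi, hxj,
      mul_zero, mul_zero, zero_add, zero_add] at e2
    exact e2
  · intro b hb b' hb' hbb
    simp only [Finset.coe_filter, Finset.mem_univ, true_and, Set.mem_setOf_eq] at hb hb'
    have h1 := congrArg Subtype.val hbb
    have h2 : (b - b').1 = 0 := by
      refine alt_zero (n := n + 1) (b - b').1 (b - b').2 v w ?_ ?_ i j' hij ?_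
      · change (b.1 - b'.1).mulVec v = 0
        rw [Matrix.sub_mulVec, hb.1, hb'.1, sub_self]
      · change (b.1 - b'.1).mulVec w = 0
        rw [Matrix.sub_mulVec, hb.2.1, hb'.2.1, sub_self]
      · intro k l
        have h3 := congrFun (congrFun h1 k) l
        change b.1 _ _ - b'.1 _ _ = 0
        rw [sub_eq_zero]
        exact h3
    exact sub_eq_zero.1 (Subtype.ext h2)

end Run7.h438.PG
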