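import Mathlib
import Pool.Agent.Run7.h438.PG1

/-! A lower bound for the number of the simple degenerate alternating matrices. -/

set_option autoImplicit false
set_option linter.all false

open Matrix

namespace Run7.h438.PG

open Pool.Agent.Helper929 Pool.Agent.Y109.PI Run7.h438.PC Run7.h438.PD Run7.h438.PE Run7.h438.PF

variable {p : ℕ} [hp : Fact p.Prime]

open Classical in
theorem span_card {n : ℕ} (v w : Fin n → ZMod p) (i j : Fin n) (hij : v i * w j - v j * w i ≠ 0) :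
    ((Finset.univ : Finset (ZMod p × ZMod p)).image (fun q => q.1 • v + q.2 • w)).card = p ^ 2 := by
  rw [Finset.card_image_of_injective, Finset.card_univ, Fintype.card_prod, ZMod.card, sq]
  rintro ⟨x, y⟩ ⟨x', y'⟩ h
  have h4 : x • v + y • w = x' • v + y' • w := h
  have e1 := congrFun h4 i
  have e2 := congrFun h4 j
  simp only [Pi.add_apply, Pi.smul_apply, smul_eq_mul] at e1 e2
  have h5 : (x - x') * (v i * w j - v j * w i) = 0 := by linear_combination w j * e1 - w i * e2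
  have h6 : (y - y') * (v i * w j - v j * w i) = 0 := by linear_combination v i * e2 - v j * e1
  exact Prod.ext (sub_eq_zero.1 ((mul_eq_zero.1 h5).resolve_right hij))
    (sub_eq_zero.1 ((mul_eq_zero.1 h6).resolve_right hij))

/-- vectors with a nonzero value of the form are independent -/
theorem indep_of {n : ℕ} (ω : Matrix (Fin n) (Fin n) (ZMod p)) (hω : Alt ω) (v w : Fin n → ZMod p)
    (h : v ⬝ᵥ ω.mulVec w ≠ 0) : ∃ i j, v i * w j - v j * w i ≠ 0 := by
  by_contra hcon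
  simp only [not_exists, not_not] at hcon
  have hv0 : v ≠ 0 := by
    rintro rfl
    exact h (zero_dotProduct _)
  obtain ⟨i, hi⟩ := Function.ne_iff.1 hv0
  rw [Pi.zero_apply] at hi
  have h1 : w = (w i * (v i)⁻¹) • v := by
    funext j
    rw [Pi.smul_apply, smul_eq_mul]
    have h2 := hcon i j
    field_simp
    linear_combination h2
  apply h
  rw [h1, Matrix.mulVec_smul, dotProduct_smul, PF.dot_self ω hω, smul_zero]

open Classical in
theorem not_small {n : ℕ} (ω b : Matrix (Fin n) (Fin n) (ZMod p)) (hω : Alt ω) (v w : Fin n → ZMod p)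
    (hv : b.mulVec v = 0) (hw : b.mulVec w = 0) (h : v ⬝ᵥ ω.mulVec w ≠ 0) (hI : Iso ω b) :
    p ^ 2 < (Finset.univ.filter fun u : Fin n → ZMod p => b.mulVec u = 0).card := by
  by_contra hcon
  rw [not_lt] at hcon
  obtain ⟨i, j, hij⟩ := indep_of ω hω v w h
  have h1 := span_card v w i j hij
  have hsub : ((Finset.univ : Finset (ZMod p × ZMod p)).image (fun q => q.1 • v + q.2 • w)) ⊆
      (Finset.univ.filter fun u : Fin n → ZMod p => b.mulVec u = 0) := by
    intro u hu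
    rw [Finset.mem_image] at hu
    obtain ⟨q, -, rfl⟩ := hu
    rw [Finset.mem_filter]
    refine ⟨Finset.mem_univ _, ?_⟩
    rw [Matrix.mulVec_add, Matrix.mulVec_smul, Matrix.mulVec_smul, hv, hw, smul_zero, smul_zero, add_zero]
  have heq := Finset.eq_of_subset_of_card_le hsub (by rw [h1]; exact hcon)
  obtain ⟨v', w', ⟨i', j', hij'⟩, hv', hw', hvw'⟩ := hI
  have hv2 : v' ∈ (Finset.univ : Finset (ZMod p × ZMod p)).image (fun q => q.1 • v + q.2 • w) := by
    rw [heq, Finset.mem_filter]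
    exact ⟨Finset.mem_univ _, hv'⟩
  have hw2 : w' ∈ (Finset.univ : Finset (ZMod p × ZMod p)).image (fun q => q.1 • v + q.2 • w) := by
    rw [heq, Finset.mem_filter]
    exact ⟨Finset.mem_univ _, hw'⟩
  rw [Finset.mem_image] at hv2 hw2
  obtain ⟨q, -, rfl⟩ := hv2
  obtain ⟨q', -, rfl⟩ := hw2
  have h3 : w ⬝ᵥ ω.mulVec v = - (v ⬝ᵥ ω.mulVec w) := PD.alt_dot ω hω w v
  have h4 : (q.1 • v + q.2 • w) ⬝ᵥ ω.mulVec (q'.1 • v + q'.2 • w) =
      (q.1 * q'.2 - q.2 * q'.1) * (v ⬝ᵥ ω.mulVec w) := by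
    rw [Matrix.mulVec_add, Matrix.mulVec_smul, Matrix.mulVec_smul]
    simp only [dotProduct_add, add_dotProduct, dotProduct_smul, smul_dotProduct, smul_eq_mul]
    rw [PF.dot_self ω hω, PF.dot_self ω hω, h3]
    ring
  rw [h4] at hvw'
  have h5 := (mul_eq_zero.1 hvw').resolve_right h
  apply hij'
  simp only [Pi.add_apply, Pi.smul_apply, smul_eq_mul]
  linear_combination (v i' * w j' - v j' * w i') * h5

open Classical in
theorem ns_le (m : ℕ) (ω : AltS p (2 * m + 4)) (v w : Fin (2 * m + 4) → ZMod p) (h : v ⬝ᵥ ω.1.mulVec w ≠ 0) :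
    (p ^ 4 - p ^ 2) * (Finset.univ.filter fun b : AltS p (2 * m + 4) => b.1.mulVec v = 0 ∧ b.1.mulVec w = 0 ∧
      Iso ω.1 b.1).card ≤ (p ^ (2 * m + 4) - p ^ 2) * Fintype.card (AltS p (2 * m + 1)) := by
  obtain ⟨i, j, hij⟩ := indep_of ω.1 ω.2 v w h
  set Sp := ((Finset.univ : Finset (ZMod p × ZMod p)).image (fun q => q.1 • v + q.2 • w)) with hSp
  have hSpc : Sp.card = p ^ 2 := span_card v w i j hij
  have h1 : (p ^ 4 - p ^ 2) * (Finset.univ.filter fun b : AltS p (2 * m + 4) => b.1.mulVec v = 0 ∧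
      b.1.mulVec w = 0 ∧ Iso ω.1 b.1).card ≤
      ∑ b : AltS p (2 * m + 4), ∑ u ∈ Finset.univ \ Sp,
        if b.1.mulVec v = 0 ∧ b.1.mulVec w = 0 ∧ b.1.mulVec u = 0 then 1 else 0 := by
    rw [Finset.card_filter, Finset.mul_sum]
    refine Finset.sum_le_sum fun b _ => ?_
    split_ifs with hb
    · obtain ⟨hv, hw, hI⟩ := hb
      have h2 := ker_four m b.1 b.2 (not_small ω.1 b.1 ω.2 v w hv hw h hI)
      rw [mul_one, ← Finset.card_filter]
      have h3 : (Finset.univ.filter fun u : Fin (2 * m + 4) → ZMod p => b.1.mulVec u = 0) \ Sp ⊆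
          (Finset.univ \ Sp).filter fun u => b.1.mulVec v = 0 ∧ b.1.mulVec w = 0 ∧ b.1.mulVec u = 0 := by
        intro u hu
        rw [Finset.mem_sdiff, Finset.mem_filter] at hu
        rw [Finset.mem_filter, Finset.mem_sdiff]
        exact ⟨⟨Finset.mem_univ _, hu.2⟩, hv, hw, hu.1.2⟩
      refine le_trans ?_ (Finset.card_le_card h3)
      refine le_trans ?_ (Finset.le_card_sdiff _ _)
      rw [hSpc]
      exact Nat.sub_le_sub_right h2 _
    · rw [mul_zero]
      exact Nat.zero_le _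
  refine h1.trans ?_
  rw [Finset.sum_comm]
  have h4 : ∀ u ∈ Finset.univ \ Sp, (∑ b : AltS p (2 * m + 4),
      if b.1.mulVec v = 0 ∧ b.1.mulVec w = 0 ∧ b.1.mulVec u = 0 then 1 else 0) ≤ Fintype.card (AltS p (2 * m + 1)) := by
    intro u hu
    rw [← Finset.card_filter]
    refine fib_three (n := 2 * m + 1) v w u i j hij fun α β h5 => ?_
    rw [Finset.mem_sdiff] at hu
    exact hu.2 (Finset.mem_image.2 ⟨(α, β), Finset.mem_univ _, h5.symm⟩)
  refine (Finset.sum_le_sum h4).trans ?_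
  rw [Finset.sum_const, smul_eq_mul, Finset.card_sdiff_of_subset (Finset.subset_univ _), hSpc, Finset.card_univ,
    Fintype.card_fun, ZMod.card, Fintype.card_fin]

open Classical in
/-- the number of the pairs for a simple matrix -/
theorem Y_simple {n : ℕ} (ω b : Matrix (Fin n) (Fin n) (ZMod p)) (hω : Alt ω) (h : ¬ Iso ω b) :
    (Finset.univ.filter fun q : (Fin n → ZMod p) × (Fin n → ZMod p) => b.mulVec q.1 = 0 ∧ b.mulVec q.2 = 0 ∧
      q.1 ⬝ᵥ ω.mulVec q.2 ≠ 0).card ≤ (p ^ 2 - 1) * (p ^ 2 - p) := by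
  have hK := ker_small ω b h
  set K := (Finset.univ.filter fun u : Fin n → ZMod p => b.mulVec u = 0) with hKd
  have h0K : (0 : Fin n → ZMod p) ∈ K := Finset.mem_filter.2 ⟨Finset.mem_univ _, Matrix.mulVec_zero _⟩
  set Sg : Finset ((Fin n → ZMod p) × (Fin n → ZMod p)) :=
    ((K.erase 0).sigma (fun v => K \ (Finset.univ : Finset (ZMod p)).image (fun t => t • v))).image
      (fun s => (s.1, s.2)) with hSg
  have hsub : (Finset.univ.filter fun q : (Fin n → ZMod p) × (Fin n → ZMod p) => b.mulVec q.1 = 0 ∧ b.mulVec q.2 = 0 ∧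
      q.1 ⬝ᵥ ω.mulVec q.2 ≠ 0) ⊆ Sg := by
    intro q hq
    rw [hSg]
    rw [Finset.mem_filter] at hq
    obtain ⟨-, h1, h2, h3⟩ := hq
    rw [Finset.mem_image]
    refine ⟨⟨q.1, q.2⟩, ?_, rfl⟩
    rw [Finset.mem_sigma]
    refine ⟨Finset.mem_erase.2 ⟨?_, Finset.mem_filter.2 ⟨Finset.mem_univ _, h1⟩⟩, Finset.mem_sdiff.2
      ⟨Finset.mem_filter.2 ⟨Finset.mem_univ _, h2⟩, ?_⟩⟩
    · intro h4
      change q.1 = 0 at h4
      exact h3 (by rw [h4, zero_dotProduct])
    · intro h4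
      rw [Finset.mem_image] at h4
      obtain ⟨t, -, ht⟩ := h4
      change t • q.1 = q.2 at ht
      exact h3 (by rw [← ht, Matrix.mulVec_smul, dotProduct_smul, PF.dot_self ω hω, smul_zero])
  refine (Finset.card_le_card hsub).trans (Finset.card_image_le.trans ?_)
  rw [Finset.card_sigma]
  have h5 : ∀ v ∈ K.erase 0, (K \ (Finset.univ : Finset (ZMod p)).image (fun t => t • v)).card ≤ p ^ 2 - p := by
    intro v hv
    obtain ⟨hv0, hvK⟩ := Finset.mem_erase.1 hv
    have hvk : b.mulVec v = 0 := (Finset.mem_filter.1 hvK).2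
    have h6 : ((Finset.univ : Finset (ZMod p)).image (fun t => t • v)) ⊆ K := by
      intro u hu
      rw [Finset.mem_image] at hu
      obtain ⟨t, -, rfl⟩ := hu
      refine Finset.mem_filter.2 ⟨Finset.mem_univ _, ?_⟩
      rw [Matrix.mulVec_smul, hvk, smul_zero]
    rw [Finset.card_sdiff_of_subset h6, Finset.card_image_of_injective _ (smul_left_injective _ hv0), Finset.card_univ,
      ZMod.card]
    exact Nat.sub_le_sub_right hK _
  refine (Finset.sum_le_sum h5).trans ?_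
  rw [Finset.sum_const, smul_eq_mul, Finset.card_erase_of_mem h0K]
  exact Nat.mul_le_mul_right _ (Nat.sub_le_sub_right hK _)

open Classical in
/-- the number of the pairs with nonzero value -/
theorem pairs_card {n : ℕ} (ω : Matrix (Fin (n + 1)) (Fin (n + 1)) (ZMod p)) (hω : ω.det ≠ 0) :
    (Finset.univ.filter fun q : (Fin (n + 1) → ZMod p) × (Fin (n + 1) → ZMod p) => q.1 ⬝ᵥ ω.mulVec q.2 ≠ 0).card =
      (p ^ (n + 1) - 1) * (p ^ (n + 1) - p ^ n) := by
  have hF : (Finset.univ : Finset (Fin (n + 1) → ZMod p)).card = p ^ (n + 1) := by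
    rw [Finset.card_univ, Fintype.card_fun, ZMod.card, Fintype.card_fin]
  have h1 : ∀ v : Fin (n + 1) → ZMod p, v ≠ 0 →
      (Finset.univ.filter fun w : Fin (n + 1) → ZMod p => v ⬝ᵥ ω.mulVec w ≠ 0).card = p ^ (n + 1) - p ^ n := by
    intro v hv0
    have h6 : Matrix.vecMul v ω ≠ 0 := by
      intro h
      exact hω (Matrix.exists_vecMul_eq_zero_iff.1 ⟨v, hv0, h⟩)
    have h7 := one_fun (Matrix.vecMul v ω) h6
    have h8 : (Finset.univ.filter fun w : Fin (n + 1) → ZMod p => v ⬝ᵥ ω.mulVec w = 0) =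
        Finset.univ.filter fun w : Fin (n + 1) → ZMod p => ∑ j, Matrix.vecMul v ω j * w j = 0 := by
      refine Finset.filter_congr fun w _ => ?_
      rw [Matrix.dotProduct_mulVec]
      rfl
    rw [← h8] at h7
    have h9 : p * (Finset.univ.filter fun w : Fin (n + 1) → ZMod p => v ⬝ᵥ ω.mulVec w = 0).card = p * p ^ n := by
      rw [h7]
      ring
    have h10 := Nat.eq_of_mul_eq_mul_left hp.out.pos h9
    have h11 := Finset.card_filter_add_card_filter_not (s := (Finset.univ : Finset (Fin (n + 1) → ZMod p)))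
      (fun w => v ⬝ᵥ ω.mulVec w = 0)
    rw [hF, h10] at h11
    change (Finset.univ.filter fun w : Fin (n + 1) → ZMod p => ¬ (v ⬝ᵥ ω.mulVec w = 0)).card = _
    omega
  rw [Finset.card_filter, Fintype.sum_prod_type]
  have h2 : ∀ v : Fin (n + 1) → ZMod p, (∑ w : Fin (n + 1) → ZMod p, if v ⬝ᵥ ω.mulVec w ≠ 0 then 1 else 0) =
      if v ≠ 0 then p ^ (n + 1) - p ^ n else 0 := by
    intro v
    rw [← Finset.card_filter]
    split_ifs with h
    · exact h1 v h
    · rw [not_not] at h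
      rw [Finset.card_eq_zero, Finset.filter_eq_empty_iff]
      intro w _ h3
      exact h3 (by rw [h, zero_dotProduct])
  rw [Finset.sum_congr rfl fun v _ => h2 v, ← Finset.sum_filter, Finset.sum_const, smul_eq_mul]
  congr 1
  rw [Finset.filter_ne' Finset.univ (0 : Fin (n + 1) → ZMod p), Finset.card_erase_of_mem (Finset.mem_univ _), hF]

open Classical in
/-- **The number of the simple degenerate matrices, raw form.** -/
theorem simple_raw (m : ℕ) (ω : AltS p (2 * m + 4)) (hω : ω.1.det ≠ 0) :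
    (p ^ 4 - p ^ 2) * (((p ^ (2 * m + 4) - 1) * (p ^ (2 * m + 4) - p ^ (2 * m + 3))) *
      Fintype.card (AltS p (2 * m + 2))) ≤
    (p ^ 4 - p ^ 2) * (((p ^ 2 - 1) * (p ^ 2 - p)) *
      (Finset.univ.filter fun b : AltS p (2 * m + 4) => b.1.det = 0 ∧ ¬ Iso ω.1 b.1).card) +
    ((p ^ (2 * m + 4) - 1) * (p ^ (2 * m + 4) - p ^ (2 * m + 3))) *
      ((p ^ (2 * m + 4) - p ^ 2) * Fintype.card (AltS p (2 * m + 1))) := by
  let Vec := Fin (2 * m + 4) → ZMod p
  set Pr : Finset (Vec × Vec) := Finset.univ.filter fun q => q.1 ⬝ᵥ ω.1.mulVec q.2 ≠ 0 with hPr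
  have hPc : Pr.card = (p ^ (2 * m + 4) - 1) * (p ^ (2 * m + 4) - p ^ (2 * m + 3)) :=
    pairs_card (n := 2 * m + 3) ω.1 hω
  set Sm := (Finset.univ.filter fun b : AltS p (2 * m + 4) => b.1.det = 0 ∧ ¬ Iso ω.1 b.1) with hSm
  rw [← hPc]
  -- the sum over the pairs
  have h1 : Pr.card * Fintype.card (AltS p (2 * m + 2)) ≤
      ∑ q ∈ Pr, (Finset.univ.filter fun b : AltS p (2 * m + 4) => b.1.mulVec q.1 = 0 ∧ b.1.mulVec q.2 = 0).card := by
    have h6 : Pr.card * Fintype.card (AltS p (2 * m + 2)) = ∑ _q ∈ Pr, Fintype.card (AltS p (2 * m + 2)) := by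
      rw [Finset.sum_const, smul_eq_mul]
    rw [h6]
    refine Finset.sum_le_sum fun q hq => ?_
    obtain ⟨i, j, hij⟩ := indep_of ω.1 ω.2 q.1 q.2 (Finset.mem_filter.1 hq).2
    exact ker_two (n := 2 * m + 2) q.1 q.2 i j hij
  have h2 : ∑ q ∈ Pr, (Finset.univ.filter fun b : AltS p (2 * m + 4) => b.1.mulVec q.1 = 0 ∧
      b.1.mulVec q.2 = 0).card ≤ ((p ^ 2 - 1) * (p ^ 2 - p)) * Sm.card +
      ∑ q ∈ Pr, (Finset.univ.filter fun b : AltS p (2 * m + 4) => b.1.mulVec q.1 = 0 ∧ b.1.mulVec q.2 = 0 ∧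
        Iso ω.1 b.1).card := by
    have h3 : ∀ q ∈ Pr, (Finset.univ.filter fun b : AltS p (2 * m + 4) => b.1.mulVec q.1 = 0 ∧
        b.1.mulVec q.2 = 0).card ≤ (Sm.filter fun b => b.1.mulVec q.1 = 0 ∧ b.1.mulVec q.2 = 0).card +
        (Finset.univ.filter fun b : AltS p (2 * m + 4) => b.1.mulVec q.1 = 0 ∧ b.1.mulVec q.2 = 0 ∧
        Iso ω.1 b.1).card := by
      intro q hq
      refine le_trans (Finset.card_le_card ?_) (Finset.card_union_le _ _)
      intro b hb
      rw [Finset.mem_filter] at hb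
      rw [Finset.mem_union]
      by_cases hI : Iso ω.1 b.1
      · exact Or.inr (Finset.mem_filter.2 ⟨Finset.mem_univ _, hb.2.1, hb.2.2, hI⟩)
      · refine Or.inl (Finset.mem_filter.2 ⟨Finset.mem_filter.2 ⟨Finset.mem_univ _, ?_, hI⟩, hb.2⟩)
        refine Matrix.exists_mulVec_eq_zero_iff.1 ⟨q.1, ?_, hb.2.1⟩
        intro h0
        exact (Finset.mem_filter.1 hq).2 (by rw [h0, zero_dotProduct])
    refine (Finset.sum_le_sum h3).trans ?_
    rw [Finset.sum_add_distrib]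
    refine Nat.add_le_add_right ?_ _
    have h4 : ∑ q ∈ Pr, (Sm.filter fun b => b.1.mulVec q.1 = 0 ∧ b.1.mulVec q.2 = 0).card =
        ∑ b ∈ Sm, (Pr.filter fun q => b.1.mulVec q.1 = 0 ∧ b.1.mulVec q.2 = 0).card := by
      simp only [Finset.card_filter]
      exact Finset.sum_comm
    have h6 : ((p ^ 2 - 1) * (p ^ 2 - p)) * Sm.card = ∑ _b ∈ Sm, (p ^ 2 - 1) * (p ^ 2 - p) := by
      rw [Finset.sum_const, smul_eq_mul]
      exact Nat.mul_comm _ _
    rw [h4, h6]
    refine Finset.sum_le_sum fun b hb => ?_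
    refine le_trans (Finset.card_le_card ?_) (Y_simple ω.1 b.1 ω.2 (Finset.mem_filter.1 hb).2.2)
    intro q hq
    rw [Finset.mem_filter] at hq ⊢
    exact ⟨Finset.mem_univ _, hq.2.1, hq.2.2, (Finset.mem_filter.1 hq.1).2⟩
  have h5 : (p ^ 4 - p ^ 2) * ∑ q ∈ Pr, (Finset.univ.filter fun b : AltS p (2 * m + 4) => b.1.mulVec q.1 = 0 ∧
      b.1.mulVec q.2 = 0 ∧ Iso ω.1 b.1).card ≤
      Pr.card * ((p ^ (2 * m + 4) - p ^ 2) * Fintype.card (AltS p (2 * m + 1))) := by
    have h6 : Pr.card * ((p ^ (2 * m + 4) - p ^ 2) * Fintype.card (AltS p (2 * m + 1))) =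
        ∑ _q ∈ Pr, (p ^ (2 * m + 4) - p ^ 2) * Fintype.card (AltS p (2 * m + 1)) := by
      rw [Finset.sum_const, smul_eq_mul]
    rw [Finset.mul_sum, h6]
    exact Finset.sum_le_sum fun q hq => ns_le m ω q.1 q.2 (Finset.mem_filter.1 hq).2
  calc (p ^ 4 - p ^ 2) * (Pr.card * Fintype.card (AltS p (2 * m + 2))) ≤ (p ^ 4 - p ^ 2) * _ :=
        Nat.mul_le_mul_left _ (h1.trans h2)
    _ = _ := mul_add _ _ _
    _ ≤ _ := Nat.add_le_add_left h5 _

end Run7.h438.PG
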