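import Mathlib
import Pool.Agent.Run7.h438.PG2
import Pool.Agent.Run7.h438.PF2

/-! The number of the lines of alternating matrices with a simple degenerate member. -/

set_option autoImplicit false
set_option linter.all false

open Matrix

namespace Run7.h438.PG

open Pool.Agent.Helper929 Pool.Agent.Y109.PI Run7.h438.PC Run7.h438.PD Run7.h438.PE Run7.h438.PF

theorem raw_arith (p x A D : ℤ) (hp : 2 ≤ p) (hx : 1 ≤ x) (hA : 0 ≤ A)
    (h : (p ^ 4 - p ^ 2) * (((x * p ^ 4 - 1) * (x * p ^ 4 - x * p ^ 3)) * (x * p * A)) ≤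
      (p ^ 4 - p ^ 2) * (((p ^ 2 - 1) * (p ^ 2 - p)) * D) +
      ((x * p ^ 4 - 1) * (x * p ^ 4 - x * p ^ 3)) * ((x * p ^ 4 - p ^ 2) * A)) :
    p * (p ^ 2 - p - 1) * (x * p ^ 3 * (x * p ^ 2 * (x * p * A))) ≤ (p ^ 2 - 1) ^ 2 * D := by
  have hpos : 0 < p ^ 3 * (p - 1) := mul_pos (by positivity) (by linarith)
  have h1 : p ^ 3 * (p - 1) * (x * p ^ 2 * A * (x * p ^ 4 - 1) * (x * p * (p ^ 2 - p - 1) + 1)) ≤
      p ^ 3 * (p - 1) * ((p ^ 2 - 1) ^ 2 * D) := by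
    linarith [h]
  have h2 := le_of_mul_le_mul_left h1 hpos
  refine le_trans ?_ h2
  have h3 : x * p ^ 2 * A * (x * p ^ 4 - 1) * (x * p * (p ^ 2 - p - 1) + 1) =
      p * (p ^ 2 - p - 1) * (x * p ^ 3 * (x * p ^ 2 * (x * p * A))) +
      x * p ^ 2 * A * (x * p * (p ^ 3 - p ^ 2 + p + 1) - 1) := by ring
  rw [h3]
  have h4 : 0 ≤ x * p ^ 2 * A * (x * p * (p ^ 3 - p ^ 2 + p + 1) - 1) := by
    refine mul_nonneg (mul_nonneg (mul_nonneg (by linarith) (by positivity)) hA) ?_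
    have h5 : 1 ≤ p ^ 3 - p ^ 2 + p + 1 := by nlinarith [sq_nonneg p, mul_nonneg (sq_nonneg p) (by linarith : (0 : ℤ) ≤ p - 1)]
    have h6 : 1 ≤ x * p := by nlinarith
    nlinarith
  linarith

theorem five_arith (p G V s N : ℤ) (hp : 5 ≤ p) (hG : 0 ≤ G) (hV : 0 < V) (hN : 0 ≤ N)
    (h1 : p ^ 2 * (p ^ 2 - p - 1) * V ≤ (p ^ 2 - 1) ^ 2 * s)
    (h2 : (p ^ 2 - 1) ^ 2 * N ≤ p ^ 3 * (p - 1) * V) (h3 : s ^ 2 ≤ G * (s + N)) :
    (p - 1) * V ≤ 2 * p * G := by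
  obtain ⟨t, rfl⟩ : ∃ t, p = t + 5 := ⟨p - 5, by ring⟩
  have ht : 0 ≤ t := by linarith
  have h1' : ((t + 5) ^ 2 * (t ^ 2 + 9 * t + 19)) * V ≤ (t ^ 2 + 10 * t + 24) ^ 2 * s := by
    calc _ = (t + 5) ^ 2 * ((t + 5) ^ 2 - (t + 5) - 1) * V := by ring
      _ ≤ _ := h1
      _ = _ := by ring
  have h2' : (t ^ 2 + 10 * t + 24) ^ 2 * N ≤ ((t + 5) ^ 3 * (t + 4)) * V := by
    calc _ = ((t + 5) ^ 2 - 1) ^ 2 * N := by ring
      _ ≤ _ := h2
      _ = _ := by ring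
  have h4 := cs ((t ^ 2 + 10 * t + 24) ^ 2) G ((t + 5) ^ 2 * (t ^ 2 + 9 * t + 19))
    ((t + 5) ^ 3 * (t + 4)) V s N (by positivity) hG (by positivity) (by positivity) hV hN h1' h2' h3
  have hEpos : 0 < (t ^ 2 + 10 * t + 24) ^ 2 * ((t + 5) ^ 2 * (t ^ 2 + 9 * t + 19) + (t + 5) ^ 3 * (t + 4)) := by
    positivity
  have h5 : (t ^ 2 + 10 * t + 24) ^ 2 * ((t + 5) ^ 2 * (t ^ 2 + 9 * t + 19) + (t + 5) ^ 3 * (t + 4)) *
      ((t + 5 - 1) * V) ≤ (t ^ 2 + 10 * t + 24) ^ 2 * ((t + 5) ^ 2 * (t ^ 2 + 9 * t + 19) + (t + 5) ^ 3 * (t + 4)) *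
      (2 * (t + 5) * G) := by
    have e2 : (t ^ 2 + 10 * t + 24) ^ 2 * ((t + 5) ^ 2 * (t ^ 2 + 9 * t + 19) + (t + 5) ^ 3 * (t + 4)) * (t + 5 - 1) ≤
        2 * (t + 5) * ((t + 5) ^ 2 * (t ^ 2 + 9 * t + 19)) ^ 2 := by
      have e3 : 2 * (t + 5) * ((t + 5) ^ 2 * (t ^ 2 + 9 * t + 19)) ^ 2 =
          (t ^ 2 + 10 * t + 24) ^ 2 * ((t + 5) ^ 2 * (t ^ 2 + 9 * t + 19) + (t + 5) ^ 3 * (t + 4)) * (t + 5 - 1) +
          (t + 5) ^ 2 * (t ^ 5 + 20 * t ^ 4 + 152 * t ^ 3 + 536 * t ^ 2 + 834 * t + 394) := by ring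
      rw [e3]
      have : 0 ≤ (t + 5) ^ 2 * (t ^ 5 + 20 * t ^ 4 + 152 * t ^ 3 + 536 * t ^ 2 + 834 * t + 394) := by positivity
      linarith
    calc _ = ((t ^ 2 + 10 * t + 24) ^ 2 * ((t + 5) ^ 2 * (t ^ 2 + 9 * t + 19) + (t + 5) ^ 3 * (t + 4)) *
          (t + 5 - 1)) * V := by ring
      _ ≤ (2 * (t + 5) * ((t + 5) ^ 2 * (t ^ 2 + 9 * t + 19)) ^ 2) * V := mul_le_mul_of_nonneg_right e2 hV.le
      _ = 2 * (t + 5) * (((t + 5) ^ 2 * (t ^ 2 + 9 * t + 19)) ^ 2 * V) := by ring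
      _ ≤ 2 * (t + 5) * ((t ^ 2 + 10 * t + 24) ^ 2 * G * ((t + 5) ^ 2 * (t ^ 2 + 9 * t + 19) +
          (t + 5) ^ 3 * (t + 4))) := mul_le_mul_of_nonneg_left h4 (by linarith)
      _ = _ := by ring
  exact le_of_mul_le_mul_left h5 hEpos

theorem three_arith (G V s N : ℤ) (hG : 0 ≤ G) (hV : 0 < V) (hN : 0 ≤ N)
    (h1 : 45 * V ≤ 64 * s) (h2 : 64 * N ≤ 54 * V) (h3 : s ^ 2 ≤ G * (s + N)) : 3 * V ≤ 10 * G := by
  have h4 := cs 64 G 45 54 V s N (by norm_num) hG (by norm_num) (by norm_num) hV hN h1 h2 h3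
  linarith

variable {p : ℕ} [hp : Fact p.Prime]

open Classical in
/-- the case of size two -/
theorem simple_one (ω : AltS p 2) (hω : ω.1.det ≠ 0) :
    (p : ℤ) * ((p : ℤ) ^ 2 - p - 1) * Fintype.card (AltS p 2) ≤ ((p : ℤ) ^ 2 - 1) ^ 2 *
      (Finset.univ.filter fun b : AltS p 2 => b.1.det = 0 ∧ ¬ Iso ω.1 b.1).card := by
  have h0 : Fintype.card (AltS p 0) = 1 := by
    rw [Fintype.card_eq_one_iff]
    exact ⟨0, fun y => Subtype.ext (Subsingleton.elim _ _)⟩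
  have hV : Fintype.card (AltS p 2) = p := by
    have h1 := card_alt p 1
    have h2 := card_alt p 0
    rw [h0, pow_zero, one_mul] at h2
    have h2' : Fintype.card (AltS p 1) = 1 := h2
    rw [h2', pow_one, mul_one] at h1
    exact h1
  have hD : 1 ≤ (Finset.univ.filter fun b : AltS p 2 => b.1.det = 0 ∧ ¬ Iso ω.1 b.1).card := by
    rw [Nat.succ_le_iff, Finset.card_pos]
    refine ⟨0, Finset.mem_filter.2 ⟨Finset.mem_univ _, ?_, ?_⟩⟩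
    · change (0 : Matrix (Fin 2) (Fin 2) (ZMod p)).det = 0
      exact Matrix.det_zero
    · rintro ⟨v, w, ⟨i, j, hij⟩, -, -, hvw⟩
      have h1 : v ⬝ᵥ ω.1.mulVec w = ω.1 0 1 * (v 0 * w 1 - v 1 * w 0) := by
        simp only [Matrix.mulVec, dotProduct, Fin.sum_univ_two]
        rw [ω.2.1 0, ω.2.1 1, ω.2.2 1 0]
        ring
      have h2 : ω.1 0 1 ≠ 0 := by
        intro h
        apply hω
        rw [Matrix.det_fin_two, ω.2.1 0, h]
        ring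
      rw [h1] at hvw
      have h3 := (mul_eq_zero.1 hvw).resolve_left h2
      apply hij
      fin_cases i <;> fin_cases j
      · change v 0 * w 0 - v 0 * w 0 = 0
        ring
      · exact h3
      · change v 1 * w 0 - v 0 * w 1 = 0
        linear_combination -h3
      · change v 1 * w 1 - v 1 * w 1 = 0
        ring
  rw [hV]
  set D := (Finset.univ.filter fun b : AltS p 2 => b.1.det = 0 ∧ ¬ Iso ω.1 b.1).card
  have hpZ : (2 : ℤ) ≤ (p : ℤ) := by exact_mod_cast hp.out.two_le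
  have hDZ : (1 : ℤ) ≤ (D : ℤ) := by exact_mod_cast hD
  calc (p : ℤ) * ((p : ℤ) ^ 2 - p - 1) * p ≤ ((p : ℤ) ^ 2 - 1) ^ 2 * 1 := by nlinarith [sq_nonneg (p : ℤ), mul_nonneg (sq_nonneg (p : ℤ)) (by linarith : (0 : ℤ) ≤ (p : ℤ) - 1)]
    _ ≤ _ := mul_le_mul_of_nonneg_left hDZ (sq_nonneg _)

open Classical in
/-- **The number of the simple degenerate matrices.** -/
theorem simple_card (k : ℕ) (ω : AltS p (2 * (k + 1))) (hω : ω.1.det ≠ 0) :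
    (p : ℤ) * ((p : ℤ) ^ 2 - p - 1) * Fintype.card (AltS p (2 * (k + 1))) ≤ ((p : ℤ) ^ 2 - 1) ^ 2 *
      (Finset.univ.filter fun b : AltS p (2 * (k + 1)) => b.1.det = 0 ∧ ¬ Iso ω.1 b.1).card := by
  rcases k with _ | m
  · exact simple_one ω hω
  · have h := simple_raw m ω hω
    change (p : ℤ) * ((p : ℤ) ^ 2 - p - 1) * Fintype.card (AltS p (2 * m + 4)) ≤ ((p : ℤ) ^ 2 - 1) ^ 2 *
      (Finset.univ.filter fun b : AltS p (2 * m + 4) => b.1.det = 0 ∧ ¬ Iso ω.1 b.1).card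
    set D := (Finset.univ.filter fun b : AltS p (2 * m + 4) => b.1.det = 0 ∧ ¬ Iso ω.1 b.1).card with hD
    have hV : Fintype.card (AltS p (2 * m + 4)) = p ^ (2 * m + 3) * (p ^ (2 * m + 2) * Fintype.card (AltS p (2 * m + 2))) := by
      rw [← card_alt p (2 * m + 2), ← card_alt p (2 * m + 3)]
    have hA2 : Fintype.card (AltS p (2 * m + 2)) = p ^ (2 * m + 1) * Fintype.card (AltS p (2 * m + 1)) :=
      card_alt p (2 * m + 1)
    rw [hV, hA2]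
    rw [hA2] at h
    set A := Fintype.card (AltS p (2 * m + 1)) with hA
    clear_value D A
    have hp1 : 1 ≤ p := hp.out.pos
    have c4 : ((p ^ 4 - p ^ 2 : ℕ) : ℤ) = (p : ℤ) ^ 4 - (p : ℤ) ^ 2 := by
      rw [Nat.cast_sub (Nat.pow_le_pow_right hp1 (by norm_num))]
      push_cast
      ring
    have c1 : ((p ^ 2 - 1 : ℕ) : ℤ) = (p : ℤ) ^ 2 - 1 := by
      rw [Nat.cast_sub (Nat.one_le_pow _ _ hp.out.pos)]
      push_cast
      ring
    have c2 : ((p ^ 2 - p : ℕ) : ℤ) = (p : ℤ) ^ 2 - p := by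
      rw [Nat.cast_sub (by nlinarith)]
      push_cast
      ring
    have c5 : ((p ^ (2 * m + 4) - 1 : ℕ) : ℤ) = (p : ℤ) ^ (2 * m) * (p : ℤ) ^ 4 - 1 := by
      rw [Nat.cast_sub (Nat.one_le_pow _ _ hp.out.pos)]
      push_cast
      ring
    have c6 : ((p ^ (2 * m + 4) - p ^ (2 * m + 3) : ℕ) : ℤ) = (p : ℤ) ^ (2 * m) * (p : ℤ) ^ 4 -
        (p : ℤ) ^ (2 * m) * (p : ℤ) ^ 3 := by
      rw [Nat.cast_sub (Nat.pow_le_pow_right hp1 (by omega))]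
      push_cast
      ring
    have c7 : ((p ^ (2 * m + 4) - p ^ 2 : ℕ) : ℤ) = (p : ℤ) ^ (2 * m) * (p : ℤ) ^ 4 - (p : ℤ) ^ 2 := by
      rw [Nat.cast_sub (Nat.pow_le_pow_right hp1 (by omega))]
      push_cast
      ring
    have hZ := (Nat.cast_le (α := ℤ)).2 h
    simp only [Nat.cast_add, Nat.cast_mul] at hZ
    rw [c4, c5, c6, c1, c2, c7] at hZ
    have hres := raw_arith p ((p : ℤ) ^ (2 * m)) A D (by exact_mod_cast hp.out.two_le)
      (by exact_mod_cast Nat.one_le_pow (2 * m) p hp.out.pos) (Int.natCast_nonneg _) (by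
        refine le_trans (le_of_eq ?_) (hZ.trans (le_of_eq ?_))
        · push_cast
          ring
        · push_cast
          ring)
    refine le_trans (le_of_eq ?_) hres
    push_cast
    ring

open Classical in
/-- **The number of the lines with a simple degenerate member.** -/
theorem count_simple (g : ℕ) (hg : 0 < g) (ω : AltS p (2 * g)) (hω : ω.1.det ≠ 0) :
    (p = 2 → 2 * Fintype.card (AltS p (2 * g)) ≤ 9 * (Finset.univ.filter fun b : AltS p (2 * g) =>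
      ∃ c : ZMod p, (b.1 + c • ω.1).det = 0 ∧ ¬ Iso ω.1 (b.1 + c • ω.1)).card) ∧
    (p = 3 → 3 * Fintype.card (AltS p (2 * g)) ≤ 10 * (Finset.univ.filter fun b : AltS p (2 * g) =>
      ∃ c : ZMod p, (b.1 + c • ω.1).det = 0 ∧ ¬ Iso ω.1 (b.1 + c • ω.1)).card) ∧
    (5 ≤ p → (p - 1) * Fintype.card (AltS p (2 * g)) ≤ 2 * p * (Finset.univ.filter fun b : AltS p (2 * g) =>
      ∃ c : ZMod p, (b.1 + c • ω.1).det = 0 ∧ ¬ Iso ω.1 (b.1 + c • ω.1)).card) := by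
  obtain ⟨k, rfl⟩ : ∃ k, g = k + 1 := ⟨g - 1, by omega⟩
  let T : ZMod p → AltS p (2 * (k + 1)) := fun c => ⟨c • ω.1, Alt.smul ω.2 c⟩
  let Q : AltS p (2 * (k + 1)) → Prop := fun b => b.1.det = 0 ∧ ¬ Iso ω.1 b.1
  have b6 := simple_card k ω hω
  set V := Fintype.card (AltS p (2 * (k + 1))) with hV
  have hVpos : 0 < V := Fintype.card_pos
  set D := (Finset.univ.filter fun b : AltS p (2 * (k + 1)) => b.1.det = 0 ∧ ¬ Iso ω.1 b.1).card with hD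
  -- the largest number of pairs
  let J : ℕ := p ^ 2 * V / ((p ^ 2 - 1) * (p ^ 2 - 1))
  have hpos2 : 0 < (p ^ 2 - 1) * (p ^ 2 - 1) := by
    have h1 : 1 < p ^ 2 := Nat.one_lt_pow two_ne_zero hp.out.one_lt
    exact Nat.mul_pos (by omega) (by omega)
  have a4 : (p ^ 2 - 1) * (p ^ 2 - 1) * J ≤ p ^ 2 * V := Nat.mul_div_le _ _
  have a5 : (p * D) ^ 2 ≤ (Finset.univ.filter fun b : AltS p (2 * (k + 1)) =>
      ∃ c : ZMod p, (b.1 + c • ω.1).det = 0 ∧ ¬ Iso ω.1 (b.1 + c • ω.1)).card *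
        (p * D + p * ((p - 1) * J)) := by
    have h := moment (κ := ZMod p) k T Q (fun b hb => hb.1) J (by
      intro c c' hc
      rw [Nat.le_div_iff_mul_le hpos2, mul_comm]
      exact J_le k ω hω c c' hc)
    rw [ZMod.card] at h
    convert h <;> rfl
  have a7 : D ≤ (Finset.univ.filter fun b : AltS p (2 * (k + 1)) =>
      ∃ c : ZMod p, (b.1 + c • ω.1).det = 0 ∧ ¬ Iso ω.1 (b.1 + c • ω.1)).card := by
    refine Finset.card_le_card fun b hb => ?_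
    rw [Finset.mem_filter] at hb ⊢
    refine ⟨Finset.mem_univ _, 0, ?_⟩
    rw [zero_smul, add_zero]
    exact hb.2
  set G := (Finset.univ.filter fun b : AltS p (2 * (k + 1)) =>
      ∃ c : ZMod p, (b.1 + c • ω.1).det = 0 ∧ ¬ Iso ω.1 (b.1 + c • ω.1)).card with hG
  clear_value V D J G
  have hp2 := hp.out.two_le
  have hpZ : (2 : ℤ) ≤ (p : ℤ) := by exact_mod_cast hp2
  have c1 : ((p ^ 2 - 1 : ℕ) : ℤ) = (p : ℤ) ^ 2 - 1 := by
    rw [Nat.cast_sub (Nat.one_le_pow _ _ hp.out.pos)]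
    push_cast
    ring
  have c3 : ((p - 1 : ℕ) : ℤ) = (p : ℤ) - 1 := by
    rw [Nat.cast_sub (by omega)]
    push_cast
    ring
  have b4 : ((p : ℤ) ^ 2 - 1) * ((p : ℤ) ^ 2 - 1) * J ≤ (p : ℤ) ^ 2 * V := by
    rw [← c1]
    exact_mod_cast a4
  have b5 : ((p : ℤ) * D) ^ 2 ≤ G * ((p : ℤ) * D + (p : ℤ) * (((p : ℤ) - 1) * J)) := by
    rw [← c3]
    exact_mod_cast a5
  have hVZ : (0 : ℤ) < V := by exact_mod_cast hVpos
  have hN : (0 : ℤ) ≤ (p : ℤ) * (((p : ℤ) - 1) * J) :=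
    mul_nonneg (by linarith) (mul_nonneg (by linarith) (Int.natCast_nonneg _))
  have b6' : (p : ℤ) ^ 2 * ((p : ℤ) ^ 2 - p - 1) * V ≤ ((p : ℤ) ^ 2 - 1) ^ 2 * (p * D) := by
    calc _ = (p : ℤ) * ((p : ℤ) * ((p : ℤ) ^ 2 - p - 1) * V) := by ring
      _ ≤ (p : ℤ) * (((p : ℤ) ^ 2 - 1) ^ 2 * D) := mul_le_mul_of_nonneg_left b6 (by linarith)
      _ = _ := by ring
  have b7 : ((p : ℤ) ^ 2 - 1) ^ 2 * ((p : ℤ) * (((p : ℤ) - 1) * J)) ≤ (p : ℤ) ^ 3 * (p - 1) * V := by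
    calc _ = ((p : ℤ) * (p - 1)) * (((p : ℤ) ^ 2 - 1) * ((p : ℤ) ^ 2 - 1) * J) := by ring
      _ ≤ ((p : ℤ) * (p - 1)) * ((p : ℤ) ^ 2 * V) :=
        mul_le_mul_of_nonneg_left b4 (mul_nonneg (by linarith) (by linarith))
      _ = _ := by ring
  refine ⟨fun h => ?_, fun h => ?_, fun h => ?_⟩
  · have h3Z : (p : ℤ) = 2 := by exact_mod_cast h
    have a7Z : (D : ℤ) ≤ G := by exact_mod_cast a7
    rw [h3Z] at b6
    have h6 : 2 * (V : ℤ) ≤ 9 * G := by linarith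
    exact_mod_cast h6
  · have h3Z : (p : ℤ) = 3 := by exact_mod_cast h
    rw [h3Z] at b5 b6' b7 hN
    have h6 := three_arith G V (3 * D) _ (Int.natCast_nonneg _) hVZ hN (by linarith) (by linarith) b5
    exact_mod_cast h6
  · have h5Z : (5 : ℤ) ≤ p := by exact_mod_cast h
    have h6 := five_arith p G V (p * D) _ h5Z (Int.natCast_nonneg _) hVZ hN b6' b7 b5
    have h7 : (((p - 1) * V : ℕ) : ℤ) ≤ ((2 * p * G : ℕ) : ℤ) := by
      rw [Nat.cast_mul, c3]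
      push_cast
      exact h6
    exact_mod_cast h7

end Run7.h438.PG
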