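import Mathlib
import Pool.Agent.Run7.h438.PG3
import Pool.Agent.Run7.h438.PF4
import Pool.Agent.Run7.h438.PE2

/-! Counting classes of prime power period which are sums of `g - 1` symbols. -/

set_option autoImplicit false
set_option linter.all false

open scoped TensorProduct
open Matrix

namespace Run7.h438.PG

open Pool.Agent.Helper346.Bra Pool.Agent.Helper18.Br Pool.Agent.H552R3.SymBr Pool.Agent.H552R3.SymPred
  Pool.Agent.H552R3.Tsen Pool.Agent.Helper929 Pool.Agent.Y109.PI Run7.h438.PC Run7.h438.PD Run7.h438.PE Run7.h438.PF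

universe u

/-- the group of the alternating matrices modulo `N` -/
def AltN (N n : ℕ) : AddSubgroup (Matrix (Fin n) (Fin n) (ZMod N)) where
  carrier := {b | Alt b}
  add_mem' := fun ha hb => Alt.add ha hb
  zero_mem' := ⟨fun _ => rfl, fun _ _ => by simp⟩
  neg_mem' := fun {a} ha => ⟨fun u => by rw [Matrix.neg_apply, ha.1, neg_zero], fun u v => by
    rw [Matrix.neg_apply, Matrix.neg_apply, ha.2 u v]⟩

noncomputable instance (N n : ℕ) [NeZero N] : Fintype (AltN N n) := Fintype.ofFinite _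

section

variable {N n : ℕ} [NeZero N]

/-- an integral lift of the exponents -/
def lftN (b : Matrix (Fin n) (Fin n) (ZMod N)) : Fin n → Fin n → ℤ := fun u v => if u < v then ((b u v).val : ℤ) else 0

theorem dif_lftN (b : Matrix (Fin n) (Fin n) (ZMod N)) (hb : Alt b) (u v : Fin n) :
    ((dif (lftN b) u v : ℤ) : ZMod N) = b u v := by
  simp only [dif, lftN, Matrix.of_apply]
  rcases lt_trichotomy u v with h | h | h
  · rw [if_pos h, if_neg h.not_gt, sub_zero, vcast]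
  · subst h
    rw [if_neg (lt_irrefl _), sub_zero, Int.cast_zero, hb.1]
  · rw [if_neg h.not_gt, if_pos h, zero_sub, Int.cast_neg, vcast, hb.2 u v]

end

open Classical in
theorem fiber_count {V W : Type*} [AddCommGroup V] [AddCommGroup W] [Fintype V] [Fintype W] (ρ : V →+ W)
    (hρ : Function.Surjective ρ) (P : W → Prop) (x y : ℕ)
    (h : x * Fintype.card W ≤ y * (Finset.univ.filter P).card) :
    x * Fintype.card V ≤ y * (Finset.univ.filter fun v => P (ρ v)).card := by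
  set K := (Finset.univ.filter fun v => ρ v = 0).card with hK
  have hfib : ∀ w : W, (Finset.univ.filter fun v => ρ v = w).card = K := fun w =>
    AddMonoidHom.card_fiber_eq_of_mem_range ρ (hρ w) ⟨0, map_zero ρ⟩
  have h1 : Fintype.card V = Fintype.card W * K := by
    have h2 : (Finset.univ : Finset V).card = ∑ w : W, (Finset.univ.filter fun v => ρ v = w).card :=
      Finset.card_eq_sum_card_fiberwise (f := fun v => ρ v) (t := Finset.univ)
        (fun _ _ => Finset.mem_coe.2 (Finset.mem_univ _))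
    rw [← Finset.card_univ, h2, Finset.sum_congr rfl fun w _ => hfib w, Finset.sum_const, Finset.card_univ, smul_eq_mul]
  have h3 : (Finset.univ.filter fun v => P (ρ v)).card = (Finset.univ.filter P).card * K := by
    have h2 : (Finset.univ.filter fun v => P (ρ v)).card = ∑ w ∈ Finset.univ.filter P,
        ((Finset.univ.filter fun v => P (ρ v)).filter fun v => ρ v = w).card :=
      Finset.card_eq_sum_card_fiberwise (f := fun v => ρ v) (t := Finset.univ.filter P)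
        (fun v hv => Finset.mem_coe.2 (Finset.mem_filter.2 ⟨Finset.mem_univ _,
          (Finset.mem_filter.1 (Finset.mem_coe.1 hv)).2⟩))
    have h4 : ∀ w ∈ Finset.univ.filter P, ((Finset.univ.filter fun v => P (ρ v)).filter fun v => ρ v = w).card = K := by
      intro w hw
      rw [← hfib w, Finset.filter_filter]
      congr 1
      refine Finset.filter_congr fun v _ => ?_
      constructor
      · rintro ⟨-, h⟩; exact h
      · intro h5
        exact ⟨by rw [h5]; exact (Finset.mem_filter.1 hw).2, h5⟩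
    rw [h2, Finset.sum_congr rfl h4, Finset.sum_const, smul_eq_mul]
  rw [h1, h3]
  calc x * (Fintype.card W * K) = (x * Fintype.card W) * K := by ring
    _ ≤ (y * (Finset.univ.filter P).card) * K := Nat.mul_le_mul_right _ h
    _ = _ := by ring

open Classical in
/-- **The classes of prime power period.** -/
theorem core {k K : Type u} [Field k] [IsAlgClosed k] [Field K] [Algebra k K] (p a : ℕ) [hp : Fact p.Prime]
    (ha : 0 < a) (ζ : K) (hζ : IsPrimitiveRoot ζ (p ^ a)) (g : ℕ) (hg : 0 < g) (z : Fin (2 * g) → Kˣ)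
    (θ : Fin (2 * g) → Fin (2 * g) → BrauerGroup.{u, u} K) (hθ : ∀ u v, IsSym (p ^ a) ζ (z u) (z v) (θ u v))
    (r : ℕ) (w : Fin r → Fin (2 * g) → Fin (2 * g) → ℤ) (i0 : Fin r) (hwd : (dif (w i0)).det ≠ 0)
    (hrel0 : ∀ i, ∏ u, ∏ v, θ u v ^ w i u v = 1)
    (G : Subgroup Kˣ) (hG : G = Subgroup.closure (Set.range (Units.map (algebraMap k K).toMonoidHom) ∪ Set.range z))
    (S : Set (BrauerGroup.{u, u} K))
    (hS : S = Subgroup.closure {γ | ∃ a' ∈ G, ∃ b ∈ G, IsSym (p ^ a) ζ a' b γ}) (x y : ℕ)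
    (hxy : x * Fintype.card (AltS p (2 * g)) ≤ y * (Finset.univ.filter fun b : AltS p (2 * g) =>
      ∃ c : Fin r → ZMod p, (b.1 + ∑ i, c i • red p (dif (w i))).det = 0 ∧
        ¬ Iso (red p (dif (w i0))) (b.1 + ∑ i, c i • red p (dif (w i)))).card) :
    S.Finite ∧ x * S.ncard ≤ y * {α | α ∈ S ∧ ((∃ (s t : Fin (g - 1) → Kˣ) (σ : Fin (g - 1) → BrauerGroup.{u, u} K),
      (∀ i, IsSym (p ^ a) ζ (s i) (t i) (σ i)) ∧ α = ∏ i, σ i) ∧ IndDvd α ((p ^ a) ^ (g - 1)))}.ncard := by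
  haveI : NeZero p := ⟨hp.out.ne_zero⟩
  have hn : 0 < p ^ a := pow_pos hp.out.pos a
  haveI : NeZero (p ^ a) := ⟨hn.ne'⟩
  have hdvd : p ∣ p ^ a := dvd_pow_self p ha.ne'
  have hQ : ∀ i, Q (symHom hn hζ) z (w i) = 1 := by
    intro i
    rw [← hrel0 i, Q, Fintype.prod_prod_type]
    refine Finset.prod_congr rfl fun u _ => Finset.prod_congr rfl fun v _ => ?_
    rw [(isSym_iff hn hζ (z u) (z v) (θ u v)).1 (hθ u v), symHom_apply]
  let H : Subgroup Kˣ := (Units.map (algebraMap k K).toMonoidHom).range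
  have hneg : (-1 : Kˣ) ∈ H := by
    refine ⟨-1, ?_⟩
    ext
    simp
  have hconst : ∀ a' ∈ H, ∀ b, symHom hn hζ a' b = 1 := by
    rintro _ ⟨c, rfl⟩ b
    obtain ⟨d, hd⟩ := IsAlgClosed.exists_pow_nat_eq (c : k) hn
    have hd0 : d ≠ 0 := by
      rintro rfl
      rw [zero_pow hn.ne'] at hd
      exact c.ne_zero hd.symm
    have hc : c = (Units.mk0 d hd0) ^ (p ^ a) := by
      ext
      rw [Units.val_pow_eq_pow_val, Units.val_mk0, hd]
    rw [hc, map_pow, map_pow, MonoidHom.pow_apply, symHom_apply, symCl_tors]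
  have hVH : ∀ a' ∈ H, ∀ b ∈ H, symHom hn hζ a' b ∈ (⊥ : Subgroup (BrauerGroup.{u, u} K)) := fun a' ha' b _ => by
    rw [hconst a' ha' b]; exact Subgroup.one_mem _
  have hlow : low (symHom hn hζ) H ⊥ z ≤ (⊥ : Subgroup (BrauerGroup.{u, u} K)) := by
    refine sup_le le_rfl ?_
    rw [Subgroup.closure_le]
    rintro γ ⟨a', ha', u, rfl⟩
    rw [hconst a' ha']
    exact Subgroup.one_mem _
  have hGH : G = H ⊔ Subgroup.closure (Set.range z) := by
    rw [hG, Subgroup.closure_union]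
    congr 1
    exact Subgroup.closure_eq H
  have hset : {γ | ∃ a' ∈ G, ∃ b ∈ G, IsSym (p ^ a) ζ a' b γ} = {γ | ∃ a' ∈ H ⊔ Subgroup.closure (Set.range z),
      ∃ b ∈ H ⊔ Subgroup.closure (Set.range z), γ = symHom hn hζ a' b} := by
    ext γ
    simp only [Set.mem_setOf_eq, isSym_iff hn hζ, hGH, symHom_apply]
  -- congruent exponents give the same class
  have hcongr : ∀ w w' : Fin (2 * g) → Fin (2 * g) → ℤ,
      (∀ u v, ((dif w u v : ℤ) : ZMod (p ^ a)) = (dif w' u v : ℤ)) →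
      Q (symHom hn hζ) z w = Q (symHom hn hζ) z w' := by
    intro w w' h
    have h1 := Q_congr (s := symHom hn hζ) (fun a b => symCl_anti hn hζ a b) (p ^ a)
      (fun a b => symCl_tors hn hζ a b) (-1) H hneg (fun a => symCl_diag hn hζ a) ⊥ z w w' (fun u v => by
        rw [← ZMod.intCast_zmod_eq_zero_iff_dvd, Int.cast_sub, sub_eq_zero]
        exact h u v)
    exact mul_inv_eq_one.1 (Subgroup.mem_bot.1 (hlow h1))
  let Φ : Multiplicative (AltN (p ^ a) (2 * g)) →* BrauerGroup.{u, u} K :=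
    { toFun := fun b => Q (symHom hn hζ) z (lftN (Multiplicative.toAdd b).1)
      map_one' := by
        have e1 : lftN ((Multiplicative.toAdd (1 : Multiplicative (AltN (p ^ a) (2 * g)))).1) = 0 := by
          funext u v
          change (if u < v then (((0 : ZMod (p ^ a)).val : ℕ) : ℤ) else 0) = 0
          rw [ZMod.val_zero]
          simp
        rw [e1, Q_zero]
      map_mul' := fun b b' => by
        rw [← Q_add]
        refine hcongr _ _ fun u v => ?_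
        rw [dif_lftN _ (Multiplicative.toAdd (b * b')).2]
        have e1 : dif (lftN (Multiplicative.toAdd b).1 + lftN (Multiplicative.toAdd b').1) u v =
            dif (lftN (Multiplicative.toAdd b).1) u v + dif (lftN (Multiplicative.toAdd b').1) u v := by
          simp only [dif, Matrix.of_apply, Pi.add_apply]
          ring
        rw [e1, Int.cast_add, dif_lftN _ (Multiplicative.toAdd b).2, dif_lftN _ (Multiplicative.toAdd b').2]
        rfl }
  have hΦ : ∀ b : AltN (p ^ a) (2 * g), Φ (Multiplicative.ofAdd b) = Q (symHom hn hζ) z (lftN b.1) := fun b => rfl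
  -- the range
  have hrange : S = Set.range Φ := by
    rw [hS, hset]
    apply Set.Subset.antisymm
    · intro α hα
      obtain ⟨w1, hw1⟩ := exists_Q (s := symHom hn hζ) (fun a b => symCl_anti hn hζ a b) H ⊥ hVH z α hα
      have h1 := mul_inv_eq_one.1 (Subgroup.mem_bot.1 (hlow hw1))
      refine ⟨Multiplicative.ofAdd ⟨red (p ^ a) (dif w1), (alt_dif w1).map' _⟩, ?_⟩
      rw [hΦ, h1]
      refine hcongr _ _ fun u v => ?_
      exact dif_lftN (red (p ^ a) (dif w1)) ((alt_dif w1).map' _) u v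
    · rintro _ ⟨b, rfl⟩
      change Q (symHom hn hζ) z (lftN (Multiplicative.toAdd b).1) ∈ _
      rw [Q]
      refine Subgroup.prod_mem _ fun q _ => Subgroup.zpow_mem _ (Subgroup.subset_closure ?_) _
      exact ⟨z q.1, Subgroup.mem_sup_right (Subgroup.subset_closure ⟨q.1, rfl⟩), z q.2,
        Subgroup.mem_sup_right (Subgroup.subset_closure ⟨q.2, rfl⟩), rfl⟩
  -- reduction modulo p
  let ρ : AltN (p ^ a) (2 * g) →+ AltS p (2 * g) :=
    { toFun := fun b => ⟨b.1.map (ZMod.castHom hdvd (ZMod p)), b.2.map' _⟩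
      map_zero' := by
        apply Subtype.ext
        ext u v
        exact map_zero (ZMod.castHom hdvd (ZMod p))
      map_add' := fun b b' => by
        apply Subtype.ext
        ext u v
        exact map_add (ZMod.castHom hdvd (ZMod p)) (b.1 u v) (b'.1 u v) }
  have hρ : Function.Surjective ρ := by
    intro b
    refine ⟨⟨red (p ^ a) (dif (lft b.1)), (alt_dif _).map' _⟩, ?_⟩
    apply Subtype.ext
    ext u v
    change ZMod.castHom hdvd (ZMod p) ((dif (lft b.1) u v : ℤ) : ZMod (p ^ a)) = b.1 u v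
    rw [map_intCast]
    exact dif_lft b.1 b.2 u v
  have hcount := fiber_count ρ hρ (fun b : AltS p (2 * g) => ∃ c : Fin r → ZMod p,
    (b.1 + ∑ i, c i • red p (dif (w i))).det = 0 ∧
    ¬ Iso (red p (dif (w i0))) (b.1 + ∑ i, c i • red p (dif (w i)))) x y (by convert hxy)
  refine ⟨by rw [hrange]; exact Set.finite_range Φ, ?_⟩
  refine count_hom' Φ S hrange x y (fun b => ∃ c : Fin r → ZMod p,
    ((ρ b).1 + ∑ i, c i • red p (dif (w i))).det = 0 ∧
    ¬ Iso (red p (dif (w i0))) ((ρ b).1 + ∑ i, c i • red p (dif (w i)))) _ ?_ ?_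
  · convert hcount
  · rintro b ⟨c0, hc1, hc2⟩
    have hredb : red p (dif (lftN b.1)) = (ρ b).1 := by
      ext u v
      change ((dif (lftN b.1) u v : ℤ) : ZMod p) = ZMod.castHom hdvd (ZMod p) (b.1 u v)
      rw [← dif_lftN b.1 b.2 u v, map_intCast]
    rw [← hredb] at hc1 hc2
    let c' : Fin r → ℤ := fun i => (c0 i).val
    have hc' : ∀ i, (c' i : ZMod p) = c0 i := fun i => vcast (c0 i)
    have halt' : Alt (∑ i, c' i • dif (w i)) := by
      constructor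
      · intro u
        rw [Matrix.sum_apply]
        exact Finset.sum_eq_zero fun i _ => by rw [Matrix.smul_apply, (alt_dif (w i)).1, smul_zero]
      · intro u v
        rw [Matrix.sum_apply, Matrix.sum_apply, ← Finset.sum_neg_distrib]
        exact Finset.sum_congr rfl fun i _ => by
          rw [Matrix.smul_apply, Matrix.smul_apply, (alt_dif (w i)).2 u v, smul_neg]
    have hred2 : red p (dif (lftN b.1) + ∑ i, c' i • dif (w i)) = red p (dif (lftN b.1)) +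
        ∑ i, c0 i • red p (dif (w i)) := by
      ext u v
      rw [Matrix.add_apply, Matrix.sum_apply]
      change (((dif (lftN b.1) + ∑ i, c' i • dif (w i)) u v : ℤ) : ZMod p) =
        ((dif (lftN b.1) u v : ℤ) : ZMod p) + ∑ i, c0 i * ((dif (w i) u v : ℤ) : ZMod p)
      rw [Matrix.add_apply, Matrix.sum_apply, Int.cast_add, Int.cast_sum]
      congr 1
      refine Finset.sum_congr rfl fun i _ => ?_
      rw [Matrix.smul_apply, smul_eq_mul, Int.cast_mul, hc']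
    have hz : red p (dif (lftN b.1) + ∑ i, c' i • dif (w i)) + (0 : ZMod p) • red p (dif (w i0)) =
        red p (dif (lftN b.1)) + ∑ i, c0 i • red p (dif (w i)) := by
      rw [zero_smul, add_zero, hred2]
    obtain ⟨c, e, f, hef⟩ := lift_dec p g hg (dif (lftN b.1) + ∑ i, c' i • dif (w i)) (dif (w i0))
      (Alt.add (alt_dif _) halt') (alt_dif _) hwd 0 (by rw [hz]; exact hc1) (by rw [hz]; exact hc2) a ha
    have h1 := mod_low (s := symHom hn hζ) (fun a b => symCl_anti hn hζ a b) (p ^ a)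
      (fun a b => symCl_tors hn hζ a b) (-1) H hneg (fun a => symCl_diag hn hζ a) ⊥ z
      (lftN b.1 + ((∑ i, c' i • w i) + c • w i0)) (g - 1) e f (by
        intro u v
        have h2 := hef u v
        have e2 : (lftN b.1 + ((∑ i, c' i • w i) + c • w i0)) u v - (lftN b.1 + ((∑ i, c' i • w i) + c • w i0)) v u =
            ((dif (lftN b.1) + ∑ i, c' i • dif (w i)) + c • dif (w i0)) u v := by
          simp only [dif, Matrix.of_apply, Pi.add_apply, Pi.smul_apply, smul_eq_mul, Matrix.add_apply,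
            Matrix.smul_apply, Finset.sum_apply, Matrix.sum_apply]
          have e3 : ∑ i, c' i * (w i u v - w i v u) = (∑ i, c' i * w i u v) - ∑ i, c' i * w i v u := by
            rw [← Finset.sum_sub_distrib]
            exact Finset.sum_congr rfl fun i _ => by ring
          rw [e3]
          ring
        rw [e2, Nat.cast_pow]
        exact h2)
    have h2 := mul_inv_eq_one.1 (Subgroup.mem_bot.1 (hlow h1))
    have h3 : Q (symHom hn hζ) z ((∑ i, c' i • w i) + c • w i0) = 1 := by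
      rw [Q_add, Q_comb, Q_smul, hQ, _root_.one_zpow, mul_one]
      exact Finset.prod_eq_one fun i _ => by rw [hQ, _root_.one_zpow]
    rw [Q_add, h3, mul_one] at h2
    rw [hΦ]
    refine ⟨⟨_, _, fun i => symCl hn hζ _ _, fun i => (isSym_iff hn hζ _ _ _).2 rfl, h2⟩, ?_⟩
    rw [h2]
    exact (hasRep_prod hn hζ (g - 1) _ _).indDvd

theorem two_arith (p G V s N : ℤ) (hp : 4 ≤ p) (hG : 0 ≤ G) (hV : 0 < V) (hN : 0 ≤ N)
    (h1 : p ^ 3 * (p ^ 2 - p - 1) * V ≤ (p ^ 2 - 1) ^ 2 * s)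
    (h2 : (p ^ 2 - 1) ^ 2 * N ≤ p * (p ^ 2 - 1) * (p ^ 3 + p ^ 2 - 1) * V) (h3 : s ^ 2 ≤ G * (s + N)) :
    (p - 4) * V ≤ p * G := by
  obtain ⟨t, rfl⟩ : ∃ t, p = t + 4 := ⟨p - 4, by ring⟩
  have ht : 0 ≤ t := by linarith
  have h1' : ((t + 4) ^ 3 * (t ^ 2 + 7 * t + 11)) * V ≤ (t ^ 2 + 8 * t + 15) ^ 2 * s := by
    calc _ = (t + 4) ^ 3 * ((t + 4) ^ 2 - (t + 4) - 1) * V := by ring
      _ ≤ _ := h1
      _ = _ := by ring
  have h2' : (t ^ 2 + 8 * t + 15) ^ 2 * N ≤ ((t + 4) * (t ^ 2 + 8 * t + 15) *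
      (t ^ 3 + 13 * t ^ 2 + 56 * t + 79)) * V := by
    calc _ = ((t + 4) ^ 2 - 1) ^ 2 * N := by ring
      _ ≤ _ := h2
      _ = _ := by ring
  have h4 := cs ((t ^ 2 + 8 * t + 15) ^ 2) G ((t + 4) ^ 3 * (t ^ 2 + 7 * t + 11))
    ((t + 4) * (t ^ 2 + 8 * t + 15) * (t ^ 3 + 13 * t ^ 2 + 56 * t + 79)) V s N (by positivity) hG (by positivity)
    (by positivity) hV hN h1' h2' h3
  have hEpos : 0 < (t ^ 2 + 8 * t + 15) ^ 2 * ((t + 4) ^ 3 * (t ^ 2 + 7 * t + 11) +
      (t + 4) * (t ^ 2 + 8 * t + 15) * (t ^ 3 + 13 * t ^ 2 + 56 * t + 79)) := by positivity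
  have h5 : (t ^ 2 + 8 * t + 15) ^ 2 * ((t + 4) ^ 3 * (t ^ 2 + 7 * t + 11) +
      (t + 4) * (t ^ 2 + 8 * t + 15) * (t ^ 3 + 13 * t ^ 2 + 56 * t + 79)) * ((t + 4 - 4) * V) ≤
      (t ^ 2 + 8 * t + 15) ^ 2 * ((t + 4) ^ 3 * (t ^ 2 + 7 * t + 11) +
      (t + 4) * (t ^ 2 + 8 * t + 15) * (t ^ 3 + 13 * t ^ 2 + 56 * t + 79)) * ((t + 4) * G) := by
    have e2 : (t ^ 2 + 8 * t + 15) ^ 2 * ((t + 4) ^ 3 * (t ^ 2 + 7 * t + 11) +
        (t + 4) * (t ^ 2 + 8 * t + 15) * (t ^ 3 + 13 * t ^ 2 + 56 * t + 79)) * (t + 4 - 4) ≤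
        (t + 4) * ((t + 4) ^ 3 * (t ^ 2 + 7 * t + 11)) ^ 2 := by
      have e3 : (t + 4) * ((t + 4) ^ 3 * (t ^ 2 + 7 * t + 11)) ^ 2 =
          (t ^ 2 + 8 * t + 15) ^ 2 * ((t + 4) ^ 3 * (t ^ 2 + 7 * t + 11) +
          (t + 4) * (t ^ 2 + 8 * t + 15) * (t ^ 3 + 13 * t ^ 2 + 56 * t + 79)) * (t + 4 - 4) +
          (t + 4) * (11 * t ^ 8 + 345 * t ^ 7 + 4700 * t ^ 6 + 36315 * t ^ 5 + 174018 * t ^ 4 + 529469 * t ^ 3 + 998792 * t ^ 2 + 1067983 * t + 495616) := by ring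
      rw [e3]
      have : 0 ≤ (t + 4) * (11 * t ^ 8 + 345 * t ^ 7 + 4700 * t ^ 6 + 36315 * t ^ 5 + 174018 * t ^ 4 + 529469 * t ^ 3 + 998792 * t ^ 2 + 1067983 * t + 495616) := by positivity
      linarith
    calc _ = ((t ^ 2 + 8 * t + 15) ^ 2 * ((t + 4) ^ 3 * (t ^ 2 + 7 * t + 11) +
          (t + 4) * (t ^ 2 + 8 * t + 15) * (t ^ 3 + 13 * t ^ 2 + 56 * t + 79)) * (t + 4 - 4)) * V := by ring
      _ ≤ ((t + 4) * ((t + 4) ^ 3 * (t ^ 2 + 7 * t + 11)) ^ 2) * V := mul_le_mul_of_nonneg_right e2 hV.le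
      _ = (t + 4) * (((t + 4) ^ 3 * (t ^ 2 + 7 * t + 11)) ^ 2 * V) := by ring
      _ ≤ (t + 4) * ((t ^ 2 + 8 * t + 15) ^ 2 * G * ((t + 4) ^ 3 * (t ^ 2 + 7 * t + 11) +
          (t + 4) * (t ^ 2 + 8 * t + 15) * (t ^ 3 + 13 * t ^ 2 + 56 * t + 79))) :=
        mul_le_mul_of_nonneg_left h4 (by linarith)
      _ = _ := by ring
  exact le_of_mul_le_mul_left h5 hEpos

open Classical in
/-- **Two directions.** -/
theorem count_two {p : ℕ} [hp : Fact p.Prime] (g : ℕ) (hg : 0 < g) (ω : Fin 2 → AltS p (2 * g)) (i0 : Fin 2)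
    (hdet : (ω i0).1.det ≠ 0) (hω : ∀ c : Fin 2 → ZMod p, ∑ i, c i • (ω i).1 = 0 → c = 0) :
    (p - 4) * Fintype.card (AltS p (2 * g)) ≤ p * (Finset.univ.filter fun b : AltS p (2 * g) =>
      ∃ c : Fin 2 → ZMod p, (b.1 + ∑ i, c i • (ω i).1).det = 0 ∧
        ¬ Iso (ω i0).1 (b.1 + ∑ i, c i • (ω i).1)).card := by
  rcases Nat.lt_or_ge p 4 with hp4 | hp4
  · rw [Nat.sub_eq_zero_of_le hp4.le, zero_mul]
    exact Nat.zero_le _
  obtain ⟨k, rfl⟩ : ∃ k, g = k + 1 := ⟨g - 1, by omega⟩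
  have halt : ∀ c : Fin 2 → ZMod p, Alt (∑ i, c i • (ω i).1) := by
    intro c
    have h1 : (∑ i, c i • (ω i).1) ∈ AltS p (2 * (k + 1)) :=
      AddSubgroup.sum_mem _ fun i _ => (Alt.smul (ω i).2 (c i) : Alt (c i • (ω i).1))
    exact h1
  let T : (Fin 2 → ZMod p) → AltS p (2 * (k + 1)) := fun c => ⟨∑ i, c i • (ω i).1, halt c⟩
  have hT : Function.Injective T := by
    intro c c' h
    have h1 : ∑ i, c i • (ω i).1 = ∑ i, c' i • (ω i).1 := congrArg Subtype.val h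
    have h2 := hω (c - c') (by
      simp only [Pi.sub_apply, sub_smul, Finset.sum_sub_distrib]
      rw [h1, sub_self])
    exact sub_eq_zero.1 h2
  have hcard : Fintype.card (Fin 2 → ZMod p) = p ^ 2 := by rw [Fintype.card_fun, ZMod.card, Fintype.card_fin]
  let Q : AltS p (2 * (k + 1)) → Prop := fun b => b.1.det = 0 ∧ ¬ Iso (ω i0).1 b.1
  have b6 := simple_card k (ω i0) hdet
  set V := Fintype.card (AltS p (2 * (k + 1))) with hV
  have hVpos : 0 < V := Fintype.card_pos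
  set D := (Finset.univ.filter fun b : AltS p (2 * (k + 1)) => b.1.det = 0 ∧ ¬ Iso (ω i0).1 b.1).card with hD
  have hpos : 0 < p * ((p ^ 2 - 1) * (p ^ 2 - 1)) := by
    have h1 : 1 < p ^ 2 := Nat.one_lt_pow two_ne_zero hp.out.one_lt
    exact Nat.mul_pos hp.out.pos (Nat.mul_pos (by omega) (by omega))
  let J : ℕ := (p ^ 3 + p ^ 2 - 1) * V / (p * ((p ^ 2 - 1) * (p ^ 2 - 1)))
  have a4 : p * ((p ^ 2 - 1) * (p ^ 2 - 1)) * J ≤ (p ^ 3 + p ^ 2 - 1) * V := Nat.mul_div_le _ _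
  have a5 : (p ^ 2 * D) ^ 2 ≤ (Finset.univ.filter fun b : AltS p (2 * (k + 1)) =>
      ∃ c : Fin 2 → ZMod p, (b.1 + ∑ i, c i • (ω i).1).det = 0 ∧
        ¬ Iso (ω i0).1 (b.1 + ∑ i, c i • (ω i).1)).card * (p ^ 2 * D + p ^ 2 * ((p ^ 2 - 1) * J)) := by
    have h := moment (κ := Fin 2 → ZMod p) k T Q (fun b hb => hb.1) J (by
      intro c c' hc
      rw [Nat.le_div_iff_mul_le hpos]
      calc _ = p * ((p ^ 2 - 1) * (p ^ 2 - 1) * (Finset.univ.filter fun b : AltS p (2 * (k + 1)) =>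
            (b.1 + (T c).1).det = 0 ∧ (b.1 + (T c').1).det = 0).card) := by ring
        _ ≤ _ := J_gen k (T c) (T c') (fun h => hc (hT h)))
    rw [hcard] at h
    convert h <;> rfl
  set G := (Finset.univ.filter fun b : AltS p (2 * (k + 1)) =>
      ∃ c : Fin 2 → ZMod p, (b.1 + ∑ i, c i • (ω i).1).det = 0 ∧
        ¬ Iso (ω i0).1 (b.1 + ∑ i, c i • (ω i).1)).card with hG
  clear_value V D J G
  have hp2 := hp.out.two_le
  have hpZ : (4 : ℤ) ≤ (p : ℤ) := by exact_mod_cast hp4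
  have c1 : ((p ^ 2 - 1 : ℕ) : ℤ) = (p : ℤ) ^ 2 - 1 := by
    rw [Nat.cast_sub (Nat.one_le_pow _ _ hp.out.pos)]
    push_cast
    ring
  have c5 : ((p ^ 3 + p ^ 2 - 1 : ℕ) : ℤ) = (p : ℤ) ^ 3 + (p : ℤ) ^ 2 - 1 := by
    rw [Nat.cast_sub (le_add_left (Nat.one_le_pow _ _ hp.out.pos))]
    push_cast
    ring
  have b4 : (p : ℤ) * (((p : ℤ) ^ 2 - 1) * ((p : ℤ) ^ 2 - 1)) * J ≤ ((p : ℤ) ^ 3 + (p : ℤ) ^ 2 - 1) * V := by
    rw [← c1, ← c5]
    exact_mod_cast a4
  have b5 : ((p : ℤ) ^ 2 * D) ^ 2 ≤ G * ((p : ℤ) ^ 2 * D + (p : ℤ) ^ 2 * (((p : ℤ) ^ 2 - 1) * J)) := by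
    rw [← c1]
    exact_mod_cast a5
  have hVZ : (0 : ℤ) < V := by exact_mod_cast hVpos
  have hp21 : (0 : ℤ) ≤ (p : ℤ) ^ 2 - 1 := by nlinarith
  have hN : (0 : ℤ) ≤ (p : ℤ) ^ 2 * (((p : ℤ) ^ 2 - 1) * J) :=
    mul_nonneg (sq_nonneg _) (mul_nonneg hp21 (Int.natCast_nonneg _))
  have b6' : (p : ℤ) ^ 3 * ((p : ℤ) ^ 2 - p - 1) * V ≤ ((p : ℤ) ^ 2 - 1) ^ 2 * ((p : ℤ) ^ 2 * D) := by
    calc _ = (p : ℤ) ^ 2 * ((p : ℤ) * ((p : ℤ) ^ 2 - p - 1) * V) := by ring
      _ ≤ (p : ℤ) ^ 2 * (((p : ℤ) ^ 2 - 1) ^ 2 * D) := mul_le_mul_of_nonneg_left b6 (sq_nonneg _)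
      _ = _ := by ring
  have b7 : ((p : ℤ) ^ 2 - 1) ^ 2 * ((p : ℤ) ^ 2 * (((p : ℤ) ^ 2 - 1) * J)) ≤
      (p : ℤ) * ((p : ℤ) ^ 2 - 1) * ((p : ℤ) ^ 3 + (p : ℤ) ^ 2 - 1) * V := by
    calc _ = ((p : ℤ) * ((p : ℤ) ^ 2 - 1)) * ((p : ℤ) * (((p : ℤ) ^ 2 - 1) * ((p : ℤ) ^ 2 - 1)) * J) := by ring
      _ ≤ ((p : ℤ) * ((p : ℤ) ^ 2 - 1)) * (((p : ℤ) ^ 3 + (p : ℤ) ^ 2 - 1) * V) :=
        mul_le_mul_of_nonneg_left b4 (mul_nonneg (by linarith) hp21)
      _ = _ := by ring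
  have h6 := two_arith p G V ((p : ℤ) ^ 2 * D) _ hpZ (Int.natCast_nonneg _) hVZ hN b6' b7 b5
  have c4 : ((p - 4 : ℕ) : ℤ) = (p : ℤ) - 4 := by
    rw [Nat.cast_sub hp4]
    push_cast
    ring
  have h7 : (((p - 4) * V : ℕ) : ℤ) ≤ ((p * G : ℕ) : ℤ) := by
    rw [Nat.cast_mul, c4]
    push_cast
    exact h6
  exact_mod_cast h7

/-- **The bounds.** -/
theorem main {k K : Type u} [Field k] [IsAlgClosed k] [Field K] [Algebra k K] (p a : ℕ) [hp : Fact p.Prime]
    (ha : 0 < a) (ζ : K) (hζ : IsPrimitiveRoot ζ (p ^ a)) (g : ℕ) (hg : 0 < g) (z : Fin (2 * g) → Kˣ)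
    (θ : Fin (2 * g) → Fin (2 * g) → BrauerGroup.{u, u} K) (hθ : ∀ u v, IsSym (p ^ a) ζ (z u) (z v) (θ u v))
    (r : ℕ) (w : Fin r → Fin (2 * g) → Fin (2 * g) → ℤ) (hrel0 : ∀ i, ∏ u, ∏ v, θ u v ^ w i u v = 1) (i0 : Fin r)
    (hw : ¬ (p : ℤ) ∣ (Matrix.of fun u v => w i0 u v - w i0 v u : Matrix (Fin (2 * g)) (Fin (2 * g)) ℤ).det)
    (G : Subgroup Kˣ) (hG : G = Subgroup.closure (Set.range (Units.map (algebraMap k K).toMonoidHom) ∪ Set.range z))
    (S : Set (BrauerGroup.{u, u} K))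
    (hS : S = Subgroup.closure {γ | ∃ a' ∈ G, ∃ b ∈ G, IsSym (p ^ a) ζ a' b γ}) (P : Set (BrauerGroup.{u, u} K))
    (hP : P = {α | α ∈ S ∧ ((∃ (s t : Fin (g - 1) → Kˣ) (σ : Fin (g - 1) → BrauerGroup.{u, u} K),
      (∀ i, IsSym (p ^ a) ζ (s i) (t i) (σ i)) ∧ α = ∏ i, σ i) ∧ IndDvd α ((p ^ a) ^ (g - 1)))}) :
    S.Finite ∧ (p = 2 → 2 * S.ncard ≤ 9 * P.ncard) ∧ (p = 3 → 3 * S.ncard ≤ 10 * P.ncard) ∧
      (5 ≤ p → (p - 1) * S.ncard ≤ 2 * p * P.ncard) ∧
      (r = 2 → (∀ c : Fin r → ℤ, (∀ u v, (p : ℤ) ∣ ∑ i, c i * (w i u v - w i v u)) → ∀ i, (p : ℤ) ∣ c i) →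
        (p - 4) * S.ncard ≤ p * P.ncard) := by
  classical
  haveI : NeZero p := ⟨hp.out.ne_zero⟩
  subst hP
  let ω : Fin r → AltS p (2 * g) := fun i => ⟨red p (dif (w i)), (alt_dif (w i)).map' _⟩
  have hdet : (ω i0).1.det ≠ 0 := by
    change (red p (dif (w i0))).det ≠ 0
    rw [← red_det]
    exact fun h => hw ((ZMod.intCast_zmod_eq_zero_iff_dvd _ _).1 h)
  have hwd : (dif (w i0)).det ≠ 0 := fun h => hw (by
    change (p : ℤ) ∣ (dif (w i0)).det
    rw [h]; exact dvd_zero _)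
  have hall := core p a ha ζ hζ g hg z θ hθ r w i0 hwd hrel0 G hG S hS
  have hsub : (Finset.univ.filter fun b : AltS p (2 * g) => ∃ c : ZMod p, (b.1 + c • (ω i0).1).det = 0 ∧
      ¬ Iso (ω i0).1 (b.1 + c • (ω i0).1)).card ≤
      (Finset.univ.filter fun b : AltS p (2 * g) => ∃ c : Fin r → ZMod p,
        (b.1 + ∑ i, c i • red p (dif (w i))).det = 0 ∧
        ¬ Iso (red p (dif (w i0))) (b.1 + ∑ i, c i • red p (dif (w i)))).card := by
    refine Finset.card_le_card fun b hb => ?_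
    rw [Finset.mem_filter] at hb ⊢
    obtain ⟨-, c, hc1, hc2⟩ := hb
    have h1 : ∑ i, (Pi.single i0 c : Fin r → ZMod p) i • red p (dif (w i)) = c • red p (dif (w i0)) := by
      rw [Finset.sum_eq_single i0]
      · rw [Pi.single_eq_same]
      · intro j _ hj
        rw [Pi.single_eq_of_ne hj, zero_smul]
      · intro h
        exact absurd (Finset.mem_univ _) h
    refine ⟨Finset.mem_univ _, Pi.single i0 c, ?_, ?_⟩
    · rw [h1]; exact hc1
    · rw [h1]; exact hc2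
  obtain ⟨h2, h3, h5⟩ := count_simple g hg (ω i0) hdet
  refine ⟨(hall 0 0 (by rw [zero_mul]; exact Nat.zero_le _)).1, fun h => ?_, fun h => ?_, fun h => ?_,
    fun hr hind => ?_⟩
  · have h6 := (h2 h).trans (Nat.mul_le_mul_left _ hsub)
    refine (hall _ _ ?_).2
    convert h6
  · have h6 := (h3 h).trans (Nat.mul_le_mul_left _ hsub)
    refine (hall _ _ ?_).2
    convert h6
  · have h6 := (h5 h).trans (Nat.mul_le_mul_left _ hsub)
    refine (hall _ _ ?_).2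
    convert h6
  · subst hr
    have hω : ∀ c : Fin 2 → ZMod p, ∑ i, c i • (ω i).1 = 0 → c = 0 := by
      intro c hc
      funext i
      have h1 := hind (fun i => ((c i).val : ℤ)) (by
        intro u v
        have h3 := congrFun (congrFun hc u) v
        rw [Matrix.sum_apply] at h3
        rw [← ZMod.intCast_zmod_eq_zero_iff_dvd, Int.cast_sum]
        refine Eq.trans (Finset.sum_congr rfl fun j _ => ?_) h3
        rw [Int.cast_mul, vcast]
        rfl) i
      rw [Pi.zero_apply, ← vcast (c i)]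
      exact (ZMod.intCast_zmod_eq_zero_iff_dvd _ _).2 h1
    have h6 := count_two g hg ω i0 hdet hω
    refine (hall _ _ ?_).2
    convert h6

end Run7.h438.PG
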