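import Mathlib
import Pool.Agent.W275.FML.TMul
import Pool.Agent.W667.FML.TAdd
import Pool.Agent.H901R3.MS.P_R1
import Pool.Agent.H901R3.MS.P_R2
import Pool.Agent.H901R3.MS.P_R3
import Pool.Agent.H901R3.MS.P_R4
import Pool.Agent.H901R3.MS.P_R5
import Pool.Agent.H901R3.MS.P_R6
import Pool.Agent.H901R3.MS.P_PL

/-!
# Rational torsion of curves whose reduction modulo 3 is `y² = x³ - x`
-/

set_option autoImplicit false

namespace Run7.h438.TT

open WeierstrassCurve Pool.Agent.H901R3.MS Pool.Agent.W275.FML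

theorem tadd : S_TADD := Pool.Agent.W667.FML.TAdd.main
theorem tmul : S_TMUL := Pool.Agent.W275.FML.TMul.main tadd

/-- three is a uniformizer at the place three of the rationals -/
theorem div_three (v : Place ℚ (ZMod 3)) {x : ℚ} (hx : x ∈ v.A) (h0 : v.r x = 0) :
    x / 3 ∈ v.A := by
  have hq : ((x.den : ℤ) : ZMod 3) ≠ 0 := by
    intro hq
    have e : x * ((x.den : ℤ) : ℚ) = ((x.num : ℤ) : ℚ) := by
      push_cast
      exact Rat.mul_den_eq_num x
    have h1 : ((x.num : ℤ) : ZMod 3) = 0 := by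
      rw [← v.r_int x.num, ← e, v.r_mul hx (v.int_mem _), v.r_int, hq, mul_zero]
    have h2 : (3 : ℤ) ∣ x.num := (ZMod.intCast_zmod_eq_zero_iff_dvd x.num 3).1 h1
    have h3 : (3 : ℤ) ∣ (x.den : ℤ) := (ZMod.intCast_zmod_eq_zero_iff_dvd _ 3).1 hq
    have h4 : (3 : ℕ) ∣ x.num.natAbs := Int.natCast_dvd.1 h2
    have h5 : (3 : ℕ) ∣ x.den := Int.natCast_dvd_natCast.1 h3
    have h6 := Nat.dvd_gcd h4 h5
    rw [x.reduced.gcd_eq_one] at h6
    omega
  have hrq : v.r ((x.den : ℤ) : ℚ) ≠ 0 := by rw [v.r_int]; exact hq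
  have hx' : x = ((x.num : ℤ) : ℚ) / ((x.den : ℤ) : ℚ) := by
    push_cast
    exact (Rat.num_div_den x).symm
  have h1 : ((x.num : ℤ) : ZMod 3) = 0 := by
    rw [hx', v.r_div (v.int_mem _) hrq, v.r_int, v.r_int, div_eq_zero_iff] at h0
    exact h0.resolve_right hq
  obtain ⟨m, hm⟩ := (ZMod.intCast_zmod_eq_zero_iff_dvd x.num 3).1 h1
  have e : x / 3 = ((m : ℤ) : ℚ) / ((x.den : ℤ) : ℚ) := by
    have hd : ((x.den : ℤ) : ℚ) ≠ 0 := by
      intro h
      rw [h, v.r_zero] at hrq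
      exact hrq rfl
    rw [div_eq_div_iff (by norm_num) hd]
    have e1 : x * ((x.den : ℤ) : ℚ) = ((x.num : ℤ) : ℚ) := by
      push_cast
      exact Rat.mul_den_eq_num x
    rw [e1, hm]
    push_cast
    ring
  rw [e]
  exact v.div_mem (v.int_mem _) hrq

/-- there is no torsion in the kernel of the reduction modulo three -/
theorem E1_tors {a b : ℤ} (v : Place ℚ (ZMod 3)) {P : Pt (a : ℚ) (b : ℚ)} (hP : E1 v P) {n : ℕ}
    (hn : n ≠ 0) (h : n • P = 0) : P = 0 := by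
  by_contra hP0
  have h2k : (2 : ZMod 3) ≠ 0 := by decide
  have hfin : IsOfFinAddOrder P := isOfFinAddOrder_iff_nsmul_eq_zero.2 ⟨n, Nat.pos_of_ne_zero hn, h⟩
  have hm0 : 0 < addOrderOf P := hfin.addOrderOf_pos
  have hm1 : addOrderOf P ≠ 1 := by
    intro h1
    exact hP0 (AddMonoid.addOrderOf_eq_one_iff.1 h1)
  obtain ⟨l, hl, hlm⟩ := Nat.exists_prime_and_dvd hm1
  obtain ⟨j, hj⟩ := hlm
  have hj0 : j ≠ 0 := by
    rintro rfl
    rw [mul_zero] at hj
    omega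
  obtain ⟨t1, t2⟩ := tmul ℚ (ZMod 3) v a b h2k P hP
  obtain ⟨hE, -⟩ := t1 j
  have hQ0 : j • P ≠ 0 := by
    intro h0
    have := addOrderOf_dvd_of_nsmul_eq_zero h0
    rw [hj] at this
    have h3 := Nat.le_of_dvd (Nat.pos_of_ne_zero hj0) this
    have h4 := hl.two_le
    nlinarith [Nat.pos_of_ne_zero hj0]
  have hlQ : l • (j • P) = 0 := by
    rw [← mul_nsmul', mul_comm, ← Nat.mul_comm, ← hj]
    exact addOrderOf_nsmul_eq_zero P
  obtain ⟨-, t3⟩ := tmul ℚ (ZMod 3) v a b h2k (j • P) hE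
  have h5 := t3 l (by exact_mod_cast hl.ne_zero) hQ0 hlQ
  obtain ⟨u1, u2, -⟩ := (tadd ℚ (ZMod 3) v a b h2k).1 (j • P) hE
  apply h5
  by_cases h3 : l = 3
  · rw [h3]
    exact_mod_cast div_three v u1 u2
  · apply v.div_mem u1
    rw [v.r_nat]
    intro h0
    have := (ZMod.natCast_eq_zero_iff l 3).1 h0
    exact h3 ((Nat.prime_dvd_prime_iff_eq (by norm_num) hl).1 this).symm

/-- the points of `y² = x³ - x` over the field with three elements have order at most two -/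
theorem two_red {a b : ℤ} (ha : (a : ZMod 3) = -1) (hb : (b : ZMod 3) = 0)
    (R : Pt (a : ZMod 3) (b : ZMod 3)) : R + R = 0 := by
  rcases R with _ | ⟨x, y, h⟩
  · exact add_zero (0 : Pt (a : ZMod 3) (b : ZMod 3))
  · have he := eqn_of h
    unfold Eqn at he
    rw [ha, hb] at he
    have key : ∀ x y : ZMod 3, y ^ 2 = x ^ 3 + -1 * x + 0 → y = 0 := by decide
    have hy : y = 0 := key x y he
    exact add_opp h h rfl (by rw [hy, neg_zero])

/-- the rational torsion is killed by two -/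
theorem two_tors {a b : ℤ} (ha : (a : ZMod 3) = -1) (hb : (b : ZMod 3) = 0)
    {P : Pt (a : ℚ) (b : ℚ)} {n : ℕ} (hn : n ≠ 0) (h : n • P = 0) : P + P = 0 := by
  obtain ⟨v⟩ := t_PL 3
  have hD : Disc (a : ZMod 3) (b : ZMod 3) := by
    unfold Disc
    rw [ha, hb]
    have key : (2 : ZMod 3) * (4 * (-1) ^ 3 + 27 * 0 ^ 2) ≠ 0 := by decide
    exact key
  obtain ⟨red, hred⟩ := t_R6 t_R1 t_R2 t_R3 t_R4 t_R5 ℚ (ZMod 3) v a b hD
  obtain ⟨r1, r2, r3⟩ := hred
  have h0 : red (P + P) = 0 := by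
    rw [map_add]
    exact two_red ha hb _
  have hE : E1 v (P + P) := by
    intro x y hxy he hx
    obtain ⟨-, g, hg⟩ := r3 x y hxy hx
    rw [he, hg] at h0
    exact Affine.Point.some_ne_zero g h0
  apply E1_tors v hE hn
  rw [nsmul_add, h, add_zero]

end Run7.h438.TT
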