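import Mathlib
import Pool.Agent.Run7.h69.UA9
import Pool.Agent.Run7.h438.TT1

/-!
# The curves with torsion group exactly `Z/2 x Z/2`, by height
-/

set_option autoImplicit false

namespace Run7.h438.TT

open Finset Filter WeierstrassCurve Pool.Agent.W307.RT

/-- the torsion group is `Z/2 x Z/2` -/
def ExactT (W : WeierstrassCurve ℚ) : Prop :=
  Nonempty (AddCommGroup.torsion W.toAffine.Point ≃+ ZMod 2 × ZMod 2)

/-- curves with torsion group `Z/2 x Z/2` have a subgroup of this kind -/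
theorem hasT_of_exact {W : WeierstrassCurve ℚ} (h : ExactT W) : HasT 2 W := by
  obtain ⟨e⟩ := h
  apply tors_iff.2
  refine ⟨(AddCommGroup.torsion W.toAffine.Point).subtype.comp e.symm.toAddMonoidHom, ?_⟩
  intro x y hxy
  exact e.symm.injective (Subtype.ext hxy)

open Classical in
/-- the abscissa -/
noncomputable def gx {W : WeierstrassCurve ℚ} : W.toAffine.Point → Option ℚ
  | Affine.Point.zero => none
  | Affine.Point.some x _ _ => some x

theorem exact_of {A B : ℤ} (hT : HasT 2 (Sh A B))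
    (h2 : ∀ P : (Sh A B).toAffine.Point, ∀ n : ℕ, n ≠ 0 → n • P = 0 → P + P = 0) :
    ExactT (Sh A B) := by
  classical
  obtain ⟨E1, E2, hne, hA, hB⟩ := Run7.h69.UH.core hT
  obtain ⟨f, hf⟩ := tors_iff.1 hT
  -- the points of order at most two
  set S : Set (Sh A B).toAffine.Point := {P | P + P = 0} with hS
  have hy : ∀ (x y : ℚ) (h : (Sh A B).toAffine.Nonsingular x y),
      (Affine.Point.some x y h : (Sh A B).toAffine.Point) ∈ S →
        y = 0 ∧ (x = E1 ∨ x = E2 ∨ x = -(E1 : ℚ) - E2) := by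
    intro x y h hP
    have h1 : (Affine.Point.some x y h : (Sh A B).toAffine.Point) = -Affine.Point.some x y h :=
      eq_neg_of_add_eq_zero_left hP
    rw [Affine.Point.neg_some, Affine.Point.some.injEq] at h1
    have h3 : y = -y := by
      have := h1.2
      simp only [Affine.negY, Sh] at this
      linarith
    have hy0 : y = 0 := by linarith
    refine ⟨hy0, ?_⟩
    have h4 : Pool.Agent.H901R3.MS.Eqn (A : ℚ) (B : ℚ) x y :=
      Pool.Agent.H901R3.MS.eqn_of (a := (A : ℚ)) (b := (B : ℚ)) h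
    unfold Pool.Agent.H901R3.MS.Eqn at h4
    rw [hy0, hA, hB] at h4
    push_cast at h4
    have h5 : (x - E1) * ((x - E2) * (x - (-(E1 : ℚ) - E2))) = 0 := by linear_combination -h4
    rcases mul_eq_zero.1 h5 with h | h
    · exact Or.inl (by linarith)
    · rcases mul_eq_zero.1 h with h | h
      · exact Or.inr (Or.inl (by linarith))
      · exact Or.inr (Or.inr (by linarith))
  set T : Finset (Option ℚ) := {none, some (E1 : ℚ), some (E2 : ℚ), some (-(E1 : ℚ) - E2)} with hTd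
  have hmaps : ∀ P ∈ S, gx P ∈ (T : Set (Option ℚ)) := by
    intro P hP
    rcases P with _ | ⟨x, y, h⟩
    · simp [gx, hTd]
    · obtain ⟨-, h6⟩ := hy x y h hP
      rcases h6 with h6 | h6 | h6 <;> simp [gx, hTd, h6]
  have hinj : Set.InjOn (gx (W := Sh A B)) S := by
    intro P hP Q hQ h
    rcases P with _ | ⟨x, y, hxy⟩
    · rcases Q with _ | ⟨x', y', hxy'⟩
      · rfl
      · simp [gx] at h
    · rcases Q with _ | ⟨x', y', hxy'⟩
      · simp [gx] at h
      · have h7 := (hy x y hxy hP).1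
        have h8 := (hy x' y' hxy' hQ).1
        have h9 : x = x' := by simpa [gx] using h
        subst h9
        subst h7
        subst h8
        rfl
  have hfinT : (T : Set (Option ℚ)).Finite := T.finite_toSet
  have hSfin : S.Finite := Set.Finite.of_finite_image (hfinT.subset (by
    rintro _ ⟨P, hP, rfl⟩
    exact hmaps P hP)) hinj
  have hcard : S.ncard ≤ 4 := by
    have h1 : S.ncard ≤ (T : Set (Option ℚ)).ncard :=
      Set.ncard_le_ncard_of_injOn gx hmaps hinj hfinT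
    rw [Set.ncard_coe_finset] at h1
    have h3 : T.card ≤ 4 := by
      rw [hTd]
      exact Finset.card_le_four
    omega
  have hsub : Set.range f ⊆ S := by
    rintro _ ⟨x, rfl⟩
    change f x + f x = 0
    rw [← map_add]
    have : x + x = 0 := by
      revert x
      decide
    rw [this, map_zero]
  have hrange : (Set.range f).ncard = 4 := by
    rw [← Set.image_univ, Set.ncard_image_of_injective _ hf, Set.ncard_univ, Nat.card_eq_fintype_card]
    rfl
  have heq : Set.range f = S := Set.eq_of_subset_of_ncard_le hsub (by omega) hSfin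
  have htor : ∀ x, f x ∈ AddCommGroup.torsion (Sh A B).toAffine.Point := by
    intro x
    have h1 : f x ∈ S := hsub ⟨x, rfl⟩
    change IsOfFinAddOrder (f x)
    rw [isOfFinAddOrder_iff_nsmul_eq_zero]
    exact ⟨2, by norm_num, by rw [two_nsmul]; exact h1⟩
  refine ⟨(AddEquiv.ofBijective (f.codRestrict _ htor) ⟨?_, ?_⟩).symm⟩
  · intro x y hxy
    apply hf
    exact congrArg Subtype.val hxy
  · rintro ⟨P, hP⟩
    have h1 : IsOfFinAddOrder P := hP
    rw [isOfFinAddOrder_iff_nsmul_eq_zero] at h1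
    obtain ⟨n, hn, hnP⟩ := h1
    have h3 : P ∈ Set.range f := by
      rw [heq]
      exact h2 P n (by omega) hnP
    obtain ⟨x, hx⟩ := h3
    exact ⟨x, Subtype.ext hx⟩

/-- curves congruent to `y² = x³ - x` modulo three -/
theorem exact_of_mod {A B : ℤ} (hT : HasT 2 (Sh A B)) (ha : (A : ZMod 3) = -1)
    (hb : (B : ZMod 3) = 0) : ExactT (Sh A B) :=
  exact_of hT fun P _ hn h => two_tors (a := A) (b := B) ha hb (P := P) hn h

open Classical in
/-- the curves with torsion group `Z/2 x Z/2` -/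
noncomputable def Ex (H : ℕ) : Finset (ℤ × ℤ) := (Cv 2 H).filter (fun c => ExactT (Sh c.1 c.2))

/-- a partner with first entry divisible by three -/
def pr (t : ℕ × ℕ) : ℕ × ℕ := (3 * t.1, if 3 ∣ t.2 then t.2 + t.1 else t.2)

theorem pr_spec {a b : ℕ} (hb : 1 ≤ b) (hab : b < a) (hc : a.Coprime b) :
    1 ≤ (pr (a, b)).2 ∧ (pr (a, b)).2 < (pr (a, b)).1 ∧ (pr (a, b)).1.Coprime (pr (a, b)).2 ∧
      ¬ 3 ∣ (pr (a, b)).2 := by
  unfold pr
  simp only
  split_ifs with h
  · have h3 : ¬ 3 ∣ a := by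
      intro h3
      have := Nat.dvd_gcd h3 h
      rw [hc.gcd_eq_one] at this
      omega
    have h4 : ¬ 3 ∣ b + a := fun h5 => h3 ((Nat.dvd_add_right h).1 h5)
    refine ⟨by omega, by omega, ?_, h4⟩
    apply Nat.Coprime.mul_left
    · exact (Nat.Prime.coprime_iff_not_dvd (by norm_num)).2 h4
    · rw [Nat.coprime_add_self_right]
      exact hc
  · refine ⟨hb, by omega, ?_, h⟩
    apply Nat.Coprime.mul_left
    · exact (Nat.Prime.coprime_iff_not_dvd (by norm_num)).2 h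
    · exact hc

theorem pr_inj {a b a' b' : ℕ} (hb : 1 ≤ b) (hab : b < a) (hb' : 1 ≤ b') (hab' : b' < a')
    (h1 : (pr (a, b)).1 = (pr (a', b')).1) (h2 : (pr (a, b)).2 = (pr (a', b')).2) :
    a = a' ∧ b = b' := by
  unfold pr at h1 h2
  simp only at h1 h2
  have h3 : a = a' := by omega
  subst h3
  refine ⟨rfl, ?_⟩
  split_ifs at h2 <;> omega

theorem mem_ex {T H a b : ℕ} (hb : 1 ≤ b) (hab : b < a) (haT : a ≤ T) (hc : a.Coprime b)
    (hH : 108 * (3 * T) ^ 6 ≤ H) : Run7.h69.UH.cf (pr (a, b)) ∈ Ex H := by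
  classical
  obtain ⟨h1, h2, h3, h4⟩ := pr_spec hb hab hc
  have hT3 : (pr (a, b)).1 ≤ 3 * T := by
    unfold pr
    simp only
    omega
  have hm := Run7.h69.UH.mem_cv (T := 3 * T) (H := H) h1 h2 hT3 h3 hH
  unfold Ex
  rw [mem_filter]
  refine ⟨hm, ?_⟩
  have hT2 : HasT 2 (Sh (Run7.h69.UH.cf (pr (a, b))).1 (Run7.h69.UH.cf (pr (a, b))).2) := by
    unfold Cv at hm
    rw [mem_filter] at hm
    exact hm.2.2.2.2.2
  have e1 : (((pr (a, b)).1 : ℕ) : ZMod 3) = 0 := by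
    unfold pr
    push_cast
    have : (3 : ZMod 3) = 0 := by decide
    rw [this, zero_mul]
  have e2 : (((pr (a, b)).2 : ℕ) : ZMod 3) ^ 2 = 1 := by
    have h5 : (((pr (a, b)).2 : ℕ) : ZMod 3) ≠ 0 := by
      intro h0
      exact h4 ((ZMod.natCast_eq_zero_iff _ 3).1 h0)
    revert h5
    generalize (((pr (a, b)).2 : ℕ) : ZMod 3) = z
    revert z
    decide
  apply exact_of_mod hT2
  · unfold Run7.h69.UH.cf
    push_cast
    rw [e1, e2]
    ring
  · unfold Run7.h69.UH.cf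
    push_cast
    rw [e1]
    ring

theorem low : ∀ T H : ℕ, 5 ≤ T → 108 * (3 * T) ^ 6 ≤ H →
    (1 / 24 : ℝ) * T ^ 2 ≤ ((Ex H).card : ℝ) := by
  intro T H hT hH
  have h1 : (Pool.Agent.W29.RT.SS T).card ≤ (Ex H).card := by
    apply card_le_card_of_injOn (fun t => Run7.h69.UH.cf (pr (t.1, t.2)))
    · intro t ht
      have ht' : t ∈ Pool.Agent.W29.RT.SS T := ht
      unfold Pool.Agent.W29.RT.SS at ht'
      rw [mem_sigma, mem_Icc, mem_filter, mem_range] at ht'
      obtain ⟨⟨k1, k2⟩, k3, k4⟩ := ht'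
      have hb : 1 ≤ t.2 := by
        rcases Nat.eq_zero_or_pos t.2 with h | h
        · rw [h, Nat.coprime_zero_right] at k4; omega
        · exact h
      exact mem_ex hb k3 k2 k4 hH
    · intro t ht t' ht' h
      have ht1 : t ∈ Pool.Agent.W29.RT.SS T := ht
      have ht1' : t' ∈ Pool.Agent.W29.RT.SS T := ht'
      unfold Pool.Agent.W29.RT.SS at ht1 ht1'
      rw [mem_sigma, mem_Icc, mem_filter, mem_range] at ht1 ht1'
      obtain ⟨⟨k1, k2⟩, k3, k4⟩ := ht1
      obtain ⟨⟨k1', k2'⟩, k3', k4'⟩ := ht1'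
      have hb : 1 ≤ t.2 := by
        rcases Nat.eq_zero_or_pos t.2 with h | h
        · rw [h, Nat.coprime_zero_right] at k4; omega
        · exact h
      have hb' : 1 ≤ t'.2 := by
        rcases Nat.eq_zero_or_pos t'.2 with h | h
        · rw [h, Nat.coprime_zero_right] at k4'; omega
        · exact h
      obtain ⟨p1, p2, p3, -⟩ := pr_spec hb k3 k4
      obtain ⟨q1, q2, q3, -⟩ := pr_spec hb' k3' k4'
      have h' : Run7.h69.UH.cf (pr (t.1, t.2)) = Run7.h69.UH.cf (pr (t'.1, t'.2)) := h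
      simp only [Run7.h69.UH.cf, Prod.mk.injEq] at h'
      obtain ⟨e1, e2⟩ := Run7.h69.UH.cf_inj (by exact_mod_cast p1) (by exact_mod_cast p2)
        (by exact_mod_cast q1) (by exact_mod_cast q2) h'.1 h'.2
      have e1' : (pr (t.1, t.2)).1 = (pr (t'.1, t'.2)).1 := by exact_mod_cast e1
      have e2' : (pr (t.1, t.2)).2 = (pr (t'.1, t'.2)).2 := by exact_mod_cast e2
      obtain ⟨e3, e4⟩ := pr_inj hb k3 hb' k3' e1' e2'
      exact Sigma.ext e3 (heq_of_eq e4)
  have h2 := Pool.Agent.W29.RT.card_SS T hT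
  have h3 : (T : ℝ) ^ 2 ≤ 24 * ((Pool.Agent.W29.RT.SS T).card : ℝ) := by exact_mod_cast h2
  have h4 : ((Pool.Agent.W29.RT.SS T).card : ℝ) ≤ ((Ex H).card : ℝ) := by exact_mod_cast h1
  linarith

/-- the number of the curves tends to infinity -/
theorem tendsto_ex : Tendsto (fun H : ℕ => (Ex H).card) atTop atTop := by
  rw [tendsto_atTop_atTop]
  intro b
  set T := max (24 * b) 5 with hT
  refine ⟨108 * (3 * T) ^ 6, fun H hH => ?_⟩
  have h3 := low T H (le_max_right _ _) hH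
  have h4 : ((24 * b : ℕ) : ℝ) ≤ T := by exact_mod_cast le_max_left _ _
  have h5 : (1 : ℝ) ≤ T := by exact_mod_cast (by omega : 1 ≤ T)
  push_cast at h4
  have h6 : (b : ℝ) ≤ ((Ex H).card : ℝ) := by nlinarith
  exact_mod_cast h6

/-- the sum of `4 ^ rank` over all curves with full rational 2-torsion is at most a constant times
the number of the curves with torsion group `Z/2 x Z/2`, if there is one -/
theorem height : ∃ C : ℝ, ∀ H : ℕ, (Ex H).card ≠ 0 → ∑ c ∈ Cv 2 H,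
    (4 : ℝ) ^ Module.finrank ℤ (Sh c.1 c.2).toAffine.Point ≤ C * (Ex H).card := by
  classical
  obtain ⟨C, hC, hb⟩ := Run7.h69.UH.box
  obtain ⟨k, hk⟩ : ∃ k : ℕ, k = 6 := ⟨_, rfl⟩
  obtain ⟨c, hc'⟩ : ∃ c : ℝ, c = 1 / 24 := ⟨_, rfl⟩
  have hc : 0 < c := by rw [hc']; norm_num
  obtain ⟨C1, hC1⟩ : ∃ C1 : ℕ, C1 = 108 * 729 := ⟨_, rfl⟩
  obtain ⟨T0, hT0⟩ : ∃ T0 : ℕ, T0 = 5 := ⟨_, rfl⟩
  have hlow : ∀ T H : ℕ, T0 ≤ T → C1 * T ^ k ≤ H → c * T ^ 2 ≤ ((Ex H).card : ℝ) := by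
    subst hk hc' hC1 hT0
    intro T H hT hH
    apply low T H hT
    calc 108 * (3 * T) ^ 6 = 108 * 729 * T ^ 6 := by ring
      _ ≤ H := hH
  obtain ⟨C0, hC0⟩ : ∃ C0 : ℕ, C0 = 16 := ⟨_, rfl⟩
  have hF' : ∀ H : ℕ, ∀ x ∈ Cv 2 H, (Run7.h69.UH.F x).1.natAbs ^ k ≤ C0 * H ∧
      (Run7.h69.UH.F x).2.natAbs ^ k ≤ C0 * H := by
    intro H x hx
    have h1 := Run7.h69.UH.F_spec hx
    unfold Cv at hx
    rw [mem_filter] at hx
    rw [hk, hC0]
    exact Run7.h69.UH.rel_size h1 hx.2.2.1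
  set D := C0 * C1 + 1 with hD
  have hD1 : 1 ≤ D := by omega
  -- the sum is at most `C T ^ 2`
  have hsum : ∀ H T : ℕ, 1 ≤ T → (∀ x ∈ Cv 2 H, (Run7.h69.UH.F x).1.natAbs ≤ T ∧
      (Run7.h69.UH.F x).2.natAbs ≤ T) →
      ∑ x ∈ Cv 2 H, (4 : ℝ) ^ Module.finrank ℤ (Sh x.1 x.2).toAffine.Point ≤ C * (T : ℝ) ^ 2 := by
    intro H T hT hx
    refine le_trans ?_ (hb T hT)
    have hinj : Set.InjOn Run7.h69.UH.F (Cv 2 H : Set (ℤ × ℤ)) := by
      intro x hx x' hx' h
      have r := Run7.h69.UH.F_spec (mem_coe.1 hx)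
      have r' := Run7.h69.UH.F_spec (mem_coe.1 hx')
      rw [← h] at r'
      exact Run7.h69.UH.rel_inj r r'
    have h3 : ∑ x ∈ Cv 2 H, (4 : ℝ) ^ Module.finrank ℤ (Sh x.1 x.2).toAffine.Point =
        ∑ t ∈ (Cv 2 H).image Run7.h69.UH.F, Run7.h69.UF.RR t := by
      rw [sum_image hinj]
      apply sum_congr rfl
      intro x hx'
      rw [Run7.h69.UH.rel_rank (Run7.h69.UH.F_spec hx')]
      rfl
    rw [h3]
    apply sum_le_sum_of_subset_of_nonneg
    · intro t ht
      obtain ⟨x, hx', rfl⟩ := mem_image.1 ht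
      obtain ⟨_, _, _, _, a1, a2, a3⟩ := Run7.h69.UH.F_spec hx'
      obtain ⟨b1, b2⟩ := hx x hx'
      unfold Run7.h69.UH.BT
      rw [mem_filter, mem_product, mem_Icc, mem_Icc]
      refine ⟨⟨⟨by omega, by omega⟩, ⟨by omega, by omega⟩⟩, ?_⟩
      unfold Run7.h69.UF.FF
      exact mul_ne_zero (mul_ne_zero a1 a2) (sub_ne_zero.2 a3)
    · intro t _ _
      exact Run7.h69.UF.RR_nonneg t
  refine ⟨C * ((D * (T0 + 1) : ℕ) : ℝ) ^ 2 + C * (2 * (D : ℝ)) ^ 2 / c, fun H hK0 => ?_⟩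
  set K := (Ex H).card with hK
  have hK1 : (1 : ℝ) ≤ K := by exact_mod_cast Nat.one_le_iff_ne_zero.2 hK0
  have hq0 : 0 ≤ C * (2 * (D : ℝ)) ^ 2 / c := by positivity
  have hr0 : 0 ≤ C * ((D * (T0 + 1) : ℕ) : ℝ) ^ 2 := by positivity
  set T := Nat.findGreatest (fun t => t ^ k ≤ C0 * H) (C0 * H) with hT
  have hle : ∀ x : ℕ, x ^ k ≤ C0 * H → x ≤ T := by
    intro x hx
    apply Nat.le_findGreatest
    · exact (Nat.le_self_pow (by omega) x).trans hx
    · exact hx
  have hTk : T ^ k ≤ C0 * H := by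
    have : (fun t => t ^ k ≤ C0 * H) T :=
      Nat.findGreatest_spec (P := fun t => t ^ k ≤ C0 * H) (Nat.zero_le _)
        (by rw [zero_pow (by omega)]; exact Nat.zero_le _)
    exact this
  have hxT : ∀ x ∈ Cv 2 H, (Run7.h69.UH.F x).1.natAbs ≤ T ∧ (Run7.h69.UH.F x).2.natAbs ≤ T :=
    fun x hx => ⟨hle _ (hF' H x hx).1, hle _ (hF' H x hx).2⟩
  rcases Nat.lt_or_ge T (D * (T0 + 1)) with hlt | hge
  · have h1 := hsum H (D * (T0 + 1)) (Nat.mul_pos hD1 (Nat.succ_pos _)) fun x hx =>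
      ⟨(hxT x hx).1.trans hlt.le, (hxT x hx).2.trans hlt.le⟩
    calc _ ≤ C * ((D * (T0 + 1) : ℕ) : ℝ) ^ 2 := h1
      _ ≤ C * ((D * (T0 + 1) : ℕ) : ℝ) ^ 2 * K := le_mul_of_one_le_right hr0 hK1
      _ ≤ _ := by
        apply mul_le_mul_of_nonneg_right _ (by linarith)
        linarith
  · have hT1 : 1 ≤ T := (Nat.mul_pos hD1 (Nat.succ_pos _)).trans_le hge
    have h1 := hsum H T hT1 hxT
    set T' := T / D with hT'
    have hT'0 : T0 + 1 ≤ T' := by
      rw [hT', Nat.le_div_iff_mul_le hD1, mul_comm]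
      exact hge
    have h2 : T' * D ≤ T := Nat.div_mul_le_self T D
    have h3 : C1 * T' ^ k ≤ H := by
      have a1 : (T' * D) ^ k ≤ C0 * H := (Nat.pow_le_pow_left h2 k).trans hTk
      rw [mul_pow] at a1
      have a2 : D ≤ D ^ k := Nat.le_self_pow (by omega) D
      have a3 : T' ^ k * (C0 * C1) ≤ C0 * H :=
        (Nat.mul_le_mul_left _ (by omega : C0 * C1 ≤ D ^ k)).trans a1
      have a4 : C0 * (C1 * T' ^ k) ≤ C0 * H := by
        calc C0 * (C1 * T' ^ k) = T' ^ k * (C0 * C1) := by ring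
          _ ≤ _ := a3
      exact Nat.le_of_mul_le_mul_left a4 (by omega)
    have h4 := hlow T' H (by omega) h3
    have h5 : T ≤ 2 * D * T' := by
      have a1 : T < D * (T' + 1) := by
        rw [mul_comm]
        exact Nat.lt_mul_of_div_lt (by rw [← hT']; omega) hD1
      have a2 : D * (T' + 1) ≤ 2 * D * T' := by nlinarith
      omega
    have h6 : (T : ℝ) ≤ 2 * D * T' := by exact_mod_cast h5
    calc _ ≤ C * (T : ℝ) ^ 2 := h1
      _ ≤ C * (2 * D * T') ^ 2 := by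
        apply mul_le_mul_of_nonneg_left _ hC
        exact pow_le_pow_left₀ (Nat.cast_nonneg T) h6 2
      _ = C * (2 * (D : ℝ)) ^ 2 / c * (c * (T' : ℝ) ^ 2) := by
        field_simp
      _ ≤ C * (2 * (D : ℝ)) ^ 2 / c * K := mul_le_mul_of_nonneg_left h4 hq0
      _ ≤ _ := by
        apply mul_le_mul_of_nonneg_right _ (by linarith)
        linarith

end Run7.h438.TT
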