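import Mathlib

/-!
# Rational points of the generic fibre give rational points of the special fibres
-/

set_option autoImplicit false

namespace Run7.h438.SI

open Polynomial

/-- A rational point of the generic fibre of `t y ^ q = g(x)` gives a rational point of all fibres over
the points of a nonempty open subset, with values in any field. -/
theorem spread_rational (q : ℕ) (S Q : Type*) [CommRing S] [IsDomain S] [Field Q] [Algebra S Q]
    [IsFractionRing S Q] (t : S) (g : S[X])
    (hP : (∃ x y : Q, algebraMap S Q t * y ^ q = (g.map (algebraMap S Q)).eval x) ∨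
      ∃ u : Q, algebraMap S Q t * u ^ q = 1) :
    ∃ z : S, z ≠ 0 ∧ ∀ (L : Type) [Field L] (ev : S →+* L), ev z ≠ 0 →
      (∃ x y : L, ev t * y ^ q = (g.map ev).eval x) ∨ ∃ u : L, ev t * u ^ q = 1 := by
  have hinj : Function.Injective (algebraMap S Q) := IsFractionRing.injective S Q
  rcases hP with ⟨x, y, hxy⟩ | ⟨u, hu⟩
  · obtain ⟨a, b, hb, rfl⟩ := IsFractionRing.div_surjective (A := S) x
    obtain ⟨a', b', hb', rfl⟩ := IsFractionRing.div_surjective (A := S) y
    have hb0 : b ≠ 0 := nonZeroDivisors.ne_zero hb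
    have hb0' : b' ≠ 0 := nonZeroDivisors.ne_zero hb'
    have hbQ : algebraMap S Q b ≠ 0 := by
      rw [Ne, IsFractionRing.to_map_eq_zero_iff]; exact hb0
    have hbQ' : algebraMap S Q b' ≠ 0 := by
      rw [Ne, IsFractionRing.to_map_eq_zero_iff]; exact hb0'
    -- the identity in `S`
    have hS : t * a' ^ q * b ^ g.natDegree = b' ^ q * (g.scaleRoots b).eval a := by
      apply hinj
      have h1 : algebraMap S Q ((g.scaleRoots b).eval a) =
          algebraMap S Q b ^ g.natDegree * (g.map (algebraMap S Q)).eval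
            (algebraMap S Q a / algebraMap S Q b) := by
        rw [eval_map, ← scaleRoots_eval₂_mul, mul_div_cancel₀ _ hbQ, eval₂_at_apply]
      rw [map_mul, map_mul, map_mul, h1, ← hxy, map_pow, map_pow, map_pow, div_pow]
      field_simp
    refine ⟨b * b', mul_ne_zero hb0 hb0', fun L _ ev hev => Or.inl ?_⟩
    have hbL : ev b ≠ 0 := fun h => hev (by rw [map_mul, h, zero_mul])
    have hbL' : ev b' ≠ 0 := fun h => hev (by rw [map_mul, h, mul_zero])
    refine ⟨ev a / ev b, ev a' / ev b', ?_⟩
    have h2 : ev ((g.scaleRoots b).eval a) =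
        ev b ^ g.natDegree * (g.map ev).eval (ev a / ev b) := by
      rw [eval_map, ← scaleRoots_eval₂_mul, mul_div_cancel₀ _ hbL, eval₂_at_apply]
    have h3 := congrArg ev hS
    rw [map_mul, map_mul, map_mul, h2, map_pow, map_pow, map_pow] at h3
    rw [div_pow]
    have h4 : ev b ^ g.natDegree ≠ 0 := pow_ne_zero _ hbL
    have h5 : ev b' ^ q ≠ 0 := pow_ne_zero _ hbL'
    field_simp
    apply mul_left_cancel₀ h4
    rw [← mul_assoc, ← mul_assoc]
    linear_combination h3
  · obtain ⟨a, b, hb, rfl⟩ := IsFractionRing.div_surjective (A := S) u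
    have hb0 : b ≠ 0 := nonZeroDivisors.ne_zero hb
    have hbQ : algebraMap S Q b ≠ 0 := by
      rw [Ne, IsFractionRing.to_map_eq_zero_iff]; exact hb0
    have hS : t * a ^ q = b ^ q := by
      apply hinj
      rw [map_mul, map_pow, map_pow]
      rw [div_pow] at hu
      field_simp at hu
      exact hu
    refine ⟨b, hb0, fun L _ ev hev => Or.inr ⟨ev a / ev b, ?_⟩⟩
    have h3 := congrArg ev hS
    rw [map_mul, map_pow, map_pow] at h3
    rw [div_pow]
    field_simp
    exact h3

end Run7.h438.SI
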